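import Pool.Agent.K9h29.SP.Cond

set_option autoImplicit false

/-!
# Zeros on the line: many characters of a modulus
-/

namespace Pool.Agent.K9h29.SP

open Complex Finset DirichletCharacter
open Pool.Agent.Y671.GL
open Pool.Agent.K9h29.ZD (S_SCU tl TwF LD)

variable {k N : ℕ} {ps lam : ℕ → ℂ} {P0 : ℕ} {th Cd : ℝ} {L : (q : ℕ) → DirichletCharacter ℂ q → ℂ → ℂ}

/-- **Many zeros on the line, for a set of characters of positive density.** -/
theorem many_all (h0 : S_SCU) (hD : LD k N ps lam L) (hd : HD lam P0 th Cd) (ε : ℝ) (hε : 0 < ε) :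
    ∃ c T1 : ℝ, 0 < c ∧ 10 ≤ T1 ∧ ∀ (q : ℕ) [NeZero q], q.Coprime N →
    ∀ G : Finset (DirichletCharacter ℂ q), ε * q.totient ≤ G.card → ∀ (T : ℝ), T1 ≤ T →
    ∀ Z : (d : ℕ) → DirichletCharacter ℂ d → Finset ℝ,
    (∀ (d : ℕ) (ψ : DirichletCharacter ℂ d), d ∣ q → ψ.IsPrimitive →
      ∀ u : ℝ, T < u → u < 2 * T → L d ψ (1 / 2 + u * I) = 0 → u ∈ Z d ψ) →
    c * G.card * T * Real.log (q * T) ≤ ∑ χ ∈ G, ((Z χ.conductor χ.primitiveCharacter).card : ℝ) := by
  classical
  obtain ⟨ρ, hρ⟩ : ∃ ρ : ℝ, ρ = Real.sqrt (ε / 12) := ⟨_, rfl⟩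
  have hρ0 : 0 < ρ := by rw [hρ]; positivity
  have hρ2 : ρ ^ 2 = ε / 12 := by rw [hρ, Real.sq_sqrt (by positivity)]
  obtain ⟨c, T1, hc, hT1, hmany⟩ := many h0 hD hd ρ hρ0
  obtain ⟨C, hC, hsm⟩ := small_cond
  refine ⟨c / 4, max T1 ((4 * C / ε) ^ 2), by positivity, hT1.trans (le_max_left _ _), ?_⟩
  intro q _ hco G hG T hT Z hZ
  have hTT1 : T1 ≤ T := (le_max_left _ _).trans hT
  have hT10 : 10 ≤ T := hT1.trans hTT1
  have hT0 : 0 < T := by linarith
  have hq : 1 ≤ q := Nat.one_le_iff_ne_zero.2 (NeZero.ne q)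
  have hq0 : (0 : ℝ) < q := by exact_mod_cast hq
  have hq1 : (1 : ℝ) ≤ q := by exact_mod_cast hq
  have hsT : 4 * C / ε ≤ Real.sqrt T := by
    apply Real.le_sqrt_of_sq_le
    exact (le_max_right _ _).trans hT
  have hsT0 : 0 < Real.sqrt T := Real.sqrt_pos.2 hT0
  -- the fibres
  obtain ⟨n, hn⟩ : ∃ n : ℕ → ℝ, n = fun d => ((G.filter (fun χ => χ.conductor = d)).card : ℝ) := ⟨_, rfl⟩
  have hnv : ∀ d, n d = ((G.filter (fun χ => χ.conductor = d)).card : ℝ) := fun d => by rw [hn]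
  have hn0 : ∀ d, 0 ≤ n d := fun d => by rw [hnv]; positivity
  have hmaps : ∀ χ ∈ G, χ.conductor ∈ q.divisors := fun χ _ =>
    Nat.mem_divisors.2 ⟨χ.conductor_dvd_level, by omega⟩
  have hGn : (G.card : ℝ) = ∑ d ∈ q.divisors, n d := by
    rw [Finset.card_eq_sum_card_fiberwise hmaps]
    push_cast
    exact Finset.sum_congr rfl fun d _ => (hnv d).symm
  obtain ⟨z, hz⟩ : ∃ z : ℕ → ℝ, z = fun d => ∑ χ ∈ G.filter (fun χ => χ.conductor = d),
      ((Z χ.conductor χ.primitiveCharacter).card : ℝ) := ⟨_, rfl⟩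
  have hzv : ∀ d, z d = ∑ χ ∈ G.filter (fun χ => χ.conductor = d),
      ((Z χ.conductor χ.primitiveCharacter).card : ℝ) := fun d => by rw [hz]
  have hz0 : ∀ d, 0 ≤ z d := fun d => by rw [hzv]; exact Finset.sum_nonneg fun _ _ => Nat.cast_nonneg _
  have hGz : ∑ χ ∈ G, ((Z χ.conductor χ.primitiveCharacter).card : ℝ) = ∑ d ∈ q.divisors, z d := by
    rw [← Finset.sum_fiberwise_of_maps_to hmaps]
    exact Finset.sum_congr rfl fun d _ => (hzv d).symm
  have hlq : 0 ≤ Real.log (q * T) := Real.log_nonneg (by nlinarith)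
  -- one divisor
  have hone : ∀ d ∈ q.divisors, c / 2 * T * Real.log (q * T) *
      (n d - ρ ^ 2 * gg d - (if (d : ℝ) ^ 2 * T < q then (d.totient : ℝ) else 0)) ≤ z d := by
    intro d hdq
    have hdvd : d ∣ q := Nat.dvd_of_mem_divisors hdq
    have hd0 : d ≠ 0 := fun h => by
      rw [h] at hdvd
      exact absurd (Nat.eq_zero_of_zero_dvd hdvd) (by omega)
    haveI : NeZero d := ⟨hd0⟩
    have hd1 : (1 : ℝ) ≤ d := by exact_mod_cast Nat.one_le_iff_ne_zero.2 hd0
    have hK : 0 ≤ c / 2 * T * Real.log (q * T) := by positivity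
    have hgg : 0 ≤ ρ ^ 2 * gg d := mul_nonneg (by positivity) (gg_nonneg d)
    have hcn : n d = (((Finset.univ : Finset (DirichletCharacter ℂ d)).filter
        (fun ψ => ψ.IsPrimitive ∧ changeLevel hdvd ψ ∈ G)).card : ℝ) := by
      rw [hnv]
      have h1 := fib G hdvd (fun _ _ => (1 : ℝ))
      simp only [Finset.sum_const, nsmul_eq_mul, mul_one] at h1
      exact h1
    have hnφ : n d ≤ d.totient := by
      rw [hcn]
      exact Pool.Agent.K9h29.ZD.card_le _
    by_cases hs : (d : ℝ) ^ 2 * T < q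
    · rw [if_pos hs]
      have : n d - ρ ^ 2 * gg d - d.totient ≤ 0 := by linarith
      exact (mul_nonpos_of_nonneg_of_nonpos hK this).trans (hz0 d)
    · rw [if_neg hs, sub_zero]
      by_cases hg : ρ ^ 2 * gg d ≤ n d
      · have h1 := hmany d (Nat.Coprime.coprime_dvd_left hdvd hco)
          ((Finset.univ : Finset (DirichletCharacter ℂ d)).filter (fun ψ => ψ.IsPrimitive ∧ changeLevel hdvd ψ ∈ G))
          (fun χ hχ => (Finset.mem_filter.1 hχ).2.1) T hTT1 (by rw [← hcn]; exact hg) (Z d)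
          (fun χ hχ u h1 h2 h3 => hZ d χ hdvd (Finset.mem_filter.1 hχ).2.1 u h1 h2 h3)
        rw [← hcn, ← fib G hdvd (fun d ψ => ((Z d ψ).card : ℝ)), ← hzv] at h1
        refine le_trans ?_ h1
        have hlog : Real.log (q * T) ≤ 2 * Real.log (d * T) := by
          have e1 : 2 * Real.log (d * T) = Real.log ((d * T) ^ 2) := by
            rw [Real.log_pow]; push_cast; ring
          rw [e1]
          apply Real.log_le_log (by positivity)
          push Not at hs
          calc q * T ≤ ((d : ℝ) ^ 2 * T) * T := by gcongr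
            _ = _ := by ring
        have h2 : n d - ρ ^ 2 * gg d ≤ n d := by linarith
        calc c / 2 * T * Real.log (q * T) * (n d - ρ ^ 2 * gg d) ≤ c / 2 * T * Real.log (q * T) * n d := by gcongr
          _ ≤ c / 2 * T * (2 * Real.log (d * T)) * n d := by
              have := hn0 d
              gcongr
          _ = _ := by ring
      · push Not at hg
        have : n d - ρ ^ 2 * gg d ≤ 0 := by linarith
        exact (mul_nonpos_of_nonneg_of_nonpos hK this).trans (hz0 d)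
  have hsum := Finset.sum_le_sum hone
  rw [← Finset.mul_sum, Finset.sum_sub_distrib, Finset.sum_sub_distrib, ← Finset.mul_sum, ← hGn, ← hGz,
    ← Finset.sum_filter] at hsum
  refine le_trans ?_ hsum
  have h1 := gg_sum q (by omega)
  have h2 := hsm q hq T hT0
  have h3 : C * q.totient / Real.sqrt T ≤ ε / 4 * q.totient := by
    rw [div_le_iff₀ hsT0]
    have h4 : C ≤ ε / 4 * Real.sqrt T := by
      rw [div_le_iff₀ hε] at hsT
      linarith
    have hφ : (0 : ℝ) ≤ q.totient := Nat.cast_nonneg _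
    nlinarith
  have h5 : ρ ^ 2 * ∑ d ∈ q.divisors, gg d ≤ ε / 4 * q.totient := by
    calc ρ ^ 2 * ∑ d ∈ q.divisors, gg d ≤ ρ ^ 2 * (3 * q.totient) := by gcongr
      _ = _ := by rw [hρ2]; ring
  have h6 : (G.card : ℝ) / 2 ≤ (G.card : ℝ) - ρ ^ 2 * ∑ d ∈ q.divisors, gg d -
      ∑ d ∈ q.divisors.filter (fun d : ℕ => (d : ℝ) ^ 2 * T < q), (d.totient : ℝ) := by linarith
  calc c / 4 * G.card * T * Real.log (q * T) = c / 2 * T * Real.log (q * T) * ((G.card : ℝ) / 2) := by ring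
    _ ≤ _ := by gcongr

end Pool.Agent.K9h29.SP
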