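import Pool.Agent.K9h29.SP.Bm
import Pool.Agent.K9h29.ZD.QRyp
import Pool.Agent.Y285.GL.RTA

set_option autoImplicit false

/-!
# One dyadic block of the ray
-/

namespace Pool.Agent.K9h29.SP

open Complex Finset MeasureTheory
open scoped ComplexConjugate
open Pool.Agent.Y671.GL Pool.Agent.Y412.GLB Pool.Agent.Y412.GLP
open Pool.Agent.K9h29.ZD (S_SCU par_cont)
open Pool.Agent.H24R2.DZ (ray)

variable {k N : ℕ} {ps lam : ℕ → ℂ}

theorem Th_diff {q : ℕ} [NeZero q] {C : ℕ → ℂ} (hC : PG C) (B : ℕ → ℂ) (y : ℕ) (j : ZMod q) {z : ℂ} (hz : 0 < z.re) :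
    DifferentiableAt ℂ (Th C B y j) z := by
  unfold Th
  refine DifferentiableAt.fun_sum fun ν hν => ?_
  have hν0 : (0 : ℝ) < ν := by exact_mod_cast (mem_Icc.1 hν).1
  have h1 : 0 < (z / ν).re := by
    rw [show z / (ν : ℂ) = z / ((ν : ℝ) : ℂ) by push_cast; rfl, Complex.div_ofReal_re]
    positivity
  refine DifferentiableAt.const_mul ?_ _
  exact DifferentiableAt.fun_comp' (g := Pj C (j * (ν : ZMod q)⁻¹)) z ((pg_ce hC _).diff h1)
    (differentiableAt_id.div_const _)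

theorem TD_mono {q : ℕ} [NeZero q] {C B : ℕ → ℂ} (hC : PG C) (hC0 : C 0 = 0)
    (hB : ∀ ν, ¬ ν.Coprime q → B ν = 0) {y : ℕ}
    {v0 v : ℝ} (hv0 : 0 < v0) (hv : v0 ≤ v) : TD C B y v ≤ TD C B y v0 := by
  have hQ := Qy_pos y
  unfold TD
  refine (fU_int hC hC0 hB (lt_of_lt_of_le hv0 hv)).1.tsum_le_tsum (fun n => ?_) (fU_int hC hC0 hB hv0).1
  apply mul_le_mul_of_nonneg_left _ (by positivity)
  apply Real.exp_le_exp.2
  have : (0 : ℝ) ≤ n := Nat.cast_nonneg n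
  have h2 : v0 / Qy y ≤ v / Qy y := by gcongr
  nlinarith

theorem TD_nonneg (C B : ℕ → ℂ) (y : ℕ) (v : ℝ) : 0 ≤ TD C B y v := tsum_nonneg fun n => by positivity

theorem blockU (h0 : S_SCU) (hF : Frm k N ps lam) : ∃ c C A : ℝ, 0 < c ∧ c ≤ 1 / 2 ∧ 0 < C ∧ 1 ≤ A ∧
    ∀ (q : ℕ) [NeZero q] (T X : ℝ) (y : ℕ) (b1 b2 : ℕ → ℂ), 10 ≤ T → 0 < X → 1 ≤ y → b2 0 = 0 →
    (∀ ν, ¬ ν.Coprime q → b2 ν = 0) →
    ∑ j ∈ (univ : Finset (ZMod q)).filter (fun z => IsUnit z),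
      ∫ x in X..(2 * X), ‖Th (sc k y lam b1) (Bw k b2) y j (ray (1 / T) x)‖ ^ 2 ≤
      C * X * (q.totient * TD (sc k y lam b1) (Bw k b2) y (X / (4 * T)) +
        (y : ℝ) ^ A * (q.divisors.card : ℝ) * (1 / X) * (X / T) ^ (c - k) * (∑ h ∈ Icc 1 y, ‖b1 h‖) ^ 2 *
          (∑ h ∈ Icc 1 y, ‖b2 h‖) ^ 2) := by
  obtain ⟨C2, hC2, hR⟩ := Pool.Agent.Y285.GL.rta
  obtain ⟨c, C1, A, hc, hc2, hC1, hA, hJ⟩ := Jbd h0 hF
  have hk : (1 : ℝ) ≤ k := by exact_mod_cast hF.k_pos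
  refine ⟨c, 48 * C2 * (2 * Real.pi + 2 * C1 * 4 ^ (k : ℝ)), A + 2, hc, hc2, by positivity, by linarith, ?_⟩
  intro q _ T X y b1 b2 hT hX hy hb20 hb2
  have hy' : (1 : ℝ) ≤ y := by exact_mod_cast hy
  have hT0 : 0 < T := by linarith
  obtain ⟨δ, hδ⟩ : ∃ δ : ℝ, δ = 1 / T := ⟨_, rfl⟩
  have hδ0 : 0 < δ := by rw [hδ]; positivity
  have hδ1 : δ ≤ 1 / 10 := by
    rw [hδ]
    exact one_div_le_one_div_of_le (by norm_num) hT
  rw [← hδ]
  obtain ⟨Cc, hCc⟩ : ∃ Cc : ℕ → ℂ, Cc = sc k y lam b1 := ⟨_, rfl⟩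
  obtain ⟨B, hB⟩ : ∃ B : ℕ → ℂ, B = Bw k b2 := ⟨_, rfl⟩
  have hpg : PG Cc := by rw [hCc]; exact pg_sc hF y b1
  have hCc0 : Cc 0 = 0 := by rw [hCc]; exact sc_zero hF y b1
  have hBu : ∀ ν, ¬ ν.Coprime q → B ν = 0 := fun ν hν => by rw [hB]; unfold Bw; rw [hb2 ν hν, zero_mul]
  obtain ⟨S1, hS1⟩ : ∃ S1 : ℝ, S1 = ∑ h ∈ Icc 1 y, ‖b1 h‖ := ⟨_, rfl⟩
  obtain ⟨S2, hS2⟩ : ∃ S2 : ℝ, S2 = ∑ h ∈ Icc 1 y, ‖b2 h‖ := ⟨_, rfl⟩
  have hBS : ∑ h ∈ Icc 1 y, ‖B h‖ ≤ S2 := by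
    rw [hB, hS2]
    exact sum_le_sum fun h _ => Bw_le k b2 hb20 h
  have hBS0 : 0 ≤ ∑ h ∈ Icc 1 y, ‖B h‖ := sum_nonneg fun _ _ => norm_nonneg _
  rw [← hCc, ← hB, ← hS1, ← hS2]
  have hJ' := fun v ν ν' r => hJ y b1 v ν ν' r hy
  simp only [← hCc, ← hS1] at hJ'
  clear hJ hS1 hS2
  -- the parameters
  obtain ⟨v0, hv0⟩ : ∃ v0 : ℝ, v0 = δ * X / 4 := ⟨_, rfl⟩
  have hv00 : 0 < v0 := by rw [hv0]; positivity
  have hv0e : X / (4 * T) = v0 := by rw [hv0, hδ]; field_simp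
  rw [hv0e]
  obtain ⟨Jb, hJb⟩ : ∃ Jb : ℝ, Jb = C1 * (y : ℝ) ^ A * (4 ^ (k : ℝ) * (X / T) ^ (c - k)) * S1 ^ 2 := ⟨_, rfl⟩
  have hJb0 : 0 ≤ Jb := by rw [hJb]; positivity
  obtain ⟨W, hW⟩ : ∃ W : ℝ, W = 12 * X * (2 * Real.pi * q.totient * TD Cc B y v0 +
    S2 ^ 2 * (2 * (y ^ 2 / X) * (q.divisors.card : ℝ) * Jb)) := ⟨_, rfl⟩
  have hinner : ∀ v : ℝ, δ * X / 4 ≤ v → v ≤ 4 * δ * X →
      ∫ u in (X / 4)..(4 * X), ∑ j ∈ (univ : Finset (ZMod q)).filter (fun z => IsUnit z),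
        ‖Th Cc B y j (v + u * I)‖ ^ 2 ≤ W := by
    intro v hv hv2
    have hvp : 0 < v := lt_of_lt_of_le (by positivity) hv
    have h1 := thA (q := q) hpg hCc0 hBu (y := y) hvp hX hJb0 (by
      intro ν hν ν' hν' r hr hrX
      have h2 := hJ' v ν ν' r hvp hν hν' hr (by
        intro hv1
        have h3 : v ^ 2 ≤ X := by
          have h4 : v ≤ 4 * X / T := by
            have : 4 * δ * X = 4 * X / T := by rw [hδ]; field_simp
            rwa [this] at hv2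
          have h5 : 4 * X / T ≤ X := by
            rw [div_le_iff₀ hT0]
            nlinarith
          nlinarith
        calc |(r : ℝ)| * v ^ 2 ≤ |(r : ℝ)| * X := by gcongr
          _ ≤ _ := hrX)
      refine h2.trans ?_
      rw [hJb]
      have h6 : v ^ (-(k : ℝ)) * (min 1 v) ^ c ≤ 4 ^ (k : ℝ) * (X / T) ^ (c - k) := by
        have h7 : (min 1 v) ^ c ≤ v ^ c := Real.rpow_le_rpow (le_min zero_le_one hvp.le) (min_le_right _ _) hc.le
        have h8 : v ^ (-(k : ℝ)) * v ^ c = v ^ (c - k) := by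
          rw [← Real.rpow_add hvp]
          congr 1
          ring
        have h9 : v ^ (c - k) ≤ (X / T / 4) ^ (c - k) := by
          apply Real.rpow_le_rpow_of_nonpos (by positivity) _ (by linarith)
          have : X / T / 4 = δ * X / 4 := by rw [hδ]; ring
          rw [this]
          exact hv
        have h10 : (X / T / 4) ^ (c - k) = 4 ^ ((k : ℝ) - c) * (X / T) ^ (c - k) := by
          rw [Real.div_rpow (by positivity) (by norm_num), div_eq_mul_inv, ← Real.rpow_neg (by norm_num), mul_comm]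
          congr 2
          ring
        have h11 : (4 : ℝ) ^ ((k : ℝ) - c) ≤ 4 ^ (k : ℝ) := Real.rpow_le_rpow_of_exponent_le (by norm_num) (by linarith)
        have h12 : 0 ≤ (X / T) ^ (c - k) := by positivity
        calc v ^ (-(k : ℝ)) * (min 1 v) ^ c ≤ v ^ (-(k : ℝ)) * v ^ c := by gcongr
          _ = v ^ (c - k) := h8
          _ ≤ 4 ^ ((k : ℝ) - c) * (X / T) ^ (c - k) := h9.trans h10.le
          _ ≤ _ := by gcongr
      calc C1 * (y : ℝ) ^ A * v ^ (-(k : ℝ)) * (min 1 v) ^ c * S1 ^ 2 =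
          C1 * (y : ℝ) ^ A * (v ^ (-(k : ℝ)) * (min 1 v) ^ c) * S1 ^ 2 := by ring
        _ ≤ _ := by gcongr)
    refine h1.trans ?_
    rw [hW]
    have h13 : TD Cc B y v ≤ TD Cc B y v0 := TD_mono hpg hCc0 hBu hv00 (by rw [hv0]; exact hv)
    have h14 : (∑ ν ∈ Icc 1 y, ‖B ν‖) ^ 2 ≤ S2 ^ 2 := pow_le_pow_left₀ hBS0 hBS 2
    have h15 : 0 ≤ 2 * ((y : ℝ) ^ 2 / X) * (q.divisors.card : ℝ) * Jb := by positivity
    gcongr
  -- the area
  have hΦ : ∀ j : ZMod q, ∃ Φ : ℝ → ℝ, Continuous Φ ∧ ∀ v : ℝ, v0 ≤ v → Φ v =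
      ∫ u in (X / 4)..(4 * X), ‖Th Cc B y j (v + u * I)‖ ^ 2 := fun j =>
    par_cont (Th Cc B y j) (fun z hz => (Th_diff hpg B y j hz).continuousAt) hv00 _ _
  choose Φ hΦc hΦe using hΦ
  have hbnd : v0 ≤ 4 * δ * X := by
    rw [hv0]
    have : 0 < δ * X := by positivity
    linarith
  have h16 : ∀ j ∈ (univ : Finset (ZMod q)).filter (fun z => IsUnit z),
      ∫ x in X..(2 * X), ‖Th Cc B y j (ray δ x)‖ ^ 2 ≤ C2 / (δ * X) * ∫ v in v0..(4 * δ * X), Φ j v := by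
    intro j _
    have h17 := hR (Th Cc B y j) δ X hδ0 hδ1 hX (fun z hz => Th_diff hpg B y j hz)
    rw [← hv0] at h17
    refine h17.trans (le_of_eq ?_)
    congr 1
    refine intervalIntegral.integral_congr fun v hv => ?_
    rw [Set.uIcc_of_le hbnd] at hv
    rw [hΦe j v hv.1]
  refine (sum_le_sum h16).trans ?_
  rw [← mul_sum, ← intervalIntegral.integral_finsetSum (fun j _ => (hΦc j).intervalIntegrable _ _)]
  have h18 : ∫ v in v0..(4 * δ * X), ∑ j ∈ (univ : Finset (ZMod q)).filter (fun z => IsUnit z), Φ j v ≤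
      ∫ _v in v0..(4 * δ * X), W := by
    apply intervalIntegral.integral_mono_on hbnd
    · exact (continuous_finsetSum _ fun j _ => hΦc j).intervalIntegrable _ _
    · exact continuous_const.intervalIntegrable _ _
    · intro v hv
      have h19 : ∑ j ∈ (univ : Finset (ZMod q)).filter (fun z => IsUnit z), Φ j v =
          ∫ u in (X / 4)..(4 * X), ∑ j ∈ (univ : Finset (ZMod q)).filter (fun z => IsUnit z),
            ‖Th Cc B y j (v + u * I)‖ ^ 2 := by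
        have hvp : 0 < v := lt_of_lt_of_le hv00 hv.1
        have hcont : ∀ j : ZMod q, Continuous fun u : ℝ => ‖Th Cc B y j (v + u * I)‖ ^ 2 := by
          intro j
          have := cont_Th hpg B y j hvp 1
          simp only [Complex.ofReal_one, one_mul] at this
          exact this.norm.pow 2
        rw [intervalIntegral.integral_finsetSum (fun j _ => (hcont j).intervalIntegrable _ _)]
        exact sum_congr rfl fun j _ => hΦe j v hv.1
      rw [h19]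
      exact hinner v (by rw [← hv0]; exact hv.1) hv.2
  rw [intervalIntegral.integral_const, smul_eq_mul] at h18
  have hW0 : 0 ≤ W := by
    rw [hW]
    have := TD_nonneg Cc B y v0
    positivity
  have h20 : (4 * δ * X - v0) * W ≤ 4 * δ * X * W := by
    apply mul_le_mul_of_nonneg_right _ hW0
    linarith
  calc C2 / (δ * X) * ∫ v in v0..(4 * δ * X), ∑ j ∈ (univ : Finset (ZMod q)).filter (fun z => IsUnit z), Φ j v ≤
      C2 / (δ * X) * (4 * δ * X * W) := by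
        apply mul_le_mul_of_nonneg_left (h18.trans h20) (by positivity)
    _ = 4 * C2 * W := by field_simp
    _ ≤ _ := by
        rw [hW, hJb]
        have h21 : (y : ℝ) ^ (A + 2) = (y : ℝ) ^ A * (y : ℝ) ^ 2 := by
          rw [Real.rpow_add (by linarith), Real.rpow_two]
        rw [h21]
        obtain ⟨τ, hτ⟩ : ∃ τ : ℝ, τ = (q.divisors.card : ℝ) := ⟨_, rfl⟩
        have hτ0 : 0 ≤ τ := by rw [hτ]; exact Nat.cast_nonneg _
        rw [← hτ]
        obtain ⟨D, hD⟩ : ∃ D : ℝ, D = TD Cc B y v0 := ⟨_, rfl⟩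
        have hD0 : 0 ≤ D := by rw [hD]; exact TD_nonneg _ _ _ _
        rw [← hD]
        obtain ⟨G, hG⟩ : ∃ G : ℝ, G = (X / T) ^ (c - k) := ⟨_, rfl⟩
        have hG0 : 0 ≤ G := by rw [hG]; positivity
        rw [← hG]
        obtain ⟨F, hFd⟩ : ∃ F : ℝ, F = (4 : ℝ) ^ (k : ℝ) := ⟨_, rfl⟩
        have hF0 : 0 ≤ F := by rw [hFd]; positivity
        rw [← hFd]
        obtain ⟨Y, hY⟩ : ∃ Y : ℝ, Y = (y : ℝ) ^ A := ⟨_, rfl⟩
        have hY0 : 0 ≤ Y := by rw [hY]; positivity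
        rw [← hY]
        have e1 : 4 * C2 * (12 * X * (2 * Real.pi * (q.totient : ℝ) * D + S2 ^ 2 * (2 * ((y : ℝ) ^ 2 / X) * τ *
            (C1 * Y * (F * G) * S1 ^ 2)))) = 48 * C2 * (2 * Real.pi) * X * ((q.totient : ℝ) * D) +
            48 * C2 * (2 * C1 * F) * X * (Y * (y : ℝ) ^ 2 * τ * (1 / X) * G * S1 ^ 2 * S2 ^ 2) := by ring
        rw [e1]
        have e2 : 48 * C2 * (2 * Real.pi + 2 * C1 * F) * X * ((q.totient : ℝ) * D +
            Y * (y : ℝ) ^ 2 * τ * (1 / X) * G * S1 ^ 2 * S2 ^ 2) =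
            (48 * C2 * (2 * Real.pi) * X * ((q.totient : ℝ) * D) +
            48 * C2 * (2 * C1 * F) * X * (Y * (y : ℝ) ^ 2 * τ * (1 / X) * G * S1 ^ 2 * S2 ^ 2)) +
            (48 * C2 * (2 * C1 * F) * X * ((q.totient : ℝ) * D) +
            48 * C2 * (2 * Real.pi) * X * (Y * (y : ℝ) ^ 2 * τ * (1 / X) * G * S1 ^ 2 * S2 ^ 2)) := by ring
        rw [e2]
        have e3 : 0 ≤ 48 * C2 * (2 * C1 * F) * X * ((q.totient : ℝ) * D) +
            48 * C2 * (2 * Real.pi) * X * (Y * (y : ℝ) ^ 2 * τ * (1 / X) * G * S1 ^ 2 * S2 ^ 2) := by positivity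
        linarith

end Pool.Agent.K9h29.SP
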