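import Pool.Agent.K9h29.SP.Jb

set_option autoImplicit false

/-!
# Facts on the mollifier
-/

namespace Pool.Agent.K9h29.SP

open Complex Finset MeasureTheory Pool.Agent.Y771.GL
open scoped ComplexConjugate
open Pool.Agent.Y671.GL Pool.Agent.Y412.GLB Pool.Agent.Y412.GLP
open Pool.Agent.K9h29.ZD (tl)
open Pool.Agent.H24R2.DZ (ph)

variable {lam : ℕ → ℂ} {P0 : ℕ} {th Cd : ℝ}

theorem ph_zero {u : ℝ} (hu : 1 ≤ u) : ph u = 0 := by
  unfold ph
  exact Real.smoothTransition.zero_of_nonpos (by linarith)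

theorem ph_le (u : ℝ) : ph u ≤ 1 := Real.smoothTransition.le_one _

theorem ph_nonneg (u : ℝ) : 0 ≤ ph u := Real.smoothTransition.nonneg _

theorem bm_zero_of {g : ℕ → ℂ} {θ L : ℝ} (hθ : 0 < θ) (hL : 0 < L) {y : ℕ} (hy : Real.exp (θ * L) ≤ y) {h : ℕ}
    (hh : y < h) : bm g θ L h = 0 := by
  unfold bm
  rw [ph_zero, Complex.ofReal_zero, mul_zero]
  have h1 : (y : ℝ) < h := by exact_mod_cast hh
  rw [le_div_iff₀ (by positivity), one_mul, Real.le_log_iff_exp_le (lt_of_le_of_lt (Nat.cast_nonneg _) h1)]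
  linarith

theorem bm_zero (g : ℕ → ℂ) (θ L : ℝ) : bm g θ L 0 = 0 := by
  unfold bm
  rw [sqf_zero, zero_mul]

theorem bm_one (g : ℕ → ℂ) (θ L : ℝ) : bm g θ L 1 = 1 := by
  unfold bm
  rw [sqf_one]
  simp only [Nat.cast_one, Real.log_one, zero_div, one_mul]
  unfold ph
  rw [Real.smoothTransition.one_of_one_le (by norm_num)]
  simp

theorem bm_nsq (g : ℕ → ℂ) (θ L : ℝ) {h : ℕ} (hh : ¬ Squarefree h) : bm g θ L h = 0 := by
  unfold bm sqf
  rw [if_neg hh, zero_mul]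

theorem sqf_le (hd : HD lam P0 th Cd) {g : ℕ → ℂ} (hg : ∀ p, ‖g p‖ ≤ ‖lam p‖) (h : ℕ) : ‖sqf g h‖ ≤ ‖lam h‖ := by
  unfold sqf
  split_ifs with h1
  · rw [norm_prod]
    have h2 : lam h = ∏ p ∈ h.primeFactors, lam p := by
      conv_lhs => rw [← Nat.prod_primeFactors_of_squarefree h1]
      have : ∀ S : Finset ℕ, (∀ p ∈ S, p.Prime) → lam (∏ p ∈ S, p) = ∏ p ∈ S, lam p := by
        intro S
        induction S using Finset.induction_on with
        | empty => intro _; simpa using hd.one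
        | insert a S ha ih =>
          intro hS
          rw [prod_insert ha, prod_insert ha, hd.mul, ih (fun p hp => hS p (mem_insert_of_mem hp))]
          apply Nat.Coprime.prod_right
          intro p hp
          exact (Nat.coprime_primes (hS a (mem_insert_self _ _)) (hS p (mem_insert_of_mem hp))).2
            (fun h => ha (h ▸ hp))
      exact this _ (fun p hp => Nat.prime_of_mem_primeFactors hp)
    rw [h2, norm_prod]
    exact prod_le_prod (fun p _ => norm_nonneg _) fun p _ => hg p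
  · rw [norm_zero]
    exact norm_nonneg _

theorem bm_bd (hd : HD lam P0 th Cd) {g : ℕ → ℂ} (hg : ∀ p, ‖g p‖ ≤ ‖lam p‖) (θ L : ℝ) {h : ℕ} (hh : 1 ≤ h) :
    ‖bm g θ L h‖ ≤ Cd * h := by
  unfold bm
  rw [norm_mul, Complex.norm_real, Real.norm_of_nonneg (ph_nonneg _)]
  have h1 := sqf_le hd hg h
  have h2 := hd.bd h hh
  have h3 := ph_le (Real.log h / (θ * L))
  have h4 := ph_nonneg (Real.log h / (θ * L))
  have hh' : (1 : ℝ) ≤ h := by exact_mod_cast hh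
  have h5 : (h : ℝ) ^ th ≤ h := by
    calc (h : ℝ) ^ th ≤ (h : ℝ) ^ (1 : ℝ) := Real.rpow_le_rpow_of_exponent_le hh' (by linarith [hd.th1])
      _ = h := Real.rpow_one _
  have hC := hd.C1
  calc ‖sqf g h‖ * ph (Real.log h / (θ * L)) ≤ ‖lam h‖ * 1 := by gcongr
    _ ≤ Cd * (h : ℝ) ^ th := by rw [mul_one]; exact h2
    _ ≤ Cd * h := by gcongr

theorem g2_le (y q : ℕ) (p : ℕ) : ‖g2 lam P0 y q p‖ ≤ ‖lam p‖ := by
  have := norm_g2 (lam := lam) (P0 := P0) p y q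
  have h2 := norm_nonneg (lam p)
  linarith

theorem bm_sum (hd : HD lam P0 th Cd) {g : ℕ → ℂ} (hg : ∀ p, ‖g p‖ ≤ ‖lam p‖) (θ L : ℝ) (y : ℕ) :
    ∑ h ∈ Icc 1 y, ‖bm g θ L h‖ ≤ Cd * (y : ℝ) ^ 2 := by
  have hC := hd.C1
  calc ∑ h ∈ Icc 1 y, ‖bm g θ L h‖ ≤ ∑ h ∈ Icc 1 y, Cd * y := by
        refine sum_le_sum fun h hh => ?_
        rw [mem_Icc] at hh
        refine (bm_bd hd hg θ L hh.1).trans ?_
        have : (h : ℝ) ≤ y := by exact_mod_cast hh.2
        gcongr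
    _ = Cd * (y : ℝ) ^ 2 := by
        rw [sum_const, Nat.card_Icc, nsmul_eq_mul]
        simp
        ring

/-- the second mollifier with the weight of the dual sum -/
noncomputable def Bw (k : ℕ) (b : ℕ → ℂ) (ν : ℕ) : ℂ := b ν * (((ν : ℝ) ^ (-(((k : ℝ) + 1) / 2)) : ℝ) : ℂ)

theorem Bw_le (k : ℕ) (b : ℕ → ℂ) (hb0 : b 0 = 0) (ν : ℕ) : ‖Bw k b ν‖ ≤ ‖b ν‖ := by
  unfold Bw
  rcases Nat.eq_zero_or_pos ν with rfl | h
  · rw [hb0]; simp
  · rw [norm_mul, Complex.norm_real, Real.norm_of_nonneg (by positivity)]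
    have : (ν : ℝ) ^ (-(((k : ℝ) + 1) / 2)) ≤ 1 :=
      Real.rpow_le_one_of_one_le_of_nonpos (by exact_mod_cast h) (by
        have : (0 : ℝ) ≤ k := Nat.cast_nonneg _
        linarith)
    nlinarith [norm_nonneg (b ν)]

theorem bm_unit {y q : ℕ} (θ L : ℝ) {ν : ℕ} (h : ¬ ν.Coprime q) : bm (g2 lam P0 y q) θ L ν = 0 := by
  unfold bm
  have h1 : sqf (g2 lam P0 y q) ν = 0 := by
    unfold sqf
    split_ifs with hs
    · obtain ⟨p, hp, h2, h3⟩ := Nat.Prime.not_coprime_iff_dvd.1 h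
      have hν : ν ≠ 0 := hs.ne_zero
      refine prod_eq_zero (i := p) (Nat.mem_primeFactors.2 ⟨hp, h2, hν⟩) ?_
      unfold g2
      rw [if_neg]
      intro h4
      exact h4.2.2 h3
    · rfl
  rw [h1, zero_mul]

theorem tl_bm {q : ℕ} [NeZero q] (χ : DirichletCharacter ℂ q) (y : ℕ) (θ L : ℝ) :
    tl χ (bm (g1 lam P0 y q) θ L) = tl χ (bm (g2 lam P0 y q) θ L) := by
  funext h
  unfold tl
  by_cases hc : h.Coprime q
  · congr 1
    unfold bm
    congr 1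
    unfold sqf
    split_ifs with hs
    · refine prod_congr rfl fun p hp => ?_
      rw [Nat.mem_primeFactors] at hp
      unfold g1
      rw [if_neg]
      intro h2
      exact Nat.Prime.not_coprime_iff_dvd.2 ⟨p, hp.1, hp.2.1, h2⟩ hc
    · rfl
  · have : χ ((h : ℕ) : ZMod q) = 0 := MulChar.map_nonunit _ (fun h2 => hc ((ZMod.isUnit_iff_coprime _ _).1 h2))
    rw [this, zero_mul, zero_mul]

theorem bm_real (hd : HD lam P0 th Cd) (y q : ℕ) (θ L : ℝ) (h : ℕ) :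
    conj (bm (g2 lam P0 y q) θ L h) = bm (g2 lam P0 y q) θ L h := by
  unfold bm sqf
  rw [map_mul, Complex.conj_ofReal]
  congr 1
  split_ifs
  · rw [map_prod]
    refine prod_congr rfl fun p _ => ?_
    unfold g2
    split_ifs
    · rw [map_div₀, map_neg, hd.real, Complex.conj_ofNat]
    · exact map_zero _
  · exact map_zero _

theorem Zs_eq {b c : ℕ → ℂ} {X y g a : ℕ} (hb : ∀ h, y < h → b h = 0) (hb2 : ∀ h, ¬ Squarefree h → b h = 0)
    (hyX : y ≤ X) (hg : 1 ≤ g) : Zs b c X g a = ∑ l ∈ Icc 1 (y / g), b (g * l) * c (a * l) / l := by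
  unfold Zs
  have hP : (∏ p ∈ pr X, p) ≠ 0 := by
    rw [prod_ne_zero_iff]
    intro p hp
    exact (mem_pr.1 hp).2.ne_zero
  have h1 : ∀ l, b (g * l) ≠ 0 → (l ∈ (∏ p ∈ pr X, p).divisors ↔ l ∈ Icc 1 (y / g)) := by
    intro l hl
    have hs : Squarefree (g * l) := by
      by_contra h
      exact hl (hb2 _ h)
    have hle : g * l ≤ y := by
      by_contra h
      push Not at h
      exact hl (hb _ h)
    have hl0 : l ≠ 0 := by
      rintro rfl
      exact hs.ne_zero (mul_zero _)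
    have hsl : Squarefree l := hs.squarefree_of_dvd (dvd_mul_left _ _)
    have h2 : l ∈ Icc 1 (y / g) := by
      rw [mem_Icc, Nat.le_div_iff_mul_le (by omega), mul_comm]
      exact ⟨by omega, hle⟩
    have h3 : l ∈ (∏ p ∈ pr X, p).divisors := by
      rw [Nat.mem_divisors]
      refine ⟨?_, hP⟩
      conv_lhs => rw [← Nat.prod_primeFactors_of_squarefree hsl]
      apply prod_dvd_prod_of_subset
      intro p hp
      rw [Nat.mem_primeFactors] at hp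
      rw [mem_pr]
      refine ⟨?_, hp.1⟩
      have h4 : p ≤ l := Nat.le_of_dvd (by omega) hp.2.1
      have h5 : l ≤ g * l := Nat.le_mul_of_pos_left l (by omega)
      omega
    exact ⟨fun _ => h2, fun _ => h3⟩
  have e1 : ∑ l ∈ (∏ p ∈ pr X, p).divisors, b (g * l) * c (a * l) / l =
      ∑ l ∈ (∏ p ∈ pr X, p).divisors.filter (fun l => b (g * l) ≠ 0), b (g * l) * c (a * l) / l := by
    rw [sum_filter_of_ne]
    intro l _ h hc
    rw [hc] at h
    simp at h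
  have e2 : ∑ l ∈ Icc 1 (y / g), b (g * l) * c (a * l) / l =
      ∑ l ∈ (Icc 1 (y / g)).filter (fun l => b (g * l) ≠ 0), b (g * l) * c (a * l) / l := by
    rw [sum_filter_of_ne]
    intro l _ h hc
    rw [hc] at h
    simp at h
  rw [e1, e2]
  refine sum_congr ?_ fun _ _ => rfl
  ext l
  rw [mem_filter, mem_filter]
  constructor
  · intro h; exact ⟨(h1 l h.2).1 h.1, h.2⟩
  · intro h; exact ⟨(h1 l h.2).2 h.1, h.2⟩

theorem Dg_eq {k y X g a : ℕ} {b1 b2 : ℕ → ℂ} (hb1 : ∀ h, y < h → b1 h = 0) (hb : ∀ h, y < h → b2 h = 0)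
    (hb2 : ∀ h, ¬ Squarefree h → b2 h = 0) (hyX : y ≤ X) (hg : 1 ≤ g) (ha : 1 ≤ a) :
    ‖Dg (sc k y lam b1) (Bw k b2) y g a‖ ^ 2 = ((a : ℝ) / g) ^ (k : ℝ) / (a * g) *
      ‖Zs b2 (cn lam b1) X g a‖ ^ 2 := by
  rw [Zs_eq hb hb2 hyX hg]
  have hg0 : (0 : ℝ) < g := by exact_mod_cast hg
  have ha0 : (0 : ℝ) < a := by exact_mod_cast ha
  have h1 : Dg (sc k y lam b1) (Bw k b2) y g a =
      (((a : ℝ) ^ (((k : ℝ) - 1) / 2) * (g : ℝ) ^ (-(((k : ℝ) + 1) / 2)) : ℝ) : ℂ) *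
        ∑ l ∈ Icc 1 (y / g), b2 (g * l) * cn lam b1 (a * l) / l := by
    unfold Dg Bw
    rw [mul_sum]
    refine sum_congr rfl fun l hl => ?_
    rw [mem_Icc] at hl
    rw [sc_eq y b1 hb1 (a * l) (Nat.mul_pos ha hl.1)]
    have hl0 : (0 : ℝ) < l := by exact_mod_cast hl.1
    have e1 : (((g * l : ℕ) : ℝ) ^ (-(((k : ℝ) + 1) / 2))) * (((a * l : ℕ) : ℝ) ^ (((k : ℝ) - 1) / 2)) =
        (a : ℝ) ^ (((k : ℝ) - 1) / 2) * (g : ℝ) ^ (-(((k : ℝ) + 1) / 2)) * (1 / l) := by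
      push_cast
      rw [Real.mul_rpow hg0.le hl0.le, Real.mul_rpow ha0.le hl0.le]
      have e2 : (l : ℝ) ^ (-(((k : ℝ) + 1) / 2)) * (l : ℝ) ^ (((k : ℝ) - 1) / 2) = 1 / l := by
        rw [← Real.rpow_add hl0]
        have : -(((k : ℝ) + 1) / 2) + (((k : ℝ) - 1) / 2) = -1 := by ring
        rw [this, Real.rpow_neg_one, one_div]
      calc _ = (a : ℝ) ^ (((k : ℝ) - 1) / 2) * (g : ℝ) ^ (-(((k : ℝ) + 1) / 2)) *
            ((l : ℝ) ^ (-(((k : ℝ) + 1) / 2)) * (l : ℝ) ^ (((k : ℝ) - 1) / 2)) := by ring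
        _ = _ := by rw [e2]
    have e3 := congrArg (fun x : ℝ => (x : ℂ)) e1
    simp only [Complex.ofReal_mul] at e3
    have e4 : ((1 / (l : ℝ) : ℝ) : ℂ) = 1 / (l : ℂ) := by push_cast; rfl
    rw [e4] at e3
    rw [Complex.ofReal_mul]
    linear_combination (b2 (g * l) * cn lam b1 (a * l)) * e3
  rw [h1, norm_mul, mul_pow, Complex.norm_real, Real.norm_of_nonneg (by positivity)]
  congr 1
  rw [mul_pow, ← Real.rpow_natCast ((a : ℝ) ^ (((k : ℝ) - 1) / 2)) 2, ← Real.rpow_mul ha0.le,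
    ← Real.rpow_natCast ((g : ℝ) ^ (-(((k : ℝ) + 1) / 2))) 2, ← Real.rpow_mul hg0.le,
    Real.div_rpow ha0.le hg0.le]
  have e1 : (((k : ℝ) - 1) / 2) * ((2 : ℕ) : ℝ) = k - 1 := by push_cast; ring
  have e2 : (-(((k : ℝ) + 1) / 2)) * ((2 : ℕ) : ℝ) = -(k : ℝ) - 1 := by push_cast; ring
  rw [e1, e2, Real.rpow_sub_one ha0.ne', Real.rpow_sub_one hg0.ne', Real.rpow_neg hg0.le]
  field_simp

end Pool.Agent.K9h29.SP
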