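import Pool.Agent.K9h29.SP.Psi
import Pool.Agent.H510R2.Div

set_option autoImplicit false

/-!
# The weighted integral over the ray
-/

namespace Pool.Agent.K9h29.SP

open Complex Finset MeasureTheory
open scoped ComplexConjugate
open Pool.Agent.Y671.GL Pool.Agent.Y412.GLB Pool.Agent.Y412.GLP
open Pool.Agent.K9h29.ZD (S_SCU tl TwF)
open Pool.Agent.H24R2.DZ (ray)

theorem le_tau_phi (q : ℕ) (hq : q ≠ 0) : (q : ℝ) ≤ (q.divisors.card : ℝ) * q.totient := by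
  have h1 := Nat.sum_totient q
  have h2 : ∑ d ∈ q.divisors, d.totient ≤ q.divisors.card * q.totient := by
    rw [← smul_eq_mul, ← sum_const]
    refine sum_le_sum fun d hd => ?_
    exact Nat.le_of_dvd (Nat.totient_pos.2 (Nat.pos_of_ne_zero hq)) (Nat.totient_dvd_of_dvd (Nat.dvd_of_mem_divisors hd))
  rw [h1] at h2
  exact_mod_cast h2

theorem tau_phi {ε : ℝ} (hε : 0 < ε) : ∃ C : ℝ, 0 < C ∧ ∀ q : ℕ, 1 ≤ q →
    (q.divisors.card : ℝ) * q ≤ C * (q : ℝ) ^ ε * q.totient := by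
  obtain ⟨C, hC, h⟩ := Pool.Agent.H510R2.divisor_bound (ε / 2) (by positivity)
  refine ⟨C ^ 2, by positivity, fun q hq => ?_⟩
  have h1 := le_tau_phi q (by omega)
  have h2 := h q hq
  have hq0 : (0 : ℝ) < q := by exact_mod_cast hq
  have h3 : (q : ℝ) ^ ε = (q : ℝ) ^ (ε / 2) * (q : ℝ) ^ (ε / 2) := by
    rw [← Real.rpow_add hq0]
    congr 1
    ring
  rw [h3]
  have h4 : (0 : ℝ) ≤ q.totient := Nat.cast_nonneg _
  have h5 : (0 : ℝ) ≤ q.divisors.card := Nat.cast_nonneg _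
  calc (q.divisors.card : ℝ) * q ≤ q.divisors.card * ((q.divisors.card : ℝ) * q.totient) := by gcongr
    _ ≤ (C * (q : ℝ) ^ (ε / 2)) * ((C * (q : ℝ) ^ (ε / 2)) * q.totient) := by gcongr
    _ = _ := by ring

variable {k N : ℕ} {ps lam : ℕ → ℂ} {P0 : ℕ} {th Cd : ℝ}

theorem mass_diag (hF : Frm k N ps lam) (hd : HD lam P0 th Cd) {θ : ℝ} (hθ : 0 < θ) (hθ1 : θ ≤ 1) {C0 : ℝ}
    (hC0 : 0 < C0) : ∃ K : ℝ, 0 < K ∧ ∀ (q : ℕ) [NeZero q] (y : ℕ) (L R T x1 : ℝ) (I j : ℕ) (w : ℕ → ℝ), 1 ≤ L →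
    Real.exp (θ * L) ≤ y → Real.log y ≤ 2 * L → 0 < T → 0 < x1 → R = T / x1 →
    Real.exp (1 / 2 * L) * 2 ^ j ≤ R → R ≤ Real.exp (C0 * L) → (∀ i, 0 ≤ w i) → Antitone w →
    ∑ i ∈ range I, w i * ((2 ^ i * x1) ^ k *
      TD (sc k y lam (bm (g1 lam P0 y q) θ L)) (Bw k (bm (g2 lam P0 y q) θ L)) y (2 ^ i * x1 / (4 * T))) ≤
      T ^ k * (K * ((∑ i ∈ range (j + 1), w i) / L + w j)) := by
  have hk := hF.k_pos
  obtain ⟨K, hK, hnt⟩ := nt hd hθ hθ1 k hk (c0 := 1 / 2) (C0 := C0) (by norm_num) hC0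
  refine ⟨K, hK, ?_⟩
  intro q _ y L R T x1 I j w hL hyθ hy2 hT hx1 hR hR1 hR2 hw0 hwa
  have hL0 : 0 < L := by linarith
  have hR0 : 0 < R := by rw [hR]; positivity
  obtain ⟨b1, hb1⟩ : ∃ b1, b1 = bm (g1 lam P0 y q) θ L := ⟨_, rfl⟩
  obtain ⟨b2, hb2⟩ : ∃ b2, b2 = bm (g2 lam P0 y q) θ L := ⟨_, rfl⟩
  have hb1y : ∀ h, y < h → b1 h = 0 := fun h hh => by rw [hb1]; exact bm_zero_of hθ hL0 hyθ hh
  have hb2y : ∀ h, y < h → b2 h = 0 := fun h hh => by rw [hb2]; exact bm_zero_of hθ hL0 hyθ hh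
  have hb2s : ∀ h, ¬ Squarefree h → b2 h = 0 := fun h hh => by rw [hb2]; exact bm_nsq _ _ _ hh
  have hb2u : ∀ ν, ¬ ν.Coprime q → b2 ν = 0 := fun ν hν => by rw [hb2]; exact bm_unit _ _ hν
  rw [← hb1, ← hb2]
  obtain ⟨C, hC⟩ : ∃ C, C = sc k y lam b1 := ⟨_, rfl⟩
  obtain ⟨B, hB⟩ : ∃ B, B = Bw k b2 := ⟨_, rfl⟩
  have hpg : PG C := by rw [hC]; exact pg_sc hF y b1
  have hC00 : C 0 = 0 := by rw [hC]; exact sc_zero hF y b1
  have hBu : ∀ ν, ¬ ν.Coprime q → B ν = 0 := fun ν hν => by rw [hB]; unfold Bw; rw [hb2u ν hν, zero_mul]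
  rw [← hC, ← hB]
  -- the limit
  have hsum : ∀ i, Summable (fun n : ℕ => Dn C B y n ^ 2 * Real.exp (-(2 * n * (2 ^ i * x1 / (4 * T) / Qy y)))) :=
    fun i => (fU_int (q := q) hpg hC00 hBu (y := y) (v := 2 ^ i * x1 / (4 * T)) (by positivity)).1
  have hlim : Filter.Tendsto (fun M : ℕ => ∑ i ∈ range I, w i * ((2 ^ i * x1) ^ k *
      ∑ n ∈ range M, Dn C B y n ^ 2 * Real.exp (-(2 * n * (2 ^ i * x1 / (4 * T) / Qy y))))) Filter.atTop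
      (nhds (∑ i ∈ range I, w i * ((2 ^ i * x1) ^ k * TD C B y (2 ^ i * x1 / (4 * T))))) := by
    refine tendsto_finsetSum _ fun i _ => ?_
    exact ((hsum i).hasSum.tendsto_sum_nat.const_mul _).const_mul _
  refine le_of_tendsto' hlim fun M => ?_
  obtain ⟨X, hX⟩ : ∃ X : ℕ, X = max M y := ⟨_, rfl⟩
  have hyX : y ≤ X := by rw [hX]; exact le_max_right _ _
  have hMX : M ≤ X := by rw [hX]; exact le_max_left _ _
  have h1 : ∀ i ∈ range I, w i * ((2 ^ i * x1) ^ k *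
      ∑ n ∈ range M, Dn C B y n ^ 2 * Real.exp (-(2 * n * (2 ^ i * x1 / (4 * T) / Qy y)))) ≤
      w i * ((2 ^ i * x1) ^ k * ∑ x ∈ AA y X, ‖Dg C B y x.1 x.2‖ ^ 2 *
        Real.exp (-(2 * (2 ^ i * x1 / (4 * T)) * (x.2 / x.1)))) := by
    intro i _
    apply mul_le_mul_of_nonneg_left _ (hw0 i)
    apply mul_le_mul_of_nonneg_left _ (by positivity)
    refine le_trans (sum_le_sum_of_subset_of_nonneg (range_mono hMX) fun _ _ _ => by positivity) ?_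
    exact part_le C B y X
  refine (sum_le_sum h1).trans ?_
  have h2 := hnt y q L R X I j w hL hyθ hy2 hyX hR1 hR2 hw0 hwa
  rw [← hb1, ← hb2] at h2
  refine le_trans (le_of_eq ?_) (mul_le_mul_of_nonneg_left h2 (by positivity : (0 : ℝ) ≤ T ^ k))
  rw [mul_sum]
  have h3 : ∀ i ∈ range I, w i * ((2 ^ i * x1) ^ k * ∑ x ∈ AA y X, ‖Dg C B y x.1 x.2‖ ^ 2 *
        Real.exp (-(2 * (2 ^ i * x1 / (4 * T)) * (x.2 / x.1)))) =
      ∑ x ∈ AA y X, w i * ((2 ^ i * x1) ^ k * (‖Dg C B y x.1 x.2‖ ^ 2 *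
        Real.exp (-(2 * (2 ^ i * x1 / (4 * T)) * (x.2 / x.1))))) := by
    intro i _
    rw [mul_sum, mul_sum]
  rw [sum_congr rfl h3, sum_comm]
  refine sum_congr rfl fun x hx => ?_
  unfold AA at hx
  rw [mem_filter, mem_product, mem_Icc, mem_Icc] at hx
  have hg0 : (0 : ℝ) < x.1 := by exact_mod_cast hx.1.1.1
  have ha0 : (0 : ℝ) < x.2 := by exact_mod_cast hx.1.2.1
  have h4 := Dg_eq (k := k) (lam := lam) hb1y hb2y hb2s hyX hx.1.1.1 hx.1.2.1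
  rw [← hC, ← hB] at h4
  rw [h4, sum_div, sum_mul, mul_sum]
  refine sum_congr rfl fun i _ => ?_
  unfold Kf
  have e1 : (2 : ℝ) ^ i * (x.2 / (x.1 * R)) = (2 ^ i * x1) * (x.2 / x.1) / T := by
    rw [hR]; field_simp
  rw [e1]
  have e2 : 2 * (2 ^ i * x1 / (4 * T)) * ((x.2 : ℝ) / x.1) = (2 ^ i * x1) * (x.2 / x.1) / T / 2 := by
    field_simp
    ring
  rw [e2, Real.rpow_natCast]
  obtain ⟨E, hE⟩ : ∃ E : ℝ, E = Real.exp (-((2 ^ i * x1) * ((x.2 : ℝ) / x.1) / T / 2)) := ⟨_, rfl⟩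
  have e5 : ((2 : ℝ) ^ i * x1 * ((x.2 : ℝ) / x.1) / T) ^ k = (2 ^ i * x1) ^ k * ((x.2 : ℝ) / x.1) ^ k / T ^ k := by
    rw [div_pow, mul_pow]
  rw [← hE, e5]
  obtain ⟨P, hP⟩ : ∃ P : ℝ, P = (2 ^ i * x1) ^ k := ⟨_, rfl⟩
  obtain ⟨Q, hQ⟩ : ∃ Q : ℝ, Q = ((x.2 : ℝ) / x.1) ^ k := ⟨_, rfl⟩
  obtain ⟨V, hV⟩ : ∃ V : ℝ, V = T ^ k := ⟨_, rfl⟩
  have hV0 : V ≠ 0 := by rw [hV]; positivity
  rw [← hP, ← hQ, ← hV]
  field_simp

theorem geo_half {c x1 : ℝ} (hc : c ≤ 1 / 2) (hx1 : 0 < x1) (I : ℕ) {w : ℕ → ℝ}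
    (hwa : Antitone w) (hw0 : 0 ≤ w 0) :
    ∑ i ∈ range I, w i * (2 ^ i * x1) ^ (c - 1) ≤ w 0 * (4 * x1 ^ (c - 1)) := by
  have h1 : ∀ i : ℕ, ((2 : ℝ) ^ i * x1) ^ (c - 1) ≤ (3 / 4 : ℝ) ^ i * x1 ^ (c - 1) := by
    intro i
    rw [Real.mul_rpow (by positivity) hx1.le]
    apply mul_le_mul_of_nonneg_right _ (by positivity)
    rw [← Real.rpow_natCast, ← Real.rpow_mul (by norm_num), mul_comm (i : ℝ), Real.rpow_mul (by norm_num),
      Real.rpow_natCast]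
    apply pow_le_pow_left₀ (by positivity)
    calc (2 : ℝ) ^ (c - 1) ≤ 2 ^ (-(1 / 2) : ℝ) := Real.rpow_le_rpow_of_exponent_le (by norm_num) (by linarith)
      _ ≤ 3 / 4 := by
        rw [Real.rpow_neg (by norm_num), ← Real.sqrt_eq_rpow, inv_le_comm₀ (by positivity) (by norm_num)]
        rw [Real.le_sqrt (by norm_num)]
        norm_num
        norm_num
  calc ∑ i ∈ range I, w i * (2 ^ i * x1) ^ (c - 1) ≤ ∑ i ∈ range I, w 0 * ((3 / 4 : ℝ) ^ i * x1 ^ (c - 1)) := by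
        refine sum_le_sum fun i _ => ?_
        exact mul_le_mul (hwa (Nat.zero_le i)) (h1 i) (by positivity) hw0
    _ = w 0 * ((∑ i ∈ range I, (3 / 4 : ℝ) ^ i) * x1 ^ (c - 1)) := by rw [← mul_sum, sum_mul]
    _ ≤ w 0 * (4 * x1 ^ (c - 1)) := by
        apply mul_le_mul_of_nonneg_left _ hw0
        apply mul_le_mul_of_nonneg_right _ (by positivity)
        have h2 := Summable.sum_le_tsum (range I) (fun i _ => by positivity)
          (summable_geometric_of_lt_one (r := (3 / 4 : ℝ)) (by norm_num) (by norm_num))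
        rw [tsum_geometric_of_lt_one (by norm_num) (by norm_num)] at h2
        norm_num at h2 ⊢
        exact h2

end Pool.Agent.K9h29.SP
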