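import Pool.Agent.K9h29.SP.Det2
import Pool.Agent.K9h29.SP.Mass
import Pool.Agent.H510R2.Div

set_option autoImplicit false

/-!
# From primitive characters to all characters of a modulus
-/

namespace Pool.Agent.K9h29.SP

open Finset DirichletCharacter

/-- `φ(d)² / d` -/
noncomputable def gg (d : ℕ) : ℝ := (d.totient : ℝ) ^ 2 / d

theorem gg_nonneg (d : ℕ) : 0 ≤ gg d := by unfold gg; positivity

theorem gg_mul {d e : ℕ} (h : d.Coprime e) : gg (d * e) = gg d * gg e := by
  unfold gg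
  rw [Nat.totient_mul h]
  push_cast
  rw [div_mul_div_comm]
  ring

theorem gg_pp {p : ℕ} (hp : p.Prime) (n : ℕ) :
    ∑ d ∈ (p ^ (n + 1)).divisors, gg d = ((p ^ (n + 1)).totient : ℝ) + 1 / p := by
  have hp0 : (p : ℝ) ≠ 0 := by exact_mod_cast hp.ne_zero
  have h1p : (1 : ℕ) ≤ p := hp.one_le
  rw [Nat.sum_divisors_prime_pow hp]
  induction n with
  | zero =>
    rw [Finset.sum_range_succ, Finset.sum_range_one, pow_zero, pow_one]
    unfold gg
    rw [Nat.totient_one, Nat.totient_prime hp, Nat.cast_sub h1p]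
    push_cast
    field_simp
    ring
  | succ n ih =>
    rw [Finset.sum_range_succ, ih]
    unfold gg
    rw [Nat.totient_prime_pow_succ hp, Nat.totient_prime_pow_succ hp]
    push_cast
    rw [Nat.cast_sub h1p]
    push_cast
    rw [pow_succ (p : ℝ) (n + 1), pow_succ (p : ℝ) n]
    have hpn : (p : ℝ) ^ n ≠ 0 := pow_ne_zero _ hp0
    generalize (p : ℝ) ^ n = x at hpn
    field_simp
    ring

theorem sum_div_mul {g : ℕ → ℝ} {m n : ℕ} (hmn : m.Coprime n)
    (hg : ∀ d e : ℕ, d.Coprime e → g (d * e) = g d * g e) :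
    ∑ d ∈ (m * n).divisors, g d = (∑ d ∈ m.divisors, g d) * ∑ d ∈ n.divisors, g d := by
  rw [Nat.divisors_mul, Finset.mul_def, Finset.sum_image, Finset.sum_product, Finset.sum_mul_sum]
  · refine Finset.sum_congr rfl fun d hd => Finset.sum_congr rfl fun e he => ?_
    exact hg d e (Nat.Coprime.coprime_dvd_left (Nat.dvd_of_mem_divisors hd)
      (Nat.Coprime.coprime_dvd_right (Nat.dvd_of_mem_divisors he) hmn))
  · intro x hx y hy h
    exact hmn.mul_injOn_divisors hx hy h

theorem gg_prod (q : ℕ) (hq : q ≠ 0) : ∑ d ∈ q.divisors, gg d ≤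
    q.totient * ∏ p ∈ q.primeFactors, (1 + 1 / ((p : ℝ) * (p - 1))) := by
  induction q using Nat.recOnPosPrimePosCoprime with
  | zero => exact absurd rfl hq
  | one =>
    unfold gg
    simp
  | prime_pow p n hp hn =>
    obtain ⟨m, rfl⟩ : ∃ m, n = m + 1 := ⟨n - 1, by omega⟩
    rw [gg_pp hp, Nat.primeFactors_prime_pow (by omega) hp, Finset.prod_singleton]
    have hp2 : (2 : ℝ) ≤ p := by exact_mod_cast hp.two_le
    have h1 : (p : ℝ) - 1 ≤ ((p ^ (m + 1)).totient : ℝ) := by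
      rw [Nat.totient_prime_pow_succ hp]
      push_cast
      rw [Nat.cast_sub hp.one_le]
      push_cast
      have : (1 : ℝ) ≤ (p : ℝ) ^ m := one_le_pow₀ (by linarith)
      nlinarith
    have hpm : 0 < (p : ℝ) - 1 := by linarith
    have hp0 : 0 < (p : ℝ) := by linarith
    have h2 : 1 / (p : ℝ) ≤ ((p ^ (m + 1)).totient : ℝ) * (1 / ((p : ℝ) * (p - 1))) := by
      rw [mul_one_div, div_le_div_iff₀ hp0 (by positivity)]
      nlinarith
    linarith
  | coprime a b ha hb hab iha ihb =>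
    have ha0 : a ≠ 0 := by omega
    have hb0 : b ≠ 0 := by omega
    rw [sum_div_mul hab (fun d e h => gg_mul h), Nat.totient_mul hab, hab.primeFactors_mul,
      Finset.prod_union hab.disjoint_primeFactors]
    have h1 := iha ha0
    have h2 := ihb hb0
    have h3 : 0 ≤ ∑ d ∈ b.divisors, gg d := Finset.sum_nonneg fun d _ => gg_nonneg d
    have h4 := (Finset.sum_nonneg fun d _ => gg_nonneg d : (0 : ℝ) ≤ ∑ d ∈ a.divisors, gg d).trans h1
    refine (mul_le_mul h1 h2 h3 h4).trans (le_of_eq ?_)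
    push_cast
    ring

theorem gg_sum (q : ℕ) (hq : q ≠ 0) : ∑ d ∈ q.divisors, gg d ≤ 3 * q.totient := by
  refine (gg_prod q hq).trans ?_
  have h1 : ∏ p ∈ q.primeFactors, (1 + 1 / ((p : ℝ) * (p - 1))) ≤ 3 := by
    have h2 : ∏ p ∈ q.primeFactors, (1 + 1 / ((p : ℝ) * (p - 1))) ≤
        Real.exp (∑ p ∈ q.primeFactors, 1 / ((p : ℝ) * (p - 1))) := by
      rw [Real.exp_sum]
      apply Finset.prod_le_prod
      · intro p hp
        have : (2 : ℝ) ≤ p := by exact_mod_cast (Nat.prime_of_mem_primeFactors hp).two_le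
        have : 0 < (p : ℝ) - 1 := by linarith
        positivity
      · intro p _
        rw [add_comm]
        exact Real.add_one_le_exp _
    have h3 : ∑ p ∈ q.primeFactors, 1 / ((p : ℝ) * (p - 1)) ≤ 1 := by
      have h4 : ∑ p ∈ q.primeFactors, 1 / ((p : ℝ) * (p - 1)) ≤ ∑ n ∈ Finset.Icc 2 (q + 1), 1 / ((n : ℝ) * (n - 1)) := by
        apply Finset.sum_le_sum_of_subset_of_nonneg
        · intro p hp
          rw [Finset.mem_Icc]
          exact ⟨(Nat.prime_of_mem_primeFactors hp).two_le,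
            (Nat.le_of_dvd (Nat.pos_of_ne_zero hq) (Nat.dvd_of_mem_primeFactors hp)).trans (Nat.le_succ _)⟩
        · intro n hn _
          have : (2 : ℝ) ≤ n := by exact_mod_cast (Finset.mem_Icc.1 hn).1
          have : 0 < (n : ℝ) - 1 := by linarith
          positivity
      have h5 : ∀ M : ℕ, ∑ n ∈ Finset.Icc 2 (M + 1), 1 / ((n : ℝ) * (n - 1)) = 1 - 1 / (M + 1 : ℝ) := by
        intro M
        induction M with
        | zero => simp
        | succ M ih =>
          rw [Finset.sum_Icc_succ_top (by omega), ih]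
          push_cast
          have hM : (0 : ℝ) ≤ M := Nat.cast_nonneg M
          have e1 : (M : ℝ) + 1 + 1 ≠ 0 := by positivity
          have e2 : (M : ℝ) + 1 ≠ 0 := by positivity
          have e3 : (M : ℝ) + 1 + 1 - 1 = M + 1 := by ring
          rw [e3]
          field_simp
          ring
      rw [h5] at h4
      have : (0 : ℝ) ≤ 1 / (q + 1 : ℝ) := by positivity
      linarith
    refine h2.trans ((Real.exp_le_exp.2 h3).trans ?_)
    have := Real.exp_one_lt_d9
    linarith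
  have h0 : (0 : ℝ) ≤ q.totient := Nat.cast_nonneg _
  nlinarith

/-- the fibre over a conductor -/
theorem fib {q : ℕ} [NeZero q] (G : Finset (DirichletCharacter ℂ q)) {d : ℕ} [NeZero d] (hd : d ∣ q)
    (f : (q : ℕ) → DirichletCharacter ℂ q → ℝ) [DecidablePred fun χ : DirichletCharacter ℂ q => χ.conductor = d]
    [DecidablePred fun ψ : DirichletCharacter ℂ d => ψ.IsPrimitive ∧ changeLevel hd ψ ∈ G] :
    ∑ χ ∈ G.filter (fun χ => χ.conductor = d), f χ.conductor χ.primitiveCharacter =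
      ∑ ψ ∈ (Finset.univ : Finset (DirichletCharacter ℂ d)).filter
        (fun ψ => ψ.IsPrimitive ∧ changeLevel hd ψ ∈ G), f d ψ := by
  symm
  refine Finset.sum_bij (fun ψ _ => changeLevel hd ψ) ?_ ?_ ?_ ?_
  · intro ψ hψ
    rw [mem_filter] at hψ ⊢
    refine ⟨hψ.2.2, ?_⟩
    rw [conductor_changeLevel]
    exact hψ.2.1
  · intro a _ b _ hab
    exact changeLevel_injective hd hab
  · intro χ hχ
    rw [mem_filter] at hχ
    obtain ⟨hG, hc⟩ := hχ
    subst hc
    refine ⟨χ.primitiveCharacter, ?_, χ.changeLevel_primitiveCharacter⟩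
    rw [mem_filter]
    refine ⟨mem_univ _, χ.primitiveCharacter_isPrimitive, ?_⟩
    rw [χ.changeLevel_primitiveCharacter]
    exact hG
  · intro ψ hψ
    rw [mem_filter] at hψ
    have hc : (changeLevel hd ψ).conductor = d := by
      rw [conductor_changeLevel]; exact hψ.2.1
    refine Pool.Agent.H82R3.EK.prim_transfer f q hc.symm hd (conductor_dvd_level _) _ _ ?_
    rw [changeLevel_primitiveCharacter]

/-- small conductors are few -/
theorem small_cond : ∃ C : ℝ, 0 < C ∧ ∀ (q : ℕ), 1 ≤ q → ∀ (T : ℝ), 0 < T →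
    ∑ d ∈ q.divisors.filter (fun d : ℕ => (d : ℝ) ^ 2 * T < q), (d.totient : ℝ) ≤ C * q.totient / Real.sqrt T := by
  obtain ⟨C, hC, hdiv⟩ := Pool.Agent.H510R2.divisor_bound (1 / 4) (by norm_num)
  refine ⟨C ^ 2, by positivity, fun q hq T hT => ?_⟩
  have hq0 : (0 : ℝ) < q := by exact_mod_cast hq
  have h1 : ∀ d ∈ q.divisors.filter (fun d : ℕ => (d : ℝ) ^ 2 * T < q), (d.totient : ℝ) ≤ Real.sqrt (q / T) := by
    intro d hd
    rw [mem_filter] at hd
    have h2 : (d : ℝ) ^ 2 ≤ q / T := by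
      rw [le_div_iff₀ hT]
      exact hd.2.le
    calc (d.totient : ℝ) ≤ d := by exact_mod_cast Nat.totient_le d
      _ ≤ Real.sqrt (q / T) := by
        rw [← Real.sqrt_sq (Nat.cast_nonneg d)]
        exact Real.sqrt_le_sqrt h2
  refine (Finset.sum_le_sum h1).trans ?_
  rw [Finset.sum_const, nsmul_eq_mul]
  obtain ⟨τ, hτ⟩ : ∃ τ : ℝ, τ = q.divisors.card := ⟨_, rfl⟩
  have hcard : ((q.divisors.filter (fun d : ℕ => (d : ℝ) ^ 2 * T < q)).card : ℝ) ≤ τ := by
    rw [hτ]
    exact_mod_cast Finset.card_filter_le _ _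
  have h3 := hdiv q hq
  rw [← hτ] at h3
  have h4 := le_tau_phi q (by omega)
  rw [← hτ] at h4
  have hτ0 : 0 < τ := by
    rw [hτ]
    have : 0 < q.divisors.card := Finset.card_pos.2 ⟨1, Nat.one_mem_divisors.2 (by omega)⟩
    exact_mod_cast this
  -- `τ √q ≤ C² φ(q)`
  have h5 : τ * Real.sqrt q ≤ C ^ 2 * q.totient := by
    have h6 : τ ^ 2 ≤ C ^ 2 * Real.sqrt q := by
      calc τ ^ 2 ≤ (C * (q : ℝ) ^ (1 / 4 : ℝ)) ^ 2 := pow_le_pow_left₀ hτ0.le h3 2
        _ = C ^ 2 * Real.sqrt q := by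
          rw [mul_pow, Real.sqrt_eq_rpow, ← Real.rpow_natCast ((q : ℝ) ^ (1 / 4 : ℝ)), ← Real.rpow_mul hq0.le]
          norm_num
    have h7 : τ * (τ * Real.sqrt q) ≤ τ * (C ^ 2 * q.totient) := by
      calc τ * (τ * Real.sqrt q) = τ ^ 2 * Real.sqrt q := by ring
        _ ≤ (C ^ 2 * Real.sqrt q) * Real.sqrt q := by gcongr
        _ = C ^ 2 * q := by rw [mul_assoc, Real.mul_self_sqrt hq0.le]
        _ ≤ C ^ 2 * (τ * q.totient) := by gcongr
        _ = _ := by ring
    exact le_of_mul_le_mul_left h7 hτ0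
  have hsT : 0 < Real.sqrt T := Real.sqrt_pos.2 hT
  calc ((q.divisors.filter (fun d : ℕ => (d : ℝ) ^ 2 * T < q)).card : ℝ) * Real.sqrt (q / T) ≤
        τ * Real.sqrt (q / T) := by gcongr
    _ = τ * Real.sqrt q / Real.sqrt T := by rw [Real.sqrt_div hq0.le]; ring
    _ ≤ _ := by gcongr

end Pool.Agent.K9h29.SP
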