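import Pool.Agent.K9h29.SP.Loc
import Pool.Agent.W368.SD.SMo
import Pool.Agent.Y671.GL.Spec

set_option autoImplicit false

/-!
# The coefficients: data and local bounds
-/

namespace Pool.Agent.K9h29.SP

open Complex Finset Pool.Agent.Y771.GL
open scoped ComplexConjugate
open Pool.Agent.W368.SD (ss ss_re)
open Pool.Agent.Y671.GL (cn)

structure HD (lam : ℕ → ℂ) (P0 : ℕ) (th Cd : ℝ) : Prop where
  zero : lam 0 = 0
  one : lam 1 = 1
  mul : ∀ m n : ℕ, Nat.Coprime m n → lam (m * n) = lam m * lam n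
  real : ∀ n, conj (lam n) = lam n
  hP : 100 ≤ P0
  two : ∀ p : ℕ, p.Prime → P0 < p → ‖lam p‖ ≤ 2
  three : ∀ p v : ℕ, p.Prime → P0 < p → ‖lam (p ^ v)‖ ≤ 3 ^ v
  th0 : 0 ≤ th
  th1 : th < 1 / 2
  C1 : 1 ≤ Cd
  bd : ∀ n : ℕ, 1 ≤ n → ‖lam n‖ ≤ Cd * (n : ℝ) ^ th

theorem HD.mu {lam : ℕ → ℂ} {P0 : ℕ} {th Cd : ℝ} (h : HD lam P0 th Cd) : Mu lam := ⟨h.one, h.mul⟩

/-- the mollifier at the primes, conjugate factor -/
noncomputable def g2 (lam : ℕ → ℂ) (P0 y q : ℕ) (p : ℕ) : ℂ :=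
  if P0 < p ∧ p ≤ y ∧ ¬ p ∣ q then -(lam p) / 2 else 0

/-- the mollifier at the primes -/
noncomputable def g1 (lam : ℕ → ℂ) (P0 y q : ℕ) (p : ℕ) : ℂ :=
  if p ∣ q then -(lam p) else g2 lam P0 y q p

/-- twist by a power -/
noncomputable def tw (g : ℕ → ℂ) (w : ℂ) (p : ℕ) : ℂ := g p * (p : ℂ) ^ (-w)

theorem mu_conv {f g : ℕ → ℂ} (hf : Mu f) (hg : Mu g) : Mu (fun n => ∑ d ∈ n.divisors, f d * g (n / d)) := by
  obtain ⟨F, hF⟩ : ∃ F : ArithmeticFunction ℂ, F = ⟨fun n => if n = 0 then 0 else f n, by simp⟩ := ⟨_, rfl⟩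
  obtain ⟨G, hG⟩ : ∃ G : ArithmeticFunction ℂ, G = ⟨fun n => if n = 0 then 0 else g n, by simp⟩ := ⟨_, rfl⟩
  have hFa : ∀ n : ℕ, n ≠ 0 → F n = f n := fun n hn => by rw [hF]; simp [hn]
  have hGa : ∀ n : ℕ, n ≠ 0 → G n = g n := fun n hn => by rw [hG]; simp [hn]
  have hFm : F.IsMultiplicative := by
    rw [ArithmeticFunction.IsMultiplicative.iff_ne_zero]
    refine ⟨by rw [hFa 1 one_ne_zero, hf.one], fun {m n} hm hn hc => ?_⟩
    rw [hFa _ (mul_ne_zero hm hn), hFa m hm, hFa n hn, hf.mul m n hc]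
  have hGm : G.IsMultiplicative := by
    rw [ArithmeticFunction.IsMultiplicative.iff_ne_zero]
    refine ⟨by rw [hGa 1 one_ne_zero, hg.one], fun {m n} hm hn hc => ?_⟩
    rw [hGa _ (mul_ne_zero hm hn), hGa m hm, hGa n hn, hg.mul m n hc]
  have hFG := hFm.mul hGm
  have key : ∀ n : ℕ, ∑ d ∈ n.divisors, f d * g (n / d) = (F * G) n := by
    intro n
    rw [ArithmeticFunction.mul_apply, Nat.sum_divisorsAntidiagonal (f := fun a b => F a * G b)]
    refine sum_congr rfl fun d hd => ?_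
    have hd0 : d ≠ 0 := (Nat.pos_of_mem_divisors hd).ne'
    have hn0 : n / d ≠ 0 := by
      have h1 := Nat.mem_divisors.1 hd
      have := Nat.div_pos (Nat.le_of_dvd (Nat.pos_of_ne_zero h1.2) h1.1) (Nat.pos_of_ne_zero hd0)
      omega
    rw [hFa d hd0, hGa _ hn0]
  refine ⟨?_, fun m n hmn => ?_⟩
  · simp only [key]
    exact hFG.map_one
  · simp only [key]
    exact hFG.map_mul_of_coprime hmn

variable {lam : ℕ → ℂ} {P0 : ℕ} {th Cd : ℝ}

theorem mu_cn (h : HD lam P0 th Cd) (G : ℕ → ℂ) : Mu (cn lam (sqf G)) := mu_conv (mu_sqf G) h.mu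

theorem cn_pow (G : ℕ → ℂ) {p : ℕ} (hp : p.Prime) (v : ℕ) :
    cn lam (sqf G) (p ^ (v + 1)) = lam (p ^ (v + 1)) + G p * lam (p ^ v) := by
  unfold cn
  rw [Nat.divisors_prime_pow hp, sum_map, sum_range_succ', sum_range_succ']
  have h1 : ∑ k ∈ range v, sqf G ((⟨(p ^ ·), Nat.pow_right_injective hp.two_le⟩ : ℕ ↪ ℕ) (k + 1 + 1)) *
      lam (p ^ (v + 1) / ((⟨(p ^ ·), Nat.pow_right_injective hp.two_le⟩ : ℕ ↪ ℕ) (k + 1 + 1))) = 0 := by
    refine sum_eq_zero fun k _ => ?_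
    simp only [Function.Embedding.coeFn_mk]
    rw [sqf_pow G hp (by omega), zero_mul]
  rw [h1, zero_add]
  simp only [Function.Embedding.coeFn_mk, zero_add, pow_one, pow_zero, Nat.div_one]
  rw [sqf_one, sqf_prime G hp, one_mul, pow_succ, Nat.mul_div_cancel _ hp.pos]
  ring

theorem norm_g2 (p : ℕ) (y q : ℕ) : ‖g2 lam P0 y q p‖ ≤ ‖lam p‖ / 2 := by
  unfold g2
  split_ifs
  · rw [norm_div, norm_neg]; simp
  · rw [norm_zero]; positivity

theorem norm_g1 (p : ℕ) (y q : ℕ) : ‖g1 lam P0 y q p‖ ≤ ‖lam p‖ := by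
  unfold g1
  split_ifs
  · rw [norm_neg]
  · have := norm_g2 (lam := lam) (P0 := P0) p y q
    have := norm_nonneg (lam p)
    linarith

theorem norm_pss {L τ : ℝ} (hL : 0 < L) {p : ℕ} (hp : p.Prime) : ‖(p : ℂ) ^ (-ss L τ)‖ ≤ 1 := by
  rw [Complex.norm_natCast_cpow_of_pos hp.pos, neg_re, ss_re]
  apply Real.rpow_le_one_of_one_le_of_nonpos (by exact_mod_cast hp.one_le)
  have : 0 < 1 / L := by positivity
  linarith

theorem norm_tw {g : ℕ → ℂ} {L τ : ℝ} (hL : 0 < L) {p : ℕ} (hp : p.Prime) : ‖tw g (ss L τ) p‖ ≤ ‖g p‖ := by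
  unfold tw
  rw [norm_mul]
  have := norm_pss (τ := τ) hL hp
  calc ‖g p‖ * ‖(p : ℂ) ^ (-ss L τ)‖ ≤ ‖g p‖ * 1 := by gcongr
    _ = _ := mul_one _

theorem exp_one_sub {z : ℂ} (hz : 0 ≤ z.re) : ‖1 - cexp (-z)‖ ≤ ‖z‖ := by
  have h1 : Convex ℝ {w : ℂ | 0 ≤ w.re} := convex_halfSpace_re_ge 0
  have h2 := h1.norm_image_sub_le_of_norm_hasDerivWithin_le (f := fun w : ℂ => cexp (-w))
    (f' := fun w : ℂ => -cexp (-w)) (C := 1) (x := 0) (y := z)
    (fun w _ => by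
      have := ((hasDerivAt_neg w).cexp).hasDerivWithinAt (s := {w : ℂ | 0 ≤ w.re})
      simpa using this)
    (fun w hw => by
      rw [norm_neg, Complex.norm_exp, neg_re]
      exact Real.exp_le_one_iff.2 (by simpa using hw)) (by simp) hz
  simp only [neg_zero, Complex.exp_zero, sub_zero, one_mul] at h2
  rwa [norm_sub_rev] at h2

theorem one_sub_pss {L τ : ℝ} (hL : 0 < L) {p : ℕ} (hp : p.Prime) :
    ‖1 - (p : ℂ) ^ (-ss L τ)‖ ≤ min 2 ((1 + |τ|) / L * Real.log p) := by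
  refine le_min ?_ ?_
  · refine (norm_sub_le _ _).trans ?_
    rw [norm_one]
    linarith [norm_pss (τ := τ) hL hp]
  · rw [cpow_eq_exp hp.ne_zero]
    refine (exp_one_sub ?_).trans ?_
    · rw [Complex.re_mul_ofReal, ss_re]
      have := Real.log_natCast_nonneg p
      positivity
    · rw [norm_mul, Complex.norm_real, Real.norm_of_nonneg (Real.log_natCast_nonneg p)]
      apply mul_le_mul_of_nonneg_right _ (Real.log_natCast_nonneg p)
      unfold ss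
      rw [norm_div, Complex.norm_real, Real.norm_of_nonneg hL.le]
      gcongr
      refine (norm_add_le _ _).trans ?_
      rw [norm_one, norm_mul, Complex.norm_I, one_mul, Complex.norm_real, Real.norm_eq_abs]

end Pool.Agent.K9h29.SP
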