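import Pool.Agent.K9h29.SP.Fst3

set_option autoImplicit false

/-!
# Real values and detection of zeros
-/

namespace Pool.Agent.K9h29.SP

open Complex Filter Topology MeasureTheory Set
open scoped ComplexConjugate
open Pool.Agent.Y671.GL
open W388 (FE2 GG)
open Pool.Agent.K9h29.ZD (S_SCU tl TwF LD rgtU gro_all EG exists_entire)
open Pool.Agent.H24R2.DZ (ray MM)

variable {k N : ℕ} {ps lam : ℕ → ℂ} {P0 : ℕ} {th Cd : ℝ} {L : (q : ℕ) → DirichletCharacter ℂ q → ℂ → ℂ}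

/-- square roots on the circle -/
theorem sqrt_circle (w : ℂ) (hw : ‖w‖ = 1) : ∃ ω : ℂ, ‖ω‖ = 1 ∧ ω ^ 2 = w := by
  obtain ⟨ω, hω⟩ := IsAlgClosed.exists_pow_nat_eq w (n := 2) (by norm_num)
  refine ⟨ω, ?_, hω⟩
  have h1 : ‖ω‖ ^ 2 = 1 := by rw [← norm_pow, hω, hw]
  have h2 := norm_nonneg ω
  nlinarith

/-- real values up to a constant -/
theorem real_val (hD : LD k N ps lam L) {q : ℕ} [NeZero q] (hco : q.Coprime N) {χ : DirichletCharacter ℂ q}
    (hχ : χ.IsPrimitive) (θ : ℝ) {T : ℝ} (hT : 10 ≤ T) : ∃ (ω : ℂ) (r : ℝ → ℝ), ‖ω‖ = 1 ∧ Continuous r ∧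
    (∀ t : ℝ, r t = 0 → L q χ (1 / 2 + t * I) = 0) ∧ ∀ t : ℝ, Fq (Gc k N lam P0 θ T χ) t =
      ω * ((r t * ‖MM (yT θ (q * T)) (tl χ (bb lam P0 θ q T)) (1 / 2 + t * I)‖ ^ 2 : ℝ) : ℂ) := by
  have hN0 : (0 : ℝ) < N := by exact_mod_cast hD.tw.frm.N_pos
  have hq0 : (0 : ℝ) < q := by exact_mod_cast Nat.pos_of_ne_zero (NeZero.ne q)
  have hk1 : (1 : ℝ) ≤ k := by exact_mod_cast hD.tw.frm.k_pos
  obtain ⟨Λ, w, hw, hΛd, hΛs, hΛe, -⟩ := exists_entire (k := (k : ℤ)) (N := (N : ℝ)) (Q := (q : ℝ))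
    (by exact_mod_cast hD.tw.frm.k_pos) hN0 hq0 (hD.fe q χ hχ hco)
  obtain ⟨ω0, hω0, hω2⟩ := sqrt_circle w hw
  have hpi := Real.pi_pos
  obtain ⟨A, hA⟩ : ∃ A : ℝ, A = Real.sqrt N * q / (2 * Real.pi) := ⟨_, rfl⟩
  have hA0 : 0 < A := by rw [hA]; positivity
  have hAc : (A : ℂ) ≠ 0 := by exact_mod_cast hA0.ne'
  have hx1 : 0 < xc N q := by unfold xc; positivity
  have hxA : xc N q = A⁻¹ := by
    rw [hA]
    unfold xc
    field_simp
  -- the real function
  have hcirc : conj ω0 * ω0 = 1 := by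
    rw [mul_comm, Complex.mul_conj, Complex.normSq_eq_norm_sq, hω0]
    simp
  obtain ⟨R, hR⟩ : ∃ R : ℝ → ℝ, R = fun (t : ℝ) => (conj ω0 * Λ (1 / 2 + t * I)).re := ⟨_, rfl⟩
  have hRv : ∀ t : ℝ, ((R t : ℝ) : ℂ) = conj ω0 * Λ (1 / 2 + t * I) := by
    intro t
    rw [hR]
    simp only
    rw [← Complex.conj_eq_iff_re]
    have h1 := hΛs (1 / 2 + t * I)
    have e1 : (1 - conj (1 / 2 + t * I : ℂ)) = 1 / 2 + t * I := by
      rw [map_add, map_mul, Complex.conj_ofReal, Complex.conj_I]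
      have : conj (1 / 2 : ℂ) = 1 / 2 := by
        rw [map_div₀, map_one]
        congr 1
        exact Complex.conj_ofNat 2
      rw [this]
      ring
    rw [e1] at h1
    rw [map_mul, Complex.conj_conj]
    -- `ω0 * conj Λ = conj ω0 * Λ`
    have h2 : conj ω0 * Λ (1 / 2 + t * I) = conj ω0 * (ω0 ^ 2 * conj (Λ (1 / 2 + t * I))) := by
      rw [hω2, ← h1]
    rw [h2]
    linear_combination -(ω0 * conj (Λ (1 / 2 + t * I))) * hcirc
  have hΛv : ∀ t : ℝ, Λ (1 / 2 + t * I) = ω0 * ((R t : ℝ) : ℂ) := by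
    intro t
    rw [hRv]
    linear_combination -(Λ (1 / 2 + t * I)) * hcirc
  refine ⟨cexp (-(I * ((Real.pi / 2 - 1 / T : ℝ) : ℂ)) * ((k / 2 : ℝ) : ℂ)) * ω0,
    fun t => A ^ (-(1 / 2 : ℝ)) * Real.exp ((Real.pi / 2 - 1 / T) * t) * R t, ?_, ?_, ?_, ?_⟩
  · rw [norm_mul, hω0, mul_one, Complex.norm_exp]
    have : (-(I * ((Real.pi / 2 - 1 / T : ℝ) : ℂ)) * ((k / 2 : ℝ) : ℂ)).re = 0 := by
      simp only [neg_mul, neg_re, mul_re, mul_im, I_re, I_im, ofReal_re, ofReal_im]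
      ring
    rw [this, Real.exp_zero]
  · have hRc : Continuous R := by
      rw [hR]
      have := hΛd.continuous
      fun_prop
    fun_prop
  · intro t ht
    have h1 : R t = 0 := by
      have h2 : A ^ (-(1 / 2 : ℝ)) * Real.exp ((Real.pi / 2 - 1 / T) * t) ≠ 0 := by positivity
      exact (mul_eq_zero.1 ht).resolve_left h2
    have h3 := hΛv t
    rw [h1, Complex.ofReal_zero, mul_zero, hΛe _ (Or.inr (by simp))] at h3
    refine (mul_eq_zero.1 h3).resolve_left ?_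
    unfold GG
    refine mul_ne_zero ?_ ?_
    · rw [Ne, Complex.cpow_eq_zero_iff]
      intro h
      rw [← hA] at h
      exact hAc h.1
    · apply Complex.Gamma_ne_zero_of_re_pos
      have e : (((k : ℤ) : ℂ) - 1) / 2 = ((((k : ℝ) - 1) / 2 : ℝ) : ℂ) := by push_cast; ring
      rw [e, Complex.add_re, Complex.ofReal_re]
      simp
      linarith
  · intro t
    unfold Gc
    rw [Fq_Gf (hD.tw.tw q χ hχ hco) (hD.isL q χ hχ hco) (pi_half_gt hT).1 (pi_half_gt hT).2 _ _ hx1 t]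
    have h1 := hΛe (1 / 2 + t * I) (Or.inr (by simp))
    rw [hΛv] at h1
    unfold GG at h1
    rw [← hA] at h1
    have e1 : (1 / 2 + (t : ℂ) * I) + (((k : ℤ) : ℂ) - 1) / 2 = ((k / 2 : ℝ) : ℂ) + t * I := by
      push_cast
      ring
    rw [e1] at h1
    -- powers
    have e2 : (A : ℂ) ^ (1 / 2 + (t : ℂ) * I) = ((A ^ (1 / 2 : ℝ) : ℝ) : ℂ) * (A : ℂ) ^ ((t : ℂ) * I) := by
      rw [Complex.cpow_add _ _ hAc, Complex.ofReal_cpow hA0.le]
      congr 2
      push_cast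
      ring
    have e3 : ((xc N q : ℝ) : ℂ) ^ (-((t : ℂ) * I)) = (A : ℂ) ^ ((t : ℂ) * I) := by
      rw [hxA, Complex.ofReal_inv, Complex.inv_cpow _ _ (by
        rw [Complex.arg_ofReal_of_nonneg hA0.le]
        exact Real.pi_ne_zero.symm), Complex.cpow_neg, inv_inv]
    have e4 : cexp (-(I * ((Real.pi / 2 - 1 / T : ℝ) : ℂ)) * (((k / 2 : ℝ) : ℂ) + t * I)) =
        cexp (-(I * ((Real.pi / 2 - 1 / T : ℝ) : ℂ)) * ((k / 2 : ℝ) : ℂ)) *
          ((Real.exp ((Real.pi / 2 - 1 / T) * t) : ℝ) : ℂ) := by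
      rw [Complex.ofReal_exp, ← Complex.exp_add]
      congr 1
      push_cast
      linear_combination -(((Real.pi : ℂ) / 2 - 1 / T) * t) * I_sq
    have e5 : ((A ^ (-(1 / 2 : ℝ)) : ℝ) : ℂ) * ((A ^ (1 / 2 : ℝ) : ℝ) : ℂ) = 1 := by
      rw [← Complex.ofReal_mul, ← Real.rpow_add hA0]
      norm_num
    rw [e2] at h1
    rw [e3, e4]
    push_cast
    push_cast at h1 e5
    generalize ((A : ℂ) ^ ((t : ℂ) * I)) = a1 at h1 ⊢
    generalize cexp (-(I * ((Real.pi : ℂ) / 2 - 1 / T)) * ((k : ℂ) / 2)) = a2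
    generalize cexp (((Real.pi : ℂ) / 2 - 1 / T) * t) = a3
    generalize Complex.Gamma (((k : ℂ) / 2) + t * I) = a4 at h1 ⊢
    generalize L q χ (1 / 2 + (t : ℂ) * I) = a5 at h1 ⊢
    generalize ((R t : ℝ) : ℂ) = a6 at h1 ⊢
    generalize ((A ^ (1 / 2 : ℝ) : ℝ) : ℂ) = a7 at h1 e5
    generalize ((A ^ (-(1 / 2 : ℝ)) : ℝ) : ℂ) = a8 at e5 ⊢
    generalize ((‖MM (yT θ (q * T)) (tl χ (bb lam P0 θ q T)) (1 / 2 + (t : ℂ) * I)‖ : ℝ) : ℂ) = a9
    -- `a1 * (a2 * a3 * a4 * a5 * a9^2) = a2 * ω0 * (a8 * a3 * a6 * a9^2)`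
    linear_combination (-(a1 * a2 * a3 * a4 * a5 * a9 ^ 2)) * e5 - (a2 * a8 * a3 * a9 ^ 2) * h1

/-- detection of a zero -/
theorem detect {h : ℝ → ℂ} {r m : ℝ → ℝ} {ω : ℂ} (hω : ‖ω‖ = 1) (hr : Continuous r) (hm : Continuous m)
    (hm0 : ∀ t, 0 ≤ m t) (hh : ∀ t, h t = ω * ((r t * m t : ℝ) : ℂ)) {t H : ℝ} (hH : 0 ≤ H)
    (hne : ‖∫ s in t..(t + H), h s‖ ≠ ∫ s in t..(t + H), ‖h s‖) : ∃ u, t < u ∧ u < t + H ∧ r u = 0 := by
  by_contra hcon
  push Not at hcon
  apply hne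
  have hle : t ≤ t + H := by linarith
  have hnorm : ∀ s, ‖h s‖ = |r s| * m s := by
    intro s
    rw [hh, norm_mul, hω, one_mul, Complex.norm_real, Real.norm_eq_abs, abs_mul, abs_of_nonneg (hm0 s)]
  -- constant sign
  have hsign : (∀ s ∈ Ioo t (t + H), 0 < r s) ∨ (∀ s ∈ Ioo t (t + H), r s < 0) := by
    by_contra hc
    push Not at hc
    obtain ⟨⟨a, ha, ha1⟩, ⟨b, hb, hb1⟩⟩ := hc
    have hpc : IsPreconnected (Ioo t (t + H)) := isPreconnected_Ioo
    have h1 : (0 : ℝ) ∈ r '' (Ioo t (t + H)) :=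
      hpc.intermediate_value ha hb hr.continuousOn ⟨ha1, hb1⟩
    obtain ⟨u, hu, hu0⟩ := h1
    exact hcon u hu.1 hu.2 hu0
  have hI : ∫ s in t..(t + H), h s = ω * ((∫ s in t..(t + H), r s * m s : ℝ) : ℂ) := by
    rw [← intervalIntegral.integral_ofReal, ← intervalIntegral.integral_const_mul]
    exact intervalIntegral.integral_congr fun s _ => hh s
  rw [hI, norm_mul, hω, one_mul, Complex.norm_real, Real.norm_eq_abs]
  have hcl : closure (Ioo t (t + H)) = Icc t (t + H) ∨ H = 0 := by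
    rcases eq_or_lt_of_le hH with h0 | h0
    · exact Or.inr h0.symm
    · exact Or.inl (closure_Ioo (by linarith))
  rcases hcl with hcl | h0
  · rcases hsign with h1 | h1
    · have h2 : ∀ s ∈ Icc t (t + H), 0 ≤ r s := by
        intro s hs
        rw [← hcl] at hs
        have : closure (Ioo t (t + H)) ⊆ {s | 0 ≤ r s} :=
          closure_minimal (fun s hs => (h1 s hs).le) (isClosed_le continuous_const hr)
        exact this hs
      rw [abs_of_nonneg (intervalIntegral.integral_nonneg hle fun s hs => mul_nonneg (h2 s hs) (hm0 s))]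
      refine intervalIntegral.integral_congr fun s hs => ?_
      rw [uIcc_of_le hle] at hs
      show r s * m s = ‖h s‖
      rw [hnorm, abs_of_nonneg (h2 s hs)]
    · have h2 : ∀ s ∈ Icc t (t + H), r s ≤ 0 := by
        intro s hs
        rw [← hcl] at hs
        have : closure (Ioo t (t + H)) ⊆ {s | r s ≤ 0} :=
          closure_minimal (fun s hs => (h1 s hs).le) (isClosed_le hr continuous_const)
        exact this hs
      have h3 : ∫ s in t..(t + H), ‖h s‖ = -∫ s in t..(t + H), r s * m s := by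
        rw [← intervalIntegral.integral_neg]
        refine intervalIntegral.integral_congr fun s hs => ?_
        rw [uIcc_of_le hle] at hs
        show ‖h s‖ = -(r s * m s)
        rw [hnorm, abs_of_nonpos (h2 s hs)]
        ring
      have h4 : 0 ≤ ∫ s in t..(t + H), ‖h s‖ := intervalIntegral.integral_nonneg hle fun s _ => norm_nonneg _
      rw [h3] at h4 ⊢
      rw [abs_of_nonpos (by linarith)]
  · subst h0
    simp

/-- integrals over short intervals, averaged -/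
theorem dbl {F : ℝ → ℝ} (hF : Continuous F) (h0 : ∀ t, 0 ≤ F t) {H a b : ℝ} (hH : 0 ≤ H) :
    (∫ t in a..b, ∫ s in t..(t + H), F s) ≤ H * ∫ t in a..(b + H), F t ∧
    H * ∫ t in (a + H)..b, F t ≤ ∫ t in a..b, ∫ s in t..(t + H), F s := by
  obtain ⟨Φ, hΦ⟩ : ∃ Φ : ℝ → ℝ, Φ = fun t => ∫ s in (0 : ℝ)..t, F s := ⟨_, rfl⟩
  have hi : ∀ x y, IntervalIntegrable F volume x y := fun x y => hF.intervalIntegrable x y
  have hΦd : ∀ x y, ∫ s in x..y, F s = Φ y - Φ x := by
    intro x y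
    rw [hΦ]
    simp only
    rw [intervalIntegral.integral_interval_sub_left (hi _ _) (hi _ _)]
  have hΦc : Continuous Φ := by
    rw [hΦ]
    exact intervalIntegral.continuous_primitive (fun x y => hi x y) 0
  have hmono : Monotone Φ := by
    intro x y hxy
    have h1 := hΦd x y
    have h2 : 0 ≤ ∫ s in x..y, F s := intervalIntegral.integral_nonneg hxy fun s _ => h0 s
    linarith
  have hΦi : ∀ x y, IntervalIntegrable Φ volume x y := fun x y => hΦc.intervalIntegrable x y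
  have e1 : ∫ t in a..b, ∫ s in t..(t + H), F s = (∫ t in b..(b + H), Φ t) - ∫ t in a..(a + H), Φ t := by
    have e2 : ∀ t : ℝ, ∫ s in t..(t + H), F s = Φ (t + H) - Φ t := fun t => hΦd t (t + H)
    simp_rw [e2]
    have hc2 : Continuous fun t => Φ (t + H) := by fun_prop
    rw [intervalIntegral.integral_sub (hc2.intervalIntegrable _ _) (hΦi _ _),
      intervalIntegral.integral_comp_add_right (fun t => Φ t) H]
    have h3 := intervalIntegral.integral_add_adjacent_intervals (hΦi (a + H) b) (hΦi b (b + H))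
    have h4 := intervalIntegral.integral_add_adjacent_intervals (hΦi a (a + H)) (hΦi (a + H) b)
    linarith
  have hlen : ∀ x : ℝ, x ≤ x + H := fun x => by linarith
  have hup : ∀ x : ℝ, ∫ t in x..(x + H), Φ t ≤ H * Φ (x + H) := by
    intro x
    have h1 : ∫ t in x..(x + H), Φ t ≤ ∫ t in x..(x + H), Φ (x + H) :=
      intervalIntegral.integral_mono_on (hlen x) (hΦi _ _) (continuous_const.intervalIntegrable _ _)
        fun t ht => hmono ht.2
    rw [intervalIntegral.integral_const, smul_eq_mul, add_sub_cancel_left] at h1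
    exact h1
  have hdn : ∀ x : ℝ, H * Φ x ≤ ∫ t in x..(x + H), Φ t := by
    intro x
    have h1 : ∫ t in x..(x + H), Φ x ≤ ∫ t in x..(x + H), Φ t :=
      intervalIntegral.integral_mono_on (hlen x) (continuous_const.intervalIntegrable _ _) (hΦi _ _)
        fun t ht => hmono ht.1
    rw [intervalIntegral.integral_const, smul_eq_mul, add_sub_cancel_left] at h1
    exact h1
  rw [e1, hΦd a (b + H), hΦd (a + H) b]
  constructor
  · have h1 := hup b
    have h2 := hdn a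
    nlinarith
  · have h1 := hdn b
    have h2 := hup a
    nlinarith

/-- Cauchy–Schwarz on an interval -/
theorem csq {F : ℝ → ℝ} (hF : Continuous F) {H : ℝ} (hH : 0 < H) (t : ℝ) :
    (∫ s in t..(t + H), F s) ^ 2 ≤ H * ∫ s in t..(t + H), F s ^ 2 := by
  obtain ⟨m, hm⟩ : ∃ m : ℝ, m = (∫ s in t..(t + H), F s) / H := ⟨_, rfl⟩
  have h1 : 0 ≤ ∫ s in t..(t + H), (F s - m) ^ 2 :=
    intervalIntegral.integral_nonneg (by linarith) fun s _ => sq_nonneg _
  have h2 : ∫ s in t..(t + H), (F s - m) ^ 2 = (∫ s in t..(t + H), F s ^ 2) - 2 * m * (∫ s in t..(t + H), F s) +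
      m ^ 2 * H := by
    have e1 : ∀ s, (F s - m) ^ 2 = (F s ^ 2 - 2 * m * F s) + m ^ 2 := fun s => by ring
    simp_rw [e1]
    have c1 : Continuous fun s => F s ^ 2 := hF.pow 2
    have c2 : Continuous fun s => 2 * m * F s := hF.const_mul _
    have c12 : Continuous fun s => F s ^ 2 - 2 * m * F s := c1.sub c2
    rw [intervalIntegral.integral_add (c12.intervalIntegrable _ _) (continuous_const.intervalIntegrable _ _),
      intervalIntegral.integral_sub (c1.intervalIntegrable _ _) (c2.intervalIntegrable _ _),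
      intervalIntegral.integral_const_mul, intervalIntegral.integral_const, smul_eq_mul, add_sub_cancel_left]
    ring
  rw [h2] at h1
  have h3 : ∫ s in t..(t + H), F s = m * H := by rw [hm]; field_simp
  rw [h3] at h1 ⊢
  nlinarith

end Pool.Agent.K9h29.SP
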