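import Pool.Agent.K9h29.SP.Det1

set_option autoImplicit false

/-!
# Zeros on the line, for a set of primitive characters
-/

namespace Pool.Agent.K9h29.SP

open Complex Filter Topology MeasureTheory Set
open scoped ComplexConjugate
open Pool.Agent.Y671.GL
open Pool.Agent.K9h29.ZD (S_SCU tl TwF LD rgtU gro_all EG exists_entire)
open Pool.Agent.H24R2.DZ (ray MM)

variable {k N : ℕ} {ps lam : ℕ → ℂ} {P0 : ℕ} {th Cd : ℝ} {L : (q : ℕ) → DirichletCharacter ℂ q → ℂ → ℂ}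

/-- the indicator of an interval -/
noncomputable def ind (a b : ℝ) : ℝ → ℝ := (Ioo a b).indicator (fun _ => (1 : ℝ))

theorem ind_nonneg (a b t : ℝ) : 0 ≤ ind a b t := indicator_nonneg (fun _ _ => zero_le_one) t

theorem ind_int (a b : ℝ) : Integrable (ind a b) :=
  (integrable_indicator_iff measurableSet_Ioo).2 (integrableOn_const (by simp))

theorem ind_le {a b : ℝ} (hab : a ≤ b) {A B : ℝ} (hAB : A ≤ B) : ∫ t in A..B, ind a b t ≤ b - a := by
  rw [intervalIntegral.integral_of_le hAB]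
  refine (setIntegral_le_integral (ind_int a b) (Eventually.of_forall fun t => ind_nonneg a b t)).trans ?_
  unfold ind
  rw [integral_indicator measurableSet_Ioo, setIntegral_const, Real.volume_real_Ioo_of_le hab, smul_eq_mul, mul_one]

/-- **Counting for one function.** -/
theorem one_fun {h : ℝ → ℂ} (hc : Continuous h) {T1 T2 H lm lm' : ℝ} (h12 : T1 ≤ T2) (hH : 0 < H) (hlm : 0 < lm)
    (hlm' : 0 < lm') (Z : Finset ℝ)
    (hZ : ∀ t, T1 ≤ t → t ≤ T2 → ‖∫ s in t..(t + H), h s‖ ≠ ∫ s in t..(t + H), ‖h s‖ → ∃ u ∈ Z, t < u ∧ u < t + H) :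
    H * ∫ t in (T1 + H)..T2, ‖h t‖ ≤
      lm / 2 * H ^ 2 * (∫ t in T1..(T2 + H), ‖h t‖ ^ 2) + H / (2 * lm) * Z.card +
      lm' / 2 * (∫ t in T1..T2, ‖∫ s in t..(t + H), h s‖ ^ 2) + (T2 - T1) / (2 * lm') := by
  have hn : Continuous fun t => ‖h t‖ := hc.norm
  have hn2 : Continuous fun t => ‖h t‖ ^ 2 := hn.pow 2
  have d1 := (dbl (a := T1) (b := T2) hn (fun t => norm_nonneg _) hH.le).2
  have d2 := (dbl (a := T1) (b := T2) hn2 (fun t => by positivity) hH.le).1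
  refine d1.trans ?_
  -- continuity of the inner integrals
  have prim : ∀ {E : Type} [NormedAddCommGroup E] [NormedSpace ℝ E] [CompleteSpace E] {G : ℝ → E}, Continuous G →
      Continuous fun t : ℝ => ∫ s in t..(t + H), G s := by
    intro E _ _ _ G hG
    have e1 : (fun t : ℝ => ∫ s in t..(t + H), G s) = fun t => (∫ s in (0:ℝ)..(t + H), G s) - ∫ s in (0:ℝ)..t, G s := by
      funext t
      rw [intervalIntegral.integral_interval_sub_left (hG.intervalIntegrable _ _) (hG.intervalIntegrable _ _)]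
    rw [e1]
    have h1 := intervalIntegral.continuous_primitive (fun x y => hG.intervalIntegrable (μ := volume) x y) 0
    exact (h1.comp (continuous_id.add continuous_const)).sub h1
  have cg := prim hn
  have cg2 := prim hn2
  have ch := (prim hc).norm
  have ch2 : Continuous fun t : ℝ => ‖∫ s in t..(t + H), h s‖ ^ 2 := ch.pow 2
  -- the pointwise inequality
  have hpt : ∀ t ∈ Icc T1 T2, ∫ s in t..(t + H), ‖h s‖ ≤
      lm / 2 * (H * ∫ s in t..(t + H), ‖h s‖ ^ 2) + 1 / (2 * lm) * (∑ u ∈ Z, ind (u - H) u t) +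
      lm' / 2 * ‖∫ s in t..(t + H), h s‖ ^ 2 + 1 / (2 * lm') := by
    intro t ht
    obtain ⟨g, hg⟩ : ∃ g : ℝ, g = ∫ s in t..(t + H), ‖h s‖ := ⟨_, rfl⟩
    obtain ⟨m, hm⟩ : ∃ m : ℝ, m = ‖∫ s in t..(t + H), h s‖ := ⟨_, rfl⟩
    have hcs := csq hn hH t
    have hg0 : 0 ≤ g := by rw [hg]; exact intervalIntegral.integral_nonneg (by linarith) fun s _ => norm_nonneg _
    have hsum : 0 ≤ ∑ u ∈ Z, ind (u - H) u t := Finset.sum_nonneg fun u _ => ind_nonneg _ _ _
    rw [← hg] at hcs ⊢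
    rw [← hm]
    have am : ∀ (x l : ℝ), 0 < l → x ≤ l / 2 * x ^ 2 + 1 / (2 * l) := by
      intro x l hl
      have h1 : 0 ≤ (l * x - 1) ^ 2 := sq_nonneg _
      have h2 : l / 2 * x ^ 2 + 1 / (2 * l) - x = (l * x - 1) ^ 2 / (2 * l) := by
        field_simp
        ring
      have h3 : 0 ≤ (l * x - 1) ^ 2 / (2 * l) := by positivity
      linarith
    by_cases hne : m = g
    · have h1 := am m lm' hlm'
      have h2 : 0 ≤ lm / 2 * (H * ∫ s in t..(t + H), ‖h s‖ ^ 2) := by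
        have : 0 ≤ ∫ s in t..(t + H), ‖h s‖ ^ 2 :=
          intervalIntegral.integral_nonneg (by linarith) fun s _ => by positivity
        positivity
      have h3 : 0 ≤ 1 / (2 * lm) * (∑ u ∈ Z, ind (u - H) u t) := by positivity
      rw [← hne]
      linarith
    · obtain ⟨u, huZ, hu1, hu2⟩ := hZ t ht.1 ht.2 (by rw [← hg, ← hm]; exact hne)
      have h1 : (1 : ℝ) ≤ ∑ u ∈ Z, ind (u - H) u t := by
        have h2 : ind (u - H) u t = 1 := by
          unfold ind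
          rw [indicator_of_mem]
          exact ⟨by linarith, hu1⟩
        rw [← h2]
        exact Finset.single_le_sum (f := fun u => ind (u - H) u t) (fun v _ => ind_nonneg _ _ _) huZ
      have h2 := am g lm hlm
      have h3 : 0 ≤ lm' / 2 * m ^ 2 + 1 / (2 * lm') := by positivity
      have h4 : 1 / (2 * lm) * 1 ≤ 1 / (2 * lm) * (∑ u ∈ Z, ind (u - H) u t) := by gcongr
      have h5 : lm / 2 * g ^ 2 ≤ lm / 2 * (H * ∫ s in t..(t + H), ‖h s‖ ^ 2) := by gcongr
      linarith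
  have ii : ∀ u : ℝ, IntervalIntegrable (ind (u - H) u) volume T1 T2 := fun u => (ind_int _ _).intervalIntegrable
  have isum : IntervalIntegrable (fun t => ∑ u ∈ Z, ind (u - H) u t) volume T1 T2 := by
    have := IntervalIntegrable.sum (μ := volume) Z (f := fun u => ind (u - H) u) (fun u _ => ii u)
    simpa [Finset.sum_fn] using this
  have i1 : IntervalIntegrable (fun t => lm / 2 * (H * ∫ s in t..(t + H), ‖h s‖ ^ 2)) volume T1 T2 :=
    ((cg2.const_mul H).const_mul (lm / 2)).intervalIntegrable _ _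
  have i2 : IntervalIntegrable (fun t => 1 / (2 * lm) * (∑ u ∈ Z, ind (u - H) u t)) volume T1 T2 :=
    isum.const_mul _
  have i3 : IntervalIntegrable (fun t : ℝ => lm' / 2 * ‖∫ s in t..(t + H), h s‖ ^ 2) volume T1 T2 :=
    (ch2.const_mul _).intervalIntegrable _ _
  have i4 : IntervalIntegrable (fun _ : ℝ => 1 / (2 * lm')) volume T1 T2 := continuous_const.intervalIntegrable _ _
  have i12 : IntervalIntegrable (fun t => lm / 2 * (H * ∫ s in t..(t + H), ‖h s‖ ^ 2) +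
      1 / (2 * lm) * (∑ u ∈ Z, ind (u - H) u t)) volume T1 T2 := i1.add i2
  have i123 : IntervalIntegrable (fun t => lm / 2 * (H * ∫ s in t..(t + H), ‖h s‖ ^ 2) +
      1 / (2 * lm) * (∑ u ∈ Z, ind (u - H) u t) + lm' / 2 * ‖∫ s in t..(t + H), h s‖ ^ 2) volume T1 T2 := i12.add i3
  have i1234 : IntervalIntegrable (fun t => lm / 2 * (H * ∫ s in t..(t + H), ‖h s‖ ^ 2) +
      1 / (2 * lm) * (∑ u ∈ Z, ind (u - H) u t) + lm' / 2 * ‖∫ s in t..(t + H), h s‖ ^ 2 + 1 / (2 * lm'))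
      volume T1 T2 := i123.add i4
  refine (intervalIntegral.integral_mono_on h12 (cg.intervalIntegrable _ _) i1234 hpt).trans ?_
  rw [intervalIntegral.integral_add i123 i4, intervalIntegral.integral_add i12 i3, intervalIntegral.integral_add i1 i2,
    intervalIntegral.integral_const_mul, intervalIntegral.integral_const_mul, intervalIntegral.integral_const_mul,
    intervalIntegral.integral_const_mul, intervalIntegral.integral_const, smul_eq_mul,
    intervalIntegral.integral_finsetSum (fun u _ => ii u)]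
  have s1 : ∑ u ∈ Z, ∫ t in T1..T2, ind (u - H) u t ≤ H * Z.card := by
    calc ∑ u ∈ Z, ∫ t in T1..T2, ind (u - H) u t ≤ ∑ u ∈ Z, H := by
          refine Finset.sum_le_sum fun u _ => ?_
          have := ind_le (a := u - H) (b := u) (by linarith) h12
          linarith
      _ = _ := by rw [Finset.sum_const, nsmul_eq_mul, mul_comm]
  have t1 : lm / 2 * (H * ∫ t in T1..T2, ∫ s in t..(t + H), ‖h s‖ ^ 2) ≤
      lm / 2 * H ^ 2 * (∫ t in T1..(T2 + H), ‖h t‖ ^ 2) := by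
    calc lm / 2 * (H * ∫ t in T1..T2, ∫ s in t..(t + H), ‖h s‖ ^ 2) ≤
          lm / 2 * (H * (H * ∫ t in T1..(T2 + H), ‖h t‖ ^ 2)) := by gcongr
      _ = _ := by ring
  have t2 : 1 / (2 * lm) * ∑ u ∈ Z, ∫ t in T1..T2, ind (u - H) u t ≤ H / (2 * lm) * Z.card := by
    calc 1 / (2 * lm) * ∑ u ∈ Z, ∫ t in T1..T2, ind (u - H) u t ≤ 1 / (2 * lm) * (H * Z.card) := by gcongr
      _ = _ := by ring
  have t3 : (T2 - T1) * (1 / (2 * lm')) = (T2 - T1) / (2 * lm') := by ring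
  rw [t3]
  linarith

/-- **Many zeros on the line, for a set of primitive characters.** -/
theorem many (h0 : S_SCU) (hD : LD k N ps lam L) (hd : HD lam P0 th Cd) (ρ : ℝ) (hρ : 0 < ρ) :
    ∃ c T1 : ℝ, 0 < c ∧ 10 ≤ T1 ∧ ∀ (q : ℕ) [NeZero q], q.Coprime N →
    ∀ (S : Finset (DirichletCharacter ℂ q)), (∀ χ ∈ S, χ.IsPrimitive) → ∀ (T : ℝ), T1 ≤ T →
    ρ ^ 2 * ((q.totient : ℝ) ^ 2 / q) ≤ S.card →
    ∀ Z : DirichletCharacter ℂ q → Finset ℝ,
    (∀ χ ∈ S, ∀ u : ℝ, T < u → u < 2 * T → L q χ (1 / 2 + u * I) = 0 → u ∈ Z χ) →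
    c * S.card * T * Real.log (q * T) ≤ ∑ χ ∈ S, ((Z χ).card : ℝ) := by
  obtain ⟨θ, C, T0, hθ, hθ2, hC, hT0, hsec⟩ := sec h0 hD.tw hd
  have hA : SecA k N lam P0 θ C T0 := fun q _ hco S hS T hT => (hsec q hco S hS T hT).1
  obtain ⟨c, T1, hc, hT01, hfirst⟩ := first hD hd hC (by linarith) hA ρ hρ
  have hk := hD.tw.frm.k_pos
  obtain ⟨A0, hA0⟩ : ∃ A0 : ℝ, A0 = max 1 (4 * C / (c ^ 2 * ρ ^ 2)) := ⟨_, rfl⟩
  have hA01 : 1 ≤ A0 := by rw [hA0]; exact le_max_left _ _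
  have hA02 : 4 * C / (c ^ 2 * ρ ^ 2) ≤ A0 := by rw [hA0]; exact le_max_right _ _
  have hA0p : 0 < A0 := by linarith
  refine ⟨c ^ 2 * ρ ^ 2 / (4 * C * A0), max T1 (Real.exp A0), by positivity, ?_, ?_⟩
  · exact le_trans (by linarith) (le_max_left _ _)
  intro q _ hco S hS T hT hcard Z hZ
  have hT1 : T1 ≤ T := (le_max_left _ _).trans hT
  have hTT0 : T0 ≤ T := hT01.trans hT1
  have hT10 : 10 ≤ T := by linarith
  have hTp : 0 < T := by linarith
  have hq1 : (1 : ℝ) ≤ q := by exact_mod_cast Nat.pos_of_ne_zero (NeZero.ne q)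
  have hq0 : (0 : ℝ) < q := by linarith
  obtain ⟨Lg, hLg⟩ : ∃ Lg : ℝ, Lg = LL q T := ⟨_, rfl⟩
  have hLA : A0 ≤ Lg := by
    rw [hLg]
    unfold LL
    rw [Real.le_log_iff_exp_le (by positivity)]
    calc Real.exp A0 ≤ T := (le_max_right _ _).trans hT
      _ ≤ q * T := le_mul_of_one_le_left hTp.le hq1
  have hL0 : 0 < Lg := by linarith
  have hlog : Real.log (q * T) = Lg := by rw [hLg]; rfl
  rw [hlog]
  obtain ⟨H, hH⟩ : ∃ H : ℝ, H = A0 / Lg := ⟨_, rfl⟩
  have hH0 : 0 < H := by rw [hH]; positivity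
  have hH1 : H ≤ 1 := by rw [hH, div_le_one hL0]; exact hLA
  have hHL : 1 / Lg ≤ H := by rw [hH]; gcongr
  have hf := hfirst q hco S hS T hT1 hcard
  obtain ⟨s1, s2⟩ := hsec q hco S hS T hTT0
  have s1' := s1 T (2 * T - 1 + H) (by linarith)
  have s2' := s2 H T (2 * T - 1) (by rw [← hLg]; exact hHL) hH1 (by linarith)
  rw [← hLg] at s2'
  -- sizes
  obtain ⟨P, hP⟩ : ∃ P : ℝ, P = T * Real.sqrt (T ^ (k - 1)) := ⟨_, rfl⟩
  have hP0 : 0 < P := by rw [hP]; positivity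
  have hP2 : P ^ 2 = T * T ^ k := by
    rw [hP, mul_pow, Real.sq_sqrt (by positivity), pow_two, mul_assoc, ← pow_succ']
    congr 2
    omega
  rw [← hP] at hf
  rcases Nat.eq_zero_or_pos S.card with hn0 | hn0
  · rw [hn0]
    simp only [Nat.cast_zero, mul_zero, zero_mul]
    exact Finset.sum_nonneg fun χ _ => Nat.cast_nonneg _
  obtain ⟨n, hn⟩ : ∃ n : ℝ, n = S.card := ⟨_, rfl⟩
  have hnp : 0 < n := by rw [hn]; exact_mod_cast hn0
  rw [← hn] at hf hcard ⊢
  obtain ⟨Y, hY⟩ : ∃ Y : ℝ, Y = (q.totient : ℝ) ^ 2 / q := ⟨_, rfl⟩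
  rw [← hY] at hcard s1' s2'
  have hYn : Y ≤ n / ρ ^ 2 := by
    rw [le_div_iff₀ (by positivity)]
    linarith
  have hTk : 0 < T ^ k := by positivity
  obtain ⟨lm, hlm⟩ : ∃ lm : ℝ, lm = c * P * ρ ^ 2 / (2 * H * C * T ^ k) := ⟨_, rfl⟩
  have hlm0 : 0 < lm := by rw [hlm]; positivity
  obtain ⟨lm', hlm'⟩ : ∃ lm' : ℝ, lm' = 2 * T / (c * P * H) := ⟨_, rfl⟩
  have hlm'0 : 0 < lm' := by rw [hlm']; positivity
  -- one function
  have hone : ∀ χ ∈ S, H * ∫ t in (5 * T / 4)..(7 * T / 4), ‖Fq (Gc k N lam P0 θ T χ) t‖ ≤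
      lm / 2 * H ^ 2 * (∫ t in T..(2 * T - 1 + H), ‖Fq (Gc k N lam P0 θ T χ) t‖ ^ 2) + H / (2 * lm) * (Z χ).card +
      lm' / 2 * (∫ t in T..(2 * T - 1), ‖∫ s in t..(t + H), Fq (Gc k N lam P0 θ T χ) s‖ ^ 2) +
      (2 * T - 1 - T) / (2 * lm') := by
    intro χ hχ
    have hFc := Fq_cont (Gc_ed hD.tw hco (hS χ hχ) (P0 := P0) θ hT10)
    have h1 := one_fun hFc (T1 := T) (T2 := 2 * T - 1) (H := H) (lm := lm) (lm' := lm') (by linarith) hH0 hlm0 hlm'0
      (Z χ) (by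
        intro t ht1 ht2 hne
        obtain ⟨ω, r, hω, hr, hrz, hre⟩ := real_val (P0 := P0) hD hco (hS χ hχ) θ hT10
        have hMc : Continuous fun t : ℝ => ‖MM (yT θ (q * T)) (tl χ (bb lam P0 θ q T)) (1 / 2 + t * I)‖ ^ 2 := by
          have := (MM_diff (yT θ (q * T)) (tl χ (bb lam P0 θ q T))).continuous
          fun_prop
        obtain ⟨u, hu1, hu2, hu3⟩ := detect hω hr hMc (fun t => by positivity) hre hH0.le hne
        exact ⟨u, hZ χ hχ u (by linarith) (by linarith) (hrz u hu3), hu1, hu2⟩)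
    refine le_trans ?_ h1
    apply mul_le_mul_of_nonneg_left _ hH0.le
    apply intervalIntegral.integral_mono_interval (by linarith) (by linarith) (by linarith)
    · exact Eventually.of_forall fun t => norm_nonneg _
    · exact hFc.norm.intervalIntegrable _ _
  have hsum := Finset.sum_le_sum hone
  rw [← Finset.mul_sum, Finset.sum_add_distrib, Finset.sum_add_distrib, Finset.sum_add_distrib, ← Finset.mul_sum,
    ← Finset.mul_sum, ← Finset.mul_sum, Finset.sum_const, nsmul_eq_mul, ← hn] at hsum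
  obtain ⟨ZZ, hZZ⟩ : ∃ ZZ : ℝ, ZZ = ∑ χ ∈ S, ((Z χ).card : ℝ) := ⟨_, rfl⟩
  rw [← hZZ] at hsum ⊢
  have b0 : c * n * P * H ≤ H * ∑ χ ∈ S, ∫ t in (5 * T / 4)..(7 * T / 4), ‖Fq (Gc k N lam P0 θ T χ) t‖ := by
    have := mul_le_mul_of_nonneg_left hf hH0.le
    linarith
  have b1 : lm / 2 * H ^ 2 * (∑ χ ∈ S, ∫ t in T..(2 * T - 1 + H), ‖Fq (Gc k N lam P0 θ T χ) t‖ ^ 2) ≤
      c / 4 * n * P * H := by
    calc _ ≤ lm / 2 * H ^ 2 * (C * T ^ k * (n / ρ ^ 2)) := by
          apply mul_le_mul_of_nonneg_left _ (by positivity)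
          refine s1'.trans ?_
          gcongr
      _ = _ := by
          rw [hlm]
          field_simp
          ring
  have b2 : lm' / 2 * (∑ χ ∈ S, ∫ t in T..(2 * T - 1), ‖∫ s in t..(t + H), Fq (Gc k N lam P0 θ T χ) s‖ ^ 2) ≤
      c / 4 * n * P * H := by
    calc _ ≤ lm' / 2 * (C * T ^ k * (n / ρ ^ 2) * (H / Lg)) := by
          apply mul_le_mul_of_nonneg_left _ (by positivity)
          refine s2'.trans ?_
          gcongr
      _ = (4 * C / (c ^ 2 * ρ ^ 2)) * (T * T ^ k) * c * n / (4 * P * Lg) := by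
          rw [hlm']
          field_simp
      _ = (4 * C / (c ^ 2 * ρ ^ 2)) * (c / 4 * n * P / Lg) := by
          rw [← hP2]
          field_simp
      _ ≤ A0 * (c / 4 * n * P / Lg) := by gcongr
      _ = _ := by
          rw [hH]
          ring
  have b3 : n * ((2 * T - 1 - T) / (2 * lm')) ≤ c / 4 * n * P * H := by
    have e1 : (2 * T - 1 - T) / (2 * lm') ≤ T / (2 * lm') := by gcongr; linarith
    have e2 : T / (2 * lm') = c / 4 * P * H := by
      rw [hlm']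
      field_simp
      ring
    rw [e2] at e1
    calc n * ((2 * T - 1 - T) / (2 * lm')) ≤ n * (c / 4 * P * H) := by gcongr
      _ = _ := by ring
  have b4 : c / 4 * n * P * H ≤ H / (2 * lm) * ZZ := by linarith
  have b5 := mul_le_mul_of_nonneg_left b4 (show 0 ≤ 2 * lm / H by positivity)
  have e5 : 2 * lm / H * (H / (2 * lm) * ZZ) = ZZ := by field_simp
  rw [e5] at b5
  refine le_trans (le_of_eq ?_) b5
  have e6 : 2 * lm / H * (c / 4 * n * P * H) = c ^ 2 * ρ ^ 2 * n * P ^ 2 / (4 * C * H * T ^ k) := by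
    rw [hlm]
    field_simp
  rw [e6, hP2, hH]
  field_simp

end Pool.Agent.K9h29.SP
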