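import Pool.Agent.Y412.GL.RYP

set_option autoImplicit false

/-!
# Fourier coefficients of products of two series
-/

namespace Pool.Agent.K9h29.SP

open Complex Finset MeasureTheory
open scoped ComplexConjugate

theorem int_exp2 (n : ℤ) : ∫ u in (0 : ℝ)..(2 * Real.pi), cexp (I * n * u) = if n = 0 then (2 * Real.pi : ℂ) else 0 := by
  split_ifs with h
  · subst h
    simp
  · exact Pool.Agent.Y412.GLP.int_exp_two_pi n h

/-- one term of the double series -/
noncomputable def dt (c d : ℕ → ℂ) (V V' : ℝ) (x : ℕ × ℕ) : ℂ :=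
  c x.1 * conj (d x.2) * ((Real.exp (-(x.1 * V + x.2 * V')) : ℝ) : ℂ)

theorem norm_dt (c d : ℕ → ℂ) (V V' : ℝ) (x : ℕ × ℕ) :
    ‖dt c d V V' x‖ = (‖c x.1‖ * Real.exp (-(x.1 * V))) * (‖d x.2‖ * Real.exp (-(x.2 * V'))) := by
  unfold dt
  rw [norm_mul, norm_mul, RCLike.norm_conj, Complex.norm_real, Real.norm_of_nonneg (Real.exp_pos _).le]
  have : -(x.1 * V + x.2 * V') = -(x.1 * V) + -(x.2 * V') := by ring
  rw [this, Real.exp_add]
  ring

theorem dt_summable {c d : ℕ → ℂ} {V V' : ℝ} (hc : Summable fun m : ℕ => ‖c m‖ * Real.exp (-(m * V)))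
    (hd : Summable fun m : ℕ => ‖d m‖ * Real.exp (-(m * V'))) : Summable fun x : ℕ × ℕ => ‖dt c d V V' x‖ := by
  simp only [norm_dt]
  exact hc.mul_of_nonneg hd (fun m => by positivity) (fun m => by positivity)

theorem dser {c d : ℕ → ℂ} (a a' : ℕ) {V V' : ℝ} (hc : Summable fun m : ℕ => ‖c m‖ * Real.exp (-(m * V)))
    (hd : Summable fun m : ℕ => ‖d m‖ * Real.exp (-(m * V'))) (r : ℤ) :
    ∫ u in (0 : ℝ)..(2 * Real.pi), (∑' m : ℕ, c m * cexp (-(m * (V + (a * u) * I)))) *
      conj (∑' m : ℕ, d m * cexp (-(m * (V' + (a' * u) * I)))) * cexp (I * r * u) =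
    ∑' x : ℕ × ℕ, if (a : ℤ) * x.1 - a' * x.2 = r then 2 * Real.pi * dt c d V V' x else 0 := by
  have hD := dt_summable hc hd
  have hn : ∀ (x y : ℝ) , ‖cexp (-(x * (V + y * I)))‖ = Real.exp (-(x * V)) := by
    intro x y
    rw [Complex.norm_exp]
    congr 1
    simp
  have hc1 : ∀ u : ℝ, Summable fun m : ℕ => ‖c m * cexp (-(m * (V + (a * u) * I)))‖ := by
    intro u
    refine hc.congr fun m => ?_
    rw [norm_mul]
    have := hn m (a * u)
    push_cast at this
    rw [this]
  have hn' : ∀ (x y : ℝ) , ‖cexp (-(x * (V' + y * I)))‖ = Real.exp (-(x * V')) := by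
    intro x y
    rw [Complex.norm_exp]
    congr 1
    simp
  have hd1 : ∀ u : ℝ, Summable fun m : ℕ => ‖conj (d m * cexp (-(m * (V' + (a' * u) * I))))‖ := by
    intro u
    refine hd.congr fun m => ?_
    rw [RCLike.norm_conj, norm_mul]
    have := hn' m (a' * u)
    push_cast at this
    rw [this]
  have e1 : ∀ u : ℝ, (∑' m : ℕ, c m * cexp (-(m * (V + (a * u) * I)))) *
      conj (∑' m : ℕ, d m * cexp (-(m * (V' + (a' * u) * I)))) * cexp (I * r * u) =
      ∑' x : ℕ × ℕ, dt c d V V' x * cexp (I * ((r - (a * x.1 - a' * x.2) : ℤ) : ℂ) * u) := by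
    intro u
    rw [Complex.conj_tsum, tsum_mul_tsum_of_summable_norm (hc1 u) (hd1 u), ← tsum_mul_right]
    refine tsum_congr fun x => ?_
    unfold dt
    rw [map_mul, ← Complex.exp_conj]
    have e2 : cexp (-(x.1 * (V + (a * u) * I))) * cexp (conj (-(x.2 * (V' + (a' * u) * I)))) * cexp (I * r * u) =
        ((Real.exp (-(x.1 * V + x.2 * V')) : ℝ) : ℂ) * cexp (I * ((r - (a * x.1 - a' * x.2) : ℤ) : ℂ) * u) := by
      rw [Complex.ofReal_exp, ← Complex.exp_add, ← Complex.exp_add, ← Complex.exp_add]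
      congr 1
      simp only [map_neg, map_mul, map_add, Complex.conj_natCast, Complex.conj_ofReal, Complex.conj_I]
      push_cast
      ring
    calc c x.1 * cexp (-(x.1 * (V + (a * u) * I))) * (conj (d x.2) * cexp (conj (-(x.2 * (V' + (a' * u) * I))))) *
          cexp (I * r * u) = c x.1 * conj (d x.2) * (cexp (-(x.1 * (V + (a * u) * I))) *
          cexp (conj (-(x.2 * (V' + (a' * u) * I)))) * cexp (I * r * u)) := by ring
      _ = _ := by rw [e2]; ring
  simp_rw [e1]
  have hnorm : ∀ (x : ℕ × ℕ) (u : ℝ), ‖dt c d V V' x * cexp (I * ((r - (a * x.1 - a' * x.2) : ℤ) : ℂ) * u)‖ =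
      ‖dt c d V V' x‖ := by
    intro x u
    rw [norm_mul, Complex.norm_exp]
    have : (I * ((r - (a * x.1 - a' * x.2) : ℤ) : ℂ) * u).re = 0 := by simp
    rw [this, Real.exp_zero, mul_one]
  have hS := hasSum_integral_of_summable_integral_norm (μ := volume.restrict (Set.Ioc (0 : ℝ) (2 * Real.pi)))
    (F := fun (x : ℕ × ℕ) (u : ℝ) => dt c d V V' x * cexp (I * ((r - (a * x.1 - a' * x.2) : ℤ) : ℂ) * u))
    (fun x => by
      apply Continuous.integrableOn_Ioc
      fun_prop)
    (by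
      simp_rw [hnorm]
      simp only [integral_const, smul_eq_mul]
      exact hD.mul_left _)
  rw [intervalIntegral.integral_of_le (by positivity), ← hS.tsum_eq]
  refine tsum_congr fun x => ?_
  rw [← intervalIntegral.integral_of_le (by positivity), intervalIntegral.integral_const_mul, int_exp2]
  by_cases h : (a : ℤ) * x.1 - a' * x.2 = r
  · rw [if_pos h, if_pos (by omega)]
    ring
  · rw [if_neg h, if_neg (by omega), mul_zero]

end Pool.Agent.K9h29.SP
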