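import Pool.Agent.K9h29.SP.All
import Pool.Agent.K9h29.ZD.QFin

set_option autoImplicit false

/-!
# The twists of a newform: zeros on the line
-/

namespace Pool.Agent.K9h29.SP

open Complex Filter Topology MeasureTheory Set MatrixGroups CongruenceSubgroup
open UpperHalfPlane hiding I
open scoped ComplexConjugate
open Pool.Agent.Y671.GL Pool.Agent.Y771.NF Pool.Agent.Y693.GL
open W388 (FE2)
open Pool.Agent.H82R3.EK (cnt)
open Pool.Agent.K9h29.ZD (S_SCU tl TwF LD ld_newf cnt_fin cnt_mono off off_le off_bdd Rt Rt_bdd tot_win scU)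

/-- the data for the mollifier -/
theorem hd_of {k N : ℕ} {ps lam : ℕ → ℂ} (hf : Frm k N ps lam) (hr : ∀ n, conj (lam n) = lam n) {P0 : ℕ}
    (hP : 100 ≤ P0) (h2 : ∀ p : ℕ, p.Prime → P0 < p → ‖lam p‖ ≤ 2) : ∃ th Cd : ℝ, HD lam P0 th Cd := by
  obtain ⟨th, C, h0, h1, hb⟩ := hf.ram
  refine ⟨th, max 1 C, hf.zero, hf.one, hf.mul, hr, hP, h2, ?_, h0, h1, le_max_left _ _, fun n hn => ?_⟩
  · intro p v hp hpP
    have hp2 := h2 p hp hpP
    have key : ∀ v : ℕ, ‖lam (p ^ v)‖ ≤ 3 ^ v ∧ ‖lam (p ^ (v + 1))‖ ≤ 3 ^ (v + 1) := by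
      intro v
      induction v with
      | zero =>
        rw [pow_zero, hf.one, norm_one, pow_zero, zero_add, pow_one, pow_one]
        exact ⟨le_rfl, by linarith⟩
      | succ v ih =>
        refine ⟨ih.2, ?_⟩
        rw [hf.pow p v hp]
        have h3 := hf.ps_le p
        have h4 : (0 : ℝ) < 3 ^ v := by positivity
        calc ‖lam p * lam (p ^ (v + 1)) - ps p * lam (p ^ v)‖ ≤
              ‖lam p‖ * ‖lam (p ^ (v + 1))‖ + ‖ps p‖ * ‖lam (p ^ v)‖ := by
                refine (norm_sub_le _ _).trans ?_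
                rw [norm_mul, norm_mul]
          _ ≤ 2 * 3 ^ (v + 1) + 1 * 3 ^ v := by
                have := ih.1
                have := ih.2
                gcongr
          _ ≤ 3 ^ (v + 1 + 1) := by
                have e1 : (3 : ℝ) ^ (v + 1) = 3 ^ v * 3 := pow_succ _ _
                have e2 : (3 : ℝ) ^ (v + 1 + 1) = 3 ^ v * 3 * 3 := by rw [pow_succ, e1]
                rw [e1, e2]
                linarith
    exact (key v).1
  · refine (hb n hn).trans ?_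
    have := le_max_right 1 C
    gcongr

/-- the zeros on the line -/
def lin (T : ℝ) : Set ℂ := {s : ℂ | s.re = 1 / 2 ∧ 0 < s.im ∧ s.im ≤ T}

/-- the zeros in the strip -/
def stp (T : ℝ) : Set ℂ := {s : ℂ | 0 < s.re ∧ s.re < 1 ∧ 0 < s.im ∧ s.im ≤ T}

theorem stp_off (T : ℝ) : stp T ⊆ off 0 T := by
  rintro s ⟨h1, h2, h3, h4⟩
  exact ⟨h1, h2, abs_nonneg _, by rw [abs_of_pos h3]; exact h4⟩

theorem lin_stp (T : ℝ) : lin T ⊆ stp T := by
  rintro s ⟨h1, h2, h3⟩
  exact ⟨by rw [h1]; norm_num, by rw [h1]; norm_num, h2, h3⟩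

theorem stp_bdd (T : ℝ) : Bornology.IsBounded (stp T) := (off_bdd 0 T).subset (stp_off T)

theorem lin_bdd (T : ℝ) : Bornology.IsBounded (lin T) := (stp_bdd T).subset (lin_stp T)

variable {k N : ℕ} {ps lam : ℕ → ℂ} {L : (q : ℕ) → DirichletCharacter ℂ q → ℂ → ℂ}

/-- the number of all zeros of one L-function -/
theorem stp_le (hD : LD k N ps lam L) (hr : ∀ n, conj (lam n) = lam n) : ∃ C : ℝ, 0 < C ∧
    ∀ (q : ℕ) [NeZero q] (χ : DirichletCharacter ℂ q), χ.IsPrimitive → q.Coprime N → ∀ T : ℝ, 10 ≤ T →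
    (cnt (L q χ) (stp T) : ℝ) ≤ C * T * Real.log (q * T) := by
  obtain ⟨C, hC, htot⟩ := tot_win hD
  refine ⟨4 * C, by positivity, fun q _ χ hχ hco T hT => ?_⟩
  have hT0 : 0 ≤ T := by linarith
  have hone : ∀ χ : DirichletCharacter ℂ q, χ.IsPrimitive →
      (cnt (L q χ) (Rt (1 / 2) (-T) T) : ℝ) ≤ C * T * Real.log (q * T) := by
    intro χ hχ
    have hfin := hD.fin hχ hco (Rt_bdd (1 / 2) (-T) T)
    rw [cnt_fin hfin]
    push_cast
    refine htot q χ hχ hco T hfin.toFinset hT fun ρ hρ => ?_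
    rw [Set.Finite.mem_toFinset] at hρ
    obtain ⟨⟨h1, h2, h3, h4⟩, -⟩ := hρ
    refine ⟨h1, h2, ?_⟩
    rw [abs_le]
    constructor <;> linarith
  have h1 := off_le hD hr hχ (inv_prim hχ) hco (δ := 0) (T := T) (T0 := T) le_rfl hT0 le_rfl
  rw [add_zero] at h1
  have h2 : cnt (L q χ) (stp T) ≤ cnt (L q χ) (off 0 T) := cnt_mono (stp_off T) (hD.fin hχ hco (off_bdd 0 T))
  have h3 : (cnt (L q χ) (stp T) : ℝ) ≤ 2 * (cnt (L q χ) (Rt (1 / 2) (-T) T) : ℝ) +
      2 * (cnt (L q χ⁻¹) (Rt (1 / 2) (-T) T) : ℝ) := by exact_mod_cast h2.trans h1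
  have h4 := hone χ hχ
  have h5 := hone χ⁻¹ (inv_prim hχ)
  linarith

/-- **Zeros on the line, for a set of characters of positive density.** -/
theorem lin_ge (h0 : S_SCU) (hD : LD k N ps lam L) {P0 : ℕ} {th Cd : ℝ} (hd : HD lam P0 th Cd) (ε : ℝ) (hε : 0 < ε) :
    ∃ c T1 : ℝ, 0 < c ∧ 10 ≤ T1 ∧ ∀ (q : ℕ) [NeZero q], q.Coprime N →
    ∀ G : Finset (DirichletCharacter ℂ q), ε * q.totient ≤ G.card → ∀ (T : ℝ), T1 ≤ T →
    c * G.card * T * Real.log (q * T) ≤ ∑ χ ∈ G, (cnt (L χ.conductor χ.primitiveCharacter) (lin T) : ℝ) := by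
  classical
  obtain ⟨c, T1, hc, hT1, hmany⟩ := many_all h0 hD hd ε hε
  refine ⟨c / 4, 2 * T1, by positivity, by linarith, ?_⟩
  intro q _ hco G hG T hT
  have hTh : T1 ≤ T / 2 := by linarith
  have hT0 : 0 < T := by linarith
  have hq1 : (1 : ℝ) ≤ q := by exact_mod_cast Nat.one_le_iff_ne_zero.2 (NeZero.ne q)
  obtain ⟨Z, hZ⟩ : ∃ Z : (d : ℕ) → DirichletCharacter ℂ d → Finset ℝ, Z = fun d ψ =>
      if h : {s : ℂ | s ∈ lin T ∧ L d ψ s = 0}.Finite then h.toFinset.image Complex.im else ∅ := ⟨_, rfl⟩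
  have hZv : ∀ (d : ℕ) (ψ : DirichletCharacter ℂ d) (h : {s : ℂ | s ∈ lin T ∧ L d ψ s = 0}.Finite),
      Z d ψ = h.toFinset.image Complex.im := by
    intro d ψ h
    rw [hZ]
    simp only [dif_pos h]
  have hne : ∀ d : ℕ, d ∣ q → NeZero d := fun d hdq => ⟨fun h => by
    rw [h] at hdq
    exact (NeZero.ne q) (Nat.eq_zero_of_zero_dvd hdq)⟩
  have h1 := hmany q hco G hG (T / 2) hTh Z (by
    intro d ψ hdq hψ u hu1 hu2 hu3
    haveI := hne d hdq
    rw [hZv d ψ (hD.fin hψ (Nat.Coprime.coprime_dvd_left hdq hco) (lin_bdd T)), Finset.mem_image]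
    refine ⟨1 / 2 + u * I, ?_, by simp⟩
    rw [Set.Finite.mem_toFinset]
    refine ⟨⟨by simp, ?_, ?_⟩, hu3⟩
    · simp
      linarith
    · simp
      linarith)
  refine le_trans ?_ (h1.trans (Finset.sum_le_sum fun χ _ => ?_))
  · have hlog : Real.log (q * T) ≤ 2 * Real.log (q * (T / 2)) := by
      have e1 : 2 * Real.log (q * (T / 2)) = Real.log ((q * (T / 2)) ^ 2) := by
        rw [Real.log_pow]; push_cast; ring
      rw [e1]
      apply Real.log_le_log (by positivity)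
      have h4 : 4 ≤ q * T := by nlinarith
      nlinarith
    calc c / 4 * G.card * T * Real.log (q * T) ≤ c / 4 * G.card * T * (2 * Real.log (q * (T / 2))) := by gcongr
      _ = _ := by ring
  · have hdq : χ.conductor ∣ q := χ.conductor_dvd_level
    haveI := hne _ hdq
    have hfin := hD.fin χ.primitiveCharacter_isPrimitive (Nat.Coprime.coprime_dvd_left hdq hco) (lin_bdd T)
    rw [hZv _ _ hfin, cnt_fin hfin]
    have h5 : (hfin.toFinset.image Complex.im).card ≤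
        ∑ s ∈ hfin.toFinset, analyticOrderNatAt (L χ.conductor χ.primitiveCharacter) s := by
      refine Finset.card_image_le.trans ?_
      rw [Finset.card_eq_sum_ones]
      refine Finset.sum_le_sum fun s hs => ?_
      rw [Set.Finite.mem_toFinset] at hs
      have hd' := (hD.isL _ _ χ.primitiveCharacter_isPrimitive (Nat.Coprime.coprime_dvd_left hdq hco)).diff
      have hne0 : analyticOrderAt (L χ.conductor χ.primitiveCharacter) s ≠ 0 := by
        rw [Ne, (hd'.analyticAt s).analyticOrderAt_eq_zero, not_not]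
        exact hs.2
      have hnt : analyticOrderAt (L χ.conductor χ.primitiveCharacter) s ≠ ⊤ :=
        H370.Loc.order_ne_top (K := Set.univ) isPreconnected_univ (fun z _ => hd'.analyticAt z)
          (Set.mem_univ _) (hD.two_ne χ.primitiveCharacter_isPrimitive (Nat.Coprime.coprime_dvd_left hdq hco))
          (Set.mem_univ s)
      rw [Nat.one_le_iff_ne_zero]
      intro h6
      unfold analyticOrderNatAt at h6
      rw [ENat.toNat_eq_zero] at h6
      rcases h6 with h6 | h6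
      · exact hne0 h6
      · exact hnt h6
    exact_mod_cast h5

/-- **Zeros of the twists of a newform on the line.** -/
theorem newf_line {N : ℕ} [NeZero N] {k : ℕ} {f : CuspForm (Gamma0 N : Subgroup (GL (Fin 2) ℝ)) (k : ℤ)} {ε : ℝ}
    (hk : 1 ≤ k) (hf : W388.IsNewf N k f ε) {P0 : ℕ} (h2 : ∀ p : ℕ, p.Prime → P0 < p → ‖(W388.lamf f p : ℂ)‖ ≤ 2) :
    ∃ L : (q : ℕ) → DirichletCharacter ℂ q → ℂ → ℂ,
      (∀ (q : ℕ) (χ : DirichletCharacter ℂ q), 1 ≤ q → q.Coprime N → χ.IsPrimitive →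
        Differentiable ℂ (L q χ) ∧ (∀ z, analyticOrderAt (L q χ) z ≠ ⊤) ∧
        (∀ W : Set ℂ, Bornology.IsBounded W → {s | s ∈ W ∧ L q χ s = 0}.Finite) ∧ ∀ s : ℂ, 1 < s.re →
        HasProd (fun p : Nat.Primes =>
          (1 - χ ((p : ℕ) : ZMod q) * (W388.lamf f p : ℂ) * ((p : ℕ) : ℂ) ^ (-s) +
            (if (p : ℕ) ∣ N then 0 else
              χ ((p : ℕ) : ZMod q) ^ 2 * ((p : ℕ) : ℂ) ^ (-2 * s)))⁻¹) (L q χ s)) ∧
      ∃ C : ℝ, 0 < C ∧ ∀ η : ℝ, 0 < η → ∃ c T0 : ℝ, 0 < c ∧ 10 ≤ T0 ∧ ∀ q : ℕ, 1 ≤ q → q.Coprime N →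
        ∀ G : Finset (DirichletCharacter ℂ q), η * q.totient ≤ G.card → ∀ T : ℝ, T0 ≤ T →
        c * G.card * T * Real.log (q * T) ≤ ∑ χ ∈ G, (cnt (L χ.conductor χ.primitiveCharacter) (lin T) : ℝ) ∧
        ∑ χ ∈ G, (cnt (L χ.conductor χ.primitiveCharacter) (stp T) : ℝ) ≤ C * G.card * T * Real.log (q * T) := by
  obtain ⟨L, hD, hprod⟩ := ld_newf hk hf
  have hr : ∀ n, conj (lm f n) = lm f n := fun n => by unfold lm; simp
  refine ⟨L, fun q χ hq hco hχ => ?_, ?_⟩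
  · haveI : NeZero q := ⟨by omega⟩
    have hd := (hD.isL q χ hχ hco).diff
    refine ⟨hd, fun z => ?_, fun W hW => hD.fin hχ hco hW, hprod q χ hq hco hχ⟩
    exact H370.Loc.order_ne_top (K := Set.univ) isPreconnected_univ (fun z _ => hd.analyticAt z)
      (Set.mem_univ _) (hD.two_ne hχ hco) (Set.mem_univ z)
  · obtain ⟨th, Cd, hHD⟩ := hd_of (P0 := max 100 P0) hD.tw.frm hr (le_max_left _ _) (fun p hp hpP =>
      h2 p hp (lt_of_le_of_lt (le_max_right _ _) hpP))
    obtain ⟨C, hC, hup⟩ := stp_le hD hr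
    refine ⟨C, hC, fun η hη => ?_⟩
    obtain ⟨c, T1, hc, hT1, hlow⟩ := lin_ge (scU Pool.Agent.Y809.GL.jut) hD hHD η hη
    refine ⟨c, T1, hc, hT1, fun q hq hco G hG T hT => ?_⟩
    haveI : NeZero q := ⟨by omega⟩
    refine ⟨hlow q hco G hG T hT, ?_⟩
    have hT0 : 0 < T := by linarith
    have h1 : ∀ χ ∈ G, (cnt (L χ.conductor χ.primitiveCharacter) (stp T) : ℝ) ≤ C * T * Real.log (q * T) := by
      intro χ _
      have hdq : χ.conductor ∣ q := χ.conductor_dvd_level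
      haveI : NeZero χ.conductor := ⟨fun h => by
        rw [h] at hdq
        exact (NeZero.ne q) (Nat.eq_zero_of_zero_dvd hdq)⟩
      refine (hup χ.conductor χ.primitiveCharacter χ.primitiveCharacter_isPrimitive
        (Nat.Coprime.coprime_dvd_left hdq hco) T (hT1.trans hT)).trans ?_
      have hc1 : (1 : ℝ) ≤ χ.conductor := by exact_mod_cast Nat.one_le_iff_ne_zero.2 (NeZero.ne χ.conductor)
      have hcq : (χ.conductor : ℝ) ≤ q := by exact_mod_cast Nat.le_of_dvd (by omega) hdq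
      have : Real.log (χ.conductor * T) ≤ Real.log (q * T) := Real.log_le_log (by positivity) (by gcongr)
      gcongr
    refine (Finset.sum_le_sum h1).trans (le_of_eq ?_)
    rw [Finset.sum_const, nsmul_eq_mul]
    ring

end Pool.Agent.K9h29.SP
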