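import Pool.Agent.Y494.GL.FJ1

set_option autoImplicit false

/-!
# Intervals and Fourier coefficients of a periodic function: a variant with a sum
-/

namespace Pool.Agent.K9h29.SP

open Complex Filter Topology MeasureTheory Set
open scoped ComplexConjugate
open Pool.Agent.Y494.GL (cover cover' pp pp_cont pp_lower pp_sq)

theorem windowS (f : ℝ → ℝ) (hf : Continuous f) (h0 : ∀ x, 0 ≤ f x)
    (hp : Function.Periodic f (2 * Real.pi)) (m : ℝ) (R : ℕ) (hm : 0 ≤ m) (hR : 1 ≤ R)
    (h : ∑ r ∈ (Finset.Ioo (-(R : ℤ)) R).erase 0,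
      ‖∫ u in (0 : ℝ)..(2 * Real.pi), (f u : ℂ) * cexp (I * r * u)‖ ≤ m) (a : ℝ) :
    ∫ u in a..(a + 2 / R), f u ≤ 4 / R * ((∫ u in (0 : ℝ)..(2 * Real.pi), f u) + m) := by
  have hR0 : (0 : ℝ) < R := by exact_mod_cast hR
  have hR1 : (1 : ℝ) ≤ R := by exact_mod_cast hR
  set b : ℝ := a + 1 / R with hb
  have hpi := Real.pi_gt_three
  have hinv : 1 / (R : ℝ) ≤ 1 := by rw [div_le_one hR0]; exact hR1
  have hinv0 : 0 < 1 / (R : ℝ) := by positivity
  set G : ℝ → ℝ := fun u => 4 / (R : ℝ) ^ 2 * (f u * ‖pp R (u - b)‖ ^ 2) with hG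
  have hGc : Continuous G := by
    have := pp_cont R
    simp only [hG]
    fun_prop
  have hG0 : ∀ u, 0 ≤ G u := fun u => by
    have := h0 u
    simp only [hG]; positivity
  have e1 : ∫ u in a..(a + 2 / R), f u ≤ ∫ u in a..(a + 2 / R), G u := by
    apply intervalIntegral.integral_mono_on (by linarith [show 0 < 2 / (R : ℝ) by positivity])
      (hf.intervalIntegrable _ _) (hGc.intervalIntegrable _ _)
    intro u hu
    have h1 : |u - b| * R ≤ 1 := by
      have : |u - b| ≤ 1 / R := by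
        rw [abs_le]
        have e : 2 / (R : ℝ) = 1 / R + 1 / R := by ring
        rw [e] at hu
        constructor <;> [linarith [hu.1]; linarith [hu.2]]
      rwa [le_div_iff₀ hR0] at this
    have h2 := pp_lower R (u - b) h1
    have h3 : (R : ℝ) ^ 2 / 4 ≤ ‖pp R (u - b)‖ ^ 2 := by nlinarith
    have h4 : f u = 4 / (R : ℝ) ^ 2 * (f u * ((R : ℝ) ^ 2 / 4)) := by field_simp
    simp only [hG]
    calc f u = _ := h4
      _ ≤ _ := mul_le_mul_of_nonneg_left (mul_le_mul_of_nonneg_left h3 (h0 u)) (by positivity)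
  have e2 : ∫ u in a..(a + 2 / R), G u ≤ ∫ u in (b - Real.pi)..(b - Real.pi + 2 * Real.pi), G u := by
    apply intervalIntegral.integral_mono_interval
    · simp only [hb]; linarith
    · linarith [show 0 < 2 / (R : ℝ) by positivity]
    · have e : 2 / (R : ℝ) = 1 / R + 1 / R := by ring
      rw [e]; simp only [hb]; linarith
    · exact Filter.Eventually.of_forall (fun x => hG0 x)
    · exact hGc.intervalIntegrable _ _
  have e3 : ∫ u in (b - Real.pi)..(b - Real.pi + 2 * Real.pi), G u = ∫ u in (0 : ℝ)..(2 * Real.pi), G u := by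
    have hGp : Function.Periodic G (2 * Real.pi) := by
      intro u
      simp only [hG]
      rw [hp u]
      congr 3
      unfold pp
      congr 1
      refine Finset.sum_congr rfl fun j _ => ?_
      rw [Complex.exp_eq_exp_iff_exists_int]
      exact ⟨j, by push_cast; ring⟩
    have := hGp.intervalIntegral_add_eq (b - Real.pi) 0
    rw [this, zero_add]
  have e4 : (((∫ u in (0 : ℝ)..(2 * Real.pi), G u) : ℝ) : ℂ) = 4 / (R : ℂ) ^ 2 *
      ∑ j ∈ Finset.range R, ∑ k ∈ Finset.range R,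
        (∫ u in (0 : ℝ)..(2 * Real.pi), (f u : ℂ) * cexp (I * ((j : ℤ) - (k : ℤ) : ℤ) * u)) *
          cexp (-(I * ((j : ℤ) - (k : ℤ) : ℤ) * b)) := by
    rw [← intervalIntegral.integral_ofReal]
    have : ∀ u : ℝ, ((G u : ℝ) : ℂ) = 4 / (R : ℂ) ^ 2 * ∑ j ∈ Finset.range R, ∑ k ∈ Finset.range R,
        ((f u : ℂ) * cexp (I * ((j : ℤ) - (k : ℤ) : ℤ) * u)) *
          cexp (-(I * ((j : ℤ) - (k : ℤ) : ℤ) * b)) := by
      intro u
      simp only [hG]
      rw [Complex.ofReal_mul, Complex.ofReal_mul, pp_sq]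
      push_cast
      congr 1
      rw [Finset.mul_sum]
      refine Finset.sum_congr rfl fun j _ => ?_
      rw [Finset.mul_sum]
      refine Finset.sum_congr rfl fun k _ => ?_
      rw [mul_assoc (f u : ℂ) (cexp _) (cexp _), ← Complex.exp_add]
      congr 2
      ring
    simp_rw [this]
    rw [intervalIntegral.integral_const_mul, intervalIntegral.integral_finsetSum]
    · congr 1
      refine Finset.sum_congr rfl fun j _ => ?_
      rw [intervalIntegral.integral_finsetSum]
      · refine Finset.sum_congr rfl fun k _ => ?_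
        rw [intervalIntegral.integral_mul_const]
      · intro k _
        apply Continuous.intervalIntegrable
        fun_prop
    · intro j _
      apply Continuous.intervalIntegrable
      fun_prop
  set J : ℝ := ∫ u in (0 : ℝ)..(2 * Real.pi), f u with hJ
  have hJ0 : 0 ≤ J := intervalIntegral.integral_nonneg (by positivity) (fun u _ => h0 u)
  obtain ⟨c, hc⟩ : ∃ c : ℤ → ℝ, c = fun r : ℤ =>
    ‖∫ u in (0 : ℝ)..(2 * Real.pi), (f u : ℂ) * cexp (I * r * u)‖ := ⟨_, rfl⟩
  have hc0 : ∀ r, 0 ≤ c r := fun r => by rw [hc]; exact norm_nonneg _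
  have hh : ∑ r ∈ (Finset.Ioo (-(R : ℤ)) R).erase 0, c r ≤ m := by rw [hc]; exact h
  have e5 : (∫ u in (0 : ℝ)..(2 * Real.pi), G u) ≤ 4 / (R : ℝ) ^ 2 *
      ∑ j ∈ Finset.range R, ∑ k ∈ Finset.range R, (if j = k then J else c ((j : ℤ) - (k : ℤ))) := by
    have h1 : (∫ u in (0 : ℝ)..(2 * Real.pi), G u) ≤ ‖(((∫ u in (0 : ℝ)..(2 * Real.pi), G u) : ℝ) : ℂ)‖ := by
      rw [Complex.norm_real]; exact le_abs_self _
    refine h1.trans ?_
    rw [e4, norm_mul]
    have h2 : ‖(4 / (R : ℂ) ^ 2 : ℂ)‖ = 4 / (R : ℝ) ^ 2 := by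
      rw [norm_div, norm_pow, Complex.norm_natCast]; norm_num
    rw [h2]
    apply mul_le_mul_of_nonneg_left _ (by positivity)
    refine (norm_sum_le _ _).trans (Finset.sum_le_sum fun j hj => ?_)
    refine (norm_sum_le _ _).trans (Finset.sum_le_sum fun k hk => ?_)
    have h3 : ‖cexp (-(I * ((j : ℤ) - (k : ℤ) : ℤ) * b))‖ = 1 := by
      have : -(I * (((j : ℤ) - (k : ℤ) : ℤ) : ℂ) * (b : ℂ)) = ((-((((j : ℤ) - (k : ℤ) : ℤ) : ℝ) * b) : ℝ) : ℂ) * I := by
        push_cast; ring
      rw [this, Complex.norm_exp_ofReal_mul_I]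
    rw [norm_mul, h3, mul_one]
    split_ifs with hjk
    · subst hjk
      simp only [sub_self, Int.cast_zero, mul_zero, zero_mul, Complex.exp_zero, mul_one]
      rw [intervalIntegral.integral_ofReal, Complex.norm_real, ← hJ, Real.norm_of_nonneg hJ0]
    · rw [hc]
  have e6 : ∑ j ∈ Finset.range R, ∑ k ∈ Finset.range R, (if j = k then J else c ((j : ℤ) - (k : ℤ))) ≤ R * J + R * m := by
    have h1 : ∀ j ∈ Finset.range R, ∑ k ∈ Finset.range R, (if j = k then J else c ((j : ℤ) - (k : ℤ))) ≤ J + m := by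
      intro j hj
      rw [← Finset.add_sum_erase _ _ hj, if_pos rfl]
      have h2 : ∑ k ∈ (Finset.range R).erase j, (if j = k then J else c ((j : ℤ) - (k : ℤ))) ≤
          ∑ r ∈ (Finset.Ioo (-(R : ℤ)) R).erase 0, c r := by
        have h3 : ∑ k ∈ (Finset.range R).erase j, (if j = k then J else c ((j : ℤ) - (k : ℤ))) =
            ∑ r ∈ ((Finset.range R).erase j).image (fun k : ℕ => ((j : ℤ) - (k : ℤ))), c r := by
          rw [Finset.sum_image]
          · refine Finset.sum_congr rfl fun k hk => ?_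
            rw [if_neg (fun hjk => (Finset.mem_erase.1 hk).1 hjk.symm)]
          · intro a _ b _ hab
            simp only at hab
            omega
        rw [h3]
        refine Finset.sum_le_sum_of_subset_of_nonneg (fun r hr => ?_) fun r _ _ => hc0 r
        rw [Finset.mem_image] at hr
        obtain ⟨k, hk, rfl⟩ := hr
        rw [Finset.mem_erase, Finset.mem_range] at hk
        rw [Finset.mem_range] at hj
        rw [Finset.mem_erase, Finset.mem_Ioo]
        omega
      linarith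
    refine (Finset.sum_le_sum h1).trans ?_
    rw [Finset.sum_const, Finset.card_range, nsmul_eq_mul]
    linarith
  calc _ ≤ _ := e1
    _ ≤ _ := e2
    _ = _ := e3
    _ ≤ _ := e5
    _ ≤ 4 / (R : ℝ) ^ 2 * (R * J + R * m) := mul_le_mul_of_nonneg_left e6 (by positivity)
    _ = _ := by field_simp

theorem fjs (f : ℝ → ℝ) (hf : Continuous f) (h0 : ∀ x, 0 ≤ f x)
    (hp : Function.Periodic f (2 * Real.pi)) (U m : ℝ) (R : ℕ) (hU : 0 < U) (hm : 0 ≤ m) (hR : 1 ≤ R)
    (hUR : 1 ≤ U * R) (h : ∑ r ∈ (Finset.Ioo (-(R : ℤ)) R).erase 0,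
      ‖∫ u in (0 : ℝ)..(2 * Real.pi), (f u : ℂ) * cexp (I * r * u)‖ ≤ m) :
    ∫ u in (U / 4)..(4 * U), f u ≤ 12 * U * ((∫ u in (0 : ℝ)..(2 * Real.pi), f u) + m) := by
  set J : ℝ := ∫ u in (0 : ℝ)..(2 * Real.pi), f u with hJ
  have hJ0 : 0 ≤ J := intervalIntegral.integral_nonneg (by positivity) (fun u _ => h0 u)
  have hR0 : (0 : ℝ) < R := by exact_mod_cast hR
  have h1 := cover' f hf h0 (2 / R) (4 / R * (J + m)) U (by positivity) (by positivity) hU
    (windowS f hf h0 hp m R hm hR h)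
  refine h1.trans ?_
  have h2 : (4 * U / (2 / (R : ℝ)) + 1) * (4 / R * (J + m)) = (2 * (U * R) + 1) / R * 4 * (J + m) := by
    field_simp; ring
  rw [h2]
  apply mul_le_mul_of_nonneg_right _ (by positivity)
  rw [div_mul_eq_mul_div, div_le_iff₀ hR0]
  nlinarith

end Pool.Agent.K9h29.SP
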