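import Pool.Agent.W688.SD.SFour
import Pool.Agent.W368.SD.SMo

set_option autoImplicit false

/-!
# Fourier representation of the cut-off, with any rate of decay, and averages
-/

namespace Pool.Agent.K9h29.SP

open Complex Filter Topology Set MeasureTheory
open Pool.Agent.H24R2.DZ
open Pool.Agent.W688.SD
open Pool.Agent.W368.SD (ss ss_re rho rho_pos rho_int rho_cont rho_mul cs)
open scoped FourierTransform ContDiff

theorem four (n : ℕ) (θ : ℝ) (hθ : 0 < θ) (hθ1 : θ ≤ 1) : ∃ (C : ℝ) (w : ℝ → ℂ), 0 < C ∧ Continuous w ∧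
    (∀ τ, ‖w τ‖ ≤ C * (1 + |τ|) ^ (-(n : ℝ))) ∧
    ∀ u : ℝ, 0 ≤ u → ((ph (u / θ) : ℝ) : ℂ) = ∫ τ : ℝ, w τ * cexp (-((1 + I * τ) * u)) := by
  obtain ⟨M, hM⟩ := chi_bound hθ
  set S : ℝ := ∑ i ∈ Finset.range (n + 1), ((n.choose i : ℕ) : ℝ) * |M i| with hS
  have hS0 : 0 ≤ S := Finset.sum_nonneg fun i _ => by positivity
  set A : ℝ := Real.exp 1 with hA
  have hA0 : 0 < A := by positivity
  set e : ℝ → ℂ := fun u => cexp (1 * u) with he
  set g : ℝ → ℂ := fun u => chi θ u * e u with hg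
  have hec : ContDiff ℝ ∞ e := (contDiff_const.mul Complex.ofRealCLM.contDiff).cexp
  have hN : ∀ m : ℕ, (m : ℕ∞ω) ≤ ∞ := fun m => mod_cast le_top
  have h10 : ((n : ℕ) : ℕ∞ω) ≤ ∞ := hN n
  have hgc : ContDiff ℝ ∞ g := (chi_contDiff θ).mul hec
  have hgs : HasCompactSupport g := (chi_compact hθ).mul_right
  have hgsub : tsupport g ⊆ Icc (-θ) θ := by
    refine (closure_mono ?_).trans (chi_tsupport hθ)
    intro u hu
    intro h
    apply hu
    rw [hg]
    simp only
    rw [h, zero_mul]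
  have heb : ∀ (j : ℕ) (u : ℝ), |u| ≤ θ → ‖iteratedFDeriv ℝ j e u‖ ≤ A := by
    intro j u hu
    rw [norm_iteratedFDeriv_eq_norm_iteratedDeriv, he, exp_iter]
    simp only
    rw [norm_mul, norm_pow, norm_one, one_pow, one_mul, Complex.norm_exp, hA]
    apply Real.exp_le_exp.2
    have h1 : ((1 : ℂ) * (u : ℂ)).re = u := by simp
    rw [h1]
    exact (le_abs_self u).trans (hu.trans hθ1)
  have hgb : ∀ u : ℝ, |u| ≤ θ → ‖g u‖ ≤ A := by
    intro u hu
    have h1 := heb 0 u hu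
    rw [norm_iteratedFDeriv_zero] at h1
    rw [hg]
    simp only
    rw [norm_mul]
    have h2 : ‖chi θ u‖ ≤ 1 := by
      unfold chi
      rw [Complex.norm_real, norm_mul, Real.norm_of_nonneg (Real.smoothTransition.nonneg _),
        Real.norm_of_nonneg (Real.smoothTransition.nonneg _)]
      exact mul_le_one₀ (Real.smoothTransition.le_one _) (Real.smoothTransition.nonneg _)
        (Real.smoothTransition.le_one _)
    calc ‖chi θ u‖ * ‖e u‖ ≤ 1 * A := mul_le_mul h2 h1 (norm_nonneg _) zero_le_one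
      _ = A := one_mul _
  have hgb10 : ∀ u : ℝ, |u| ≤ θ → ‖iteratedDeriv n g u‖ ≤ S * A := by
    intro u hu
    rw [← norm_iteratedFDeriv_eq_norm_iteratedDeriv]
    refine (norm_iteratedFDeriv_mul_le (N := ∞) (chi_contDiff θ) hec u (n := n) h10).trans ?_
    rw [hS, Finset.sum_mul]
    apply Finset.sum_le_sum
    intro i hi
    have h1 : ‖iteratedFDeriv ℝ i (chi θ) u‖ ≤ |M i| := (hM i u).trans (le_abs_self _)
    have h2 := heb (n - i) u hu
    gcongr
  have hg10z : ∀ u : ℝ, θ < |u| → iteratedDeriv n g u = 0 := by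
    intro u hu
    by_contra h
    have h1 : iteratedFDeriv ℝ n g u ≠ 0 := by
      intro h2
      apply h
      rw [iteratedDeriv, h2]
      simp
    have h3 := hgsub (support_iteratedFDeriv_subset (𝕜 := ℝ) (f := g) n h1)
    rw [mem_Icc, ← abs_le] at h3
    linarith
  have hgz : ∀ u : ℝ, θ < |u| → g u = 0 := by
    intro u hu
    rw [hg]
    simp only
    rw [chi_zero hθ hu.le, zero_mul]
  have hF0 : ∀ ξ, ‖𝓕 g ξ‖ ≤ A * (2 * θ) := fourier_bd hθ.le hgz hgb
  have hF10 : ∀ ξ, ‖𝓕 (iteratedDeriv n g) ξ‖ ≤ S * A * (2 * θ) := fourier_bd hθ.le hg10z hgb10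
  have hFd : 𝓕 (iteratedDeriv n g) = fun x : ℝ => (2 * Real.pi * I * x) ^ n • (𝓕 g x) := by
    apply Real.fourier_iteratedDeriv (N := ⊤) hgc _ (mod_cast le_top)
    intro m _
    have hc : Continuous (iteratedDeriv m g) := hgc.continuous_iteratedDeriv m (mod_cast le_top)
    apply hc.integrable_of_hasCompactSupport
    apply HasCompactSupport.of_support_subset_isCompact (K := Icc (-θ) θ) isCompact_Icc
    intro u hu
    apply hgsub
    apply support_iteratedFDeriv_subset (𝕜 := ℝ) (f := g) m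
    intro h2
    apply hu
    rw [iteratedDeriv, h2]
    simp
  -- Schwartz functions
  have hFc : Continuous (𝓕 g) := by
    have h1 := (𝓕 (hgs.toSchwartzMap hgc)).continuous
    rw [SchwartzMap.fourier_coe] at h1
    exact h1
  have hFi : Integrable (𝓕 g) := by
    have h1 := (𝓕 (hgs.toSchwartzMap hgc)).integrable (μ := volume)
    rw [SchwartzMap.fourier_coe] at h1
    exact h1
  have hgi : Integrable g := hgc.continuous.integrable_of_hasCompactSupport hgs
  have hinv : 𝓕⁻ (𝓕 g) = g := hgc.continuous.fourierInv_fourier_eq hgi hFi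
  have hpi := Real.pi_pos
  refine ⟨2 ^ n * (1 + S) * A, fun τ => ((1 / (2 * Real.pi) : ℝ) : ℂ) * 𝓕 g (τ * (-1 / (2 * Real.pi))),
    by positivity, ?_, ?_, ?_⟩
  · exact continuous_const.mul (hFc.comp (by fun_prop))
  · intro τ
    have hτ0 : 0 ≤ |τ| := abs_nonneg τ
    have h1 : |τ| ^ n * ‖𝓕 g (τ * (-1 / (2 * Real.pi)))‖ ≤ S * A * (2 * θ) := by
      have h2 := hF10 (τ * (-1 / (2 * Real.pi)))
      rw [hFd] at h2
      simp only at h2
      rw [norm_smul, norm_pow] at h2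
      have h3 : ‖(2 * Real.pi * I * ((τ * (-1 / (2 * Real.pi)) : ℝ) : ℂ) : ℂ)‖ = |τ| := by
        rw [norm_mul, norm_mul, norm_mul, Complex.norm_I, Complex.norm_real, Complex.norm_real, Complex.norm_ofNat,
          Real.norm_of_nonneg hpi.le, norm_mul, Real.norm_eq_abs, Real.norm_eq_abs, abs_div, abs_neg, abs_one,
          abs_of_pos (by positivity : 0 < 2 * Real.pi)]
        field_simp
      rw [h3] at h2
      exact h2
    have h4 : (1 + |τ|) ^ n ≤ 2 ^ n * (1 + |τ| ^ n) := by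
      have h20 : (0 : ℝ) < 2 ^ n := by positivity
      rcases le_total 1 |τ| with h | h
      · calc (1 + |τ|) ^ n ≤ (2 * |τ|) ^ n := by gcongr; linarith
          _ = 2 ^ n * |τ| ^ n := by rw [mul_pow]
          _ ≤ _ := by nlinarith
      · calc (1 + |τ|) ^ n ≤ 2 ^ n := by gcongr; linarith
          _ ≤ _ := by
              have : 0 ≤ |τ| ^ n := by positivity
              nlinarith
    rw [norm_mul, Complex.norm_real, Real.norm_of_nonneg (by positivity)]
    have h5 : (1 + |τ|) ^ (-(n : ℝ)) = ((1 + |τ|) ^ n)⁻¹ := by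
      rw [Real.rpow_neg (by positivity)]
      congr 1
      exact_mod_cast Real.rpow_natCast (1 + |τ|) n
    rw [h5, ← div_eq_mul_inv, le_div_iff₀ (by positivity)]
    set Φ := ‖𝓕 g (τ * (-1 / (2 * Real.pi)))‖ with hΦ
    have hΦ0 : 0 ≤ Φ := norm_nonneg _
    have h6 : Φ ≤ A * (2 * θ) := hF0 _
    calc 1 / (2 * Real.pi) * Φ * (1 + |τ|) ^ n ≤ 1 / (2 * Real.pi) * Φ * (2 ^ n * (1 + |τ| ^ n)) := by
          gcongr
      _ = 1 / (2 * Real.pi) * 2 ^ n * (Φ + |τ| ^ n * Φ) := by ring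
      _ ≤ 1 / (2 * Real.pi) * 2 ^ n * (A * (2 * θ) + S * A * (2 * θ)) := by gcongr
      _ = (θ / Real.pi) * (2 ^ n * (1 + S) * A) := by field_simp
      _ ≤ 1 * (2 ^ n * (1 + S) * A) := by
          apply mul_le_mul_of_nonneg_right _ (by positivity)
          rw [div_le_one hpi]
          have := Real.pi_gt_three
          linarith
      _ = _ := by ring
  · intro u hu
    have h2 : ((ph (u / θ) : ℝ) : ℂ) = g u * cexp (-u) := by
      rw [← chi_eq hθ hu, hg, he]
      simp only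
      rw [mul_assoc, ← Complex.exp_add]
      simp
    have hgu : g u = 𝓕⁻ (𝓕 g) u := by rw [hinv]
    rw [h2, hgu, Real.fourierInv_eq', ← integral_mul_const]
    have h3 := Measure.integral_comp_mul_right (fun ξ : ℝ => cexp (((2 * Real.pi * inner ℝ ξ u : ℝ) : ℂ) * I) • 𝓕 g ξ * cexp (-u))
      (-1 / (2 * Real.pi))
    have h4 : |(-1 / (2 * Real.pi))⁻¹| = 2 * Real.pi := by
      rw [inv_div, abs_div, abs_neg, abs_one, div_one, abs_of_pos (by positivity)]
    rw [h4] at h3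
    have h5 : ∫ ξ : ℝ, cexp (((2 * Real.pi * inner ℝ ξ u : ℝ) : ℂ) * I) • 𝓕 g ξ * cexp (-u) =
        ((1 / (2 * Real.pi) : ℝ) : ℂ) * ∫ x : ℝ, (fun ξ : ℝ => cexp (((2 * Real.pi * inner ℝ ξ u : ℝ) : ℂ) * I) • 𝓕 g ξ * cexp (-u))
          (x * (-1 / (2 * Real.pi))) := by
      rw [h3, Complex.real_smul, ← mul_assoc, ← Complex.ofReal_mul]
      have h8 : 1 / (2 * Real.pi) * (2 * Real.pi) = 1 := by field_simp
      rw [h8, Complex.ofReal_one, one_mul]
    rw [h5, ← integral_const_mul]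
    congr 1
    ext τ
    simp only [smul_eq_mul]
    have h6 : cexp (((2 * Real.pi * inner ℝ (τ * (-1 / (2 * Real.pi))) u : ℝ) : ℂ) * I) * cexp (-u) =
        cexp (-((1 + I * τ) * u)) := by
      rw [← Complex.exp_add]
      congr 1
      have h7 : (inner ℝ (τ * (-1 / (2 * Real.pi))) u : ℝ) = u * (τ * (-1 / (2 * Real.pi))) := by
        simp
      rw [h7]
      have : (Real.pi : ℂ) ≠ 0 := by exact_mod_cast hpi.ne'
      push_cast
      field_simp
      ring
    rw [← h6]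
    generalize 𝓕 g (τ * (-1 / (2 * Real.pi))) = X
    generalize cexp (((2 * Real.pi * inner ℝ (τ * (-1 / (2 * Real.pi))) u : ℝ) : ℂ) * I) = Y
    ring

/-- Averages: if the weighted sums of squares grow at most like a power, the sum of the squares of the
averages is bounded. -/
theorem avg {ι : Type*} {w : ℝ → ℂ} {C : ℝ}
    (hwb : ∀ τ, ‖w τ‖ ≤ C * (1 + |τ|) ^ (-(300 : ℝ))) :
    ∀ (A : Finset ι) (W : ι → ℝ) (Z : ℝ → ι → ℂ) (B : ℝ), (∀ x ∈ A, 0 ≤ W x) → (∀ x ∈ A, Continuous fun τ => Z τ x) →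
      (∀ x ∈ A, ∃ D, ∀ τ, ‖Z τ x‖ ≤ D) →
      (∀ τ : ℝ, ∑ x ∈ A, W x * ‖Z τ x‖ ^ 2 ≤ B * (1 + |τ|) ^ 256) →
      ∑ x ∈ A, W x * ‖∫ τ, w τ * Z τ x‖ ^ 2 ≤ (C ^ 2 * (∫ τ, rho 2 τ) * ∫ τ, rho 342 τ) * B := by
  intro A W Z B hW hZc hZb hB
  have hi2 : Integrable (rho 2) := rho_int 2 (by norm_num)
  have key : ∀ x ∈ A, ‖∫ τ, w τ * Z τ x‖ ^ 2 ≤ C ^ 2 * (∫ τ, rho 2 τ) * ∫ τ, rho 598 τ * ‖Z τ x‖ ^ 2 := by
    intro x hx
    obtain ⟨D, hD⟩ := hZb x hx
    have hD0 : 0 ≤ D := (norm_nonneg _).trans (hD 0)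
    have hb : ∀ τ, ‖w τ * Z τ x‖ ≤ C * (rho 2 τ * (rho 298 τ * ‖Z τ x‖)) := by
      intro τ
      rw [norm_mul]
      have h1 := hwb τ
      have h2 : (1 + |τ|) ^ (-(300 : ℝ)) = rho 2 τ * rho 298 τ := by
        unfold rho
        rw [← Real.rpow_add (by positivity)]
        norm_num
      rw [h2] at h1
      calc ‖w τ‖ * ‖Z τ x‖ ≤ C * (rho 2 τ * rho 298 τ) * ‖Z τ x‖ := by gcongr
        _ = _ := by ring
    have hc1 : Continuous fun τ => rho 298 τ * ‖Z τ x‖ := (rho_cont 298).mul (hZc x hx).norm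
    have hle1 : ∀ τ, rho 298 τ * ‖Z τ x‖ ≤ D := by
      intro τ
      have h3 : rho 298 τ ≤ 1 := by
        unfold rho
        apply Real.rpow_le_one_of_one_le_of_nonpos
        · have := abs_nonneg τ; linarith
        · norm_num
      calc rho 298 τ * ‖Z τ x‖ ≤ 1 * D := by
            apply mul_le_mul h3 (hD τ) (norm_nonneg _) zero_le_one
        _ = D := one_mul D
    have hi1 : Integrable fun τ => rho 2 τ * (rho 298 τ * ‖Z τ x‖) := by
      refine (hi2.mul_const D).mono' ((rho_cont 2).mul hc1).aestronglyMeasurable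
        (Eventually.of_forall fun τ => ?_)
      have h4 := (rho_pos 2 τ).le
      have h5 := (rho_pos 298 τ).le
      rw [Real.norm_of_nonneg (by positivity)]
      exact mul_le_mul_of_nonneg_left (hle1 τ) h4
    have hi3 : Integrable fun τ => rho 2 τ * (rho 298 τ * ‖Z τ x‖) ^ 2 := by
      refine (hi2.mul_const (D ^ 2)).mono' ((rho_cont 2).mul (hc1.pow 2)).aestronglyMeasurable
        (Eventually.of_forall fun τ => ?_)
      have h4 := (rho_pos 2 τ).le
      have h5 := (rho_pos 298 τ).le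
      rw [Real.norm_of_nonneg (by positivity)]
      apply mul_le_mul_of_nonneg_left _ h4
      exact pow_le_pow_left₀ (by positivity) (hle1 τ) 2
    have h6 := cs (rho 2) (fun τ => rho 298 τ * ‖Z τ x‖) (fun τ => (rho_pos 2 τ).le) hi2 hi1 hi3
    have h7 : ‖∫ τ, w τ * Z τ x‖ ≤ C * ∫ τ, rho 2 τ * (rho 298 τ * ‖Z τ x‖) := by
      rw [← integral_const_mul]
      exact norm_integral_le_of_norm_le (hi1.const_mul C) (Eventually.of_forall hb)
    have h8 : (fun τ => rho 2 τ * (rho 298 τ * ‖Z τ x‖) ^ 2) = fun τ => rho 598 τ * ‖Z τ x‖ ^ 2 := by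
      funext τ
      have : rho 598 τ = rho 2 τ * rho 298 τ ^ 2 := by
        unfold rho
        rw [← Real.rpow_natCast, ← Real.rpow_mul (by positivity), ← Real.rpow_add (by positivity)]
        norm_num
      rw [this]
      ring
    rw [h8] at h6
    calc ‖∫ τ, w τ * Z τ x‖ ^ 2 ≤ (C * ∫ τ, rho 2 τ * (rho 298 τ * ‖Z τ x‖)) ^ 2 :=
          pow_le_pow_left₀ (norm_nonneg _) h7 2
      _ = C ^ 2 * (∫ τ, rho 2 τ * (rho 298 τ * ‖Z τ x‖)) ^ 2 := by ring
      _ ≤ C ^ 2 * ((∫ τ, rho 2 τ) * ∫ τ, rho 598 τ * ‖Z τ x‖ ^ 2) := by gcongr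
      _ = _ := by ring
  have hint : ∀ x ∈ A, Integrable fun τ => rho 598 τ * ‖Z τ x‖ ^ 2 := by
    intro x hx
    obtain ⟨D, hD⟩ := hZb x hx
    have hi : Integrable (rho 598) := rho_int 598 (by norm_num)
    refine (hi.mul_const (D ^ 2)).mono' ((rho_cont 598).mul ((hZc x hx).norm.pow 2)).aestronglyMeasurable
      (Eventually.of_forall fun τ => ?_)
    have h4 := (rho_pos 598 τ).le
    rw [Real.norm_of_nonneg (by positivity)]
    apply mul_le_mul_of_nonneg_left _ h4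
    exact pow_le_pow_left₀ (norm_nonneg _) (hD τ) 2
  have hR : 0 ≤ ∫ τ, rho 2 τ := integral_nonneg fun τ => (rho_pos 2 τ).le
  calc ∑ x ∈ A, W x * ‖∫ τ, w τ * Z τ x‖ ^ 2 ≤
      ∑ x ∈ A, W x * (C ^ 2 * (∫ τ, rho 2 τ) * ∫ τ, rho 598 τ * ‖Z τ x‖ ^ 2) :=
        Finset.sum_le_sum fun x hx => mul_le_mul_of_nonneg_left (key x hx) (hW x hx)
    _ = C ^ 2 * (∫ τ, rho 2 τ) * ∫ τ, rho 598 τ * ∑ x ∈ A, W x * ‖Z τ x‖ ^ 2 := by
        have e1 : (fun τ => rho 598 τ * ∑ x ∈ A, W x * ‖Z τ x‖ ^ 2) =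
            fun τ => ∑ x ∈ A, W x * (rho 598 τ * ‖Z τ x‖ ^ 2) := by
          funext τ
          rw [Finset.mul_sum]
          exact Finset.sum_congr rfl fun x _ => by ring
        rw [e1, integral_finsetSum _ (fun x hx => (hint x hx).const_mul _), Finset.mul_sum]
        refine Finset.sum_congr rfl fun x _ => ?_
        rw [integral_const_mul]
        ring
    _ ≤ C ^ 2 * (∫ τ, rho 2 τ) * ∫ τ, B * rho 342 τ := by
        apply mul_le_mul_of_nonneg_left _ (by positivity)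
        have hcont : Continuous fun τ => rho 598 τ * ∑ x ∈ A, W x * ‖Z τ x‖ ^ 2 :=
          (rho_cont 598).mul (continuous_finsetSum _ fun x hx => continuous_const.mul ((hZc x hx).norm.pow 2))
        have hle : ∀ τ, rho 598 τ * ∑ x ∈ A, W x * ‖Z τ x‖ ^ 2 ≤ B * rho 342 τ := by
          intro τ
          have h1 := mul_le_mul_of_nonneg_left (hB τ) (rho_pos 598 τ).le
          have h2 := rho_mul 598 256 τ
          have h3 : (598 : ℝ) - (256 : ℕ) = 342 := by norm_num
          rw [h3] at h2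
          calc _ ≤ rho 598 τ * (B * (1 + |τ|) ^ 256) := h1
            _ = B * (rho 598 τ * (1 + |τ|) ^ 256) := by ring
            _ = _ := by rw [h2]
        have hi342 : Integrable fun τ => B * rho 342 τ := (rho_int 342 (by norm_num)).const_mul B
        refine integral_mono (hi342.mono' hcont.aestronglyMeasurable (Eventually.of_forall fun τ => ?_)) hi342 hle
        have h4 : 0 ≤ rho 598 τ * ∑ x ∈ A, W x * ‖Z τ x‖ ^ 2 :=
          mul_nonneg (rho_pos 598 τ).le (Finset.sum_nonneg fun x hx => mul_nonneg (hW x hx) (by positivity))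
        rw [Real.norm_of_nonneg h4]
        exact hle τ
    _ = _ := by
        rw [integral_const_mul]
        ring

end Pool.Agent.K9h29.SP
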