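import Pool.Agent.K9h29.SP.Mel2

set_option autoImplicit false

/-!
# The Fricke symmetry of the mollified form
-/

namespace Pool.Agent.K9h29.SP

open Complex Filter Topology MeasureTheory Set Asymptotics
open scoped ComplexConjugate
open Pool.Agent.Y671.GL Pool.Agent.Y412.GLB Pool.Agent.Y412.GLP
open Pool.Agent.H24R2.DZ (ray MM)

variable {k N : ℕ} {ps lam : ℕ → ℂ}

theorem Ph_conj (k : ℕ) (lam : ℕ → ℂ) (w : ℂ) : Ph k (fun n => conj (lam n)) w = conj (Ph k lam (conj w)) := by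
  unfold Ph
  rw [Complex.conj_tsum]
  refine tsum_congr fun n => ?_
  rw [map_mul, ← Complex.exp_conj]
  congr 1
  · unfold aa
    rw [map_mul, Complex.conj_ofReal]
  · congr 1
    simp

theorem ps_fricke (hf : Frm k N ps lam) (y : ℕ) (b : ℕ → ℂ) {z : ℂ} (hz : 0 < z.re) :
    ‖Ps k y lam b (4 * Real.pi ^ 2 / (N * z))‖ = (Real.sqrt N * ‖z‖ / (2 * Real.pi)) ^ k * ‖Ps k y lam b (conj z)‖ := by
  obtain ⟨ε, hε, hfr⟩ := hf.fricke
  have hN0 : (0 : ℝ) < N := by exact_mod_cast hf.N_pos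
  have hNc : (N : ℂ) ≠ 0 := by exact_mod_cast hN0.ne'
  have hz0 : z ≠ 0 := by rintro rfl; simp at hz
  have hmain : Ps k y lam b (4 * Real.pi ^ 2 / (N * z)) =
      ε * ((Real.sqrt N : ℝ) * z / (2 * Real.pi)) ^ k * conj (Ps k y lam b (conj z)) := by
    unfold Ps PP
    rw [map_sum]
    simp only [map_mul, map_sum]
    have hR : ∑ x ∈ Finset.Icc 1 y, conj (conj (Bw k b x)) * ∑ h ∈ Finset.Icc 1 y,
        conj (b h) * conj ((((h : ℝ) ^ (((k : ℝ) - 1) / 2) : ℝ) : ℂ)) * conj (Ph k lam (h * (conj z / x))) =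
        ∑ ν ∈ Finset.Icc 1 y, ∑ h ∈ Finset.Icc 1 y, Bw k b h * (conj (b ν) * (((ν : ℝ) ^ (((k : ℝ) - 1) / 2) : ℝ) : ℂ) *
          conj (Ph k lam (ν * (conj z / h)))) := by
      simp only [Finset.mul_sum]
      rw [Finset.sum_comm]
      refine Finset.sum_congr rfl fun h _ => ?_
      refine Finset.sum_congr rfl fun ν _ => ?_
      rw [Complex.conj_conj, Complex.conj_ofReal]
    rw [hR, Finset.mul_sum]
    refine Finset.sum_congr rfl fun ν hν => ?_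
    rw [Finset.mul_sum, Finset.mul_sum]
    refine Finset.sum_congr rfl fun h hh => ?_
    have hν0 : (0 : ℝ) < ν := by exact_mod_cast (Finset.mem_Icc.1 hν).1
    have hh0 : (0 : ℝ) < h := by exact_mod_cast (Finset.mem_Icc.1 hh).1
    have hνc : (ν : ℂ) ≠ 0 := by exact_mod_cast hν0.ne'
    have hhc : (h : ℂ) ≠ 0 := by exact_mod_cast hh0.ne'
    have hw : 0 < ((ν : ℂ) * z / h).re := by
      rw [show (ν : ℂ) * z / (h : ℂ) = ((ν : ℝ) : ℂ) * z / ((h : ℝ) : ℂ) by push_cast; rfl, Complex.div_ofReal_re,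
        Complex.re_ofReal_mul]
      positivity
    have e1 : (h : ℂ) * (4 * Real.pi ^ 2 / (N * z) / ν) = 4 * Real.pi ^ 2 / (N * ((ν : ℂ) * z / h)) := by
      field_simp
    rw [e1, hfr _ hw, Ph_conj]
    have e2 : conj ((ν : ℂ) * z / h) = ν * (conj z / h) := by
      rw [map_div₀, map_mul, Complex.conj_natCast, Complex.conj_natCast]
      ring
    rw [e2]
    have e3 : ((Real.sqrt N : ℝ) * ((ν : ℂ) * z / h) / (2 * Real.pi)) ^ k =
        ((Real.sqrt N : ℝ) * z / (2 * Real.pi)) ^ k * ((((ν : ℝ) / h) ^ k : ℝ) : ℂ) := by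
      push_cast
      rw [← mul_pow]
      congr 1
      ring
    rw [e3]
    have e4 : (ν : ℝ) ^ (-(((k : ℝ) + 1) / 2)) * (h : ℝ) ^ (((k : ℝ) - 1) / 2) * ((ν : ℝ) / h) ^ k =
        (h : ℝ) ^ (-(((k : ℝ) + 1) / 2)) * (ν : ℝ) ^ (((k : ℝ) - 1) / 2) := by
      rw [← Real.rpow_natCast, Real.div_rpow hν0.le hh0.le, div_eq_mul_inv ((ν : ℝ) ^ (k : ℝ)), ← Real.rpow_neg hh0.le]
      calc (ν : ℝ) ^ (-(((k : ℝ) + 1) / 2)) * (h : ℝ) ^ (((k : ℝ) - 1) / 2) * ((ν : ℝ) ^ (k : ℝ) * (h : ℝ) ^ (-(k : ℝ))) =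
          ((h : ℝ) ^ (((k : ℝ) - 1) / 2) * (h : ℝ) ^ (-(k : ℝ))) * ((ν : ℝ) ^ (-(((k : ℝ) + 1) / 2)) * (ν : ℝ) ^ (k : ℝ)) := by
            ring
        _ = _ := by
            rw [← Real.rpow_add hν0, ← Real.rpow_add hh0]
            congr 2 <;> ring
    have e5 := congrArg (fun x : ℝ => (x : ℂ)) e4
    simp only [Complex.ofReal_mul] at e5
    have e6 : conj (Bw k b ν) = conj (b ν) * (((ν : ℝ) ^ (-(((k : ℝ) + 1) / 2)) : ℝ) : ℂ) := by
      unfold Bw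
      rw [map_mul, Complex.conj_ofReal]
    rw [e6]
    unfold Bw
    linear_combination (conj (b ν) * b h * ε * ((Real.sqrt N : ℝ) * z / (2 * Real.pi)) ^ k *
      conj (Ph k lam (ν * (conj z / h)))) * e5
  rw [hmain, norm_mul, norm_mul, hε, one_mul, norm_pow, RCLike.norm_conj]
  congr 2
  rw [norm_div, norm_mul, Complex.norm_real, Real.norm_of_nonneg (Real.sqrt_nonneg _)]
  congr 1
  rw [norm_mul, Complex.norm_real, Real.norm_of_nonneg Real.pi_pos.le]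
  norm_num

/-- symmetry on the ray -/
theorem ps_sym (hf : Frm k N ps lam) {δ : ℝ} (h0 : 0 < δ) (h1 : δ < Real.pi / 2) (y : ℕ) (b : ℕ → ℂ) {x1 x : ℝ}
    (hx1 : x1 = 2 * Real.pi / Real.sqrt N) (hx : 0 < x) :
    ‖Ps k y lam b (ray δ (x1 ^ 2 / x))‖ = (x / x1) ^ k * ‖Ps k y lam b (ray δ x)‖ := by
  have hN0 : (0 : ℝ) < N := by exact_mod_cast hf.N_pos
  have hsN : 0 < Real.sqrt N := Real.sqrt_pos.2 hN0
  have hre : 0 < (conj (ray δ x)).re := by
    rw [Complex.conj_re, ray_re]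
    exact mul_pos hx (Real.sin_pos_of_pos_of_lt_pi h0 (by linarith [Real.pi_pos]))
  have h2 := ps_fricke hf y b hre
  rw [Complex.conj_conj, RCLike.norm_conj] at h2
  have hn : ‖ray δ x‖ = x := by
    unfold ray
    rw [norm_mul, Complex.norm_real, Real.norm_of_nonneg hx.le, mul_comm I, Complex.norm_exp_ofReal_mul_I, mul_one]
  rw [hn] at h2
  have e1 : (4 * Real.pi ^ 2 / (N * conj (ray δ x)) : ℂ) = ray δ (x1 ^ 2 / x) := by
    unfold ray
    rw [map_mul, Complex.conj_ofReal, ← Complex.exp_conj, map_mul, Complex.conj_I, Complex.conj_ofReal, hx1]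
    have e2 : cexp (-I * ((Real.pi / 2 - δ : ℝ) : ℂ)) = (cexp (I * ((Real.pi / 2 - δ : ℝ) : ℂ)))⁻¹ := by
      rw [← Complex.exp_neg]
      congr 1
      ring
    rw [e2]
    have hE : cexp (I * ((Real.pi / 2 - δ : ℝ) : ℂ)) ≠ 0 := Complex.exp_ne_zero _
    have e3 : ((Real.sqrt N : ℝ) : ℂ) ^ 2 = N := by
      rw [← Complex.ofReal_pow, Real.sq_sqrt hN0.le]
      push_cast
      rfl
    have hxc : (x : ℂ) ≠ 0 := by exact_mod_cast hx.ne'
    have hNc : (N : ℂ) ≠ 0 := by exact_mod_cast hN0.ne'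
    have hsc : ((Real.sqrt N : ℝ) : ℂ) ≠ 0 := by exact_mod_cast hsN.ne'
    push_cast
    rw [div_pow, e3]
    field_simp
    ring
  rw [e1] at h2
  rw [h2]
  congr 2
  rw [hx1]
  field_simp

end Pool.Agent.K9h29.SP
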