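import Mathlib
import Pool.Agent.W355.LJ.Shift

set_option autoImplicit false

/-!
# The weight of the first moment
-/

namespace Pool.Agent.K9h29.SP

open Complex Filter Topology MeasureTheory Set

/-- the weight -/
noncomputable def wt (k : ℕ) (κ T : ℝ) (z : ℂ) : ℂ :=
  (z / T) ^ (2 * k) * cexp (-((κ : ℂ) ^ 2 * (z / T - 3 / 2) ^ 2))

/-- the weight on the real line -/
noncomputable def wr (k : ℕ) (κ T t : ℝ) : ℝ := (t / T) ^ (2 * k) * Real.exp (-(κ ^ 2 * (t / T - 3 / 2) ^ 2))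

theorem wt_real (k : ℕ) (κ T t : ℝ) : wt k κ T (t : ℂ) = (wr k κ T t : ℂ) := by
  unfold wt wr
  push_cast
  rfl

theorem wr_nonneg (k : ℕ) (κ T t : ℝ) : 0 ≤ wr k κ T t := by
  unfold wr
  have : 0 ≤ (t / T) ^ (2 * k) := by
    rw [pow_mul]
    positivity
  positivity

theorem wt_diff (k : ℕ) (κ T : ℝ) : Differentiable ℂ (wt k κ T) := by
  unfold wt
  fun_prop

theorem wr_cont (k : ℕ) (κ T : ℝ) : Continuous (wr k κ T) := by
  unfold wr
  fun_prop

theorem wt_norm (k : ℕ) (κ T t B : ℝ) : ‖wt k κ T ((t : ℂ) - B * I)‖ = ‖((t : ℂ) - B * I) / T‖ ^ (2 * k) *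
    Real.exp (-(κ ^ 2 * ((t / T - 3 / 2) ^ 2 - (B / T) ^ 2))) := by
  unfold wt
  rw [norm_mul, norm_pow, Complex.norm_exp]
  congr 2
  have e1 : (κ : ℂ) ^ 2 * (((t : ℂ) - B * I) / T - 3 / 2) ^ 2 =
      ((κ ^ 2 * ((t / T - 3 / 2) ^ 2 - (B / T) ^ 2) : ℝ) : ℂ) + ((-(2 * κ ^ 2 * (t / T - 3 / 2) * (B / T)) : ℝ) : ℂ) * I := by
    have e2 : ((t : ℂ) - B * I) / T - 3 / 2 = ((t / T - 3 / 2 : ℝ) : ℂ) - ((B / T : ℝ) : ℂ) * I := by
      push_cast
      ring
    rw [e2]
    have hI : I ^ 2 = -1 := Complex.I_sq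
    generalize (t / T - 3 / 2 : ℝ) = x
    generalize (B / T : ℝ) = y
    push_cast
    linear_combination (κ : ℂ) ^ 2 * (y : ℂ) ^ 2 * hI
  rw [e1, Complex.neg_re, Complex.add_re, Complex.ofReal_re, Complex.re_ofReal_mul, Complex.I_re, mul_zero, add_zero]

theorem poly_gauss (n : ℕ) : ∃ C : ℝ, 0 < C ∧ ∀ u : ℝ, (|u| + 1) ^ n * Real.exp (-((u - 3 / 2) ^ 2)) ≤
    C * Real.exp (-(u ^ 2 / 2)) := by
  refine ⟨(n.factorial : ℝ) * Real.exp 9, by positivity, fun u => ?_⟩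
  have h1 : (|u| + 1) ^ n ≤ n.factorial * Real.exp (|u| + 1) := by
    have h2 := Real.pow_div_factorial_le_exp (|u| + 1) (by positivity) n
    rw [div_le_iff₀ (by positivity)] at h2
    linarith
  have h3 : |u| + 1 + -((u - 3 / 2) ^ 2) ≤ 9 + -(u ^ 2 / 2) := by
    have h4 : u ≤ |u| := le_abs_self u
    have h5 : |u| ^ 2 = u ^ 2 := sq_abs u
    nlinarith [sq_nonneg (|u| - 4)]
  calc (|u| + 1) ^ n * Real.exp (-((u - 3 / 2) ^ 2)) ≤
      (n.factorial * Real.exp (|u| + 1)) * Real.exp (-((u - 3 / 2) ^ 2)) := by gcongr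
    _ = n.factorial * Real.exp (|u| + 1 + -((u - 3 / 2) ^ 2)) := by
        rw [Real.exp_add (|u| + 1) (-((u - 3 / 2) ^ 2)), mul_assoc]
    _ ≤ n.factorial * Real.exp (9 + -(u ^ 2 / 2)) := by
        have := Real.exp_le_exp.2 h3
        gcongr
    _ = _ := by rw [Real.exp_add]; ring

theorem gint (T : ℝ) (hT : 0 < T) : Integrable (fun t : ℝ => Real.exp (-((t / T) ^ 2 / 2))) ∧
    ∫ t : ℝ, Real.exp (-((t / T) ^ 2 / 2)) ≤ 3 * T := by
  have e1 : (fun t : ℝ => Real.exp (-((t / T) ^ 2 / 2))) = fun t : ℝ => Real.exp (-(1 / (2 * T ^ 2)) * t ^ 2) := by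
    funext t
    congr 1
    field_simp
  rw [e1]
  refine ⟨integrable_exp_neg_mul_sq (by positivity), ?_⟩
  rw [integral_gaussian]
  have e2 : Real.pi / (1 / (2 * T ^ 2)) = 2 * Real.pi * T ^ 2 := by
    field_simp
  rw [e2]
  have h1 : 2 * Real.pi * T ^ 2 ≤ (3 * T) ^ 2 := by
    have := Real.pi_lt_d2
    have hT2 : 0 < T ^ 2 := by positivity
    nlinarith
  calc Real.sqrt (2 * Real.pi * T ^ 2) ≤ Real.sqrt ((3 * T) ^ 2) := Real.sqrt_le_sqrt h1
    _ = 3 * T := Real.sqrt_sq (by positivity)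

/-- the bound for the shifted weight -/
theorem wt_bd (k : ℕ) : ∃ C : ℝ, 0 < C ∧ ∀ κ T B t : ℝ, 1 ≤ κ → 0 < T → 0 ≤ B → κ * B ≤ T →
    ‖wt k κ T ((t : ℂ) - B * I)‖ ≤ C * Real.exp (-((t / T) ^ 2 / 2)) := by
  obtain ⟨C, hC, h⟩ := poly_gauss (2 * k)
  refine ⟨Real.exp 1 * C, by positivity, fun κ T B t hκ hT hB hκB => ?_⟩
  rw [wt_norm]
  have hBT : B / T ≤ 1 := by
    rw [div_le_one hT]
    nlinarith
  have hBT0 : 0 ≤ B / T := by positivity
  have h1 : ‖((t : ℂ) - B * I) / T‖ ≤ |t / T| + 1 := by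
    have e1 : ((t : ℂ) - B * I) / T = ((t / T : ℝ) : ℂ) - ((B / T : ℝ) : ℂ) * I := by
      push_cast
      ring
    rw [e1]
    refine (norm_sub_le _ _).trans ?_
    rw [norm_mul, Complex.norm_I, mul_one, Complex.norm_real, Complex.norm_real, Real.norm_eq_abs, Real.norm_eq_abs,
      abs_of_nonneg hBT0]
    linarith
  have h2 : κ ^ 2 * (B / T) ^ 2 ≤ 1 := by
    rw [← mul_pow]
    apply pow_le_one₀ (by positivity)
    rw [← mul_div_assoc, div_le_one hT]
    exact hκB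
  have hκ2 : 1 ≤ κ ^ 2 := one_le_pow₀ hκ
  have h3 : -(κ ^ 2 * ((t / T - 3 / 2) ^ 2 - (B / T) ^ 2)) ≤ 1 + -((t / T - 3 / 2) ^ 2) := by
    have : (t / T - 3 / 2) ^ 2 ≤ κ ^ 2 * (t / T - 3 / 2) ^ 2 := le_mul_of_one_le_left (sq_nonneg _) hκ2
    nlinarith
  calc _ ≤ (|t / T| + 1) ^ (2 * k) * Real.exp (1 + -((t / T - 3 / 2) ^ 2)) := by
        have := Real.exp_le_exp.2 h3
        gcongr
    _ = Real.exp 1 * ((|t / T| + 1) ^ (2 * k) * Real.exp (-((t / T - 3 / 2) ^ 2))) := by rw [Real.exp_add]; ring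
    _ ≤ Real.exp 1 * (C * Real.exp (-((t / T) ^ 2 / 2))) :=
        mul_le_mul_of_nonneg_left (h (t / T)) (Real.exp_pos 1).le
    _ = _ := by ring

/-- polynomial growth is absorbed -/
theorem poly_abs (n : ℕ) (a : ℝ) (ha : 0 < a) : ∃ C : ℝ, 0 < C ∧ ∀ y : ℝ,
    (|y| + 1) ^ n * Real.exp (-(2 * a * y ^ 2)) ≤ C * Real.exp (-a * y ^ 2) := by
  refine ⟨(n.factorial : ℝ) * Real.exp (1 + 1 / a), by positivity, fun u => ?_⟩
  have h1 : (|u| + 1) ^ n ≤ n.factorial * Real.exp (|u| + 1) := by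
    have h2 := Real.pow_div_factorial_le_exp (|u| + 1) (by positivity) n
    rw [div_le_iff₀ (by positivity)] at h2
    linarith
  have h3 : |u| + 1 + -(2 * a * u ^ 2) ≤ 1 + 1 / a + -a * u ^ 2 := by
    have h5 : |u| ^ 2 = u ^ 2 := sq_abs u
    have h6 : |u| ≤ 1 / a + a * |u| ^ 2 := by
      have h7 : 0 ≤ (a * |u| - 1) ^ 2 := sq_nonneg _
      have h8 : |u| * a ≤ (1 / a + a * |u| ^ 2) * a := by
        have : (1 / a + a * |u| ^ 2) * a = 1 + a ^ 2 * |u| ^ 2 := by field_simp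
        rw [this]
        have h9 : 0 ≤ a * |u| := by positivity
        nlinarith
      exact le_of_mul_le_mul_right h8 ha
    rw [h5] at h6
    linarith
  calc (|u| + 1) ^ n * Real.exp (-(2 * a * u ^ 2)) ≤
      (n.factorial * Real.exp (|u| + 1)) * Real.exp (-(2 * a * u ^ 2)) := by gcongr
    _ = n.factorial * Real.exp (|u| + 1 + -(2 * a * u ^ 2)) := by
        rw [Real.exp_add (|u| + 1) (-(2 * a * u ^ 2)), mul_assoc]
    _ ≤ n.factorial * Real.exp (1 + 1 / a + -a * u ^ 2) := by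
        have := Real.exp_le_exp.2 h3
        gcongr
    _ = _ := by rw [Real.exp_add]; ring

/-- the first moment, by moving the line of integration -/
theorem fm1 (k : ℕ) : ∃ C : ℝ, 0 < C ∧ ∀ (V : ℂ → ℂ), Differentiable ℂ V → ∀ (M : ℝ) (n : ℕ), 0 ≤ M →
    (∀ s : ℂ, 1 / 2 ≤ s.re → ‖V s‖ ≤ M * (|s.im| + 1) ^ n) → ∀ κ T B η : ℝ, 1 ≤ κ → 0 < T → 0 ≤ B → κ * B ≤ T →
    (∀ s : ℂ, s.re = 1 / 2 + B → ‖V s - 1‖ ≤ η) →
    (Integrable fun t : ℝ => wt k κ T t * V (1 / 2 + t * I)) ∧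
    T * (1 / (3 * κ) - C * η) ≤ ‖∫ t : ℝ, wt k κ T t * V (1 / 2 + t * I)‖ := by
  obtain ⟨C, hC, hbd⟩ := wt_bd k
  refine ⟨C * 3, by positivity, ?_⟩
  intro V hV M n hM hVM κ T B η hκ hT hB hκB hη
  have hκ0 : 0 < κ := by linarith
  have hη0 : 0 ≤ η := (norm_nonneg _).trans (hη ((1 / 2 + B : ℝ) : ℂ) (Complex.ofReal_re _))
  -- the weight is integrable
  obtain ⟨g1, g2⟩ := gint T hT
  have hwt0 : ∀ t : ℝ, ‖wt k κ T t‖ ≤ C * Real.exp (-((t / T) ^ 2 / 2)) := by
    intro t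
    have := hbd κ T 0 t hκ hT le_rfl (by rw [mul_zero]; exact hT.le)
    rwa [Complex.ofReal_zero, zero_mul, sub_zero] at this
  have hwc : Continuous (wt k κ T) := (wt_diff k κ T).continuous
  have hwi : Integrable fun t : ℝ => wt k κ T t := by
    refine Integrable.mono' (g1.const_mul C) (by fun_prop) (Eventually.of_forall hwt0)
  -- the shift
  obtain ⟨δ, hδ⟩ : ∃ δ : ℝ, δ = 1 / (4 * T ^ 2) := ⟨_, rfl⟩
  have hδ0 : 0 < δ := by rw [hδ]; positivity
  obtain ⟨C2, hC2, hpa⟩ := poly_abs n δ hδ0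
  obtain ⟨F, hFd⟩ : ∃ F : ℂ → ℂ, F = fun s => wt k κ T (-I * (s - 1 / 2)) * (V s - 1) := ⟨_, rfl⟩
  have hF : Differentiable ℂ F := by
    rw [hFd]
    have := wt_diff k κ T
    fun_prop
  have hFv : ∀ x y : ℝ, F (((1 / 2 + x : ℝ) : ℂ) + y * I) =
      wt k κ T ((y : ℂ) - x * I) * (V (((1 / 2 + x : ℝ) : ℂ) + y * I) - 1) := by
    intro x y
    rw [hFd]
    simp only
    congr 2
    push_cast
    linear_combination -(y : ℂ) * I_sq
  have hexp : ∀ y : ℝ, Real.exp (-((y / T) ^ 2 / 2)) = Real.exp (-(2 * δ * y ^ 2)) := by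
    intro y
    congr 1
    rw [hδ]
    field_simp
    ring
  have hsh := Pool.Agent.W355.LJ.shift_gauss F hF (1 / 2) (1 / 2 + B) (by linarith) (C * (M + 1) * C2) δ hδ0
    (by positivity) (by
      intro x y h1 h2
      have e1 := hFv (x - 1 / 2) y
      rw [show (1 / 2 + (x - 1 / 2) : ℝ) = x by ring] at e1
      rw [e1, norm_mul]
      have h3 := hbd κ T (x - 1 / 2) y hκ hT (by linarith) (by nlinarith)
      rw [hexp] at h3
      have hre : ((x : ℂ) + y * I).re = x := by simp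
      have him : ((x : ℂ) + y * I).im = y := by simp
      have h4 : ‖V ((x : ℂ) + y * I) - 1‖ ≤ (M + 1) * (|y| + 1) ^ n := by
        have h5 := hVM ((x : ℂ) + y * I) (by rw [hre]; exact h1)
        rw [him] at h5
        have h6 : (1 : ℝ) ≤ (|y| + 1) ^ n := one_le_pow₀ (by linarith [abs_nonneg y])
        calc ‖V ((x : ℂ) + y * I) - 1‖ ≤ ‖V ((x : ℂ) + y * I)‖ + ‖(1 : ℂ)‖ := norm_sub_le _ _
          _ ≤ M * (|y| + 1) ^ n + 1 := by rw [norm_one]; linarith
          _ ≤ _ := by linarith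
      calc _ ≤ (C * Real.exp (-(2 * δ * y ^ 2))) * ((M + 1) * (|y| + 1) ^ n) :=
            mul_le_mul h3 h4 (norm_nonneg _) (by positivity)
        _ = C * (M + 1) * ((|y| + 1) ^ n * Real.exp (-(2 * δ * y ^ 2))) := by ring
        _ ≤ C * (M + 1) * (C2 * Real.exp (-δ * y ^ 2)) := mul_le_mul_of_nonneg_left (hpa y) (by positivity)
        _ = _ := by ring)
  have hVi : Integrable fun t : ℝ => wt k κ T t * V (1 / 2 + t * I) := by
    refine Integrable.mono' ((integrable_exp_neg_mul_sq hδ0).const_mul (C * M * C2)) ?_ (Eventually.of_forall fun y => ?_)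
    · have hVc := hV.continuous
      apply Continuous.aestronglyMeasurable
      fun_prop
    · rw [norm_mul]
      have h3 := hwt0 y
      rw [hexp] at h3
      have hre : ((1 / 2 : ℂ) + y * I).re = 1 / 2 := by simp
      have him : ((1 / 2 : ℂ) + y * I).im = y := by simp
      have h5 := hVM ((1 / 2 : ℂ) + y * I) (by rw [hre])
      rw [him] at h5
      calc _ ≤ (C * Real.exp (-(2 * δ * y ^ 2))) * (M * (|y| + 1) ^ n) :=
            mul_le_mul h3 h5 (norm_nonneg _) (by positivity)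
        _ = C * M * ((|y| + 1) ^ n * Real.exp (-(2 * δ * y ^ 2))) := by ring
        _ ≤ C * M * (C2 * Real.exp (-δ * y ^ 2)) := mul_le_mul_of_nonneg_left (hpa y) (by positivity)
        _ = _ := by ring
  refine ⟨hVi, ?_⟩
  have hl : ∫ y : ℝ, F (((1 / 2 : ℝ) : ℂ) + y * I) =
      (∫ t : ℝ, wt k κ T t * V (1 / 2 + t * I)) - ∫ t : ℝ, wt k κ T t := by
    rw [← integral_sub hVi hwi]
    refine integral_congr_ae (Eventually.of_forall fun y => ?_)
    have e1 := hFv 0 y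
    rw [add_zero, Complex.ofReal_zero, zero_mul, sub_zero] at e1
    simp only
    rw [e1]
    push_cast
    ring
  have hr : ‖∫ y : ℝ, F (((1 / 2 + B : ℝ) : ℂ) + y * I)‖ ≤ C * 3 * η * T := by
    calc _ ≤ ∫ y : ℝ, C * η * Real.exp (-((y / T) ^ 2 / 2)) := by
          refine norm_integral_le_of_norm_le (g1.const_mul (C * η)) (Eventually.of_forall fun y => ?_)
          rw [hFv, norm_mul]
          have h3 := hbd κ T B y hκ hT hB hκB
          have h4 := hη (((1 / 2 + B : ℝ) : ℂ) + y * I) (by simp)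
          calc _ ≤ (C * Real.exp (-((y / T) ^ 2 / 2))) * η := mul_le_mul h3 h4 (norm_nonneg _) (by positivity)
            _ = _ := by ring
      _ ≤ C * η * (3 * T) := by
          rw [integral_const_mul]
          gcongr
      _ = _ := by ring
  have hlow : T * (1 / (3 * κ)) ≤ ‖∫ t : ℝ, wt k κ T t‖ := by
    have e1 : ∫ t : ℝ, wt k κ T t = ((∫ t : ℝ, wr k κ T t : ℝ) : ℂ) := by
      rw [← integral_complex_ofReal]
      exact integral_congr_ae (Eventually.of_forall fun t => wt_real k κ T t)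
    rw [e1, Complex.norm_real, Real.norm_eq_abs]
    refine le_trans ?_ (le_abs_self _)
    have hwri : Integrable (wr k κ T) := by
      have h2 := hwi.norm
      refine h2.congr (Eventually.of_forall fun t => ?_)
      simp only
      rw [wt_real, Complex.norm_real, Real.norm_of_nonneg (wr_nonneg _ _ _ _)]
    have h2 : ∫ t in Icc (3 * T / 2) (3 * T / 2 + T / κ), (1 / 3 : ℝ) ≤ ∫ t : ℝ, wr k κ T t := by
      calc ∫ t in Icc (3 * T / 2) (3 * T / 2 + T / κ), (1 / 3 : ℝ) ≤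
            ∫ t in Icc (3 * T / 2) (3 * T / 2 + T / κ), wr k κ T t := by
              refine setIntegral_mono_on (integrableOn_const (by simp)) hwri.integrableOn measurableSet_Icc
                fun t ht => ?_
              unfold wr
              have ht1 : 3 / 2 ≤ t / T := by
                rw [le_div_iff₀ hT]; linarith [ht.1]
              have ht2 : t / T ≤ 3 / 2 + 1 / κ := by
                rw [div_le_iff₀ hT]
                have e : (3 / 2 + 1 / κ) * T = 3 * T / 2 + T / κ := by ring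
                rw [e]
                exact ht.2
              have h5 : 1 ≤ (t / T) ^ (2 * k) := one_le_pow₀ (by linarith)
              have h6 : κ ^ 2 * (t / T - 3 / 2) ^ 2 ≤ 1 := by
                rw [← mul_pow]
                apply pow_le_one₀ (mul_nonneg hκ0.le (by linarith))
                have : κ * (t / T - 3 / 2) ≤ κ * (1 / κ) := by gcongr; linarith
                rwa [mul_one_div_cancel hκ0.ne'] at this
              have h7 : (1 / 3 : ℝ) ≤ Real.exp (-1) := by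
                rw [Real.exp_neg, ← one_div]
                have := Real.exp_one_lt_d9
                apply one_div_le_one_div_of_le (Real.exp_pos 1)
                linarith
              calc (1 / 3 : ℝ) ≤ 1 * Real.exp (-1) := by linarith
                _ ≤ _ := by
                  apply mul_le_mul h5 (Real.exp_le_exp.2 (by linarith)) (Real.exp_pos _).le (by linarith)
        _ ≤ _ := setIntegral_le_integral hwri (Eventually.of_forall fun t => wr_nonneg _ _ _ _)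
    refine le_trans (le_of_eq ?_) h2
    rw [setIntegral_const]
    have hTκ : 0 ≤ T / κ := by positivity
    rw [Real.volume_real_Icc_of_le (by linarith), smul_eq_mul]
    field_simp
    ring
  have e5 : ∫ t : ℝ, wt k κ T t * V (1 / 2 + t * I) = (∫ t : ℝ, wt k κ T t) +
      ∫ y : ℝ, F (((1 / 2 + B : ℝ) : ℂ) + y * I) := by
    have h0 : ∫ y : ℝ, F (((1 / 2 : ℝ) : ℂ) + y * I) = ∫ y : ℝ, F (((1 / 2 + B : ℝ) : ℂ) + y * I) := hsh
    rw [← h0, hl]
    ring
  have h9 : ‖∫ t : ℝ, wt k κ T t‖ - ‖∫ y : ℝ, F (((1 / 2 + B : ℝ) : ℂ) + y * I)‖ ≤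
      ‖∫ t : ℝ, wt k κ T t * V (1 / 2 + t * I)‖ := by
    rw [e5]
    have := norm_sub_le ((∫ t : ℝ, wt k κ T t) + ∫ y : ℝ, F (((1 / 2 + B : ℝ) : ℂ) + y * I))
      (∫ y : ℝ, F (((1 / 2 + B : ℝ) : ℂ) + y * I))
    rw [add_sub_cancel_right] at this
    linarith
  have e6 : T * (1 / (3 * κ) - C * 3 * η) = T * (1 / (3 * κ)) - C * 3 * η * T := by ring
  rw [e6]
  linarith

end Pool.Agent.K9h29.SP
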