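import Pool.Agent.K9h29.SP.Sec
import Pool.Agent.K9h29.SP.Wt
import Pool.Agent.K9h29.ZD.QCnt

set_option autoImplicit false

/-!
# The mollified L-function on vertical lines
-/

namespace Pool.Agent.K9h29.SP

open Complex Filter Topology MeasureTheory Set Asymptotics
open scoped ComplexConjugate
open Pool.Agent.Y671.GL
open Pool.Agent.K9h29.ZD (S_SCU tl TwF LD rgtU gro_all EG)
open Pool.Agent.H24R2.DZ (ray MM)

variable {k N : ℕ} {ps lam : ℕ → ℂ} {P0 : ℕ} {th Cd : ℝ} {L : (q : ℕ) → DirichletCharacter ℂ q → ℂ → ℂ}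

/-- a Dirichlet series with leading coefficient one, far to the right -/
theorem ds1 {f : ℕ → ℂ} (h0 : f 0 = 0) (h1 : f 1 = 1) {C : ℝ} (hf : ∀ n, 1 ≤ n → ‖f n‖ ≤ C * n) {s : ℂ} {B : ℕ}
    (hs : (4 : ℝ) + B ≤ s.re) : ‖(∑' n : ℕ, f n * (n : ℂ) ^ (-s)) - 1‖ ≤ 2 * C * (1 / 2) ^ B := by
  have hC : 0 ≤ C := by
    have := hf 1 le_rfl
    rw [h1, norm_one, Nat.cast_one, mul_one] at this
    linarith
  have hB0 : (0 : ℝ) ≤ B := Nat.cast_nonneg B
  -- the majorant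
  have hterm : ∀ n : ℕ, 2 ≤ n → ‖f n * (n : ℂ) ^ (-s)‖ ≤ C * (1 / 2) ^ B * (1 / (n : ℝ) ^ 2) := by
    intro n hn
    have hn0 : 0 < n := by omega
    have hnR : (2 : ℝ) ≤ n := by exact_mod_cast hn
    have hnp : (0 : ℝ) < n := by linarith
    rw [norm_mul, Complex.norm_natCast_cpow_of_pos hn0, Complex.neg_re]
    have h3 : (n : ℝ) ^ (-s.re) ≤ (n : ℝ) ^ (-(4 + B : ℝ)) :=
      Real.rpow_le_rpow_of_exponent_le (by linarith) (by linarith)
    have h4 : (n : ℝ) ^ (-(4 + B : ℝ)) = ((n : ℝ) ^ 4)⁻¹ * ((n : ℝ) ^ B)⁻¹ := by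
      rw [Real.rpow_neg hnp.le, Real.rpow_add hnp, Real.rpow_natCast, mul_inv]
      congr 2
      exact_mod_cast Real.rpow_natCast (n : ℝ) 4
    have h5 : ((n : ℝ) ^ B)⁻¹ ≤ (1 / 2) ^ B := by
      rw [one_div, inv_pow]
      apply inv_anti₀ (by positivity)
      exact pow_le_pow_left₀ (by norm_num) hnR B
    have h6 : (n : ℝ) * ((n : ℝ) ^ 4)⁻¹ ≤ 1 / (n : ℝ) ^ 2 := by
      rw [show (n : ℝ) * ((n : ℝ) ^ 4)⁻¹ = 1 / (n : ℝ) ^ 3 by field_simp]
      apply one_div_le_one_div_of_le (by positivity)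
      exact pow_le_pow_right₀ (by linarith) (by norm_num)
    calc ‖f n‖ * (n : ℝ) ^ (-s.re) ≤ (C * n) * (((n : ℝ) ^ 4)⁻¹ * (1 / 2) ^ B) := by
          apply mul_le_mul (hf n (by omega)) _ (by positivity) (by positivity)
          refine h3.trans ?_
          rw [h4]
          gcongr
      _ = C * (1 / 2) ^ B * ((n : ℝ) * ((n : ℝ) ^ 4)⁻¹) := by ring
      _ ≤ _ := by gcongr
  have hz : HasSum (fun n : ℕ => 1 / (n : ℝ) ^ 2) (Real.pi ^ 2 / 6) := hasSum_zeta_two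
  have hg : Summable fun n : ℕ => C * (1 / 2) ^ B * (1 / (n : ℝ) ^ 2) := hz.summable.mul_left _
  have hsum : Summable fun n : ℕ => f n * (n : ℂ) ^ (-s) := by
    rw [← summable_nat_add_iff 2]
    refine Summable.of_norm_bounded ((summable_nat_add_iff 2).2 hg) fun n => hterm (n + 2) (by omega)
  rw [← hsum.sum_add_tsum_nat_add 2, Finset.sum_range_succ, Finset.sum_range_one, h0, h1, zero_mul, zero_add,
    Nat.cast_one, Complex.one_cpow, mul_one, add_sub_cancel_left]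
  have h7 : ‖∑' n : ℕ, f (n + 2) * ((n + 2 : ℕ) : ℂ) ^ (-s)‖ ≤ ∑' n : ℕ, C * (1 / 2) ^ B * (1 / ((n + 2 : ℕ) : ℝ) ^ 2) :=
    tsum_of_norm_bounded ((summable_nat_add_iff 2).2 hg).hasSum fun n => hterm (n + 2) (by omega)
  refine h7.trans ?_
  rw [tsum_mul_left]
  have h8 : ∑' n : ℕ, (1 / ((n + 2 : ℕ) : ℝ) ^ 2) ≤ 2 := by
    have h9 := hz.summable.sum_add_tsum_nat_add 2
    rw [hz.tsum_eq] at h9
    have h10 : (0 : ℝ) ≤ ∑ i ∈ Finset.range 2, 1 / (i : ℝ) ^ 2 := Finset.sum_nonneg fun i _ => by positivity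
    have h11 := Real.pi_lt_d2
    have h12 := Real.pi_gt_three
    nlinarith
  have h13 : 0 ≤ C * (1 / 2) ^ B := by positivity
  nlinarith

/-- the mollified function -/
noncomputable def VV (lam : ℕ → ℂ) (P0 : ℕ) (θ T : ℝ) (L : (q : ℕ) → DirichletCharacter ℂ q → ℂ → ℂ) (q : ℕ)
    (χ : DirichletCharacter ℂ q) (s : ℂ) : ℂ :=
  L q χ s * (MM (yT θ (q * T)) (tl χ (bb lam P0 θ q T)) s) ^ 2

theorem MM_diff (y : ℕ) (b : ℕ → ℂ) : Differentiable ℂ (MM y b) := by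
  unfold MM
  apply Differentiable.fun_sum
  intro h hh
  have hh0 : (h : ℂ) ≠ 0 := by
    have := (Finset.mem_Icc.1 hh).1
    exact_mod_cast (by omega : h ≠ 0)
  apply Differentiable.const_mul
  intro s
  exact DifferentiableAt.const_cpow (by fun_prop) (Or.inl hh0)

theorem MM_le (y : ℕ) (b : ℕ → ℂ) {s : ℂ} (hs : 0 ≤ s.re) : ‖MM y b s‖ ≤ ∑ h ∈ Finset.Icc 1 y, ‖b h‖ := by
  unfold MM
  refine (norm_sum_le _ _).trans (Finset.sum_le_sum fun h hh => ?_)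
  have hh0 : 0 < h := (Finset.mem_Icc.1 hh).1
  rw [norm_mul, Complex.norm_natCast_cpow_of_pos hh0, Complex.neg_re]
  have : (h : ℝ) ^ (-s.re) ≤ 1 := Real.rpow_le_one_of_one_le_of_nonpos (by exact_mod_cast hh0) (by linarith)
  calc ‖b h‖ * (h : ℝ) ^ (-s.re) ≤ ‖b h‖ * 1 := by gcongr
    _ = _ := mul_one _

theorem VV_diff (hD : LD k N ps lam L) {q : ℕ} [NeZero q] (hco : q.Coprime N) {χ : DirichletCharacter ℂ q}
    (hχ : χ.IsPrimitive) (θ T : ℝ) : Differentiable ℂ (VV lam P0 θ T L q χ) := by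
  unfold VV
  exact (hD.isL q χ hχ hco).diff.mul ((MM_diff _ _).pow 2)

/-- growth of the mollified function -/
theorem VV_gro (hD : LD k N ps lam L) {q : ℕ} [NeZero q] (hco : q.Coprime N) {χ : DirichletCharacter ℂ q}
    (hχ : χ.IsPrimitive) (θ T : ℝ) : ∃ M : ℝ, 0 ≤ M ∧ ∀ s : ℂ, 1 / 2 ≤ s.re →
    ‖VV lam P0 θ T L q χ s‖ ≤ M * (|s.im| + 1) ^ 2 := by
  obtain ⟨B, c, hB, hc, hr⟩ := rgtU hD
  have hq1 : (1 : ℝ) ≤ q := by exact_mod_cast Nat.pos_of_ne_zero (NeZero.ne q)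
  have hk1 : (1 : ℝ) ≤ k := by exact_mod_cast hD.tw.frm.k_pos
  have hN1 : (1 : ℝ) ≤ N := by exact_mod_cast hD.tw.frm.N_pos
  have hg := gro_all (k := (k : ℤ)) (N := (N : ℝ)) (Q := (q : ℝ)) (B := B) (F := L q χ)
    (by exact_mod_cast hD.tw.frm.k_pos) hN1 hq1 hB (hD.fe q χ hχ hco) (hr q χ hχ hco).1
  obtain ⟨P, hP⟩ : ∃ P : ℝ, P = ∑ h ∈ Finset.Icc 1 (yT θ (q * T)), ‖tl χ (bb lam P0 θ q T) h‖ := ⟨_, rfl⟩
  have hP0 : 0 ≤ P := by rw [hP]; exact Finset.sum_nonneg fun h _ => norm_nonneg _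
  refine ⟨2 * (B * N) * (q * (k + 6)) ^ 2 * P ^ 2, by positivity, fun s hs => ?_⟩
  unfold VV
  rw [norm_mul, norm_pow]
  have h1 := hg s (by linarith)
  have h2 := MM_le (yT θ (q * T)) (tl χ (bb lam P0 θ q T)) (s := s) (by linarith)
  rw [← hP] at h2
  have him := abs_nonneg s.im
  have h3 : (q : ℝ) * (|s.im| + ((k : ℤ) : ℝ) + 6) ≤ (q * (k + 6)) * (|s.im| + 1) := by
    push_cast
    have : |s.im| + (k : ℝ) + 6 ≤ (k + 6) * (|s.im| + 1) := by nlinarith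
    calc (q : ℝ) * (|s.im| + (k : ℝ) + 6) ≤ q * ((k + 6) * (|s.im| + 1)) := by gcongr
      _ = _ := by ring
  have h4 : (0 : ℝ) ≤ q * (|s.im| + ((k : ℤ) : ℝ) + 6) := by
    push_cast
    positivity
  have h5 : ‖L q χ s‖ ≤ 2 * (B * N) * ((q * (k + 6)) * (|s.im| + 1)) ^ 2 := by
    refine h1.trans ?_
    have := pow_le_pow_left₀ h4 h3 2
    gcongr
  calc ‖L q χ s‖ * ‖MM (yT θ (q * T)) (tl χ (bb lam P0 θ q T)) s‖ ^ 2 ≤
        (2 * (B * N) * ((q * (k + 6)) * (|s.im| + 1)) ^ 2) * P ^ 2 := by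
          apply mul_le_mul h5 (pow_le_pow_left₀ (norm_nonneg _) h2 2) (by positivity) (by positivity)
    _ = _ := by ring

theorem yT_pos {θ M : ℝ} (hM : 0 < M) : 1 ≤ yT θ M := by
  unfold yT
  rw [Nat.one_le_ceil_iff]
  positivity

theorem tl_le {q : ℕ} [NeZero q] (χ : DirichletCharacter ℂ q) (a : ℕ → ℂ) (n : ℕ) : ‖tl χ a n‖ ≤ ‖a n‖ := by
  unfold tl
  rw [norm_mul]
  calc ‖χ (n : ZMod q)‖ * ‖a n‖ ≤ 1 * ‖a n‖ := by gcongr; exact χ.norm_le_one _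
    _ = _ := one_mul _

/-- far to the right the mollified function is nearly one -/
theorem VV_one (hD : LD k N ps lam L) (hd : HD lam P0 th Cd) {q : ℕ} [NeZero q] (hco : q.Coprime N)
    {χ : DirichletCharacter ℂ q} (hχ : χ.IsPrimitive) (θ : ℝ) {T : ℝ} (hT : 0 < T) {B : ℕ}
    (hB : 2 * Cd * (1 / 2) ^ B ≤ 1) {s : ℂ} (hs : (4 : ℝ) + B ≤ s.re) :
    ‖VV lam P0 θ T L q χ s - 1‖ ≤ 14 * Cd * (1 / 2) ^ B := by
  have hq0 : (0 : ℝ) < q := by exact_mod_cast Nat.pos_of_ne_zero (NeZero.ne q)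
  have hCd0 : 0 < Cd := by linarith [hd.C1]
  obtain ⟨e, he⟩ : ∃ e : ℝ, e = 2 * Cd * (1 / 2) ^ B := ⟨_, rfl⟩
  rw [← he] at hB
  have he0 : 0 ≤ e := by rw [he]; positivity
  have h1 : ‖L q χ s - 1‖ ≤ e := by
    rw [he, (hD.isL q χ hχ hco).ser s (by
      have : (0 : ℝ) ≤ B := Nat.cast_nonneg B
      linarith)]
    apply ds1 _ _ _ hs
    · unfold tl
      rw [hd.zero, mul_zero]
    · unfold tl
      rw [hd.one, Nat.cast_one, map_one, mul_one]
    · intro n hn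
      refine (tl_le χ lam n).trans ((hd.bd n hn).trans ?_)
      have hn1 : (1 : ℝ) ≤ n := by exact_mod_cast hn
      have : (n : ℝ) ^ th ≤ (n : ℝ) ^ (1 : ℝ) := Real.rpow_le_rpow_of_exponent_le hn1 (by linarith [hd.th1])
      rw [Real.rpow_one] at this
      gcongr
  have h2 : ‖MM (yT θ (q * T)) (tl χ (bb lam P0 θ q T)) s - 1‖ ≤ e := by
    obtain ⟨y, hy⟩ : ∃ y : ℕ, y = yT θ (q * T) := ⟨_, rfl⟩
    have hy1 : 1 ≤ y := by rw [hy]; exact yT_pos (by positivity)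
    obtain ⟨b, hb⟩ : ∃ b : ℕ → ℂ, b = tl χ (bb lam P0 θ q T) := ⟨_, rfl⟩
    rw [← hy, ← hb]
    have hb1 : b 1 = 1 := by
      rw [hb]
      unfold tl bb
      rw [bm_one, Nat.cast_one, map_one, mul_one]
    have hbn : ∀ n, 1 ≤ n → ‖b n‖ ≤ Cd * n := by
      intro n hn
      rw [hb]
      refine (tl_le χ _ n).trans ?_
      unfold bb
      exact bm_bd hd (g2_le _ _) θ (LL q T) hn
    have h3 : MM y b s = ∑' n : ℕ, (if 1 ≤ n ∧ n ≤ y then b n else 0) * (n : ℂ) ^ (-s) := by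
      unfold MM
      rw [tsum_eq_sum (s := Finset.Icc 1 y)]
      · refine Finset.sum_congr rfl fun n hn => ?_
        rw [Finset.mem_Icc] at hn
        rw [if_pos hn]
      · intro n hn
        rw [Finset.mem_Icc] at hn
        rw [if_neg hn, zero_mul]
    rw [h3, he]
    apply ds1 _ _ _ hs
    · simp
    · simp [hy1, hb1]
    · intro n hn
      split_ifs
      · exact hbn n hn
      · rw [norm_zero]
        positivity
  unfold VV
  obtain ⟨x, hx⟩ : ∃ x : ℂ, x = L q χ s := ⟨_, rfl⟩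
  obtain ⟨z, hz⟩ : ∃ z : ℂ, z = MM (yT θ (q * T)) (tl χ (bb lam P0 θ q T)) s := ⟨_, rfl⟩
  rw [← hx] at h1
  rw [← hz] at h2
  rw [← hx, ← hz]
  have hz2 : ‖z‖ ≤ 2 := by
    calc ‖z‖ = ‖(z - 1) + 1‖ := by rw [sub_add_cancel]
      _ ≤ ‖z - 1‖ + ‖(1 : ℂ)‖ := norm_add_le _ _
      _ ≤ 2 := by rw [norm_one]; linarith
  have e1 : x * z ^ 2 - 1 = (x - 1) * z ^ 2 + (z - 1) * (z + 1) := by ring
  rw [e1]
  calc ‖(x - 1) * z ^ 2 + (z - 1) * (z + 1)‖ ≤ ‖x - 1‖ * ‖z‖ ^ 2 + ‖z - 1‖ * ‖z + 1‖ := by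
        refine (norm_add_le _ _).trans ?_
        rw [norm_mul, norm_mul, norm_pow]
    _ ≤ e * 2 ^ 2 + e * 3 := by
        have h5 : ‖z + 1‖ ≤ 3 := by
          refine (norm_add_le _ _).trans ?_
          rw [norm_one]; linarith
        gcongr
    _ = 14 * Cd * (1 / 2) ^ B := by rw [he]; ring

/-- lower bound for the Gamma factor, all nonnegative heights -/
theorem EG_low (k : ℕ) (hk : 1 ≤ k) : ∃ c : ℝ, 0 < c ∧ ∀ T t : ℝ, 10 ≤ T → 0 ≤ t →
    c * (t ^ (k - 1) * Real.exp (-(2 * (t / T)))) ≤ ‖EG T (k / 2) t‖ ^ 2 := by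
  have hcG := Pool.Agent.Y180.GL.cG_pos
  have hk0 : (0 : ℝ) < (k : ℝ) / 2 := by
    have : (1 : ℝ) ≤ k := by exact_mod_cast hk
    linarith
  have hnorm : ∀ T t : ℝ, ‖EG T (k / 2) t‖ =
      Real.exp ((Real.pi / 2 - 1 / T) * t) * ‖Complex.Gamma (((k / 2 : ℝ) : ℂ) + t * I)‖ := by
    intro T t
    unfold EG
    rw [norm_mul, Complex.norm_exp]
    congr 2
    simp only [neg_mul, neg_re, mul_re, mul_im, I_re, I_im, ofReal_re, ofReal_im, add_re, add_im]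
    ring
  -- the compact range
  have hcont : ContinuousOn (fun t : ℝ => ‖Complex.Gamma (((k / 2 : ℝ) : ℂ) + t * I)‖) (Icc 0 1) := by
    refine ContinuousOn.norm ?_
    intro t _
    refine ContinuousAt.continuousWithinAt ?_
    refine ContinuousAt.comp (f := fun t : ℝ => ((k / 2 : ℝ) : ℂ) + t * I) (g := Complex.Gamma) ?_ (by fun_prop)
    apply (Complex.differentiableAt_Gamma _ _).continuousAt
    intro m h
    have := congrArg Complex.re h
    simp at this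
    have hm : (0:ℝ) ≤ m := Nat.cast_nonneg m
    linarith
  obtain ⟨t0, ht0, hmin⟩ := isCompact_Icc.exists_isMinOn (nonempty_Icc.2 zero_le_one) hcont
  obtain ⟨m0, hm0⟩ : ∃ m0 : ℝ, m0 = ‖Complex.Gamma (((k / 2 : ℝ) : ℂ) + t0 * I)‖ := ⟨_, rfl⟩
  have hm0p : 0 < m0 := by
    rw [hm0, norm_pos_iff]
    apply Complex.Gamma_ne_zero_of_re_pos
    simp
    linarith
  refine ⟨min (m0 ^ 2) (Pool.Agent.Y180.GL.cG ^ 2), by positivity, fun T t hT ht => ?_⟩
  have hT0 : 0 < T := by linarith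
  have hE : 0 < Real.exp (-(2 * (t / T))) := Real.exp_pos _
  rw [hnorm, mul_pow]
  rcases le_total t 1 with h | h
  · have h1 : m0 ≤ ‖Complex.Gamma (((k / 2 : ℝ) : ℂ) + t * I)‖ := by rw [hm0]; exact hmin ⟨ht, h⟩
    have h2 : Real.exp (-(2 * (t / T))) ≤ 1 := Real.exp_le_one_iff.2 (by
      have : 0 ≤ t / T := by positivity
      linarith)
    have h3 : 1 ≤ Real.exp ((Real.pi / 2 - 1 / T) * t) := by
      apply Real.one_le_exp
      have := (pi_half_gt hT).2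
      exact mul_nonneg (by linarith) ht
    have h4 : t ^ (k - 1) ≤ 1 := pow_le_one₀ ht h
    have h5 : t ^ (k - 1) * Real.exp (-(2 * (t / T))) ≤ 1 * 1 := mul_le_mul h4 h2 hE.le zero_le_one
    calc min (m0 ^ 2) (Pool.Agent.Y180.GL.cG ^ 2) * (t ^ (k - 1) * Real.exp (-(2 * (t / T)))) ≤ m0 ^ 2 * (1 * 1) := by
          apply mul_le_mul (min_le_left _ _) h5 (by positivity) (by positivity)
      _ = 1 ^ 2 * m0 ^ 2 := by ring
      _ ≤ _ := by gcongr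
  · have ht0' : 0 < t := by linarith
    have hg := Pool.Agent.Y180.GL.gam_all hk0 h
    have h3 : Pool.Agent.Y180.GL.cG * t ^ ((k : ℝ) / 2 - 1 / 2) * Real.exp (-(t / T)) ≤
        Real.exp ((Real.pi / 2 - 1 / T) * t) * ‖Gamma (((k / 2 : ℝ) : ℂ) + t * I)‖ := by
      refine le_trans (le_of_eq ?_) (mul_le_mul_of_nonneg_left hg (Real.exp_pos _).le)
      have : Real.exp (-(t / T)) = Real.exp ((Real.pi / 2 - 1 / T) * t) *
          Real.exp (-(Real.pi / 2 * t)) := by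
        rw [← Real.exp_add]
        congr 1
        ring
      rw [this]
      ring
    have h4 := pow_le_pow_left₀ (by positivity) h3 2
    rw [mul_pow (Real.exp ((Real.pi / 2 - 1 / T) * t))] at h4
    refine le_trans (le_of_eq_of_le ?_ (le_refl ((min (m0 ^ 2) (Pool.Agent.Y180.GL.cG ^ 2)) *
      (t ^ (k - 1) * Real.exp (-(2 * (t / T))))))) (le_trans ?_ h4)
    · rfl
    · have e1 : (Pool.Agent.Y180.GL.cG * t ^ ((k : ℝ) / 2 - 1 / 2) * Real.exp (-(t / T))) ^ 2 =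
          Pool.Agent.Y180.GL.cG ^ 2 * (t ^ (k - 1) * Real.exp (-(2 * (t / T)))) := by
        have q1 : (t ^ ((k : ℝ) / 2 - 1 / 2)) ^ 2 = t ^ (k - 1) := by
          rw [← Real.rpow_natCast, ← Real.rpow_mul ht0'.le, ← Real.rpow_natCast t (k - 1), Nat.cast_sub hk]
          congr 1
          push_cast
          ring
        have q2 : (Real.exp (-(t / T))) ^ 2 = Real.exp (-(2 * (t / T))) := by
          rw [← Real.exp_nat_mul]
          congr 1
          push_cast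
          ring
        rw [mul_pow, mul_pow, q1, q2]
        ring
      rw [e1]
      exact mul_le_mul_of_nonneg_right (min_le_right _ _) (by positivity)

/-- the transform in terms of the L-function -/
theorem norm_Fq (hD : LD k N ps lam L) {q : ℕ} [NeZero q] (hco : q.Coprime N) {χ : DirichletCharacter ℂ q}
    (hχ : χ.IsPrimitive) (θ : ℝ) {T : ℝ} (hT : 10 ≤ T) (t : ℝ) :
    ‖Fq (Gc k N lam P0 θ T χ) t‖ = ‖EG T (k / 2) t‖ * ‖VV lam P0 θ T L q χ (1 / 2 + t * I)‖ := by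
  have hN0 : (0 : ℝ) < N := by exact_mod_cast hD.tw.frm.N_pos
  have hq0 : (0 : ℝ) < q := by exact_mod_cast Nat.pos_of_ne_zero (NeZero.ne q)
  have hx1 : 0 < xc N q := by unfold xc; positivity
  unfold Gc
  rw [Fq_Gf (hD.tw.tw q χ hχ hco) (hD.isL q χ hχ hco) (pi_half_gt hT).1 (pi_half_gt hT).2 _ _ hx1 t]
  rw [norm_mul, Complex.norm_cpow_eq_rpow_re_of_pos hx1]
  have e1 : (-((t : ℂ) * I)).re = 0 := by simp
  rw [e1, Real.rpow_zero, one_mul, norm_mul, norm_mul, Complex.norm_real, Real.norm_of_nonneg (by positivity)]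
  unfold EG VV
  rw [norm_mul (L q χ _), norm_pow, mul_assoc]

end Pool.Agent.K9h29.SP
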