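import Pool.Agent.K9h29.SP.Fst1

set_option autoImplicit false

/-!
# The first moment: the tails
-/

namespace Pool.Agent.K9h29.SP

open Complex Filter Topology MeasureTheory Set Asymptotics
open scoped ComplexConjugate
open Pool.Agent.Y671.GL
open Pool.Agent.K9h29.ZD (S_SCU tl TwF LD rgtU gro_all EG)
open Pool.Agent.H24R2.DZ (ray MM)

variable {k N : ℕ} {ps lam : ℕ → ℂ} {P0 : ℕ} {th Cd : ℝ} {L : (q : ℕ) → DirichletCharacter ℂ q → ℂ → ℂ}

/-- the comparison weight -/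
noncomputable def v0 (k : ℕ) (T t : ℝ) : ℝ := (t / T) ^ (2 * k) * Real.exp (-((t / T - 3 / 2) ^ 2 / 2))

theorem v0_nonneg (k : ℕ) (T t : ℝ) : 0 ≤ v0 k T t := by
  unfold v0
  have : 0 ≤ (t / T) ^ (2 * k) := by
    rw [pow_mul]
    positivity
  positivity

theorem v0_cont (k : ℕ) (T : ℝ) : Continuous (v0 k T) := by
  unfold v0
  fun_prop

theorem v0_sq (k : ℕ) (hk : 1 ≤ k) : ∃ C : ℝ, 0 < C ∧ ∀ T t : ℝ, 10 ≤ T → 0 ≤ t →
    T ^ (k - 1) * v0 k T t ^ 2 ≤ C * Real.exp (-((t / T) ^ 2 / 2)) * ‖EG T (k / 2) t‖ ^ 2 := by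
  obtain ⟨c, hc, hlow⟩ := EG_low k hk
  obtain ⟨n, hn⟩ : ∃ n : ℕ, n = 3 * k + 1 := ⟨_, rfl⟩
  refine ⟨(n.factorial : ℝ) * Real.exp 16 / c, by positivity, fun T t hT ht => ?_⟩
  have hT0 : 0 < T := by linarith
  have h1 := hlow T t hT ht
  obtain ⟨u, hu⟩ : ∃ u : ℝ, u = t / T := ⟨_, rfl⟩
  have hu0 : 0 ≤ u := by rw [hu]; positivity
  have htu : t = u * T := by rw [hu]; field_simp
  unfold v0
  rw [← hu]
  rw [← hu] at h1
  rw [htu, mul_pow] at h1
  rw [htu]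
  obtain ⟨E, hE⟩ : ∃ E : ℝ, E = ‖EG T (k / 2) (u * T)‖ ^ 2 := ⟨_, rfl⟩
  rw [← hE] at h1 ⊢
  have e1 : (u ^ (2 * k) * Real.exp (-((u - 3 / 2) ^ 2 / 2))) ^ 2 =
      u ^ (k - 1) * (u ^ n * Real.exp (-((u - 3 / 2) ^ 2))) := by
    rw [mul_pow, ← pow_mul, ← Real.exp_nat_mul, ← mul_assoc, ← pow_add]
    congr 2
    · rw [hn]; omega
    · push_cast
      ring
  have e2 : u ^ n * Real.exp (-((u - 3 / 2) ^ 2)) ≤ n.factorial * Real.exp 16 * Real.exp (-(u ^ 2 / 2)) *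
      Real.exp (-(2 * u)) := by
    have h2 : u ^ n ≤ n.factorial * Real.exp u := by
      have h2 := Real.pow_div_factorial_le_exp u hu0 n
      rw [div_le_iff₀ (by positivity)] at h2
      linarith
    have h3 : u + -((u - 3 / 2) ^ 2) ≤ 16 + -(u ^ 2 / 2) + -(2 * u) := by
      nlinarith [sq_nonneg (u - 6)]
    calc u ^ n * Real.exp (-((u - 3 / 2) ^ 2)) ≤ (n.factorial * Real.exp u) * Real.exp (-((u - 3 / 2) ^ 2)) := by
          gcongr
      _ = n.factorial * Real.exp (u + -((u - 3 / 2) ^ 2)) := by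
          rw [Real.exp_add u (-((u - 3 / 2) ^ 2)), mul_assoc]
      _ ≤ n.factorial * Real.exp (16 + -(u ^ 2 / 2) + -(2 * u)) := by
          have := Real.exp_le_exp.2 h3
          gcongr
      _ = _ := by
          rw [Real.exp_add (16 + -(u ^ 2 / 2)) (-(2 * u)), Real.exp_add 16 (-(u ^ 2 / 2))]
          ring
  rw [e1]
  have hTk : 0 < T ^ (k - 1) := by positivity
  have huk : 0 ≤ u ^ (k - 1) := by positivity
  calc T ^ (k - 1) * (u ^ (k - 1) * (u ^ n * Real.exp (-((u - 3 / 2) ^ 2)))) ≤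
        T ^ (k - 1) * (u ^ (k - 1) * (n.factorial * Real.exp 16 * Real.exp (-(u ^ 2 / 2)) * Real.exp (-(2 * u)))) := by
          gcongr
    _ = (n.factorial : ℝ) * Real.exp 16 / c * Real.exp (-(u ^ 2 / 2)) *
        (c * (u ^ (k - 1) * T ^ (k - 1) * Real.exp (-(2 * u)))) := by
          field_simp
    _ ≤ _ := by
          apply mul_le_mul_of_nonneg_left h1
          positivity

/-- the bound for the second moment -/
def SecA (k N : ℕ) (lam : ℕ → ℂ) (P0 : ℕ) (θ C T0 : ℝ) : Prop :=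
  ∀ (q : ℕ) [NeZero q], q.Coprime N →
    ∀ (S : Finset (DirichletCharacter ℂ q)), (∀ χ ∈ S, χ.IsPrimitive) → ∀ (T : ℝ), T0 ≤ T →
    ∀ A B : ℝ, A ≤ B → ∑ χ ∈ S, ∫ t in A..B, ‖Fq (Gc k N lam P0 θ T χ) t‖ ^ 2 ≤
      C * T ^ k * ((q.totient : ℝ) ^ 2 / q)

theorem line_cont : Continuous fun t : ℝ => (1 / 2 + t * I : ℂ) := by fun_prop

theorem tailS (hD : LD k N ps lam L) {θ C T0 : ℝ} (hC : 0 < C) (hT0 : 10 ≤ T0) (hA : SecA k N lam P0 θ C T0) :
    ∃ C1 : ℝ, 0 < C1 ∧ ∀ (q : ℕ) [NeZero q], q.Coprime N →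
    ∀ (S : Finset (DirichletCharacter ℂ q)), (∀ χ ∈ S, χ.IsPrimitive) → ∀ (T ρ : ℝ), T0 ≤ T → 0 < ρ →
    ρ ^ 2 * ((q.totient : ℝ) ^ 2 / q) ≤ S.card →
    ∀ A B : ℝ, 0 ≤ A → A ≤ B → ∑ χ ∈ S, ∫ t in A..B, v0 k T t * ‖VV lam P0 θ T L q χ (1 / 2 + t * I)‖ ≤
      C1 * T * S.card / ρ := by
  have hk := hD.tw.frm.k_pos
  obtain ⟨C2, hC2, hv⟩ := v0_sq k hk
  refine ⟨C / 2 + 3 / 2 * C2, by positivity, ?_⟩
  intro q _ hco S hS T ρ hT hρ hcard A B hA0 hAB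
  have hT10 : 10 ≤ T := hT0.trans hT
  have hTp : 0 < T := by linarith
  have hTk : T ^ k = T * T ^ (k - 1) := by
    rw [← pow_succ']
    congr 1
    omega
  have hTk1 : 0 < T ^ (k - 1) := by positivity
  obtain ⟨lm, hlm⟩ : ∃ lm : ℝ, lm = ρ / T ^ (k - 1) := ⟨_, rfl⟩
  have hlm0 : 0 < lm := by rw [hlm]; positivity
  have hpt : ∀ χ ∈ S, ∀ t : ℝ, 0 ≤ t → v0 k T t * ‖VV lam P0 θ T L q χ (1 / 2 + t * I)‖ ≤
      lm / 2 * ‖Fq (Gc k N lam P0 θ T χ) t‖ ^ 2 + C2 / (2 * lm * T ^ (k - 1)) * Real.exp (-((t / T) ^ 2 / 2)) := by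
    intro χ hχ t ht
    rw [norm_Fq hD hco (hS χ hχ) θ hT10 t]
    have h1 := hv T t hT10 ht
    obtain ⟨E, hE⟩ : ∃ E : ℝ, E = ‖EG T (k / 2) t‖ := ⟨_, rfl⟩
    obtain ⟨X, hX⟩ : ∃ X : ℝ, X = ‖VV lam P0 θ T L q χ (1 / 2 + t * I)‖ := ⟨_, rfl⟩
    obtain ⟨G, hG⟩ : ∃ G : ℝ, G = Real.exp (-((t / T) ^ 2 / 2)) := ⟨_, rfl⟩
    obtain ⟨v, hvd⟩ : ∃ v : ℝ, v = v0 k T t := ⟨_, rfl⟩
    rw [← hE, ← hG, ← hvd] at h1
    rw [← hE, ← hX, ← hG, ← hvd]
    have hv0 : 0 ≤ v := by rw [hvd]; exact v0_nonneg _ _ _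
    have hE0 : 0 ≤ E := by rw [hE]; exact norm_nonneg _
    have hX0 : 0 ≤ X := by rw [hX]; exact norm_nonneg _
    have hG0 : 0 ≤ G := by rw [hG]; positivity
    generalize T ^ (k - 1) = P at h1 hTk1
    -- `v X ≤ lm/2 (E X)^2 + C2/(2 lm P) G`
    rcases eq_or_lt_of_le hE0 with h0 | h0
    · rw [← h0] at h1 ⊢
      have h2 : P * v ^ 2 ≤ 0 := by
        rw [zero_pow (by norm_num), mul_zero] at h1
        exact h1
      have h3 : v = 0 := by
        have : v ^ 2 ≤ 0 := by nlinarith [sq_nonneg v]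
        exact pow_eq_zero_iff (by norm_num) |>.1 (le_antisymm this (sq_nonneg v))
      rw [h3]
      simp only [zero_mul, ne_eq, OfNat.ofNat_ne_zero, not_false_eq_true, zero_pow, mul_zero, zero_add]
      positivity
    · have h2 : v ^ 2 / E ^ 2 ≤ C2 * G / P := by
        rw [div_le_div_iff₀ (by positivity) hTk1]
        linarith
      have h3 : v * X ≤ lm / 2 * (E * X) ^ 2 + 1 / (2 * lm) * (v ^ 2 / E ^ 2) := by
        have h4 : 0 ≤ (lm * (E * X) - v / E) ^ 2 := sq_nonneg _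
        have h5 : (lm * (E * X) - v / E) ^ 2 = lm ^ 2 * (E * X) ^ 2 - 2 * lm * (v * X) + v ^ 2 / E ^ 2 := by
          field_simp
          ring
        rw [h5] at h4
        have h6 : lm / 2 * (E * X) ^ 2 + 1 / (2 * lm) * (v ^ 2 / E ^ 2) =
            (lm ^ 2 * (E * X) ^ 2 + v ^ 2 / E ^ 2) / (2 * lm) := by
          field_simp
        rw [h6, le_div_iff₀ (by positivity)]
        linarith
      refine h3.trans ?_
      have h7 : 1 / (2 * lm) * (v ^ 2 / E ^ 2) ≤ 1 / (2 * lm) * (C2 * G / P) := by gcongr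
      have h8 : 1 / (2 * lm) * (C2 * G / P) = C2 / (2 * lm * P) * G := by field_simp
      linarith
  obtain ⟨g1, g2⟩ := gint T hTp
  have hone : ∀ χ ∈ S, ∫ t in A..B, v0 k T t * ‖VV lam P0 θ T L q χ (1 / 2 + t * I)‖ ≤
      lm / 2 * (∫ t in A..B, ‖Fq (Gc k N lam P0 θ T χ) t‖ ^ 2) + C2 / (2 * lm * T ^ (k - 1)) * (3 * T) := by
    intro χ hχ
    have c1 : Continuous fun t : ℝ => v0 k T t * ‖VV lam P0 θ T L q χ (1 / 2 + t * I)‖ := by
      have h1 := (VV_diff (P0 := P0) hD hco (hS χ hχ) θ T).continuous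
      have h2 := v0_cont k T
      fun_prop
    have c2 : Continuous fun t : ℝ => ‖Fq (Gc k N lam P0 θ T χ) t‖ ^ 2 :=
      (Fq_cont (Gc_ed hD.tw hco (hS χ hχ) θ hT10)).norm.pow 2
    have c3 : Continuous fun t : ℝ => Real.exp (-((t / T) ^ 2 / 2)) := by fun_prop
    calc ∫ t in A..B, v0 k T t * ‖VV lam P0 θ T L q χ (1 / 2 + t * I)‖ ≤
          ∫ t in A..B, (lm / 2 * ‖Fq (Gc k N lam P0 θ T χ) t‖ ^ 2 +
            C2 / (2 * lm * T ^ (k - 1)) * Real.exp (-((t / T) ^ 2 / 2))) := by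
            apply intervalIntegral.integral_mono_on hAB (c1.intervalIntegrable _ _)
              (((c2.const_mul _).add (c3.const_mul _)).intervalIntegrable _ _)
            intro t ht
            exact hpt χ hχ t (hA0.trans ht.1)
      _ = lm / 2 * (∫ t in A..B, ‖Fq (Gc k N lam P0 θ T χ) t‖ ^ 2) +
            C2 / (2 * lm * T ^ (k - 1)) * ∫ t in A..B, Real.exp (-((t / T) ^ 2 / 2)) := by
            rw [intervalIntegral.integral_add ((c2.const_mul _).intervalIntegrable _ _)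
              ((c3.const_mul _).intervalIntegrable _ _), intervalIntegral.integral_const_mul,
              intervalIntegral.integral_const_mul]
      _ ≤ _ := by
            have h5 : ∫ t in A..B, Real.exp (-((t / T) ^ 2 / 2)) ≤ 3 * T := by
              rw [intervalIntegral.integral_of_le hAB]
              exact (setIntegral_le_integral g1 (Eventually.of_forall fun t => (Real.exp_pos _).le)).trans g2
            have h6 : 0 ≤ C2 / (2 * lm * T ^ (k - 1)) := by positivity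
            have := mul_le_mul_of_nonneg_left h5 h6
            linarith
  refine (Finset.sum_le_sum hone).trans ?_
  rw [Finset.sum_add_distrib, ← Finset.mul_sum, Finset.sum_const, nsmul_eq_mul]
  have h1 := hA q hco S hS T hT A B hAB
  have hq0 : (0 : ℝ) < q := by exact_mod_cast Nat.pos_of_ne_zero (NeZero.ne q)
  obtain ⟨Y, hY⟩ : ∃ Y : ℝ, Y = (q.totient : ℝ) ^ 2 / q := ⟨_, rfl⟩
  rw [← hY] at h1 hcard
  obtain ⟨Z, hZ⟩ : ∃ Z : ℝ, Z = ∑ χ ∈ S, ∫ t in A..B, ‖Fq (Gc k N lam P0 θ T χ) t‖ ^ 2 := ⟨_, rfl⟩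
  rw [← hZ] at h1 ⊢
  have hY0 : 0 ≤ Y := by rw [hY]; positivity
  have h2 : Y ≤ S.card / ρ ^ 2 := by
    rw [le_div_iff₀ (by positivity)]
    linarith
  have h3 : lm / 2 * Z ≤ C / 2 * T * S.card / ρ := by
    calc lm / 2 * Z ≤ lm / 2 * (C * T ^ k * (S.card / ρ ^ 2)) := by
          apply mul_le_mul_of_nonneg_left _ (by positivity)
          refine h1.trans ?_
          gcongr
      _ = _ := by
          rw [hlm, hTk]
          field_simp
  have h4 : (S.card : ℝ) * (C2 / (2 * lm * T ^ (k - 1)) * (3 * T)) = 3 / 2 * C2 * T * S.card / ρ := by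
    rw [hlm]
    field_simp
  rw [h4]
  have h5 : (C / 2 + 3 / 2 * C2) * T * S.card / ρ = C / 2 * T * S.card / ρ + 3 / 2 * C2 * T * S.card / ρ := by ring
  rw [h5]
  linarith

end Pool.Agent.K9h29.SP
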