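import Pool.Agent.K9h29.SP.Fst2

set_option autoImplicit false

/-!
# The first moment
-/

namespace Pool.Agent.K9h29.SP

open Complex Filter Topology MeasureTheory Set Asymptotics
open scoped ComplexConjugate
open Pool.Agent.Y671.GL
open Pool.Agent.K9h29.ZD (S_SCU tl TwF LD rgtU gro_all EG)
open Pool.Agent.H24R2.DZ (ray MM)

variable {k N : ℕ} {ps lam : ℕ → ℂ} {P0 : ℕ} {th Cd : ℝ} {L : (q : ℕ) → DirichletCharacter ℂ q → ℂ → ℂ}

theorem inv_prim {q : ℕ} [NeZero q] {χ : DirichletCharacter ℂ q} (hχ : χ.IsPrimitive) : χ⁻¹.IsPrimitive :=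
  Pool.Agent.W440.TW.inv_primitive _ hχ

theorem MM_conj {q : ℕ} [NeZero q] (χ : DirichletCharacter ℂ q) (y : ℕ) {b : ℕ → ℂ} (hb : ∀ n, conj (b n) = b n)
    (s : ℂ) : MM y (tl χ⁻¹ b) s = conj (MM y (tl χ b) (conj s)) := by
  unfold MM
  rw [map_sum]
  refine Finset.sum_congr rfl fun n hn => ?_
  unfold tl
  rw [map_mul, map_mul, hb n]
  congr 1
  · congr 1
    exact (MulChar.star_apply' χ _).symm
  · have harg : ((n : ℂ)).arg ≠ Real.pi := by
      rw [Complex.natCast_arg]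
      exact Real.pi_ne_zero.symm
    have h3 := Complex.cpow_conj (n : ℂ) (-s) harg
    rw [Complex.conj_natCast, map_neg] at h3
    rw [h3, Complex.conj_conj]

theorem VV_conj (hD : LD k N ps lam L) (hd : HD lam P0 th Cd) {q : ℕ} [NeZero q] (hco : q.Coprime N)
    {χ : DirichletCharacter ℂ q} (hχ : χ.IsPrimitive) (θ T t : ℝ) :
    ‖VV lam P0 θ T L q χ (1 / 2 + ((-t : ℝ) : ℂ) * I)‖ = ‖VV lam P0 θ T L q χ⁻¹ (1 / 2 + t * I)‖ := by
  have e1 : (1 / 2 + ((-t : ℝ) : ℂ) * I : ℂ) = conj (1 / 2 + t * I : ℂ) := by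
    rw [map_add, map_mul, Complex.conj_ofReal, Complex.conj_I]
    have : conj (1 / 2 : ℂ) = 1 / 2 := by
      rw [map_div₀, map_one]
      congr 1
      exact Complex.conj_ofNat 2
    rw [this]
    push_cast
    ring
  unfold VV
  rw [norm_mul, norm_mul, norm_pow, norm_pow, e1]
  congr 1
  · rw [hD.conj_eq hd.real hχ (inv_prim hχ) hco, RCLike.norm_conj]
  · rw [MM_conj χ _ (fun n => by unfold bb; exact bm_real hd _ _ _ _ n), RCLike.norm_conj]

/-- the weight off the window -/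
theorem wr_off (k : ℕ) {κ T t : ℝ} (hκ : 1 ≤ κ) (ht : 1 / 4 ≤ |t / T - 3 / 2|) :
    wr k κ T t ≤ Real.exp (-(κ ^ 2 / 32)) * v0 k T t := by
  unfold wr v0
  have hp : 0 ≤ (t / T) ^ (2 * k) := by
    rw [pow_mul]
    positivity
  have hκ2 : 1 ≤ κ ^ 2 := one_le_pow₀ hκ
  have h1 : 1 / 16 ≤ (t / T - 3 / 2) ^ 2 := by
    rw [← sq_abs]
    nlinarith [abs_nonneg (t / T - 3 / 2)]
  have h2 : -(κ ^ 2 * (t / T - 3 / 2) ^ 2) ≤ -(κ ^ 2 / 32) + -((t / T - 3 / 2) ^ 2 / 2) := by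
    nlinarith
  calc (t / T) ^ (2 * k) * Real.exp (-(κ ^ 2 * (t / T - 3 / 2) ^ 2)) ≤
        (t / T) ^ (2 * k) * Real.exp (-(κ ^ 2 / 32) + -((t / T - 3 / 2) ^ 2 / 2)) := by
          have := Real.exp_le_exp.2 h2
          gcongr
    _ = _ := by
      rw [Real.exp_add (-(κ ^ 2 / 32)) (-((t / T - 3 / 2) ^ 2 / 2))]
      ring

theorem wr_neg (k : ℕ) {κ T t : ℝ} (hκ : 1 ≤ κ) (hT : 0 < T) (ht : 0 ≤ t) :
    wr k κ T (-t) ≤ Real.exp (-(κ ^ 2 / 32)) * v0 k T t := by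
  unfold wr v0
  have hp : 0 ≤ (t / T) ^ (2 * k) := by
    rw [pow_mul]
    positivity
  have hκ2 : 1 ≤ κ ^ 2 := one_le_pow₀ hκ
  have hu : 0 ≤ t / T := by positivity
  have e1 : (-t / T) ^ (2 * k) = (t / T) ^ (2 * k) := by
    rw [pow_mul, pow_mul]
    congr 1
    ring
  have h2 : -(κ ^ 2 * (-t / T - 3 / 2) ^ 2) ≤ -(κ ^ 2 / 32) + -((t / T - 3 / 2) ^ 2 / 2) := by
    have e2 : (-t / T - 3 / 2) ^ 2 = (t / T + 3 / 2) ^ 2 := by ring
    rw [e2]
    have h3 : (t / T - 3 / 2) ^ 2 ≤ (t / T + 3 / 2) ^ 2 := by nlinarith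
    have h4 : 1 / 16 ≤ (t / T + 3 / 2) ^ 2 := by nlinarith
    nlinarith
  rw [e1]
  calc (t / T) ^ (2 * k) * Real.exp (-(κ ^ 2 * (-t / T - 3 / 2) ^ 2)) ≤
        (t / T) ^ (2 * k) * Real.exp (-(κ ^ 2 / 32) + -((t / T - 3 / 2) ^ 2 / 2)) := by
          have := Real.exp_le_exp.2 h2
          gcongr
    _ = _ := by
      rw [Real.exp_add (-(κ ^ 2 / 32)) (-((t / T - 3 / 2) ^ 2 / 2))]
      ring

/-- the window -/
theorem win_bd (k : ℕ) (hk : 1 ≤ k) : ∃ C : ℝ, 0 < C ∧ ∀ κ T t : ℝ, 10 ≤ T → 5 * T / 4 ≤ t → t ≤ 7 * T / 4 →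
    Real.sqrt (T ^ (k - 1)) * wr k κ T t ≤ C * ‖EG T (k / 2) t‖ := by
  obtain ⟨c, hc, hlow⟩ := EG_low k hk
  refine ⟨4 ^ k / Real.sqrt (c * Real.exp (-4)), by positivity, fun κ T t hT h1 h2 => ?_⟩
  have hT0 : 0 < T := by linarith
  have ht0 : 0 ≤ t := by linarith
  have h3 := hlow T t hT ht0
  have hu1 : 5 / 4 ≤ t / T := by rw [le_div_iff₀ hT0]; linarith
  have hu2 : t / T ≤ 7 / 4 := by rw [div_le_iff₀ hT0]; linarith
  have h4 : wr k κ T t ≤ 4 ^ k := by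
    unfold wr
    have e1 : Real.exp (-(κ ^ 2 * (t / T - 3 / 2) ^ 2)) ≤ 1 := Real.exp_le_one_iff.2 (by
      have := mul_nonneg (sq_nonneg κ) (sq_nonneg (t / T - 3 / 2))
      linarith)
    have e2 : (t / T) ^ (2 * k) ≤ 4 ^ k := by
      rw [pow_mul]
      apply pow_le_pow_left₀ (sq_nonneg _)
      nlinarith
    calc (t / T) ^ (2 * k) * Real.exp (-(κ ^ 2 * (t / T - 3 / 2) ^ 2)) ≤ 4 ^ k * 1 := by
          apply mul_le_mul e2 e1 (Real.exp_pos _).le (by positivity)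
      _ = _ := mul_one _
  have h5 : Real.sqrt (c * Real.exp (-4)) * Real.sqrt (T ^ (k - 1)) ≤ ‖EG T (k / 2) t‖ := by
    rw [← Real.sqrt_mul (by positivity)]
    rw [show ‖EG T (k / 2) t‖ = Real.sqrt (‖EG T (k / 2) t‖ ^ 2) by rw [Real.sqrt_sq (norm_nonneg _)]]
    apply Real.sqrt_le_sqrt
    refine le_trans ?_ h3
    have e3 : Real.exp (-4) ≤ Real.exp (-(2 * (t / T))) := Real.exp_le_exp.2 (by linarith)
    have e4 : T ^ (k - 1) ≤ t ^ (k - 1) := pow_le_pow_left₀ hT0.le (by linarith) _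
    calc c * Real.exp (-4) * T ^ (k - 1) = c * (T ^ (k - 1) * Real.exp (-4)) := by ring
      _ ≤ _ := by gcongr
  have h6 : 0 < Real.sqrt (c * Real.exp (-4)) := by positivity
  calc Real.sqrt (T ^ (k - 1)) * wr k κ T t ≤ Real.sqrt (T ^ (k - 1)) * 4 ^ k := by gcongr
    _ = 4 ^ k / Real.sqrt (c * Real.exp (-4)) * (Real.sqrt (c * Real.exp (-4)) * Real.sqrt (T ^ (k - 1))) := by
        field_simp
    _ ≤ _ := by gcongr

theorem choose_kappa (C : ℝ) (hC : 0 < C) : ∃ κ : ℝ, 1 ≤ κ ∧ C * Real.exp (-(κ ^ 2 / 32)) ≤ 1 / κ := by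
  refine ⟨max 1 (32 * C), le_max_left _ _, ?_⟩
  obtain ⟨κ, hκ⟩ : ∃ κ : ℝ, κ = max 1 (32 * C) := ⟨_, rfl⟩
  rw [← hκ]
  have h1 : 1 ≤ κ := by rw [hκ]; exact le_max_left _ _
  have h2 : 32 * C ≤ κ := by rw [hκ]; exact le_max_right _ _
  have h0 : 0 < κ := by linarith
  rw [Real.exp_neg, ← div_eq_mul_inv, div_le_div_iff₀ (Real.exp_pos _) h0, one_mul]
  have h3 : κ ^ 2 / 32 ≤ Real.exp (κ ^ 2 / 32) := by
    have := Real.add_one_le_exp (κ ^ 2 / 32)
    linarith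
  refine le_trans ?_ h3
  nlinarith

/-- **The first moment.** -/
theorem first (hD : LD k N ps lam L) (hd : HD lam P0 th Cd) {θ C T0 : ℝ} (hC : 0 < C) (hT0 : 10 ≤ T0)
    (hA : SecA k N lam P0 θ C T0) (ρ : ℝ) (hρ : 0 < ρ) :
    ∃ c T1 : ℝ, 0 < c ∧ T0 ≤ T1 ∧ ∀ (q : ℕ) [NeZero q], q.Coprime N →
    ∀ (S : Finset (DirichletCharacter ℂ q)), (∀ χ ∈ S, χ.IsPrimitive) → ∀ (T : ℝ), T1 ≤ T →
    ρ ^ 2 * ((q.totient : ℝ) ^ 2 / q) ≤ S.card →
    c * S.card * (T * Real.sqrt (T ^ (k - 1))) ≤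
      ∑ χ ∈ S, ∫ t in (5 * T / 4)..(7 * T / 4), ‖Fq (Gc k N lam P0 θ T χ) t‖ := by
  have hk := hD.tw.frm.k_pos
  obtain ⟨C1, hC1, htail⟩ := tailS (P0 := P0) hD hC hT0 hA
  obtain ⟨C2, hC2, hfm⟩ := fm1 k
  obtain ⟨C3, hC3, hwin⟩ := win_bd k hk
  obtain ⟨κ, hκ1, hκ⟩ := choose_kappa (36 * C1 / ρ) (by positivity)
  have hκ0 : 0 < κ := by linarith
  have hCd0 : 0 < Cd := by linarith [hd.C1]
  obtain ⟨B, hB⟩ : ∃ B : ℕ, ((1 : ℝ) / 2) ^ B < min (1 / (2 * Cd)) (1 / (C2 * (14 * Cd) * (12 * κ))) :=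
    exists_pow_lt_of_lt_one (lt_min (by positivity) (by positivity)) (by norm_num)
  have hB1 : 2 * Cd * (1 / 2) ^ B ≤ 1 := by
    have h1 := (hB.trans_le (min_le_left _ _)).le
    calc 2 * Cd * (1 / 2) ^ B ≤ 2 * Cd * (1 / (2 * Cd)) := by gcongr
      _ = 1 := by field_simp
  have hB2 : C2 * (14 * Cd * (1 / 2) ^ B) ≤ 1 / (12 * κ) := by
    have h1 := (hB.trans_le (min_le_right _ _)).le
    calc C2 * (14 * Cd * (1 / 2) ^ B) = C2 * (14 * Cd) * (1 / 2) ^ B := by ring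
      _ ≤ C2 * (14 * Cd) * (1 / (C2 * (14 * Cd) * (12 * κ))) := by gcongr
      _ = _ := by field_simp
  refine ⟨1 / (6 * κ * C3), max T0 (κ * (B + 4)), by positivity, le_max_left _ _, ?_⟩
  intro q _ hco S hS T hT hcard
  have hTT0 : T0 ≤ T := (le_max_left _ _).trans hT
  have hT10 : 10 ≤ T := hT0.trans hTT0
  have hTp : 0 < T := by linarith
  have hκB : κ * (B + 4 : ℝ) ≤ T := (le_max_right _ _).trans hT
  obtain ⟨E, hE⟩ : ∃ E : ℝ, E = Real.exp (-(κ ^ 2 / 32)) := ⟨_, rfl⟩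
  have hE0 : 0 < E := by rw [hE]; positivity
  rw [← hE] at hκ
  obtain ⟨W, hW⟩ : ∃ W : DirichletCharacter ℂ q → ℝ → ℝ,
      W = fun χ (t : ℝ) => ‖VV lam P0 θ T L q χ (1 / 2 + t * I)‖ := ⟨_, rfl⟩
  have hWv : ∀ χ t, W χ t = ‖VV lam P0 θ T L q χ (1 / 2 + t * I)‖ := fun χ t => by rw [hW]
  have hWc : ∀ χ ∈ S, Continuous (W χ) := by
    intro χ hχ
    rw [hW]
    have h1 := (VV_diff (P0 := P0) hD hco (hS χ hχ) θ T).continuous
    fun_prop
  have hW0 : ∀ χ t, 0 ≤ W χ t := fun χ t => by rw [hWv]; exact norm_nonneg _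
  have hwc := wr_cont k κ T
  have hvc := v0_cont k T
  have hcc : ∀ χ ∈ S, Continuous fun t => wr k κ T t * W χ t := fun χ hχ => hwc.mul (hWc χ hχ)
  have hvv : ∀ χ ∈ S, Continuous fun t => v0 k T t * W χ t := fun χ hχ => hvc.mul (hWc χ hχ)
  -- the inverse characters
  classical
  have hSi : ∀ χ ∈ S.image (fun χ => χ⁻¹), χ.IsPrimitive := by
    intro χ hχ
    obtain ⟨χ', h1, rfl⟩ := Finset.mem_image.1 hχ
    exact inv_prim (hS χ' h1)
  have hinj : Function.Injective (fun χ : DirichletCharacter ℂ q => χ⁻¹) := inv_injective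
  have hcardi : (S.image (fun χ : DirichletCharacter ℂ q => χ⁻¹)).card = S.card := Finset.card_image_of_injective _ hinj
  obtain ⟨Y, hY⟩ : ∃ Y : ℝ, Y = ∑ χ ∈ S, ∫ t in (5 * T / 4)..(7 * T / 4), ‖Fq (Gc k N lam P0 θ T χ) t‖ := ⟨_, rfl⟩
  obtain ⟨X, hX⟩ : ∃ X : ℝ, X = 3 * E * (C1 * T * S.card / ρ) + C3 / Real.sqrt (T ^ (k - 1)) * Y := ⟨_, rfl⟩
  have hsq : 0 < Real.sqrt (T ^ (k - 1)) := by positivity
  -- finite intervals
  have hfin : ∀ R : ℝ, 2 * T ≤ R → ∑ χ ∈ S, ∫ t in (-R)..R, wr k κ T t * W χ t ≤ X := by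
    intro R hR
    have hsplit : ∀ χ ∈ S, ∫ t in (-R)..R, wr k κ T t * W χ t =
        (∫ t in (0:ℝ)..R, wr k κ T (-t) * W χ (-t)) + (∫ t in (0:ℝ)..(5 * T / 4), wr k κ T t * W χ t) +
        (∫ t in (5 * T / 4)..(7 * T / 4), wr k κ T t * W χ t) + ∫ t in (7 * T / 4)..R, wr k κ T t * W χ t := by
      intro χ hχ
      have hi : ∀ a b : ℝ, IntervalIntegrable (fun t => wr k κ T t * W χ t) volume a b :=
        fun a b => (hcc χ hχ).intervalIntegrable a b
      rw [← intervalIntegral.integral_add_adjacent_intervals (hi (-R) 0) (hi 0 R),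
        ← intervalIntegral.integral_add_adjacent_intervals (hi 0 (5 * T / 4)) (hi (5 * T / 4) R),
        ← intervalIntegral.integral_add_adjacent_intervals (hi (5 * T / 4) (7 * T / 4)) (hi (7 * T / 4) R)]
      have h1 := intervalIntegral.integral_comp_neg (a := 0) (b := R) (fun t => wr k κ T t * W χ t)
      rw [neg_zero] at h1
      rw [← h1]
      ring
    rw [Finset.sum_congr rfl hsplit, Finset.sum_add_distrib, Finset.sum_add_distrib, Finset.sum_add_distrib]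
    have p1 : ∑ χ ∈ S, ∫ t in (0:ℝ)..R, wr k κ T (-t) * W χ (-t) ≤ E * (C1 * T * S.card / ρ) := by
      have h1 := htail q hco (S.image (fun χ => χ⁻¹)) hSi T ρ hTT0 hρ (by rw [hcardi]; exact hcard) 0 R le_rfl
        (by linarith)
      rw [Finset.sum_image hinj.injOn, hcardi] at h1
      refine le_trans ?_ (mul_le_mul_of_nonneg_left h1 hE0.le)
      rw [Finset.mul_sum]
      refine Finset.sum_le_sum fun χ hχ => ?_
      rw [← intervalIntegral.integral_const_mul]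
      have hci : Continuous fun t : ℝ => ‖VV lam P0 θ T L q χ⁻¹ (1 / 2 + t * I)‖ := by
        have h1 := (VV_diff (P0 := P0) hD hco (inv_prim (hS χ hχ)) θ T).continuous
        fun_prop
      apply intervalIntegral.integral_mono_on (by linarith)
      · exact ((hcc χ hχ).comp continuous_neg).intervalIntegrable _ _
      · exact ((hvc.mul hci).const_mul E).intervalIntegrable _ _
      · intro t ht
        rw [hWv, VV_conj hD hd hco (hS χ hχ) θ T t]
        have h2 := wr_neg k hκ1 hTp ht.1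
        rw [← hE] at h2
        calc wr k κ T (-t) * ‖VV lam P0 θ T L q χ⁻¹ (1 / 2 + t * I)‖ ≤
            (E * v0 k T t) * ‖VV lam P0 θ T L q χ⁻¹ (1 / 2 + t * I)‖ := by gcongr
          _ = _ := by ring
    have hoff : ∀ a b : ℝ, 0 ≤ a → a ≤ b → (∀ t, a ≤ t → t ≤ b → 1 / 4 ≤ |t / T - 3 / 2|) →
        ∑ χ ∈ S, ∫ t in a..b, wr k κ T t * W χ t ≤ E * (C1 * T * S.card / ρ) := by
      intro a b ha hab hw
      have h1 := htail q hco S hS T ρ hTT0 hρ hcard a b ha hab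
      refine le_trans ?_ (mul_le_mul_of_nonneg_left h1 hE0.le)
      rw [Finset.mul_sum]
      refine Finset.sum_le_sum fun χ hχ => ?_
      rw [← intervalIntegral.integral_const_mul]
      apply intervalIntegral.integral_mono_on hab ((hcc χ hχ).intervalIntegrable _ _)
      · have := (hvv χ hχ).const_mul E
        rw [hW] at this
        exact this.intervalIntegrable _ _
      · intro t ht
        have h2 := wr_off k hκ1 (hw t ht.1 ht.2)
        rw [← hE] at h2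
        rw [← hWv]
        have h3 := hW0 χ t
        calc wr k κ T t * W χ t ≤ (E * v0 k T t) * W χ t := by gcongr
          _ = _ := by ring
    have p2 := hoff 0 (5 * T / 4) le_rfl (by linarith) (by
      intro t h1 h2
      have h3 : t / T ≤ 5 / 4 := by rw [div_le_iff₀ hTp]; linarith
      rw [abs_of_nonpos (by linarith)]
      linarith)
    have p4 := hoff (7 * T / 4) R (by linarith) (by linarith) (by
      intro t h1 h2
      have h3 : 7 / 4 ≤ t / T := by rw [le_div_iff₀ hTp]; linarith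
      rw [abs_of_nonneg (by linarith)]
      linarith)
    have p3 : ∑ χ ∈ S, ∫ t in (5 * T / 4)..(7 * T / 4), wr k κ T t * W χ t ≤ C3 / Real.sqrt (T ^ (k - 1)) * Y := by
      rw [hY, Finset.mul_sum]
      refine Finset.sum_le_sum fun χ hχ => ?_
      rw [← intervalIntegral.integral_const_mul]
      apply intervalIntegral.integral_mono_on (by linarith) ((hcc χ hχ).intervalIntegrable _ _)
      · exact ((Fq_cont (Gc_ed hD.tw hco (hS χ hχ) θ hT10)).norm.const_mul _).intervalIntegrable _ _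
      · intro t ht
        rw [norm_Fq hD hco (hS χ hχ) θ hT10 t, ← hWv]
        have h1 := hwin κ T t hT10 ht.1 ht.2
        have h2 : wr k κ T t ≤ C3 / Real.sqrt (T ^ (k - 1)) * ‖EG T (k / 2) t‖ := by
          rw [div_mul_eq_mul_div, le_div_iff₀ hsq]
          linarith
        calc wr k κ T t * W χ t ≤ (C3 / Real.sqrt (T ^ (k - 1)) * ‖EG T (k / 2) t‖) * W χ t :=
              mul_le_mul_of_nonneg_right h2 (hW0 χ t)
          _ = _ := by ring
    rw [hX]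
    linarith
  -- the limit
  have hV : ∀ χ ∈ S, (Integrable fun t : ℝ => wt k κ T t * VV lam P0 θ T L q χ (1 / 2 + t * I)) ∧
      T * (1 / (4 * κ)) ≤ ‖∫ t : ℝ, wt k κ T t * VV lam P0 θ T L q χ (1 / 2 + t * I)‖ := by
    intro χ hχ
    obtain ⟨M, hM, hgro⟩ := VV_gro (P0 := P0) hD hco (hS χ hχ) θ T
    obtain ⟨h1, h2⟩ := hfm (VV lam P0 θ T L q χ) (VV_diff hD hco (hS χ hχ) θ T) M 2 hM hgro κ T (B + 4)
      (14 * Cd * (1 / 2) ^ B) hκ1 hTp (by positivity) hκB (by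
        intro s hs
        exact VV_one hD hd hco (hS χ hχ) θ hTp hB1 (by rw [hs]; linarith))
    refine ⟨h1, le_trans ?_ h2⟩
    apply mul_le_mul_of_nonneg_left _ hTp.le
    have e1 : 1 / (3 * κ) - 1 / (12 * κ) = 1 / (4 * κ) := by
      field_simp
      norm_num
    linarith
  have hlim : Tendsto (fun R : ℝ => ∑ χ ∈ S, ‖∫ t in (-R)..R, wt k κ T t * VV lam P0 θ T L q χ (1 / 2 + t * I)‖)
      atTop (𝓝 (∑ χ ∈ S, ‖∫ t : ℝ, wt k κ T t * VV lam P0 θ T L q χ (1 / 2 + t * I)‖)) := by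
    apply tendsto_finsetSum
    intro χ hχ
    exact (intervalIntegral_tendsto_integral (hV χ hχ).1 tendsto_neg_atTop_atBot tendsto_id).norm
  have hle : ∑ χ ∈ S, ‖∫ t : ℝ, wt k κ T t * VV lam P0 θ T L q χ (1 / 2 + t * I)‖ ≤ X := by
    refine le_of_tendsto hlim ?_
    filter_upwards [eventually_ge_atTop (2 * T)] with R hR
    refine le_trans (Finset.sum_le_sum fun χ hχ => ?_) (hfin R hR)
    have h1 : ‖∫ t in (-R)..R, wt k κ T t * VV lam P0 θ T L q χ (1 / 2 + t * I)‖ ≤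
        ∫ t in (-R)..R, ‖wt k κ T t * VV lam P0 θ T L q χ (1 / 2 + t * I)‖ :=
      intervalIntegral.norm_integral_le_integral_norm (by linarith)
    refine h1.trans (le_of_eq ?_)
    refine intervalIntegral.integral_congr fun t _ => ?_
    show ‖wt k κ T t * VV lam P0 θ T L q χ (1 / 2 + t * I)‖ = wr k κ T t * W χ t
    rw [norm_mul, wt_real, Complex.norm_real, Real.norm_of_nonneg (wr_nonneg _ _ _ _), hWv]
  have hlow : (S.card : ℝ) * (T * (1 / (4 * κ))) ≤ X := by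
    refine le_trans ?_ hle
    rw [← nsmul_eq_mul, ← Finset.sum_const]
    exact Finset.sum_le_sum fun χ hχ => (hV χ hχ).2
  rw [hX] at hlow
  have h5 : 3 * E * (C1 * T * S.card / ρ) ≤ S.card * (T * (1 / (12 * κ))) := by
    have e1 : 3 * E * (C1 * T * S.card / ρ) = S.card * T * (36 * C1 / ρ * E) / 12 := by
      field_simp
      ring
    rw [e1]
    have e2 : (S.card : ℝ) * (T * (1 / (12 * κ))) = S.card * T * (1 / κ) / 12 := by
      field_simp
    rw [e2]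
    have : (0 : ℝ) ≤ S.card * T := by positivity
    gcongr
  have h6 : (S.card : ℝ) * (T * (1 / (6 * κ))) ≤ C3 / Real.sqrt (T ^ (k - 1)) * Y := by
    have e1 : (S.card : ℝ) * (T * (1 / (4 * κ))) - S.card * (T * (1 / (12 * κ))) = S.card * (T * (1 / (6 * κ))) := by
      field_simp
      ring
    linarith
  rw [← hY]
  have h7 := mul_le_mul_of_nonneg_left h6 (show 0 ≤ Real.sqrt (T ^ (k - 1)) / C3 by positivity)
  have e8 : Real.sqrt (T ^ (k - 1)) / C3 * (C3 / Real.sqrt (T ^ (k - 1)) * Y) = Y := by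
    field_simp
  rw [e8] at h7
  refine le_trans (le_of_eq ?_) h7
  field_simp

end Pool.Agent.K9h29.SP
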