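import Pool.Agent.K9h29.SP.Plan

set_option autoImplicit false

/-!
# The mollified form in logarithmic coordinates
-/

namespace Pool.Agent.K9h29.SP

open Complex Filter Topology MeasureTheory Set Asymptotics FourierTransform
open scoped ComplexConjugate ENNReal
open Pool.Agent.Y671.GL Pool.Agent.Y412.GLB Pool.Agent.Y412.GLP
open Pool.Agent.H24R2.DZ (ray MM)

variable {k N : ℕ} {ps lam : ℕ → ℂ}

/-- the mollified form in logarithmic coordinates -/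
noncomputable def Gf (k y : ℕ) (lam b : ℕ → ℂ) (δ x1 : ℝ) (u : ℝ) : ℂ :=
  (((x1 * Real.exp (-u)) ^ ((k : ℝ) / 2) : ℝ) : ℂ) * Ps k y lam b (ray δ (x1 * Real.exp (-u)))

theorem Ps_ray_cont (hf : Frm k N ps lam) {δ : ℝ} (h0 : 0 < δ) (h1 : δ < Real.pi / 2) (y : ℕ) (b : ℕ → ℂ) :
    ContinuousOn (fun x : ℝ => Ps k y lam b (ray δ x)) (Ioi 0) := by
  intro x hx
  have hx0 : 0 < x := hx
  have hre : 0 < (ray δ x).re := by
    rw [ray_re]
    exact mul_pos hx0 (Real.sin_pos_of_pos_of_lt_pi h0 (by linarith [Real.pi_pos]))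
  exact (ContinuousAt.comp (Ps_diff hf y b hre).continuousAt (ray_cont δ).continuousAt).continuousWithinAt

theorem norm_Gf (y : ℕ) (b : ℕ → ℂ) (δ : ℝ) {x1 : ℝ} (hx1 : 0 < x1) (u : ℝ) : ‖Gf k y lam b δ x1 u‖ =
    (x1 * Real.exp (-u)) ^ ((k : ℝ) / 2) * ‖Ps k y lam b (ray δ (x1 * Real.exp (-u)))‖ := by
  unfold Gf
  rw [norm_mul, Complex.norm_real, Real.norm_of_nonneg (by positivity)]

theorem Gf_ed (hf : Frm k N ps lam) {δ : ℝ} (h0 : 0 < δ) (h1 : δ < Real.pi / 2) (y : ℕ) (b : ℕ → ℂ) {x1 : ℝ}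
    (hx1 : 0 < x1) : Ed (Gf k y lam b δ x1) := by
  constructor
  · unfold Gf
    refine Continuous.mul ?_ ?_
    · apply Complex.continuous_ofReal.comp
      refine Continuous.rpow_const (by fun_prop) (fun u => Or.inl (by positivity))
    · exact (Ps_ray_cont hf h0 h1 y b).comp_continuous (f := fun u : ℝ => x1 * Real.exp (-u)) (by fun_prop)
        (fun u => by show 0 < x1 * Real.exp (-u); positivity)
  · obtain ⟨C1, hC1, h2⟩ := decPs hf h0 h1 y b ((k : ℝ) / 2 + 1)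
    obtain ⟨C2, hC2, h3⟩ := decPs hf h0 h1 y b ((k : ℝ) / 2 - 1)
    refine ⟨C1 / x1 + C2 * x1, fun u => ?_⟩
    rw [norm_Gf y b δ hx1]
    obtain ⟨x, hx⟩ : ∃ x : ℝ, x = x1 * Real.exp (-u) := ⟨_, rfl⟩
    have hx0 : 0 < x := by rw [hx]; positivity
    rw [← hx]
    have e1 := h2 x hx0
    have e2 := h3 x hx0
    rw [Real.rpow_add hx0, Real.rpow_one, ← mul_assoc] at e1
    rw [Real.rpow_sub hx0, Real.rpow_one, ← mul_div_assoc] at e2
    obtain ⟨P, hP⟩ : ∃ P : ℝ, P = ‖Ps k y lam b (ray δ x)‖ * x ^ ((k : ℝ) / 2) := ⟨_, rfl⟩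
    rw [← hP] at e1 e2
    rw [mul_comm, ← hP]
    rcases le_or_gt u 0 with hu | hu
    · rw [abs_of_nonpos hu, neg_neg]
      have h4 : P ≤ C1 / x := by rw [le_div_iff₀ hx0]; exact e1
      have h5 : C1 / x = C1 / x1 * Real.exp u := by
        rw [hx, Real.exp_neg]
        field_simp
      rw [h5] at h4
      have h6 : 0 ≤ C2 * x1 * Real.exp u := by positivity
      linarith
    · rw [abs_of_pos hu]
      have h4 : P ≤ C2 * x := by rwa [div_le_iff₀ hx0] at e2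
      have h5 : C2 * x = C2 * x1 * Real.exp (-u) := by rw [hx]; ring
      rw [h5] at h4
      have h6 : 0 ≤ C1 / x1 * Real.exp (-u) := by positivity
      linarith

theorem Gf_sym (hf : Frm k N ps lam) {δ : ℝ} (h0 : 0 < δ) (h1 : δ < Real.pi / 2) (y : ℕ) (b : ℕ → ℂ) {x1 : ℝ}
    (hx1 : x1 = 2 * Real.pi / Real.sqrt N) (u : ℝ) :
    ‖Gf k y lam b δ x1 (-u)‖ = ‖Gf k y lam b δ x1 u‖ := by
  have hN0 : (0 : ℝ) < N := by exact_mod_cast hf.N_pos
  have hx10 : 0 < x1 := by rw [hx1]; positivity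
  rw [norm_Gf y b δ hx10, norm_Gf y b δ hx10, neg_neg]
  have h2 := ps_sym hf h0 h1 y b hx1 (x := x1 * Real.exp (-u)) (by positivity)
  have e1 : x1 ^ 2 / (x1 * Real.exp (-u)) = x1 * Real.exp u := by
    rw [Real.exp_neg]
    field_simp
  have e2 : x1 * Real.exp (-u) / x1 = Real.exp (-u) := by field_simp
  rw [e1, e2] at h2
  rw [h2, ← mul_assoc]
  congr 1
  rw [Real.mul_rpow hx10.le (Real.exp_pos _).le, Real.mul_rpow hx10.le (Real.exp_pos _).le, mul_assoc]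
  congr 1
  rw [← Real.exp_nat_mul, ← Real.exp_mul, ← Real.exp_mul, ← Real.exp_add]
  congr 1
  ring

theorem Fq_Gf (hf : Frm k N ps lam) {F : ℂ → ℂ} (hF : IsL lam F) {δ : ℝ} (h0 : 0 < δ) (h1 : δ < Real.pi / 2)
    (y : ℕ) (b : ℕ → ℂ) {x1 : ℝ} (hx1 : 0 < x1) (t : ℝ) :
    Fq (Gf k y lam b δ x1) t = (x1 : ℂ) ^ (-(t * I)) *
      (cexp (-(I * ((Real.pi / 2 - δ : ℝ) : ℂ)) * (((k / 2 : ℝ) : ℂ) + t * I)) *
        Complex.Gamma (((k / 2 : ℝ) : ℂ) + t * I) * F (1 / 2 + t * I) * ((‖MM y b (1 / 2 + t * I)‖ ^ 2 : ℝ) : ℂ)) := by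
  obtain ⟨m1, m2⟩ := mellin_Ps hf hF h0 h1 y b t
  obtain ⟨p1, p2⟩ := pieceR (Ps k y lam b) δ (((k / 2 : ℝ) : ℂ) + t * I) m1 hx1
  rw [← m2]
  have h2 := mellin_eq_fourier (fun x : ℝ => ((x1 ^ ((k : ℝ) / 2) : ℝ) : ℂ) * Ps k y lam b (ray δ (x1 * x)))
    (s := ((k / 2 : ℝ) : ℂ) + t * I)
  have e1 : (((k / 2 : ℝ) : ℂ) + t * I).re = k / 2 := by simp
  have e2 : (((k / 2 : ℝ) : ℂ) + t * I).im = t := by simp
  rw [e1, e2] at h2
  have e3 : (fun u : ℝ => Real.exp (-((k : ℝ) / 2) * u) • (((x1 ^ ((k : ℝ) / 2) : ℝ) : ℂ) *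
      Ps k y lam b (ray δ (x1 * Real.exp (-u))))) = Gf k y lam b δ x1 := by
    funext u
    unfold Gf
    rw [real_smul, ← mul_assoc, ← Complex.ofReal_mul]
    congr 2
    rw [Real.mul_rpow hx1.le (Real.exp_pos _).le, ← Real.exp_mul, mul_comm]
    congr 2
    ring
  rw [e3] at h2
  unfold Fq
  rw [← h2]
  unfold mellin
  have e4 : ∫ x in Ioi (0 : ℝ), (x : ℂ) ^ (((k / 2 : ℝ) : ℂ) + t * I - 1) •
      (((x1 ^ ((k : ℝ) / 2) : ℝ) : ℂ) * Ps k y lam b (ray δ (x1 * x))) =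
      ((x1 ^ ((k : ℝ) / 2) : ℝ) : ℂ) * ∫ x in Ioi (0 : ℝ),
        Ps k y lam b (ray δ (x1 * x)) * (x : ℂ) ^ (((k / 2 : ℝ) : ℂ) + t * I - 1) := by
    rw [← integral_const_mul]
    refine setIntegral_congr_fun measurableSet_Ioi fun x _ => ?_
    simp only [smul_eq_mul]
    ring
  rw [e4, p2, ← mul_assoc]
  congr 1
  have hx1c : (x1 : ℂ) ≠ 0 := by exact_mod_cast hx1.ne'
  rw [Complex.ofReal_cpow hx1.le, ← cpow_add _ _ hx1c]
  congr 1
  ring

theorem Gf_block (hf : Frm k N ps lam) {δ : ℝ} (h0 : 0 < δ) (h1 : δ < Real.pi / 2) (y : ℕ) (b : ℕ → ℂ) {x1 : ℝ}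
    (hx1 : 0 < x1) (i : ℕ) :
    ∫ v in (i * Real.log 2)..((i + 1 : ℕ) * Real.log 2), ‖Gf k y lam b δ x1 (-v)‖ ^ 2 =
      ∫ x in (2 ^ i * x1)..(2 * (2 ^ i * x1)), ‖Ps k y lam b (ray δ x)‖ ^ 2 * x ^ ((k : ℝ) - 1) := by
  have h2 := intervalIntegral.integral_comp_mul_deriv' (a := i * Real.log 2) (b := (i + 1 : ℕ) * Real.log 2)
    (f := fun v => x1 * Real.exp v) (f' := fun v => x1 * Real.exp v)
    (g := fun x : ℝ => ‖Ps k y lam b (ray δ x)‖ ^ 2 * x ^ ((k : ℝ) - 1))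
    (fun v _ => (Real.hasDerivAt_exp v).const_mul x1) (by fun_prop) (by
      intro x hx
      obtain ⟨v, _, rfl⟩ := hx
      have hpos : 0 < x1 * Real.exp v := by positivity
      refine ContinuousWithinAt.mul ?_ ?_
      · exact (((Ps_ray_cont hf h0 h1 y b).continuousAt (Ioi_mem_nhds hpos)).norm.pow 2).continuousWithinAt
      · exact (Real.continuousAt_rpow_const _ _ (Or.inl hpos.ne')).continuousWithinAt)
  have e1 : x1 * Real.exp (i * Real.log 2) = 2 ^ i * x1 := by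
    rw [Real.exp_nat_mul, Real.exp_log (by norm_num), mul_comm]
  have e2 : x1 * Real.exp ((i + 1 : ℕ) * Real.log 2) = 2 * (2 ^ i * x1) := by
    rw [Real.exp_nat_mul, Real.exp_log (by norm_num), pow_succ]
    ring
  simp only [e1, e2] at h2
  rw [← h2]
  refine intervalIntegral.integral_congr fun v _ => ?_
  simp only [Function.comp_apply]
  rw [norm_Gf y b δ hx1, neg_neg, mul_pow]
  obtain ⟨x, hx⟩ : ∃ x : ℝ, x = x1 * Real.exp v := ⟨_, rfl⟩
  have hx0 : 0 < x := by rw [hx]; positivity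
  rw [← hx]
  have e3 : (x ^ ((k : ℝ) / 2)) ^ 2 = x ^ ((k : ℝ) - 1) * x := by
    rw [← Real.rpow_natCast, ← Real.rpow_mul hx0.le, Real.rpow_sub_one hx0.ne', div_mul_cancel₀ _ hx0.ne']
    congr 1
    push_cast
    ring
  rw [e3]
  ring

theorem Gf_mass (hf : Frm k N ps lam) {δ : ℝ} (h0 : 0 < δ) (h1 : δ < Real.pi / 2) (y : ℕ) (b : ℕ → ℂ) {x1 : ℝ}
    (hx1 : x1 = 2 * Real.pi / Real.sqrt N) {m : ℝ → ℂ} (hm : Continuous m) (hms : ∀ u, ‖m (-u)‖ = ‖m u‖)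
    {w : ℕ → ℝ} (hw : ∀ (i : ℕ) (u : ℝ), i * Real.log 2 ≤ u → u ≤ (i + 1 : ℕ) * Real.log 2 → ‖m u‖ ^ 2 ≤ w i)
    (I : ℕ) :
    ∫ u in (-(I * Real.log 2))..(I * Real.log 2), ‖Gf k y lam b δ x1 u * m u‖ ^ 2 ≤
      2 * ∑ i ∈ Finset.range I, w i *
        ∫ x in (2 ^ i * x1)..(2 * (2 ^ i * x1)), ‖Ps k y lam b (ray δ x)‖ ^ 2 * x ^ ((k : ℝ) - 1) := by
  have hN0 : (0 : ℝ) < N := by exact_mod_cast hf.N_pos
  have hx10 : 0 < x1 := by rw [hx1]; positivity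
  have hG := Gf_ed hf h0 h1 y b hx10
  obtain ⟨f, hfd⟩ : ∃ f : ℝ → ℝ, f = fun u => ‖Gf k y lam b δ x1 u * m u‖ ^ 2 := ⟨_, rfl⟩
  have hfc : Continuous f := by rw [hfd]; exact (hG.cont.mul hm).norm.pow 2
  have hfs : ∀ u, f (-u) = f u := by
    intro u
    rw [hfd]
    simp only
    rw [norm_mul, norm_mul, Gf_sym hf h0 h1 y b hx1, hms]
  have hl2 : 0 < Real.log 2 := Real.log_pos (by norm_num)
  have e0 : ∫ u in (-(I * Real.log 2))..(I * Real.log 2), ‖Gf k y lam b δ x1 u * m u‖ ^ 2 =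
      ∫ u in (-(I * Real.log 2))..(I * Real.log 2), f u := by rw [hfd]
  rw [e0, ← intervalIntegral.integral_add_adjacent_intervals (hfc.intervalIntegrable _ 0) (hfc.intervalIntegrable 0 _)]
  have e1 : ∫ u in (-(I * Real.log 2))..0, f u = ∫ u in (0 : ℝ)..(I * Real.log 2), f u := by
    have h2 := intervalIntegral.integral_comp_neg (a := 0) (b := I * Real.log 2) f
    rw [neg_zero] at h2
    rw [← h2]
    exact intervalIntegral.integral_congr fun u _ => hfs u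
  rw [e1, ← two_mul]
  apply mul_le_mul_of_nonneg_left _ (by norm_num)
  have h3 : ∑ i ∈ Finset.range I, ∫ u in ((i : ℕ) * Real.log 2)..((i + 1 : ℕ) * Real.log 2), f u =
      ∫ u in ((0 : ℕ) * Real.log 2)..(I * Real.log 2), f u :=
    intervalIntegral.sum_integral_adjacent_intervals (a := fun i : ℕ => (i : ℝ) * Real.log 2)
      (fun i _ => hfc.intervalIntegrable _ _)
  rw [Nat.cast_zero, zero_mul] at h3
  rw [← h3]
  refine Finset.sum_le_sum fun i _ => ?_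
  rw [← Gf_block hf h0 h1 y b hx10 i, ← intervalIntegral.integral_const_mul]
  have hle : (i : ℝ) * Real.log 2 ≤ ((i + 1 : ℕ) : ℝ) * Real.log 2 := by
    push_cast
    nlinarith
  have hGc2 : Continuous fun v : ℝ => ‖Gf k y lam b δ x1 (-v)‖ ^ 2 :=
    ((hG.cont.comp continuous_neg).norm.pow 2)
  apply intervalIntegral.integral_mono_on hle (hfc.intervalIntegrable _ _)
    ((hGc2.const_mul _).intervalIntegrable _ _)
  intro u hu
  rw [hfd]
  simp only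
  rw [norm_mul, mul_pow, Gf_sym hf h0 h1 y b hx1, mul_comm]
  exact mul_le_mul_of_nonneg_right (hw i u hu.1 hu.2) (by positivity)

end Pool.Agent.K9h29.SP
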