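import Pool.Agent.K9h29.SP.Th3
import Pool.Agent.K9h29.ZD.QCoef

set_option autoImplicit false

/-!
# The off-diagonal terms
-/

namespace Pool.Agent.K9h29.SP

open Complex Finset MeasureTheory
open scoped ComplexConjugate
open Pool.Agent.Y671.GL Pool.Agent.Y412.GLB Pool.Agent.Y412.GLP
open Pool.Agent.K9h29.ZD (S_SCU)

variable {k N : ℕ} {ps lam : ℕ → ℂ}

theorem PP_prod_bd (hF : Frm k N ps lam) (y : ℕ) (b : ℕ → ℂ) {α β : ℕ} (hα : 1 ≤ α) (hβ : 1 ≤ β) {v : ℝ} (hv : 0 < v)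
    (r : ℤ) {M : ℝ} (hM : ∀ h ∈ Icc 1 y, ∀ l ∈ Icc 1 y, ‖∫ x in (0 : ℝ)..1, gg k lam (h * α) (l * β) r v x‖ ≤ M) :
    ‖∫ u in (0 : ℝ)..(2 * Real.pi), PP k y lam b (α * (v + u * I)) * conj (PP k y lam b (β * (v + u * I))) *
      cexp (I * r * u)‖ ≤ 2 * Real.pi * (y : ℝ) ^ ((k : ℝ) - 1) * M * (∑ h ∈ Finset.Icc 1 y, ‖b h‖) ^ 2 := by
  have hk : (1 : ℝ) ≤ k := by exact_mod_cast hF.k_pos
  have hexp : ∀ u : ℝ, PP k y lam b (α * (v + u * I)) * conj (PP k y lam b (β * (v + u * I))) *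
      cexp (I * r * u) = ∑ h ∈ Finset.Icc 1 y, ∑ l ∈ Finset.Icc 1 y,
      (b h * (((h : ℝ) ^ (((k : ℝ) - 1) / 2) : ℝ) : ℂ) *
        (conj (b l) * (((l : ℝ) ^ (((k : ℝ) - 1) / 2) : ℝ) : ℂ))) *
        (Ph k lam ((h * α : ℕ) * (v + u * I)) * conj (Ph k lam ((l * β : ℕ) * (v + u * I))) * cexp (I * r * u)) := by
    intro u
    unfold PP
    rw [map_sum, Finset.sum_mul_sum, Finset.sum_mul]
    refine Finset.sum_congr rfl fun h _ => ?_
    rw [Finset.sum_mul]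
    refine Finset.sum_congr rfl fun l _ => ?_
    rw [map_mul, map_mul, Complex.conj_ofReal]
    have e1 : (h : ℂ) * ((α : ℂ) * (v + u * I)) = ((h * α : ℕ) : ℂ) * (v + u * I) := by push_cast; ring
    have e2 : (l : ℂ) * ((β : ℂ) * (v + u * I)) = ((l * β : ℕ) : ℂ) * (v + u * I) := by push_cast; ring
    rw [e1, e2]
    ring
  have hcont : ∀ h ∈ Finset.Icc 1 y, ∀ l ∈ Finset.Icc 1 y, Continuous (fun u : ℝ =>
      Ph k lam ((h * α : ℕ) * (v + u * I)) * conj (Ph k lam ((l * β : ℕ) * (v + u * I))) * cexp (I * r * u)) := by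
    intro h hh l hl
    rw [Finset.mem_Icc] at hh hl
    exact ((cont_Ph hF (h * α) (Nat.mul_pos hh.1 hα) hv).mul
      (Complex.continuous_conj.comp (cont_Ph hF (l * β) (Nat.mul_pos hl.1 hβ) hv))).mul (by fun_prop)
  simp_rw [hexp]
  rw [intervalIntegral.integral_finsetSum (fun h hh => by
    apply Continuous.intervalIntegrable
    exact continuous_finsetSum _ fun l hl => (hcont h hh l hl).const_mul _)]
  have hinner : ∀ h ∈ Finset.Icc 1 y, ∫ u in (0 : ℝ)..(2 * Real.pi), ∑ l ∈ Finset.Icc 1 y,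
      (b h * (((h : ℝ) ^ (((k : ℝ) - 1) / 2) : ℝ) : ℂ) *
        (conj (b l) * (((l : ℝ) ^ (((k : ℝ) - 1) / 2) : ℝ) : ℂ))) *
        (Ph k lam ((h * α : ℕ) * (v + u * I)) * conj (Ph k lam ((l * β : ℕ) * (v + u * I))) * cexp (I * r * u)) =
      ∑ l ∈ Finset.Icc 1 y, (b h * (((h : ℝ) ^ (((k : ℝ) - 1) / 2) : ℝ) : ℂ) *
        (conj (b l) * (((l : ℝ) ^ (((k : ℝ) - 1) / 2) : ℝ) : ℂ))) *
        ((2 * Real.pi : ℝ) • ∫ x in (0 : ℝ)..1, gg k lam (h * α) (l * β) r v x) := by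
    intro h hh
    rw [intervalIntegral.integral_finsetSum (fun l hl =>
      ((hcont h hh l hl).const_mul _).intervalIntegrable _ _)]
    refine Finset.sum_congr rfl fun l hl => ?_
    rw [intervalIntegral.integral_const_mul, int_two_pi]
    congr 2
    refine intervalIntegral.integral_congr fun x _ => ?_
    unfold gg
    have e1 : ((v : ℂ) + ((2 * Real.pi * x : ℝ) : ℂ) * I) = v + 2 * Real.pi * I * x := by
      push_cast; ring
    have e2 : (I * r * ((2 * Real.pi * x : ℝ) : ℂ)) = 2 * Real.pi * I * r * x := by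
      push_cast; ring
    simp only [e1, e2]
  rw [Finset.sum_congr rfl hinner]
  have hterm : ∀ h ∈ Finset.Icc 1 y, ∀ l ∈ Finset.Icc 1 y,
      ‖(b h * (((h : ℝ) ^ (((k : ℝ) - 1) / 2) : ℝ) : ℂ) *
        (conj (b l) * (((l : ℝ) ^ (((k : ℝ) - 1) / 2) : ℝ) : ℂ))) *
        ((2 * Real.pi : ℝ) • ∫ x in (0 : ℝ)..1, gg k lam (h * α) (l * β) r v x)‖ ≤
      (2 * Real.pi * (y : ℝ) ^ ((k : ℝ) - 1) * M) * (‖b h‖ * ‖b l‖) := by
    intro h hh l hl
    have h1 := hM h hh l hl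
    rw [Finset.mem_Icc] at hh hl
    have hh' : (1 : ℝ) ≤ h := by exact_mod_cast hh.1
    have hl' : (1 : ℝ) ≤ l := by exact_mod_cast hl.1
    have hhy : (h : ℝ) ≤ y := by exact_mod_cast hh.2
    have hly : (l : ℝ) ≤ y := by exact_mod_cast hl.2
    have hM0 : 0 ≤ M := (norm_nonneg _).trans h1
    rw [norm_mul, norm_mul, norm_mul, norm_mul, norm_smul, RCLike.norm_conj, Complex.norm_real,
      Complex.norm_real, Real.norm_of_nonneg (r := (h : ℝ) ^ (((k : ℝ) - 1) / 2)) (by positivity),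
      Real.norm_of_nonneg (r := (l : ℝ) ^ (((k : ℝ) - 1) / 2)) (by positivity),
      Real.norm_of_nonneg (r := 2 * Real.pi) (by positivity)]
    have e2 : ∀ m : ℝ, 1 ≤ m → m ≤ y → m ^ (((k : ℝ) - 1) / 2) ≤ (y : ℝ) ^ (((k : ℝ) - 1) / 2) := by
      intro m hm hmy
      exact Real.rpow_le_rpow (by linarith) hmy (by linarith)
    have e3 : (y : ℝ) ^ ((k : ℝ) - 1) = (y : ℝ) ^ (((k : ℝ) - 1) / 2) * (y : ℝ) ^ (((k : ℝ) - 1) / 2) := by
      rw [← Real.rpow_add (by linarith)]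
      congr 1
      ring
    calc _ ≤ ‖b h‖ * (y : ℝ) ^ (((k : ℝ) - 1) / 2) * (‖b l‖ * (y : ℝ) ^ (((k : ℝ) - 1) / 2)) * (2 * Real.pi * M) := by
          have := e2 h hh' hhy
          have := e2 l hl' hly
          gcongr
      _ = _ := by rw [e3]; ring
  rw [sq, Finset.sum_mul_sum, Finset.mul_sum]
  refine norm_sum_le_of_le _ fun h hh => ?_
  rw [Finset.mul_sum]
  exact norm_sum_le_of_le _ fun l hl => hterm h hh l hl

theorem cJ_eq (hF : Frm k N ps lam) (y : ℕ) (b : ℕ → ℂ) {ν ν' : ℕ} (hν : 1 ≤ ν) (hν' : 1 ≤ ν') {v : ℝ} (hv : 0 < v)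
    (r : ℤ) : cJ (sc k y lam b) v ν ν' r = ∫ u in (0 : ℝ)..(2 * Real.pi),
      PP k y lam b (ν' * (((v / (ν * ν') : ℝ) : ℂ) + u * I)) *
        conj (PP k y lam b (ν * (((v / (ν * ν') : ℝ) : ℂ) + u * I))) * cexp (I * r * u) := by
  have hνr : (0 : ℝ) < ν := by exact_mod_cast hν
  have hνr' : (0 : ℝ) < ν' := by exact_mod_cast hν'
  have hpg := pg_sc hF y b
  unfold cJ
  rw [← dser ν' ν (hpg.summable (v := v / ν) (by positivity)) (hpg.summable (v := v / ν') (by positivity)) r]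
  refine intervalIntegral.integral_congr fun u _ => ?_
  have e1 : (ν' : ℂ) * (((v / (ν * ν') : ℝ) : ℂ) + u * I) = ((v / ν : ℝ) : ℂ) + (ν' * u) * I := by
    have : (ν : ℂ) ≠ 0 := by exact_mod_cast hνr.ne'
    have : (ν' : ℂ) ≠ 0 := by exact_mod_cast hνr'.ne'
    push_cast
    field_simp
  have e2 : (ν : ℂ) * (((v / (ν * ν') : ℝ) : ℂ) + u * I) = ((v / ν' : ℝ) : ℂ) + (ν * u) * I := by
    have : (ν : ℂ) ≠ 0 := by exact_mod_cast hνr.ne'
    have : (ν' : ℂ) ≠ 0 := by exact_mod_cast hνr'.ne'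
    push_cast
    field_simp
  simp only [e1, e2]
  rw [PP_series hF y b (z := ((v / ν : ℝ) : ℂ) + (ν' * u) * I) (by simp; positivity),
    PP_series hF y b (z := ((v / ν' : ℝ) : ℂ) + (ν * u) * I) (by simp; positivity)]

theorem Jbd (h0 : S_SCU) (hF : Frm k N ps lam) : ∃ c C A : ℝ, 0 < c ∧ c ≤ 1 / 2 ∧ 0 < C ∧ 1 ≤ A ∧
    ∀ (y : ℕ) (b : ℕ → ℂ) (v : ℝ) (ν ν' : ℕ) (r : ℤ), 1 ≤ y → 0 < v → ν ∈ Icc 1 y → ν' ∈ Icc 1 y → r ≠ 0 →
    (v ≤ 1 → |(r : ℝ)| * v ^ 2 ≤ ν * ν') →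
    ‖cJ (sc k y lam b) v ν ν' r‖ ≤ C * (y : ℝ) ^ A * v ^ (-(k : ℝ)) * (min 1 v) ^ c *
        (∑ h ∈ Finset.Icc 1 y, ‖b h‖) ^ 2 := by
  obtain ⟨c, C, A, hc, hC, hA, hS⟩ := h0 k N ps lam hF
  obtain ⟨D, hD⟩ := hF.bd
  have hk : (1 : ℝ) ≤ k := by exact_mod_cast hF.k_pos
  obtain ⟨c', hc'⟩ : ∃ c', c' = min c (1 / 2) := ⟨_, rfl⟩
  have hc0 : 0 < c' := by rw [hc']; exact lt_min hc (by norm_num)
  have hc1 : c' ≤ 1 / 2 := by rw [hc']; exact min_le_right _ _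
  have hcc : c' ≤ c := by rw [hc']; exact min_le_left _ _
  refine ⟨c', 2 * Real.pi * (C + (|D| + 1) ^ 2), 4 * A + 3 * k, hc0, hc1, by positivity, by linarith, ?_⟩
  intro y b v ν ν' r hy hv hν hν' hr hrv
  have hy' : (1 : ℝ) ≤ y := by exact_mod_cast hy
  rw [mem_Icc] at hν hν'
  have hνr : (1 : ℝ) ≤ ν := by exact_mod_cast hν.1
  have hνr' : (1 : ℝ) ≤ ν' := by exact_mod_cast hν'.1
  have hνy : (ν : ℝ) ≤ y := by exact_mod_cast hν.2
  have hνy' : (ν' : ℝ) ≤ y := by exact_mod_cast hν'.2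
  obtain ⟨v', hv'⟩ : ∃ v' : ℝ, v' = v / (ν * ν') := ⟨_, rfl⟩
  have hνν : (1 : ℝ) ≤ ν * ν' := by nlinarith
  have hv'0 : 0 < v' := by rw [hv']; positivity
  have hvv : v = v' * (ν * ν') := by rw [hv']; field_simp
  have hv'v : v' ≤ v := by rw [hv']; exact div_le_self hv.le hνν
  have hm0 : 0 < min 1 v := lt_min one_pos hv
  rw [cJ_eq hF y b hν.1 hν'.1 hv r, ← hv']
  -- the bound of one integral
  have hM : ∀ h ∈ Icc 1 y, ∀ l ∈ Icc 1 y, ‖∫ x in (0 : ℝ)..1, gg k lam (h * ν') (l * ν) r v' x‖ ≤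
      (C + (|D| + 1) ^ 2) * (y : ℝ) ^ (4 * A + 2 * k) * v ^ (-(k : ℝ)) * (min 1 v) ^ c' := by
    intro h hh l hl
    rw [mem_Icc] at hh hl
    have hh' : (1 : ℝ) ≤ h := by exact_mod_cast hh.1
    have hl' : (1 : ℝ) ≤ l := by exact_mod_cast hl.1
    have hhy : (h : ℝ) ≤ y := by exact_mod_cast hh.2
    have hly : (l : ℝ) ≤ y := by exact_mod_cast hl.2
    have hD0 : 0 ≤ (|D| + 1) ^ 2 := by positivity
    rcases le_or_gt v 1 with h1 | h1
    · -- the deep bound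
      have hv'1 : v' ≤ 1 := hv'v.trans h1
      have h2 : |(r : ℝ)| ≤ v' ^ (-2 : ℝ) := by
        have h3 := hrv h1
        rw [Real.rpow_neg hv'0.le, Real.rpow_two, ← one_div, le_div_iff₀ (by positivity)]
        rw [hvv] at h3
        have h4 : |(r : ℝ)| * (v' * (ν * ν')) ^ 2 = (|(r : ℝ)| * v' ^ 2) * (ν * ν') * (ν * ν') := by ring
        rw [h4] at h3
        have h5 : (|(r : ℝ)| * v' ^ 2) * (ν * ν') ≤ 1 := by
          have h6 : (|(r : ℝ)| * v' ^ 2) * (ν * ν') * (ν * ν') ≤ 1 * (ν * ν') := by rw [one_mul]; exact h3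
          exact le_of_mul_le_mul_right h6 (by linarith)
        have h7 : 0 ≤ |(r : ℝ)| * v' ^ 2 := by positivity
        nlinarith
      have h3 := hS (h * ν') (l * ν) r v' (Nat.mul_pos hh.1 hν'.1) (Nat.mul_pos hl.1 hν.1) hr hv'0 hv'1 h2
      refine h3.trans ?_
      have h4 : (((h * ν' : ℕ) : ℝ) * ((l * ν : ℕ) : ℝ)) ^ A ≤ (y : ℝ) ^ (4 * A) := by
        have h5 : ((h * ν' : ℕ) : ℝ) * ((l * ν : ℕ) : ℝ) ≤ (y : ℝ) ^ (4 : ℝ) := by
          push_cast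
          have h6 : (y : ℝ) ^ (4 : ℝ) = (y * y) * (y * y) := by
            rw [show (4 : ℝ) = ((4 : ℕ) : ℝ) by norm_num, Real.rpow_natCast]
            ring
          rw [h6]
          have h7 : (h : ℝ) * ν' ≤ y * y := mul_le_mul hhy hνy' (by linarith) (by linarith)
          have h8 : (l : ℝ) * ν ≤ y * y := mul_le_mul hly hνy (by linarith) (by linarith)
          exact mul_le_mul h7 h8 (by positivity) (by positivity)
        rw [Real.rpow_mul (by linarith)]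
        exact Real.rpow_le_rpow (by positivity) h5 (by linarith)
      have h5 : v' ^ (c - k) ≤ (y : ℝ) ^ (2 * (k : ℝ)) * (v ^ (-(k : ℝ)) * (min 1 v) ^ c') := by
        rw [min_eq_right h1]
        have h6 : v' ^ (c - k) ≤ v' ^ (c' - k) :=
          Real.rpow_le_rpow_of_exponent_ge hv'0 hv'1 (by linarith)
        have h7 : v' ^ (c' - k) = v ^ (c' - k) * (ν * ν' : ℝ) ^ ((k : ℝ) - c') := by
          rw [hv', Real.div_rpow hv.le (by positivity), div_eq_mul_inv, ← Real.rpow_neg (by positivity)]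
          congr 2
          ring
        have h8 : (ν * ν' : ℝ) ^ ((k : ℝ) - c') ≤ (y : ℝ) ^ (2 * (k : ℝ)) := by
          have h9 : (ν * ν' : ℝ) ≤ (y : ℝ) ^ (2 : ℝ) := by
            rw [Real.rpow_two]
            nlinarith
          calc (ν * ν' : ℝ) ^ ((k : ℝ) - c') ≤ ((y : ℝ) ^ (2 : ℝ)) ^ ((k : ℝ) - c') :=
                Real.rpow_le_rpow (by positivity) h9 (by linarith)
            _ = (y : ℝ) ^ (2 * ((k : ℝ) - c')) := by rw [← Real.rpow_mul (by linarith)]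
            _ ≤ _ := Real.rpow_le_rpow_of_exponent_le hy' (by linarith)
        have h9 : v ^ (-(k : ℝ)) * v ^ c' = v ^ (c' - k) := by
          rw [← Real.rpow_add hv]
          congr 1
          ring
        rw [h9]
        calc v' ^ (c - k) ≤ v ^ (c' - k) * (ν * ν' : ℝ) ^ ((k : ℝ) - c') := h6.trans h7.le
          _ ≤ v ^ (c' - k) * (y : ℝ) ^ (2 * (k : ℝ)) := by gcongr
          _ = _ := mul_comm _ _
      have h6 : (y : ℝ) ^ (4 * A + 2 * k) = (y : ℝ) ^ (4 * A) * (y : ℝ) ^ (2 * (k : ℝ)) := by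
        rw [← Real.rpow_add (by linarith)]
      calc C * (((h * ν' : ℕ) : ℝ) * ((l * ν : ℕ) : ℝ)) ^ A * v' ^ (c - k) ≤
          C * (y : ℝ) ^ (4 * A) * ((y : ℝ) ^ (2 * (k : ℝ)) * (v ^ (-(k : ℝ)) * (min 1 v) ^ c')) := by gcongr
        _ ≤ (C + (|D| + 1) ^ 2) * (y : ℝ) ^ (4 * A) * ((y : ℝ) ^ (2 * (k : ℝ)) * (v ^ (-(k : ℝ)) * (min 1 v) ^ c')) := by
          gcongr
          linarith
        _ = _ := by rw [h6]; ring
    · -- the trivial bound
      rw [min_eq_left h1.le, Real.one_rpow, mul_one]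
      have hP : ∀ (m ν1 : ℕ) (x : ℝ), (m : ℝ) = m → 1 ≤ m → 1 ≤ (ν1 : ℝ) → (ν1 : ℝ) ≤ y → (m : ℝ) * v' = m * v' →
          v ≤ m * v' * ν1 → ‖Ph k lam (m * (v' + 2 * Real.pi * I * x))‖ ≤
          (|D| + 1) * (y : ℝ) ^ (k : ℝ) * v ^ (-((k : ℝ) / 2)) := by
        intro m ν1 x _ hm h3 h4 _ h5
        have hre : ((m : ℂ) * (v' + 2 * Real.pi * I * x)).re = m * v' := by
          rw [← Complex.ofReal_natCast, Complex.re_ofReal_mul]
          simp
        have hm' : (0 : ℝ) < m := by exact_mod_cast hm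
        have h6 := hD ((m : ℂ) * (v' + 2 * Real.pi * I * x)) (by rw [hre]; positivity)
        rw [hre] at h6
        refine h6.trans ?_
        have h7 : (m * v' : ℝ) ^ (-((k : ℝ) / 2)) ≤ (v / ν1) ^ (-((k : ℝ) / 2)) := by
          apply Real.rpow_le_rpow_of_nonpos (by positivity) _ (by linarith)
          rw [div_le_iff₀ (by linarith)]
          exact h5
        have h8 : (v / ν1) ^ (-((k : ℝ) / 2)) = v ^ (-((k : ℝ) / 2)) * (ν1 : ℝ) ^ ((k : ℝ) / 2) := by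
          rw [Real.div_rpow hv.le (by linarith), div_eq_mul_inv, ← Real.rpow_neg (by linarith), neg_neg]
        have h9 : (ν1 : ℝ) ^ ((k : ℝ) / 2) ≤ (y : ℝ) ^ (k : ℝ) :=
          (Real.rpow_le_rpow (by linarith) h4 (by linarith)).trans
            (Real.rpow_le_rpow_of_exponent_le hy' (by linarith))
        have h10 : D ≤ |D| + 1 := by linarith [le_abs_self D]
        calc D * (m * v' : ℝ) ^ (-((k : ℝ) / 2)) ≤ (|D| + 1) * (m * v' : ℝ) ^ (-((k : ℝ) / 2)) := by gcongr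
          _ ≤ (|D| + 1) * (v ^ (-((k : ℝ) / 2)) * (ν1 : ℝ) ^ ((k : ℝ) / 2)) := by rw [← h8]; gcongr
          _ ≤ (|D| + 1) * (v ^ (-((k : ℝ) / 2)) * (y : ℝ) ^ (k : ℝ)) := by gcongr
          _ = _ := by ring
      have h2 : ∀ x : ℝ, ‖gg k lam (h * ν') (l * ν) r v' x‖ ≤
          (|D| + 1) ^ 2 * (y : ℝ) ^ (2 * (k : ℝ)) * v ^ (-(k : ℝ)) := by
        intro x
        unfold gg
        have h3 : ‖cexp (2 * Real.pi * I * r * x)‖ = 1 := by
          rw [Complex.norm_exp]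
          have : (2 * Real.pi * I * r * x : ℂ).re = 0 := by simp
          rw [this, Real.exp_zero]
        rw [norm_mul, norm_mul, RCLike.norm_conj, h3, mul_one]
        have h4 := hP (h * ν') ν x rfl (Nat.mul_pos hh.1 hν'.1) hνr hνy rfl (by
          push_cast
          rw [hvv]
          have : v' * (ν * ν') ≤ h * (v' * (ν * ν')) := by
            have : 0 ≤ v' * (ν * ν') := by positivity
            nlinarith
          calc v' * (ν * ν') ≤ h * (v' * (ν * ν')) := this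
            _ = _ := by ring)
        have h5 := hP (l * ν) ν' x rfl (Nat.mul_pos hl.1 hν.1) hνr' hνy' rfl (by
          push_cast
          rw [hvv]
          have : v' * (ν * ν') ≤ l * (v' * (ν * ν')) := by
            have : 0 ≤ v' * (ν * ν') := by positivity
            nlinarith
          calc v' * (ν * ν') ≤ l * (v' * (ν * ν')) := this
            _ = _ := by ring)
        have h6 := mul_le_mul h4 h5 (norm_nonneg _) (by positivity)
        refine h6.trans (le_of_eq ?_)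
        have h7 : (y : ℝ) ^ (2 * (k : ℝ)) = (y : ℝ) ^ (k : ℝ) * (y : ℝ) ^ (k : ℝ) := by
          rw [← Real.rpow_add (by linarith)]
          congr 1
          ring
        have h8 : v ^ (-(k : ℝ)) = v ^ (-((k : ℝ) / 2)) * v ^ (-((k : ℝ) / 2)) := by
          rw [← Real.rpow_add hv]
          congr 1
          ring
        rw [h7, h8]
        ring
      have h3 := intervalIntegral.norm_integral_le_of_norm_le_const (a := (0 : ℝ)) (b := 1)
        (f := fun x => gg k lam (h * ν') (l * ν) r v' x) (C := (|D| + 1) ^ 2 * (y : ℝ) ^ (2 * (k : ℝ)) * v ^ (-(k : ℝ)))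
        (fun x _ => h2 x)
      rw [sub_zero, abs_one, mul_one] at h3
      refine h3.trans ?_
      have h4 : (y : ℝ) ^ (2 * (k : ℝ)) ≤ (y : ℝ) ^ (4 * A + 2 * k) :=
        Real.rpow_le_rpow_of_exponent_le hy' (by linarith)
      have h5 : (|D| + 1) ^ 2 ≤ C + (|D| + 1) ^ 2 := by linarith
      gcongr
  refine (PP_prod_bd hF y b hν'.1 hν.1 hv'0 r hM).trans ?_
  have h6 : (y : ℝ) ^ ((k : ℝ) - 1) * (y : ℝ) ^ (4 * A + 2 * k) ≤ (y : ℝ) ^ (4 * A + 3 * k) := by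
    rw [← Real.rpow_add (by linarith)]
    exact Real.rpow_le_rpow_of_exponent_le hy' (by linarith)
  have h7 : 0 ≤ 2 * Real.pi * (C + (|D| + 1) ^ 2) * (v ^ (-(k : ℝ)) * (min 1 v) ^ c') *
      (∑ h ∈ Finset.Icc 1 y, ‖b h‖) ^ 2 := by positivity
  calc _ = ((y : ℝ) ^ ((k : ℝ) - 1) * (y : ℝ) ^ (4 * A + 2 * k)) * (2 * Real.pi * (C + (|D| + 1) ^ 2) *
        (v ^ (-(k : ℝ)) * (min 1 v) ^ c') * (∑ h ∈ Finset.Icc 1 y, ‖b h‖) ^ 2) := by ring
    _ ≤ (y : ℝ) ^ (4 * A + 3 * k) * (2 * Real.pi * (C + (|D| + 1) ^ 2) *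
        (v ^ (-(k : ℝ)) * (min 1 v) ^ c') * (∑ h ∈ Finset.Icc 1 y, ‖b h‖) ^ 2) := mul_le_mul_of_nonneg_right h6 h7
    _ = _ := by ring

end Pool.Agent.K9h29.SP
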