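import Pool.Agent.Y771.GL.Comb

set_option autoImplicit false

/-!
# Sums over primes (Chebyshev)
-/

namespace Pool.Agent.K9h29.SP

open Finset Pool.Agent.Y771.GL

theorem theta_dy (j : ℕ) : ∑ p ∈ pr (2 ^ (j + 1)), Real.log p ≤ 2 * Real.log 4 * 2 ^ j := by
  have h := Chebyshev.theta_le_log4_mul_x (x := ((2 ^ (j + 1) : ℕ) : ℝ)) (Nat.cast_nonneg _)
  rw [Chebyshev.theta_eq_sum_Icc, Nat.floor_natCast] at h
  have e : ∑ p ∈ pr (2 ^ (j + 1)), Real.log p =
      ∑ p ∈ (Icc 0 (2 ^ (j + 1))).filter Nat.Prime, Real.log p := by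
    refine sum_congr ?_ fun _ _ => rfl
    ext p
    rw [mem_pr, mem_filter, mem_Icc]
    exact ⟨fun h => ⟨⟨Nat.zero_le _, h.1⟩, h.2⟩, fun h => ⟨h.1.2, h.2⟩⟩
  rw [e]
  refine h.trans (le_of_eq ?_)
  push_cast
  ring

/-- dyadic decomposition of a sum over primes -/
theorem dya (X : ℕ) (f B : ℕ → ℝ) (hB : ∀ j, 0 ≤ B j)
    (h : ∀ j p : ℕ, p ∈ pr X → 2 ^ j ≤ p → p < 2 ^ (j + 1) → f p ≤ B j) :
    ∑ p ∈ pr X, Real.log p / p * f p ≤ 2 * Real.log 4 * ∑ j ∈ range (X + 1), B j := by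
  have h1 : ∀ p ∈ pr X, Nat.log 2 p ∈ range (X + 1) := by
    intro p hp
    rw [mem_pr] at hp
    rw [mem_range]
    have := Nat.log_le_self 2 p
    omega
  rw [← sum_fiberwise_of_maps_to h1, mul_sum]
  refine sum_le_sum fun j _ => ?_
  have h2 : ∀ p ∈ (pr X).filter (fun p => Nat.log 2 p = j), Real.log p / p * f p ≤
      B j / 2 ^ j * Real.log p := by
    intro p hp
    rw [mem_filter] at hp
    have hp0 : p ≠ 0 := (mem_pr.1 hp.1).2.ne_zero
    have h3 : 2 ^ j ≤ p := by rw [← hp.2]; exact Nat.pow_log_le_self 2 hp0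
    have h4 : p < 2 ^ (j + 1) := by rw [← hp.2]; exact Nat.lt_pow_succ_log_self (by norm_num) p
    have h5 := h j p hp.1 h3 h4
    have h6 : (0 : ℝ) ≤ Real.log p := Real.log_natCast_nonneg p
    have h7 : (2 : ℝ) ^ j ≤ p := by exact_mod_cast h3
    have h8 : (0 : ℝ) < 2 ^ j := by positivity
    calc Real.log p / p * f p ≤ Real.log p / p * B j := by
          apply mul_le_mul_of_nonneg_left h5
          positivity
      _ ≤ Real.log p / 2 ^ j * B j := by
          apply mul_le_mul_of_nonneg_right _ (hB j)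
          gcongr
      _ = _ := by ring
  refine (sum_le_sum h2).trans ?_
  rw [← mul_sum]
  have h9 : ∑ p ∈ (pr X).filter (fun p => Nat.log 2 p = j), Real.log p ≤ 2 * Real.log 4 * 2 ^ j := by
    refine le_trans (sum_le_sum_of_subset_of_nonneg ?_ fun p _ _ => Real.log_natCast_nonneg p) (theta_dy j)
    intro p hp
    rw [mem_filter] at hp
    rw [mem_pr]
    refine ⟨?_, (mem_pr.1 hp.1).2⟩
    have h4 : p < 2 ^ (j + 1) := by rw [← hp.2]; exact Nat.lt_pow_succ_log_self (by norm_num) p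
    exact h4.le
  calc B j / 2 ^ j * ∑ p ∈ (pr X).filter (fun p => Nat.log 2 p = j), Real.log p ≤
      B j / 2 ^ j * (2 * Real.log 4 * 2 ^ j) := by
        apply mul_le_mul_of_nonneg_left h9
        have := hB j
        positivity
    _ = _ := by field_simp

theorem mert : ∃ C : ℝ, 0 ≤ C ∧ RSb (fun _ => 1) C := by
  refine ⟨2 * Real.log 4, by positivity, fun x hx => ?_⟩
  have h := dya x (fun _ => 1) (fun j => if j ≤ Nat.log 2 x then 1 else 0) (fun j => by split_ifs <;> norm_num)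
    (fun j p hp h1 h2 => by
      rw [if_pos]
      apply Nat.le_log_of_pow_le (by norm_num)
      exact h1.trans (mem_pr.1 hp).1)
  have e1 : ∑ p ∈ pr x, (1 : ℝ) * Real.log p / p = ∑ p ∈ pr x, Real.log p / p * 1 :=
    sum_congr rfl fun p _ => by ring
  rw [e1]
  refine h.trans ?_
  have h2 : ∑ j ∈ range (x + 1), (if j ≤ Nat.log 2 x then (1 : ℝ) else 0) ≤ Nat.log 2 x + 1 := by
    rw [← sum_filter, sum_const, nsmul_eq_mul, mul_one]
    have : ((range (x + 1)).filter (fun j => j ≤ Nat.log 2 x)).card ≤ Nat.log 2 x + 1 := by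
      refine (card_le_card (t := range (Nat.log 2 x + 1)) ?_).trans (by rw [card_range])
      intro j hj
      rw [mem_filter] at hj
      rw [mem_range]
      omega
    exact_mod_cast this
  have h3 : (Nat.log 2 x : ℝ) * Real.log 2 ≤ Real.log x := by
    rw [← Real.log_pow]
    apply Real.log_le_log (by positivity)
    have := Nat.pow_log_le_self 2 (show x ≠ 0 by omega)
    exact_mod_cast this
  have h4 : Real.log 4 = 2 * Real.log 2 := by
    rw [show (4 : ℝ) = 2 ^ 2 by norm_num, Real.log_pow]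
    norm_num
  have hl2 : 0 < Real.log 2 := Real.log_pos (by norm_num)
  calc 2 * Real.log 4 * ∑ j ∈ range (x + 1), (if j ≤ Nat.log 2 x then (1 : ℝ) else 0) ≤
      2 * Real.log 4 * (Nat.log 2 x + 1) := by
        apply mul_le_mul_of_nonneg_left h2
        positivity
    _ = 4 * (Nat.log 2 x * Real.log 2) + 2 * Real.log 4 := by rw [h4]; ring
    _ ≤ _ := by linarith

theorem tele (x : ℝ) (hx : 0 < x) (n : ℕ) :
    ∑ j ∈ range n, min (2 * (2 ^ j * x)) (1 / (2 ^ j * x)) ≤ 12 := by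
  have h1 : ∀ j ∈ range n, min (2 * (2 ^ j * x)) (1 / (2 ^ j * x)) ≤
      12 / (1 + 2 ^ j * x) - 12 / (1 + 2 ^ (j + 1) * x) := by
    intro j _
    obtain ⟨u, hu⟩ : ∃ u : ℝ, u = 2 ^ j * x := ⟨_, rfl⟩
    have hu0 : 0 < u := by rw [hu]; positivity
    have e : (2 : ℝ) ^ (j + 1) * x = 2 * u := by rw [hu, pow_succ]; ring
    rw [e, ← hu]
    have e2 : 12 / (1 + u) - 12 / (1 + 2 * u) = 12 * u / ((1 + u) * (1 + 2 * u)) := by
      field_simp
      ring
    rw [e2]
    rcases le_total u 1 with h | h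
    · refine (min_le_left _ _).trans ?_
      rw [le_div_iff₀ (by positivity)]
      have : (1 + u) * (1 + 2 * u) ≤ 6 := by nlinarith
      nlinarith
    · refine (min_le_right _ _).trans ?_
      rw [div_le_div_iff₀ hu0 (by positivity)]
      nlinarith
  refine (sum_le_sum h1).trans ?_
  rw [sum_range_sub']
  have h2 : 12 / (1 + 2 ^ 0 * x) ≤ 12 := by
    rw [div_le_iff₀ (by positivity)]
    nlinarith [show (0 : ℝ) < 2 ^ 0 * x by positivity]
  have h3 : 0 ≤ 12 / (1 + 2 ^ n * x) := by positivity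
  linarith

/-- primes near `M` -/
theorem ker (M : ℝ) (hM : 0 < M) (X : ℕ) :
    ∑ p ∈ pr X, Real.log p / p * min (p / M) (M / p) ≤ 36 := by
  have h := dya X (fun p => min (p / M) (M / p)) (fun j => min (2 * (2 ^ j * M⁻¹)) (1 / (2 ^ j * M⁻¹)))
    (fun j => by positivity) (fun j p hp h1 h2 => by
      have h3 : (2 : ℝ) ^ j ≤ p := by exact_mod_cast h1
      have h4 : (p : ℝ) ≤ 2 * 2 ^ j := by
        have : p ≤ 2 ^ (j + 1) := h2.le
        have : (p : ℝ) ≤ 2 ^ (j + 1) := by exact_mod_cast this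
        rw [pow_succ] at this
        linarith
      refine min_le_min ?_ ?_
      · rw [div_eq_mul_inv]
        have : 0 < M⁻¹ := by positivity
        nlinarith
      · have : (1 : ℝ) / (2 ^ j * M⁻¹) = M / 2 ^ j := by field_simp
        rw [this]
        gcongr)
  refine h.trans ?_
  have h5 := tele M⁻¹ (by positivity) (X + 1)
  have h6 : Real.log 4 ≤ 3 / 2 := by
    have : Real.log 4 = 2 * Real.log 2 := by
      rw [show (4 : ℝ) = 2 ^ 2 by norm_num, Real.log_pow]
      norm_num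
    have := Real.log_two_lt_d9
    linarith
  have h7 : 0 ≤ Real.log 4 := Real.log_nonneg (by norm_num)
  calc _ ≤ 2 * Real.log 4 * 12 := mul_le_mul_of_nonneg_left h5 (by positivity)
    _ ≤ 36 := by linarith

end Pool.Agent.K9h29.SP
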