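import Pool.Agent.Y771.GL.EU2b
import Pool.Agent.K9h29.SP.PrimeS

set_option autoImplicit false

/-!
# Finite Euler products
-/

namespace Pool.Agent.K9h29.SP

open Complex Finset Pool.Agent.Y771.GL

/-- the multiplicative function supported on squarefree numbers with given values at the primes -/
noncomputable def sqf (g : ℕ → ℂ) (h : ℕ) : ℂ :=
  if Squarefree h then ∏ p ∈ h.primeFactors, g p else 0

theorem sqf_one (g : ℕ → ℂ) : sqf g 1 = 1 := by
  unfold sqf
  rw [if_pos squarefree_one]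
  simp

theorem sqf_zero (g : ℕ → ℂ) : sqf g 0 = 0 := by
  unfold sqf
  rw [if_neg not_squarefree_zero]

theorem sqf_mul (g : ℕ → ℂ) (m n : ℕ) (h : m.Coprime n) : sqf g (m * n) = sqf g m * sqf g n := by
  unfold sqf
  have hi := Nat.squarefree_mul h
  by_cases h1 : Squarefree m
  · by_cases h2 : Squarefree n
    · rw [if_pos (hi.2 ⟨h1, h2⟩), if_pos h1, if_pos h2, h.primeFactors_mul, prod_union h.disjoint_primeFactors]
    · rw [if_neg (fun h3 => h2 (hi.1 h3).2), if_neg h2, mul_zero]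
  · rw [if_neg (fun h3 => h1 (hi.1 h3).1), if_neg h1, zero_mul]

theorem sqf_prime (g : ℕ → ℂ) {p : ℕ} (hp : p.Prime) : sqf g p = g p := by
  unfold sqf
  rw [if_pos hp.prime.squarefree, hp.primeFactors, prod_singleton]

theorem sqf_pow (g : ℕ → ℂ) {p : ℕ} (hp : p.Prime) {j : ℕ} (hj : 2 ≤ j) : sqf g (p ^ j) = 0 := by
  unfold sqf
  rw [if_neg]
  intro h
  rw [Nat.squarefree_pow_iff hp.one_lt.ne' (by omega)] at h
  omega

theorem lemB1 (S : Finset ℕ) (hS : ∀ p ∈ S, p.Prime) (t : ℕ → ℕ → ℂ) :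
    ∑ l ∈ (∏ p ∈ S, p).divisors, ∏ p ∈ S, t p (l.factorization p) = ∏ p ∈ S, (t p 0 + t p 1) := by
  induction S using Finset.induction_on with
  | empty => simp
  | insert q S hq ih =>
    have ih := ih (fun p hp => hS p (mem_insert_of_mem hp))
    have hqp := hS q (mem_insert_self _ _)
    have hcop : Nat.Coprime q (∏ p ∈ S, p) := by
      apply Nat.Coprime.prod_right
      intro p hp
      rw [Nat.coprime_primes hqp (hS p (mem_insert_of_mem hp))]
      rintro rfl
      exact hq hp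
    rw [prod_insert hq, prod_insert hq, sum_coprime hcop, ← ih, hqp.sum_divisors]
    have key : ∀ j : ℕ, j ≤ 1 → ∀ y ∈ (∏ p ∈ S, p).divisors,
        ∏ p ∈ insert q S, t p ((q ^ j * y).factorization p) = t q j * ∏ p ∈ S, t p (y.factorization p) := by
      intro j _ y hy
      have hy0 : y ≠ 0 := (Nat.pos_of_mem_divisors hy).ne'
      have hqj : q ^ j ≠ 0 := pow_ne_zero _ hqp.ne_zero
      have hyq : y.factorization q = 0 := by
        apply Nat.factorization_eq_zero_of_not_dvd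
        intro h1
        have h2 := Nat.dvd_gcd (dvd_refl q) (h1.trans (Nat.dvd_of_mem_divisors hy))
        rw [hcop.gcd_eq_one] at h2
        exact hqp.one_lt.ne' (Nat.dvd_one.1 h2)
      rw [prod_insert hq]
      congr 1
      · rw [Nat.factorization_mul hqj hy0, Finsupp.add_apply, hyq, Nat.Prime.factorization_pow hqp,
          Finsupp.single_eq_same, add_zero]
      · refine prod_congr rfl fun p hp => ?_
        rw [Nat.factorization_mul hqj hy0, Finsupp.add_apply, Nat.Prime.factorization_pow hqp,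
          Finsupp.single_eq_of_ne, zero_add]
        rintro rfl
        exact hq hp
    have k0 : ∑ y ∈ (∏ p ∈ S, p).divisors, ∏ p ∈ insert q S, t p ((1 * y).factorization p) =
        t q 0 * ∑ y ∈ (∏ p ∈ S, p).divisors, ∏ p ∈ S, t p (y.factorization p) := by
      rw [mul_sum]
      refine sum_congr rfl fun y hy => ?_
      have := key 0 (by norm_num) y hy
      rwa [pow_zero] at this
    have k1 : ∑ y ∈ (∏ p ∈ S, p).divisors, ∏ p ∈ insert q S, t p ((q * y).factorization p) =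
        t q 1 * ∑ y ∈ (∏ p ∈ S, p).divisors, ∏ p ∈ S, t p (y.factorization p) := by
      rw [mul_sum]
      refine sum_congr rfl fun y hy => ?_
      have := key 1 le_rfl y hy
      rwa [pow_one] at this
    rw [k0, k1]
    ring

/-- the finite sum over `l` -/
noncomputable def Zs (α β : ℕ → ℂ) (X g a : ℕ) : ℂ :=
  ∑ l ∈ (∏ p ∈ pr X, p).divisors, α (g * l) * β (a * l) / l

/-- the local factor -/
noncomputable def El (α β : ℕ → ℂ) (p u v : ℕ) : ℂ :=
  α (p ^ u) * β (p ^ v) + α (p ^ (u + 1)) * β (p ^ (v + 1)) / p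

structure Mu (f : ℕ → ℂ) : Prop where
  one : f 1 = 1
  mul : ∀ m n : ℕ, Nat.Coprime m n → f (m * n) = f m * f n

theorem mu_sqf (g : ℕ → ℂ) : Mu (sqf g) := ⟨sqf_one g, sqf_mul g⟩

variable {α β : ℕ → ℂ}

theorem Zs_prod (hα : Mu α) (hβ : Mu β) {X g a : ℕ} (hg : g ∈ Icc 1 X) (ha : a ∈ Icc 1 X) :
    Zs α β X g a = ∏ p ∈ pr X, El α β p (g.factorization p) (a.factorization p) := by
  have hg0 : g ≠ 0 := by rw [mem_Icc] at hg; omega
  have ha0 : a ≠ 0 := by rw [mem_Icc] at ha; omega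
  unfold Zs
  have h1 : ∀ l ∈ (∏ p ∈ pr X, p).divisors, α (g * l) * β (a * l) / l =
      ∏ p ∈ pr X, (α (p ^ (g.factorization p + l.factorization p)) *
        β (p ^ (a.factorization p + l.factorization p)) / ((p : ℂ) ^ l.factorization p)) := by
    intro l hl
    have hl0 : l ≠ 0 := (Nat.pos_of_mem_divisors hl).ne'
    have hlS : l.primeFactors ⊆ pr X := by
      intro p hp
      have h1 := Nat.prime_of_mem_primeFactors hp
      have h2 := (Nat.dvd_of_mem_primeFactors hp).trans (Nat.dvd_of_mem_divisors hl)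
      rw [Prime.dvd_finsetProd_iff h1.prime] at h2
      obtain ⟨r, hr, h3⟩ := h2
      rw [(Nat.prime_dvd_prime_iff_eq h1 (mem_pr.1 hr).2).1 h3]
      exact hr
    have e1 : α (g * l) = ∏ p ∈ pr X, α (p ^ (g.factorization p + l.factorization p)) := by
      rw [mult_prod (S := pr X) hα.one hα.mul (mul_ne_zero hg0 hl0) (by
        rw [Nat.primeFactors_mul hg0 hl0]
        exact union_subset (primeFactors_subset hg) hlS)]
      refine prod_congr rfl fun p hp => ?_
      rw [Nat.factorization_mul hg0 hl0, Finsupp.add_apply]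
    have e2 : β (a * l) = ∏ p ∈ pr X, β (p ^ (a.factorization p + l.factorization p)) := by
      rw [mult_prod (S := pr X) hβ.one hβ.mul (mul_ne_zero ha0 hl0) (by
        rw [Nat.primeFactors_mul ha0 hl0]
        exact union_subset (primeFactors_subset ha) hlS)]
      refine prod_congr rfl fun p hp => ?_
      rw [Nat.factorization_mul ha0 hl0, Finsupp.add_apply]
    have e3 : (l : ℂ) = ∏ p ∈ pr X, ((p : ℂ) ^ l.factorization p) := by
      have h1 := mult_prod (M := ℂ) (f := fun n : ℕ => (n : ℂ)) (by simp) (fun m n _ => by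
        rw [Nat.cast_mul]) hl0 hlS
      rw [h1]
      refine prod_congr rfl fun p _ => ?_
      push_cast
      rfl
    rw [e1, e2, e3, ← prod_mul_distrib, ← prod_div_distrib]
  rw [sum_congr rfl h1]
  have h2 := lemB1 (pr X) (fun p hp => (mem_pr.1 hp).2) (fun p j => α (p ^ (g.factorization p + j)) *
        β (p ^ (a.factorization p + j)) / ((p : ℂ) ^ j))
  rw [h2]
  refine prod_congr rfl fun p _ => ?_
  unfold El
  simp

/-- the generic Euler product bound -/
theorem Zs_sum (hα : Mu α) (hβ : Mu β) {X : ℕ} {σ : ℝ} (E : ℕ → ℝ)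
    (hE : ∀ p ∈ pr X, ∑ k ∈ RR X, ((p : ℝ) ^ (-σ)) ^ (k.1 + k.2) * ‖El α β p k.2 k.1‖ ^ 2 ≤ 1 + E p) :
    ∑ g ∈ Icc 1 X, ∑ a ∈ (Icc 1 X).filter (fun a => a.Coprime g), ((a : ℝ) * g) ^ (-σ) *
      ‖Zs α β X g a‖ ^ 2 ≤ Real.exp (∑ p ∈ pr X, E p) := by
  obtain ⟨A, hA⟩ : ∃ A : Finset (ℕ × ℕ), A = (Icc 1 X ×ˢ Icc 1 X).filter (fun x => x.2.Coprime x.1) := ⟨_, rfl⟩
  have hmem : ∀ x ∈ A, x.1 ∈ Icc 1 X ∧ x.2 ∈ Icc 1 X ∧ x.2.Coprime x.1 := by
    intro x hx
    rw [hA, mem_filter, mem_product] at hx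
    exact ⟨hx.1.1, hx.1.2, hx.2⟩
  have e0 : ∑ g ∈ Icc 1 X, ∑ a ∈ (Icc 1 X).filter (fun a => a.Coprime g), ((a : ℝ) * g) ^ (-σ) *
      ‖Zs α β X g a‖ ^ 2 = ∑ x ∈ A, ((x.2 : ℝ) * x.1) ^ (-σ) * ‖Zs α β X x.1 x.2‖ ^ 2 := by
    rw [hA, sum_filter, sum_product]
    refine sum_congr rfl fun q _ => ?_
    rw [sum_filter]
  rw [e0]
  have h1 := gen A (pr X) (RR X) (fun x p => (x.2.factorization p, x.1.factorization p))
    (fun p k => ((p : ℝ) ^ (-σ)) ^ (k.1 + k.2) * ‖El α β p k.2 k.1‖ ^ 2)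
    (fun p k => by
      have : 0 ≤ (p : ℝ) ^ (-σ) := Real.rpow_nonneg (Nat.cast_nonneg _) _
      positivity)
    (fun x hx y hy hxy => by
      obtain ⟨hx1, hx2, _⟩ := hmem x hx
      obtain ⟨hy1, hy2, _⟩ := hmem y hy
      apply Prod.ext
      · exact fac_inj hx1 hy1 fun p hp => (Prod.mk.inj (hxy p hp)).2
      · exact fac_inj hx2 hy2 fun p hp => (Prod.mk.inj (hxy p hp)).1)
    (fun x hx p hp => by
      obtain ⟨hx1, hx2, hx3⟩ := hmem x hx
      have hpp := (mem_pr.1 hp).2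
      have hz : x.2.factorization p = 0 ∨ x.1.factorization p = 0 := by
        by_contra hcon
        push Not at hcon
        rw [mem_Icc] at hx1 hx2
        have h3 := Nat.dvd_gcd (Nat.dvd_of_factorization_pos hcon.1) (Nat.dvd_of_factorization_pos hcon.2)
        rw [hx3.gcd_eq_one] at h3
        exact hpp.one_lt.ne' (Nat.dvd_one.1 h3)
      have h4 := fac_lt (p := p) hx1
      have h5 := fac_lt (p := p) hx2
      unfold RR
      rw [mem_union, mem_image, mem_image]
      by_cases h6 : x.1.factorization p = 0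
      · left
        exact ⟨x.2.factorization p, by rw [mem_range]; exact h5, by rw [h6]⟩
      · right
        have h7 := hz.resolve_right h6
        exact ⟨x.1.factorization p, by rw [mem_Icc]; omega, by rw [h7]⟩)
  have e1 : ∑ x ∈ A, ((x.2 : ℝ) * x.1) ^ (-σ) * ‖Zs α β X x.1 x.2‖ ^ 2 =
      ∑ x ∈ A, ∏ p ∈ pr X, ((p : ℝ) ^ (-σ)) ^ (x.2.factorization p + x.1.factorization p) *
        ‖El α β p (x.1.factorization p) (x.2.factorization p)‖ ^ 2 := by
    refine sum_congr rfl fun x hx => ?_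
    obtain ⟨hx1, hx2, _⟩ := hmem x hx
    have hne : ∀ n ∈ Icc 1 X, n ≠ 0 := fun n hn => by rw [mem_Icc] at hn; omega
    have e2 : ∀ n ∈ Icc 1 X, (n : ℝ) ^ (-σ) = ∏ p ∈ pr X, ((p : ℝ) ^ (-σ)) ^ n.factorization p := by
      intro n hn
      have h2 := mult_prod (M := ℝ) (f := fun n : ℕ => (n : ℝ) ^ (-σ)) (by simp) (fun m n _ => by
        push_cast
        rw [Real.mul_rpow (Nat.cast_nonneg _) (Nat.cast_nonneg _)]) (hne n hn) (primeFactors_subset hn)
      rw [h2]
      refine prod_congr rfl fun p hp => ?_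
      push_cast
      rw [← Real.rpow_natCast, ← Real.rpow_mul (Nat.cast_nonneg _), mul_comm,
        Real.rpow_mul (Nat.cast_nonneg _), Real.rpow_natCast]
    rw [Zs_prod hα hβ hx1 hx2, norm_prod, ← prod_pow, Real.mul_rpow (Nat.cast_nonneg _) (Nat.cast_nonneg _),
      e2 _ hx2, e2 _ hx1, ← prod_mul_distrib, ← prod_mul_distrib]
    refine prod_congr rfl fun p _ => ?_
    rw [pow_add]
  rw [e1]
  refine h1.trans (prod_le_exp (fun p _ => sum_nonneg fun k _ => by
      have : 0 ≤ (p : ℝ) ^ (-σ) := Real.rpow_nonneg (Nat.cast_nonneg _) _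
      positivity) fun p hp => hE p hp)

end Pool.Agent.K9h29.SP
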