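import Pool.Agent.K9h29.SP.Dat

set_option autoImplicit false

/-!
# The local sums
-/

namespace Pool.Agent.K9h29.SP

open Complex Finset Pool.Agent.Y771.GL
open scoped ComplexConjugate
open Pool.Agent.W368.SD (ss ss_re)
open Pool.Agent.Y671.GL (cn)

theorem El_0 (G : ℕ → ℂ) (β : ℕ → ℂ) {p : ℕ} (hp : p.Prime) (v : ℕ) :
    El (sqf G) β p 0 v = β (p ^ v) + G p * β (p ^ (v + 1)) / p := by
  unfold El
  rw [pow_zero, sqf_one, zero_add, pow_one, sqf_prime G hp, one_mul]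

theorem El_1 (G : ℕ → ℂ) (β : ℕ → ℂ) {p : ℕ} (hp : p.Prime) (v : ℕ) :
    El (sqf G) β p 1 v = G p * β (p ^ v) := by
  unfold El
  rw [pow_one, sqf_prime G hp, sqf_pow G hp (by norm_num), zero_mul, zero_div, add_zero]

theorem El_2 (G : ℕ → ℂ) (β : ℕ → ℂ) {p : ℕ} (hp : p.Prime) {u : ℕ} (hu : 2 ≤ u) (v : ℕ) :
    El (sqf G) β p u v = 0 := by
  unfold El
  rw [sqf_pow G hp hu, sqf_pow G hp (by omega)]
  simp

/-- the sum over the exponents, large primes -/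
theorem loc_big {G : ℕ → ℂ} {β : ℕ → ℂ} {p X : ℕ} {r : ℝ} (hp : p.Prime) (hp1 : 100 ≤ p) (hr0 : 0 ≤ r)
    (hr : r ≤ 1 / p) (hX : 1 ≤ X) (hG : ‖G p‖ ≤ 1) (h1 : β 1 = 1)
    (hβ : ∀ v : ℕ, 1 ≤ v → ‖β (p ^ v)‖ ≤ 2 * 3 ^ v) :
    ∑ k ∈ RR X, r ^ (k.1 + k.2) * ‖El (sqf G) β p k.2 k.1‖ ^ 2 ≤
      1 + (2 * (G p * β p).re / p + r * (‖β p‖ ^ 2 + ‖G p‖ ^ 2) + 1200 / (p : ℝ) ^ 2) := by
  have hpp : (100 : ℝ) ≤ p := by exact_mod_cast hp1
  have hp0 : (0 : ℝ) < p := by linarith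
  rw [sum_RR]
  simp only [add_zero, zero_add]
  -- exponents of g
  have e2 : ∑ u ∈ Icc 1 X, r ^ u * ‖El (sqf G) β p u 0‖ ^ 2 = r * ‖G p‖ ^ 2 := by
    rw [sum_eq_single 1]
    · rw [El_1 G β hp, pow_zero, h1, mul_one, pow_one]
    · intro u hu hu1
      rw [mem_Icc] at hu
      rw [El_2 G β hp (by omega), norm_zero]
      ring
    · intro h
      exact absurd (mem_Icc.2 ⟨le_rfl, hX⟩) h
  have e1 : range (X + 1) = insert 0 (insert 1 (Icc 2 X)) := by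
    ext r
    rw [mem_insert, mem_insert, mem_range, mem_Icc]
    omega
  rw [e2, e1, sum_insert (by simp), sum_insert (by simp), pow_zero, one_mul, pow_one]
  have hb1 : ‖β p‖ ≤ 6 := by
    have := hβ 1 le_rfl
    rw [pow_one, pow_one] at this
    linarith
  have hb2 : ‖β (p ^ 2)‖ ≤ 18 := by
    have := hβ 2 (by norm_num)
    linarith
  have hGb : ‖G p * β p‖ ≤ 6 := by
    rw [norm_mul]
    calc ‖G p‖ * ‖β p‖ ≤ 1 * 6 := by gcongr
      _ = 6 := one_mul _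
  -- v = 0
  have t0 : ‖El (sqf G) β p 0 0‖ ^ 2 ≤ 1 + 2 * (G p * β p).re / p + 36 / (p : ℝ) ^ 2 := by
    rw [El_0 G β hp, pow_zero, h1, zero_add, pow_one]
    obtain ⟨w, hw⟩ : ∃ w : ℂ, w = G p * β p := ⟨_, rfl⟩
    rw [← hw] at hGb ⊢
    have h3 : ‖1 + w / p‖ ^ 2 = 1 + 2 * w.re / p + ‖w‖ ^ 2 / (p : ℝ) ^ 2 := by
      have e : (1 + w / p : ℂ) = ⟨1 + w.re / p, w.im / p⟩ := by
        have e5 : (w / (p : ℂ)) = ⟨w.re / p, w.im / p⟩ := by
          apply Complex.ext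
          · rw [show ((p : ℂ)) = ((p : ℝ) : ℂ) by simp, Complex.div_ofReal_re]
          · rw [show ((p : ℂ)) = ((p : ℝ) : ℂ) by simp, Complex.div_ofReal_im]
        rw [e5]
        apply Complex.ext <;> simp
      rw [e, ← Complex.normSq_eq_norm_sq, Complex.normSq_mk, ← Complex.normSq_eq_norm_sq w, Complex.normSq_apply]
      field_simp
      ring
    rw [h3]
    have h4 : ‖w‖ ^ 2 ≤ 36 := by
      have := norm_nonneg w
      nlinarith
    gcongr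
  -- v = 1
  have t1 : r * ‖El (sqf G) β p 0 1‖ ^ 2 ≤ r * ‖β p‖ ^ 2 + 220 / (p : ℝ) ^ 2 := by
    rw [El_0 G β hp, pow_one]
    have h3 : ‖β p + G p * β (p ^ (1 + 1)) / p‖ ≤ ‖β p‖ + 18 / p := by
      refine (norm_add_le _ _).trans ?_
      rw [norm_div, norm_mul, Complex.norm_natCast]
      have h5 : ‖G p‖ * ‖β (p ^ (1 + 1))‖ ≤ 18 := by
        calc ‖G p‖ * ‖β (p ^ (1 + 1))‖ ≤ 1 * 18 := by
              gcongr
          _ = 18 := one_mul _
      gcongr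
    have h4 : ‖β p + G p * β (p ^ (1 + 1)) / p‖ ^ 2 ≤ ‖β p‖ ^ 2 + 220 / p := by
      have h6 : (‖β p‖ + 18 / p) ^ 2 ≤ ‖β p‖ ^ 2 + 220 / p := by
        have h7 : (18 / (p : ℝ)) ^ 2 ≤ 4 / p := by
          rw [div_pow, div_le_div_iff₀ (by positivity) hp0]
          nlinarith
        have h8 : 2 * ‖β p‖ * (18 / p) ≤ 216 / p := by
          have e : 2 * ‖β p‖ * (18 / p) = 36 * ‖β p‖ / p := by ring
          rw [e]
          apply div_le_div_of_nonneg_right _ hp0.le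
          linarith
        have h9 : 216 / (p : ℝ) + 4 / p = 220 / p := by ring
        nlinarith
      exact (pow_le_pow_left₀ (norm_nonneg _) h3 2).trans h6
    calc r * ‖β p + G p * β (p ^ (1 + 1)) / p‖ ^ 2 ≤ r * (‖β p‖ ^ 2 + 220 / p) := by gcongr
      _ = r * ‖β p‖ ^ 2 + r * (220 / p) := by ring
      _ ≤ r * ‖β p‖ ^ 2 + 1 / p * (220 / p) := by gcongr
      _ = _ := by ring
  -- v ≥ 2
  have t2 : ∑ v ∈ Icc 2 X, r ^ v * ‖El (sqf G) β p 0 v‖ ^ 2 ≤ 802 / (p : ℝ) ^ 2 := by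
    have h3 : ∀ v ∈ Icc 2 X, r ^ v * ‖El (sqf G) β p 0 v‖ ^ 2 ≤ 729 / (p : ℝ) ^ 2 * (9 / 100) ^ (v - 2) := by
      intro v hv
      rw [mem_Icc] at hv
      have h4 : ‖El (sqf G) β p 0 v‖ ≤ 3 * 3 ^ v := by
        rw [El_0 G β hp]
        refine (norm_add_le _ _).trans ?_
        rw [norm_div, norm_mul, Complex.norm_natCast]
        have h5 := hβ v (by omega)
        have h6 := hβ (v + 1) (by omega)
        have h7 : ‖G p‖ * ‖β (p ^ (v + 1))‖ / p ≤ 1 * (2 * 3 ^ (v + 1)) / 100 := by gcongr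
        have h8 : (0 : ℝ) < 3 ^ v := by positivity
        have h10 : (3 : ℝ) ^ (v + 1) = 3 * 3 ^ v := by rw [pow_succ]; ring
        rw [h10] at h7
        linarith
      have h9 : r ^ v ≤ (1 / (p : ℝ)) ^ v := pow_le_pow_left₀ hr0 hr v
      obtain ⟨j, rfl⟩ : ∃ j, v = j + 2 := ⟨v - 2, by omega⟩
      have s : j + 2 - 2 = j := rfl
      rw [s]
      calc r ^ (j + 2) * ‖El (sqf G) β p 0 (j + 2)‖ ^ 2 ≤ (1 / (p : ℝ)) ^ (j + 2) * (3 * 3 ^ (j + 2)) ^ 2 := by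
            gcongr
        _ = 729 / (p : ℝ) ^ 2 * (9 / p) ^ j := by
            rw [div_pow, div_pow, one_pow, pow_add (p : ℝ), mul_pow, ← pow_mul, mul_comm (j + 2) 2, pow_mul]
            norm_num
            rw [pow_add (9 : ℝ)]
            field_simp
            ring
        _ ≤ _ := by gcongr
    refine (sum_le_sum h3).trans ?_
    rw [← mul_sum]
    have h4 := geo (y := 9 / 100) (by norm_num) (by norm_num) X
    have h5 : (1 : ℝ) / (1 - 9 / 100) ≤ 11 / 10 := by norm_num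
    calc 729 / (p : ℝ) ^ 2 * ∑ i ∈ Icc 2 X, (9 / 100 : ℝ) ^ (i - 2) ≤ 729 / (p : ℝ) ^ 2 * (11 / 10) := by
          gcongr
          exact h4.trans h5
      _ ≤ _ := by
          rw [div_mul_eq_mul_div]
          gcongr
          norm_num
  have e9 : 36 / (p : ℝ) ^ 2 + 220 / (p : ℝ) ^ 2 + 802 / (p : ℝ) ^ 2 ≤ 1200 / (p : ℝ) ^ 2 := by
    rw [← add_div, ← add_div]
    gcongr
    norm_num
  linarith

/-- the sum over the exponents, small primes -/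
theorem loc_small {G : ℕ → ℂ} {β : ℕ → ℂ} {p X : ℕ} {r th D : ℝ} (hp : p.Prime) (hr0 : 0 ≤ r)
    (hr : r ≤ 1 / p) (hth1 : th < 1 / 2) (hG : G p = 0)
    (hβ : ∀ v : ℕ, ‖β (p ^ v)‖ ≤ D * ((p : ℝ) ^ th) ^ v) :
    ∑ k ∈ RR X, r ^ (k.1 + k.2) * ‖El (sqf G) β p k.2 k.1‖ ^ 2 ≤ D ^ 2 * kt th := by
  have hp1 : (1 : ℝ) ≤ p := by exact_mod_cast hp.one_le
  have hp0 : (0 : ℝ) < p := by linarith
  rw [sum_RR]
  simp only [add_zero, zero_add]
  have e2 : ∑ u ∈ Icc 1 X, r ^ u * ‖El (sqf G) β p u 0‖ ^ 2 = 0 := by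
    refine sum_eq_zero fun u hu => ?_
    rw [mem_Icc] at hu
    rcases Nat.lt_or_ge u 2 with h | h
    · have : u = 1 := by omega
      rw [this, El_1 G β hp, hG]
      simp
    · rw [El_2 G β hp h, norm_zero]
      ring
  rw [e2, add_zero]
  obtain ⟨y, hyd⟩ : ∃ y : ℝ, y = (p : ℝ) ^ (-(1 - 2 * th)) := ⟨_, rfl⟩
  have hy0 : 0 < y := by rw [hyd]; positivity
  have hy2 : y ≤ (2 : ℝ) ^ (-(1 - 2 * th)) := by
    rw [hyd]
    apply Real.rpow_le_rpow_of_nonpos (by norm_num) (by exact_mod_cast hp.two_le) (by linarith)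
  have hy1 : y < 1 := lt_of_le_of_lt hy2 (kt_aux hth1)
  have hx2 : ((p : ℝ) ^ th) ^ 2 * (1 / p) = y := by
    rw [hyd, show (1 : ℝ) / p = (p : ℝ) ^ (-1 : ℝ) by rw [Real.rpow_neg_one, one_div], ← Real.rpow_natCast,
      ← Real.rpow_mul hp0.le, ← Real.rpow_add hp0]
    congr 1
    push_cast
    ring
  have h3 : ∀ v ∈ range (X + 1), r ^ v * ‖El (sqf G) β p 0 v‖ ^ 2 ≤ D ^ 2 * y ^ v := by
    intro v _
    rw [El_0 G β hp, hG, zero_mul, zero_div, add_zero]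
    calc r ^ v * ‖β (p ^ v)‖ ^ 2 ≤ (1 / (p : ℝ)) ^ v * (D * ((p : ℝ) ^ th) ^ v) ^ 2 := by
          gcongr
          exact hβ v
      _ = D ^ 2 * (((p : ℝ) ^ th) ^ 2 * (1 / p)) ^ v := by
          rw [mul_pow (((p : ℝ) ^ th) ^ 2), mul_pow D, ← pow_mul, ← pow_mul, mul_comm v 2]
          ring
      _ = _ := by rw [hx2]
  refine (sum_le_sum h3).trans ?_
  rw [← mul_sum]
  apply mul_le_mul_of_nonneg_left _ (sq_nonneg _)
  have h4 : ∑ i ∈ range (X + 1), y ^ i ≤ 1 / (1 - y) := by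
    rw [geom_sum_eq hy1.ne, ← neg_div_neg_eq]
    apply div_le_div_of_nonneg_right _ (by linarith) |>.trans (le_of_eq _)
    · exact 1
    · have : 0 ≤ y ^ (X + 1) := by positivity
      linarith
    · congr 1
      ring
  refine h4.trans ?_
  unfold kt
  have := kt_aux hth1
  apply one_div_le_one_div_of_le (by linarith) (by linarith)

end Pool.Agent.K9h29.SP
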