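import Pool.Agent.K9h29.SP.LocB

set_option autoImplicit false

/-!
# The local factors of the mollified diagonal
-/

namespace Pool.Agent.K9h29.SP

open Complex Finset Pool.Agent.Y771.GL
open scoped ComplexConjugate
open Pool.Agent.W368.SD (ss ss_re)
open Pool.Agent.Y671.GL (cn)

/-- the coefficients of the conjugate mollifier -/
noncomputable def al (lam : ℕ → ℂ) (P0 y q : ℕ) (L τ : ℝ) : ℕ → ℂ := sqf (tw (g2 lam P0 y q) (ss L τ))

/-- the coefficients of `L` times the mollifier -/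
noncomputable def be (lam : ℕ → ℂ) (P0 y q : ℕ) (L τ : ℝ) : ℕ → ℂ := cn lam (sqf (tw (g1 lam P0 y q) (ss L τ)))

theorem m1 {x : ℝ} (hx : 0 ≤ x) : min 2 x ^ 2 ≤ 4 * min 1 x := by
  rcases le_total x 1 with h | h
  · rw [min_eq_right h, min_eq_right (by linarith)]
    nlinarith
  · rw [min_eq_left h]
    have h1 : min 2 x ≤ 2 := min_le_left _ _
    have h2 : 0 ≤ min 2 x := by positivity
    nlinarith

theorem m2 {x : ℝ} (hx : 0 ≤ x) (hx2 : x ≤ 2) : Real.exp x - 1 ≤ 8 * min 1 x := by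
  have h1 : Real.exp x - 1 ≤ x * Real.exp x := by
    have := Real.add_one_le_exp (-x)
    have h3 : Real.exp (-x) * Real.exp x = 1 := by rw [← Real.exp_add]; simp
    have h4 := Real.exp_pos x
    nlinarith
  have h2 : Real.exp x ≤ 8 := by
    have h3 : Real.exp x ≤ Real.exp 2 := Real.exp_le_exp.2 hx2
    have h4 : Real.exp 2 = Real.exp 1 ^ 2 := by rw [← Real.exp_nat_mul]; norm_num
    have h5 := Real.exp_one_lt_d9
    have h6 := Real.exp_pos 1
    nlinarith
  rcases le_total x 1 with h | h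
  · rw [min_eq_right h]
    nlinarith
  · rw [min_eq_left h]
    linarith

variable {lam : ℕ → ℂ} {P0 : ℕ} {th Cd : ℝ}

theorem be_big (h : HD lam P0 th Cd) {y q : ℕ} {L τ : ℝ} (hL : 0 < L) {p : ℕ} (hp : p.Prime) (hP : P0 < p)
    (v : ℕ) (hv : 1 ≤ v) : ‖be lam P0 y q L τ (p ^ v)‖ ≤ 2 * 3 ^ v := by
  obtain ⟨j, rfl⟩ : ∃ j, v = j + 1 := ⟨v - 1, by omega⟩
  unfold be
  rw [cn_pow _ hp]
  refine (norm_add_le _ _).trans ?_
  rw [norm_mul]
  have h1 := h.three p (j + 1) hp hP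
  have h2 := h.three p j hp hP
  have h3 : ‖tw (g1 lam P0 y q) (ss L τ) p‖ ≤ 2 := (norm_tw hL hp).trans ((norm_g1 p y q).trans (h.two p hp hP))
  have h4 : ‖tw (g1 lam P0 y q) (ss L τ) p‖ * ‖lam (p ^ j)‖ ≤ 2 * 3 ^ j := by gcongr
  have h5 : (3 : ℝ) ^ (j + 1) = 3 * 3 ^ j := by rw [pow_succ]; ring
  rw [h5] at h1 ⊢
  have h8 : (0 : ℝ) < 3 ^ j := by positivity
  linarith

theorem lam_pow (h : HD lam P0 th Cd) {p : ℕ} (hp : p.Prime) (v : ℕ) :
    ‖lam (p ^ v)‖ ≤ Cd * ((p : ℝ) ^ th) ^ v := by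
  have h1 := h.bd (p ^ v) (Nat.one_le_pow _ _ hp.pos)
  refine h1.trans (le_of_eq ?_)
  push_cast
  rw [← Real.rpow_natCast, ← Real.rpow_natCast, ← Real.rpow_mul (Nat.cast_nonneg _),
    ← Real.rpow_mul (Nat.cast_nonneg _), mul_comm (v : ℝ) th]

theorem be_small (h : HD lam P0 th Cd) {y q : ℕ} {L τ : ℝ} (hL : 0 < L) {p : ℕ} (hp : p.Prime)
    (v : ℕ) : ‖be lam P0 y q L τ (p ^ v)‖ ≤ (2 * Cd ^ 2) * ((p : ℝ) ^ th) ^ v := by
  have hC := h.C1
  have hx : 1 ≤ (p : ℝ) ^ th := Real.one_le_rpow (by exact_mod_cast hp.one_le) h.th0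
  rcases v with _ | j
  · rw [pow_zero, pow_zero, mul_one]
    have := (mu_cn h (tw (g1 lam P0 y q) (ss L τ))).one
    unfold be
    rw [this, norm_one]
    nlinarith
  · unfold be
    rw [cn_pow _ hp]
    refine (norm_add_le _ _).trans ?_
    rw [norm_mul]
    have h1 := lam_pow h hp (j + 1)
    have h2 := lam_pow h hp j
    have h3 : ‖tw (g1 lam P0 y q) (ss L τ) p‖ ≤ Cd * (p : ℝ) ^ th := by
      refine (norm_tw hL hp).trans ((norm_g1 p y q).trans ?_)
      have := lam_pow h hp 1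
      rwa [pow_one, pow_one] at this
    have h4 : ‖tw (g1 lam P0 y q) (ss L τ) p‖ * ‖lam (p ^ j)‖ ≤ (Cd * (p : ℝ) ^ th) * (Cd * ((p : ℝ) ^ th) ^ j) := by
      gcongr
    have h5 : 0 ≤ ((p : ℝ) ^ th) ^ (j + 1) := by positivity
    have h6 : (Cd * (p : ℝ) ^ th) * (Cd * ((p : ℝ) ^ th) ^ j) = Cd ^ 2 * ((p : ℝ) ^ th) ^ (j + 1) := by
      rw [pow_succ]; ring
    rw [h6] at h4
    have h7 : Cd * ((p : ℝ) ^ th) ^ (j + 1) ≤ Cd ^ 2 * ((p : ℝ) ^ th) ^ (j + 1) := by
      apply mul_le_mul_of_nonneg_right _ h5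
      nlinarith
    linarith

/-- the main term of the local factor -/
theorem loc_main (h : HD lam P0 th Cd) {y q : ℕ} {L τ1 τ2 : ℝ} (hL : 1 ≤ L) (hy : Real.log y ≤ 2 * L)
    {p : ℕ} (hp : p.Prime) (hP : P0 < p) :
    2 * (tw (g2 lam P0 y q) (ss L τ2) p * be lam P0 y q L τ1 p).re / p +
      (p : ℝ) ^ (-(1 + 1 / L)) * (‖be lam P0 y q L τ1 p‖ ^ 2 + ‖tw (g2 lam P0 y q) (ss L τ2) p‖ ^ 2) ≤
      64 * min 1 ((1 + |τ1|) * (1 + |τ2|) * Real.log p / L) * (p : ℝ) ^ (-(1 + 1 / L)) +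
        (if y < p then 4 * (p : ℝ) ^ (-(1 + 1 / L)) else 0) := by
  have hL0 : 0 < L := by linarith
  have hp0 : (0 : ℝ) < p := by exact_mod_cast hp.pos
  have hlp : 0 ≤ Real.log p := Real.log_natCast_nonneg p
  have ht1 : 0 ≤ |τ1| := abs_nonneg _
  have ht2 : 0 ≤ |τ2| := abs_nonneg _
  obtain ⟨r, hr⟩ : ∃ r : ℝ, r = (p : ℝ) ^ (-(1 + 1 / L)) := ⟨_, rfl⟩
  have hr0 : 0 < r := by rw [hr]; positivity
  obtain ⟨x, hx⟩ : ∃ x : ℝ, x = (1 + |τ1|) * (1 + |τ2|) * Real.log p / L := ⟨_, rfl⟩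
  have hx0 : 0 ≤ x := by rw [hx]; positivity
  have hmin0 : 0 ≤ min 1 x := by positivity
  rw [← hr, ← hx]
  have hx1 : (1 + |τ1|) / L * Real.log p ≤ x := by
    rw [hx]
    have : (1 + |τ1|) / L * Real.log p = (1 + |τ1|) * 1 * Real.log p / L := by ring
    rw [this]
    gcongr
    linarith
  have hx2 : (1 + |τ2|) / L * Real.log p ≤ x := by
    rw [hx]
    have : (1 + |τ2|) / L * Real.log p = 1 * (1 + |τ2|) * Real.log p / L := by ring
    rw [this]
    gcongr
    linarith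
  have hbe : be lam P0 y q L τ1 p = lam p + tw (g1 lam P0 y q) (ss L τ1) p := by
    have := cn_pow (lam := lam) (tw (g1 lam P0 y q) (ss L τ1)) hp 0
    simp only [zero_add, pow_one, pow_zero] at this
    unfold be
    rw [this, h.one, mul_one]
  have hl2 := h.two p hp hP
  obtain ⟨s1, hs1⟩ : ∃ s1 : ℂ, s1 = (p : ℂ) ^ (-ss L τ1) := ⟨_, rfl⟩
  obtain ⟨s2, hs2⟩ : ∃ s2 : ℂ, s2 = (p : ℂ) ^ (-ss L τ2) := ⟨_, rfl⟩
  have n1 : ‖s1‖ ≤ 1 := by rw [hs1]; exact norm_pss hL0 hp
  have n2 : ‖s2‖ ≤ 1 := by rw [hs2]; exact norm_pss hL0 hp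
  have d1 : ‖1 - s1‖ ≤ min 2 x := by
    rw [hs1]
    exact (one_sub_pss hL0 hp).trans (min_le_min le_rfl hx1)
  have d2 : ‖1 - s2‖ ≤ min 2 x := by
    rw [hs2]
    exact (one_sub_pss hL0 hp).trans (min_le_min le_rfl hx2)
  have hmm := m1 hx0
  by_cases hq : p ∣ q
  · have e2 : tw (g2 lam P0 y q) (ss L τ2) p = 0 := by
      unfold tw g2
      rw [if_neg (fun h => h.2.2 hq), zero_mul]
    have e1 : tw (g1 lam P0 y q) (ss L τ1) p = -(lam p) * s1 := by
      unfold tw g1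
      rw [if_pos hq, hs1]
    rw [e2, zero_mul, hbe, e1]
    have e3 : lam p + -(lam p) * s1 = lam p * (1 - s1) := by ring
    rw [e3, norm_mul]
    have h1 : (‖lam p‖ * ‖1 - s1‖) ^ 2 ≤ 16 * min 1 x := by
      calc (‖lam p‖ * ‖1 - s1‖) ^ 2 ≤ (2 * min 2 x) ^ 2 := by gcongr
        _ = 4 * min 2 x ^ 2 := by ring
        _ ≤ 4 * (4 * min 1 x) := by gcongr
        _ = _ := by ring
    have h2 : 0 ≤ (if y < p then 4 * r else 0) := by split_ifs <;> positivity
    have e9 : 2 * (0 : ℂ).re / (p : ℝ) = 0 := by simp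
    rw [e9, norm_zero]
    have h3 := mul_le_mul_of_nonneg_left h1 hr0.le
    have h4 := mul_nonneg hmin0 hr0.le
    linarith
  · by_cases hyp : p ≤ y
    · have e2 : tw (g2 lam P0 y q) (ss L τ2) p = -(lam p) / 2 * s2 := by
        unfold tw g2
        rw [if_pos ⟨hP, hyp, hq⟩, hs2]
      have e1 : tw (g1 lam P0 y q) (ss L τ1) p = -(lam p) / 2 * s1 := by
        unfold tw g1 g2
        rw [if_neg hq, if_pos ⟨hP, hyp, hq⟩, hs1]
      rw [e2, hbe, e1]
      obtain ⟨G, hG⟩ : ∃ G : ℂ, G = -(lam p) / 2 * s2 := ⟨_, rfl⟩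
      obtain ⟨b, hb⟩ : ∃ b : ℂ, b = lam p + -(lam p) / 2 * s1 := ⟨_, rfl⟩
      rw [← hG, ← hb]
      have hGn : ‖G‖ ≤ 1 := by
        rw [hG, norm_mul, norm_div, norm_neg]
        have : ‖(2 : ℂ)‖ = 2 := by simp
        rw [this]
        calc ‖lam p‖ / 2 * ‖s2‖ ≤ 2 / 2 * 1 := by gcongr
          _ = 1 := by norm_num
      have hbn : ‖b‖ ≤ 3 := by
        rw [hb]
        refine (norm_add_le _ _).trans ?_
        rw [norm_mul, norm_div, norm_neg]
        have : ‖(2 : ℂ)‖ = 2 := by simp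
        rw [this]
        have : ‖lam p‖ / 2 * ‖s1‖ ≤ 2 / 2 * 1 := by gcongr
        linarith
      have hsum : ‖G + conj b‖ ^ 2 ≤ 16 * min 1 x := by
        have e5 : G + conj b = lam p * ((1 - s2) / 2 + conj (1 - s1) / 2) := by
          rw [hG, hb]
          simp only [map_add, map_mul, map_div₀, map_neg, map_sub, map_one, h.real]
          rw [Complex.conj_ofNat]
          ring
        have h2 : ‖(1 - s2) / 2 + conj (1 - s1) / 2‖ ≤ min 2 x := by
          refine (norm_add_le _ _).trans ?_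
          rw [norm_div, norm_div, RCLike.norm_conj]
          have : ‖(2 : ℂ)‖ = 2 := by simp
          rw [this]
          linarith
        rw [e5, norm_mul]
        calc (‖lam p‖ * ‖(1 - s2) / 2 + conj (1 - s1) / 2‖) ^ 2 ≤ (2 * min 2 x) ^ 2 := by gcongr
          _ = 4 * min 2 x ^ 2 := by ring
          _ ≤ 4 * (4 * min 1 x) := by gcongr
          _ = _ := by ring
      have hid : ‖G + conj b‖ ^ 2 = ‖G‖ ^ 2 + ‖b‖ ^ 2 + 2 * (G * b).re := by
        rw [← Complex.normSq_eq_norm_sq, Complex.normSq_add, Complex.normSq_eq_norm_sq, Complex.normSq_conj,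
          Complex.normSq_eq_norm_sq, Complex.conj_conj]
      have hre : (G * b).re ≤ 3 := by
        refine (Complex.re_le_norm _).trans ?_
        rw [norm_mul]
        calc ‖G‖ * ‖b‖ ≤ 1 * 3 := by gcongr
          _ = 3 := one_mul _
      -- the difference
      have hdiff : 1 / (p : ℝ) - r ≤ 8 * min 1 x * r ∧ 0 ≤ 1 / (p : ℝ) - r := by
        have hlog : Real.log p ≤ 2 * L := by
          refine le_trans ?_ hy
          apply Real.log_le_log hp0
          exact_mod_cast hyp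
        have e6 : 1 / (p : ℝ) = r * Real.exp (Real.log p / L) := by
          rw [hr, Real.rpow_def_of_pos hp0, ← Real.exp_add]
          have : Real.log p * -(1 + 1 / L) + Real.log p / L = -Real.log p := by ring
          rw [this, Real.exp_neg, Real.exp_log hp0, one_div]
        have h3 := m2 (x := Real.log p / L) (by positivity) (by rw [div_le_iff₀ hL0]; linarith)
        have h4 : min 1 (Real.log p / L) ≤ min 1 x := by
          apply min_le_min le_rfl
          refine le_trans ?_ hx1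
          have : Real.log p / L = 1 / L * Real.log p := by ring
          rw [this]
          gcongr
          linarith
        have h5 : 1 ≤ Real.exp (Real.log p / L) := Real.one_le_exp (by positivity)
        rw [e6]
        constructor
        · nlinarith
        · nlinarith
      have h2 : 0 ≤ (if y < p then 4 * r else 0) := by split_ifs <;> positivity
      have e7 : 2 * (G * b).re / p + r * (‖b‖ ^ 2 + ‖G‖ ^ 2) =
          r * ‖G + conj b‖ ^ 2 + 2 * (G * b).re * (1 / p - r) := by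
        rw [hid]
        ring
      rw [e7]
      have h8 : 2 * (G * b).re * (1 / p - r) ≤ 6 * (8 * min 1 x * r) := by
        calc 2 * (G * b).re * (1 / p - r) ≤ 6 * (1 / p - r) := by
              apply mul_le_mul_of_nonneg_right _ hdiff.2
              linarith
          _ ≤ _ := by linarith [hdiff.1]
      have h9 := mul_le_mul_of_nonneg_left hsum hr0.le
      nlinarith [mul_nonneg hmin0 hr0.le]
    · have e2 : tw (g2 lam P0 y q) (ss L τ2) p = 0 := by
        unfold tw g2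
        rw [if_neg (fun h => hyp h.2.1), zero_mul]
      have e1 : tw (g1 lam P0 y q) (ss L τ1) p = 0 := by
        unfold tw g1 g2
        rw [if_neg hq, if_neg (fun h => hyp h.2.1), zero_mul]
      rw [e2, zero_mul, hbe, e1, add_zero, if_pos (by omega)]
      have e9 : 2 * (0 : ℂ).re / (p : ℝ) = 0 := by simp
      rw [e9, norm_zero]
      have h5 : ‖lam p‖ ^ 2 ≤ 4 := by nlinarith [norm_nonneg (lam p)]
      have h3 := mul_le_mul_of_nonneg_left h5 hr0.le
      have h4 := mul_nonneg hmin0 hr0.le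
      linarith

end Pool.Agent.K9h29.SP
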