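import Pool.Agent.K9h29.SP.Mass

set_option autoImplicit false

/-!
# The weighted integral over the ray: the theorem
-/

namespace Pool.Agent.K9h29.SP

open Complex Finset MeasureTheory
open scoped ComplexConjugate
open Pool.Agent.Y671.GL Pool.Agent.Y412.GLB Pool.Agent.Y412.GLP
open Pool.Agent.K9h29.ZD (S_SCU tl TwF)
open Pool.Agent.H24R2.DZ (ray)

variable {k N : ℕ} {ps lam : ℕ → ℂ} {P0 : ℕ} {th Cd : ℝ}

theorem PP_diff (hF : Frm k N ps lam) (y : ℕ) (b : ℕ → ℂ) {z : ℂ} (hz : 0 < z.re) :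
    DifferentiableAt ℂ (PP k y lam b) z := by
  unfold PP
  refine DifferentiableAt.fun_sum fun h hh => ?_
  have h0 : (0 : ℝ) < h := by exact_mod_cast (mem_Icc.1 hh).1
  have h1 : 0 < ((h : ℂ) * z).re := by
    rw [← Complex.ofReal_natCast, Complex.re_ofReal_mul]
    positivity
  refine DifferentiableAt.const_mul ?_ _
  exact DifferentiableAt.fun_comp' (g := Ph k lam) z (diff_Ph hF h1) (differentiableAt_id.const_mul _)

theorem Ps_diff (hF : Frm k N ps lam) (y : ℕ) (b : ℕ → ℂ) {z : ℂ} (hz : 0 < z.re) :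
    DifferentiableAt ℂ (Ps k y lam b) z := by
  unfold Ps
  refine DifferentiableAt.fun_sum fun ν hν => ?_
  have hν0 : (0 : ℝ) < ν := by exact_mod_cast (mem_Icc.1 hν).1
  have h1 : 0 < (z / ν).re := by
    rw [show z / (ν : ℂ) = z / ((ν : ℝ) : ℂ) by push_cast; rfl, Complex.div_ofReal_re]
    positivity
  refine DifferentiableAt.const_mul ?_ _
  exact DifferentiableAt.fun_comp' (g := PP k y lam b) z (PP_diff hF y b h1) (differentiableAt_id.div_const _)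

theorem ray_pos {T x : ℝ} (hT : 10 ≤ T) (hx : 0 < x) : 0 < (ray (1 / T) x).re := by
  rw [ray_re]
  apply mul_pos hx
  apply Real.sin_pos_of_pos_of_lt_pi (by positivity)
  have : 1 / T ≤ 1 / 10 := one_div_le_one_div_of_le (by norm_num) hT
  linarith [Real.pi_gt_three]

theorem ray_cont (δ : ℝ) : Continuous (ray δ) := by unfold ray; fun_prop

/-- the logarithm of the conductor -/
noncomputable def LL (q : ℕ) (T : ℝ) : ℝ := Real.log (q * T)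

/-- the centre of the functional equation -/
noncomputable def xc (N q : ℕ) : ℝ := 2 * Real.pi / (q * Real.sqrt N)

/-- the coefficients of the mollifier -/
noncomputable def bb (lam : ℕ → ℂ) (P0 : ℕ) (θ : ℝ) (q : ℕ) (T : ℝ) : ℕ → ℂ :=
  bm (g2 lam P0 (yT θ (q * T)) q) θ (LL q T)

theorem block_char (hF : TwF k N ps lam) {q : ℕ} [NeZero q] (hco : q.Coprime N)
    (S : Finset (DirichletCharacter ℂ q)) (hS : ∀ χ ∈ S, χ.IsPrimitive) {y : ℕ} {b1 b2 : ℕ → ℂ}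
    (hb : ∀ h, y < h → b1 h = 0) (hr : ∀ ν, conj (b2 ν) = b2 ν) (hu : ∀ ν, ¬ ν.Coprime q → b2 ν = 0)
    (h12 : ∀ χ : DirichletCharacter ℂ q, tl χ b1 = tl χ b2) {T X : ℝ} (hT : 10 ≤ T) (hX : 0 < X) :
    ∫ x in X..(2 * X), (∑ χ ∈ S, ‖Ps k y (tl χ lam) (tl χ b2) (ray (1 / T) x)‖ ^ 2) * x ^ ((k : ℝ) - 1) ≤
      (2 * X) ^ ((k : ℝ) - 1) * ((q.totient : ℝ) / q) *
      ∑ j ∈ (univ : Finset (ZMod q)).filter (fun z => IsUnit z),
        ∫ x in X..(2 * X), ‖Th (sc k y lam b1) (Bw k b2) y j (ray (1 / T) x)‖ ^ 2 := by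
  have hk : (1 : ℝ) ≤ k := by exact_mod_cast hF.frm.k_pos
  have hle : X ≤ 2 * X := by linarith
  have hpg := pg_sc hF.frm y b1
  have hc1 : ∀ j : ZMod q, ContinuousOn (fun x : ℝ => ‖Th (sc k y lam b1) (Bw k b2) y j (ray (1 / T) x)‖ ^ 2)
      (Set.uIcc X (2 * X)) := by
    intro j x hx
    rw [Set.uIcc_of_le hle] at hx
    have hx0 : 0 < x := lt_of_lt_of_le hX hx.1
    exact (((Th_diff hpg (Bw k b2) y j (ray_pos hT hx0)).continuousAt.comp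
      (ray_cont _).continuousAt).norm.pow 2).continuousWithinAt
  have hc2 : ContinuousOn (fun x : ℝ => (∑ χ ∈ S, ‖Ps k y (tl χ lam) (tl χ b2) (ray (1 / T) x)‖ ^ 2) *
      x ^ ((k : ℝ) - 1)) (Set.uIcc X (2 * X)) := by
    refine ContinuousOn.mul (continuousOn_finsetSum _ fun χ hχ => ?_) ?_
    · intro x hx
      rw [Set.uIcc_of_le hle] at hx
      have hx0 : 0 < x := lt_of_lt_of_le hX hx.1
      exact (((Ps_diff (hF.tw q χ (hS χ hχ) hco) y _ (ray_pos hT hx0)).continuousAt.comp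
        (ray_cont _).continuousAt).norm.pow 2).continuousWithinAt
    · intro x hx
      rw [Set.uIcc_of_le hle] at hx
      have hx0 : 0 < x := lt_of_lt_of_le hX hx.1
      exact (Real.continuousAt_rpow_const x _ (Or.inl hx0.ne')).continuousWithinAt
  rw [← intervalIntegral.integral_finsetSum (fun j _ => (hc1 j).intervalIntegrable),
    ← intervalIntegral.integral_const_mul]
  apply intervalIntegral.integral_mono_on hle hc2.intervalIntegrable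
  · exact (continuousOn_const.mul (continuousOn_finsetSum _ fun j _ => hc1 j)).intervalIntegrable
  · intro x hx
    have hx0 : 0 < x := lt_of_lt_of_le hX hx.1
    have h1 := ps_bessel hF hco S hS hb hr hu h12 (ray_pos hT hx0)
    have h2 : x ^ ((k : ℝ) - 1) ≤ (2 * X) ^ ((k : ℝ) - 1) := Real.rpow_le_rpow hx0.le hx.2 (by linarith)
    calc _ ≤ ((q.totient : ℝ) / q * ∑ j ∈ (univ : Finset (ZMod q)).filter (fun z => IsUnit z),
          ‖Th (sc k y lam b1) (Bw k b2) y j (ray (1 / T) x)‖ ^ 2) * (2 * X) ^ ((k : ℝ) - 1) := by gcongr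
      _ = _ := by ring

theorem err_real {q T N c A y θ M S1 S2 Cd τ F C2 w0 x1 k : ℝ} (hq : 1 ≤ q) (hT : 10 ≤ T) (hN : 1 ≤ N) (hc : 0 < c)
    (hc2 : c ≤ 1 / 2) (hA : 1 ≤ A) (hM : M = q * T) (hy : 1 ≤ y) (hy2 : y ≤ 2 * M ^ θ) (hθ : θ * (A + 8) ≤ c / 4)
    (hCd : 1 ≤ Cd) (hS10 : 0 ≤ S1) (hS20 : 0 ≤ S2) (hS1 : S1 ≤ Cd * y ^ 2) (hS2 : S2 ≤ Cd * y ^ 2) (hτ0 : 0 ≤ τ)
    (hτ : τ * q ≤ C2 * q ^ (c / 4) * F) (hF : 0 ≤ F) (hC2 : 0 ≤ C2) (hw : 0 ≤ w0)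
    (hx : x1 = 2 * Real.pi / (q * Real.sqrt N)) :
    (y ^ A * τ * S1 ^ 2 * S2 ^ 2 * T ^ (k - c)) * (w0 * (4 * x1 ^ (c - 1))) ≤
      F * (T ^ k * ((4 * N * Cd ^ 4 * 2 ^ (A + 8) * C2) * (w0 * M ^ (-(c / 2))))) := by
  have hq0 : 0 < q := by linarith
  have hT0 : 0 < T := by linarith
  have hM1 : 1 ≤ M := by rw [hM]; nlinarith
  have hM0 : 0 < M := by linarith
  have hy0 : 0 < y := by linarith
  have hx10 : 0 < x1 := by rw [hx]; positivity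
  have hx1 : x1 ^ (c - 1) ≤ N * q ^ (1 - c) := by
    have h1 : 1 / (q * N) ≤ x1 := by
      rw [hx]
      have h2 : Real.sqrt N ≤ N := Real.sqrt_le_self_iff.2 (Or.inr hN)
      have h3 : 0 < Real.sqrt N := by positivity
      rw [div_le_div_iff₀ (by positivity) (by positivity)]
      have h4 : q * Real.sqrt N ≤ q * N := by gcongr
      have h5 : 0 ≤ q * N := by positivity
      nlinarith [Real.pi_gt_three]
    have h2 : x1 ^ (c - 1) ≤ (1 / (q * N)) ^ (c - 1) :=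
      Real.rpow_le_rpow_of_nonpos (by positivity) h1 (by linarith)
    have h3 : (1 / (q * N)) ^ (c - 1) = q ^ (1 - c) * N ^ (1 - c) := by
      rw [one_div, Real.inv_rpow (by positivity), ← Real.rpow_neg (by positivity),
        Real.mul_rpow (by positivity) (by positivity)]
      congr 2 <;> ring
    have h4 : N ^ (1 - c) ≤ N := by
      calc N ^ (1 - c) ≤ N ^ (1 : ℝ) := Real.rpow_le_rpow_of_exponent_le hN (by linarith)
        _ = N := Real.rpow_one _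
    calc x1 ^ (c - 1) ≤ q ^ (1 - c) * N ^ (1 - c) := h2.trans h3.le
      _ ≤ q ^ (1 - c) * N := by gcongr
      _ = _ := mul_comm _ _
  have hSS : S1 ^ 2 * S2 ^ 2 ≤ Cd ^ 4 * y ^ 8 := by
    have h1 : S1 ^ 2 ≤ (Cd * y ^ 2) ^ 2 := pow_le_pow_left₀ hS10 hS1 2
    have h2 : S2 ^ 2 ≤ (Cd * y ^ 2) ^ 2 := pow_le_pow_left₀ hS20 hS2 2
    calc S1 ^ 2 * S2 ^ 2 ≤ (Cd * y ^ 2) ^ 2 * (Cd * y ^ 2) ^ 2 := by gcongr
      _ = _ := by ring
  have hyA : y ^ A * y ^ (8 : ℕ) ≤ 2 ^ (A + 8) * M ^ (c / 4) := by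
    have h1 : y ^ A * y ^ (8 : ℕ) = y ^ (A + 8) := by
      rw [Real.rpow_add hy0]
      congr 1
      exact_mod_cast (Real.rpow_natCast y 8).symm
    rw [h1]
    calc y ^ (A + 8) ≤ (2 * M ^ θ) ^ (A + 8) := Real.rpow_le_rpow hy0.le hy2 (by linarith)
      _ = 2 ^ (A + 8) * M ^ (θ * (A + 8)) := by
          rw [Real.mul_rpow (by norm_num) (by positivity), ← Real.rpow_mul hM0.le]
      _ ≤ _ := by
          apply mul_le_mul_of_nonneg_left _ (by positivity)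
          exact Real.rpow_le_rpow_of_exponent_le hM1 hθ
  have hq1 : τ * q ^ (1 - c) ≤ C2 * M ^ (c / 4) * q ^ (-c) * F := by
    have h1 : q ^ (1 - c) = q * q ^ (-c) := by
      rw [sub_eq_add_neg, Real.rpow_add hq0, Real.rpow_one]
    have h2 : q ^ (c / 4) ≤ M ^ (c / 4) := by
      apply Real.rpow_le_rpow hq0.le _ (by positivity)
      rw [hM]; nlinarith
    rw [h1]
    calc τ * (q * q ^ (-c)) = (τ * q) * q ^ (-c) := by ring
      _ ≤ (C2 * q ^ (c / 4) * F) * q ^ (-c) := by gcongr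
      _ ≤ (C2 * M ^ (c / 4) * F) * q ^ (-c) := by gcongr
      _ = _ := by ring
  have hTk : T ^ (k - c) = T ^ k * T ^ (-c) := by rw [sub_eq_add_neg, Real.rpow_add hT0]
  have hqT : q ^ (-c) * T ^ (-c) = M ^ (-c) := by rw [hM, Real.mul_rpow hq0.le hT0.le]
  have hMM : M ^ (c / 4) * M ^ (c / 4) * M ^ (-c) = M ^ (-(c / 2)) := by
    rw [← Real.rpow_add hM0, ← Real.rpow_add hM0]
    congr 1
    ring
  calc (y ^ A * τ * S1 ^ 2 * S2 ^ 2 * T ^ (k - c)) * (w0 * (4 * x1 ^ (c - 1))) =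
      y ^ A * (S1 ^ 2 * S2 ^ 2) * τ * T ^ (k - c) * (w0 * (4 * x1 ^ (c - 1))) := by ring
    _ ≤ y ^ A * (Cd ^ 4 * y ^ 8) * τ * T ^ (k - c) * (w0 * (4 * (N * q ^ (1 - c)))) := by gcongr
    _ = (y ^ A * y ^ 8) * (τ * q ^ (1 - c)) * (4 * N * Cd ^ 4 * T ^ (k - c) * w0) := by ring
    _ ≤ (2 ^ (A + 8) * M ^ (c / 4)) * (C2 * M ^ (c / 4) * q ^ (-c) * F) * (4 * N * Cd ^ 4 * T ^ (k - c) * w0) := by
        gcongr
    _ = F * (T ^ k * ((4 * N * Cd ^ 4 * 2 ^ (A + 8) * C2) * (w0 * (M ^ (c / 4) * M ^ (c / 4) *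
        (q ^ (-c) * T ^ (-c)))))) := by rw [hTk]; ring
    _ = _ := by rw [hqT, hMM]

theorem mass (h0 : S_SCU) (hF : TwF k N ps lam) (hd : HD lam P0 th Cd) :
    ∃ θ c' C : ℝ, 0 < θ ∧ θ ≤ 1 / 200 ∧ 0 < c' ∧ 0 < C ∧ ∀ (q : ℕ) [NeZero q], q.Coprime N →
    ∀ (S : Finset (DirichletCharacter ℂ q)), (∀ χ ∈ S, χ.IsPrimitive) → ∀ (T : ℝ) (I j : ℕ) (w : ℕ → ℝ),
    10 ≤ T → (∀ i, 0 ≤ w i) → Antitone w → Real.exp (1 / 2 * LL q T) * 2 ^ j ≤ T / xc N q →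
    ∑ i ∈ range I, w i * ∫ x in (2 ^ i * xc N q)..(2 * (2 ^ i * xc N q)),
      (∑ χ ∈ S, ‖Ps k (yT θ (q * T)) (tl χ lam) (tl χ (bb lam P0 θ q T)) (ray (1 / T) x)‖ ^ 2) *
        x ^ ((k : ℝ) - 1) ≤
      C * T ^ k * ((q.totient : ℝ) ^ 2 / q) * ((∑ i ∈ range (j + 1), w i) / LL q T + w j +
        w 0 * (q * T) ^ (-c')) := by
  obtain ⟨c, C1, A, hc, hc2, hC1, hA, hblk⟩ := blockU h0 hF.frm
  have hk : (1 : ℝ) ≤ k := by exact_mod_cast hF.frm.k_pos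
  have hk' : 1 ≤ k := hF.frm.k_pos
  obtain ⟨θ, hθd⟩ : ∃ θ : ℝ, θ = min (1 / 200) (c / (4 * (A + 8))) := ⟨_, rfl⟩
  have hθ : 0 < θ := by rw [hθd]; exact lt_min (by norm_num) (by positivity)
  have hθ200 : θ ≤ 1 / 200 := by rw [hθd]; exact min_le_left _ _
  have hθ1 : θ ≤ 1 := by linarith
  have hθc : θ * (A + 8) ≤ c / 4 := by
    have h1 : θ ≤ c / (4 * (A + 8)) := by rw [hθd]; exact min_le_right _ _
    have h2 : 0 < A + 8 := by linarith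
    calc θ * (A + 8) ≤ c / (4 * (A + 8)) * (A + 8) := by gcongr
      _ = c / 4 := by field_simp
  have hN1 : (1 : ℝ) ≤ N := by exact_mod_cast hF.frm.N_pos
  have hlN : 0 ≤ Real.log N := Real.log_nonneg hN1
  obtain ⟨K, hK, hdiag⟩ := mass_diag hF.frm hd hθ hθ1 (C0 := 1 + Real.log N) (by linarith)
  obtain ⟨C2, hC2, htau⟩ := tau_phi (ε := c / 4) (by positivity)
  have hCd := hd.C1
  obtain ⟨E0, hE0⟩ : ∃ E0 : ℝ, E0 = 4 * N * Cd ^ 4 * 2 ^ (A + 8) * C2 := ⟨_, rfl⟩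
  have hE00 : 0 < E0 := by rw [hE0]; positivity
  refine ⟨θ, c / 2, C1 * 2 ^ ((k : ℝ) - 1) * (K + E0), hθ, hθ200, by positivity, by positivity, ?_⟩
  intro q _ hco S hS T I j w hT hw0 hwa hj
  have hq1 : (1 : ℝ) ≤ q := by exact_mod_cast Nat.one_le_iff_ne_zero.2 (NeZero.ne q)
  have hq0 : (0 : ℝ) < q := by linarith
  have hT0 : 0 < T := by linarith
  have hT1 : 1 ≤ T := by linarith
  obtain ⟨M, hM⟩ : ∃ M : ℝ, M = q * T := ⟨_, rfl⟩
  have hM10 : 10 ≤ M := by rw [hM]; nlinarith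
  have hM0 : 0 < M := by linarith
  have hM1 : 1 ≤ M := by linarith
  obtain ⟨L, hL⟩ : ∃ L : ℝ, L = LL q T := ⟨_, rfl⟩
  have hLM : L = Real.log M := by rw [hL, hM]; rfl
  have hL1 : 1 ≤ L := by
    rw [hLM, Real.le_log_iff_exp_le hM0]
    have := Real.exp_one_lt_d9
    linarith
  have hL0 : 0 < L := by linarith
  obtain ⟨y, hy⟩ : ∃ y : ℕ, y = yT θ (q * T) := ⟨_, rfl⟩
  have hyM : y = ⌈M ^ θ⌉₊ := by rw [hy, hM]; rfl
  have hMθ : 1 ≤ M ^ θ := Real.one_le_rpow hM1 hθ.le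
  have hy1 : M ^ θ ≤ y := by rw [hyM]; exact Nat.le_ceil _
  have hy2 : (y : ℝ) ≤ 2 * M ^ θ := by
    have : (y : ℝ) < M ^ θ + 1 := by rw [hyM]; exact Nat.ceil_lt_add_one (by positivity)
    linarith
  have hy0 : (1 : ℝ) ≤ y := hMθ.trans hy1
  have hy0' : 1 ≤ y := by exact_mod_cast hy0
  have hexp : Real.exp (θ * L) = M ^ θ := by rw [hLM, Real.rpow_def_of_pos hM0, mul_comm]
  have hyθ : Real.exp (θ * L) ≤ y := by rw [hexp]; exact hy1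
  have hylog : Real.log y ≤ 2 * L := by
    have h1 : M ^ θ ≤ M := by
      calc M ^ θ ≤ M ^ (1 : ℝ) := Real.rpow_le_rpow_of_exponent_le hM1 hθ1
        _ = M := Real.rpow_one _
    have h2 : (y : ℝ) ≤ M ^ 2 := by nlinarith
    calc Real.log y ≤ Real.log (M ^ 2) := Real.log_le_log (by linarith) h2
      _ = 2 * L := by rw [Real.log_pow, hLM]; push_cast; ring
  obtain ⟨b1, hb1⟩ : ∃ b1, b1 = bm (g1 lam P0 y q) θ L := ⟨_, rfl⟩
  obtain ⟨b2, hb2⟩ : ∃ b2, b2 = bm (g2 lam P0 y q) θ L := ⟨_, rfl⟩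
  have hbb : bb lam P0 θ q T = b2 := by rw [hb2, hL, hy]; rfl
  rw [hbb, ← hy, ← hL, ← hM]
  rw [← hL] at hj
  have hb1y : ∀ h, y < h → b1 h = 0 := fun h hh => by rw [hb1]; exact bm_zero_of hθ hL0 hyθ hh
  have hb20 : b2 0 = 0 := by rw [hb2]; exact bm_zero _ _ _
  have hb2u : ∀ ν, ¬ ν.Coprime q → b2 ν = 0 := fun ν hν => by rw [hb2]; exact bm_unit _ _ hν
  have hb2r : ∀ ν, conj (b2 ν) = b2 ν := fun ν => by rw [hb2]; exact bm_real hd _ _ _ _ _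
  have h12 : ∀ χ : DirichletCharacter ℂ q, tl χ b1 = tl χ b2 := fun χ => by
    rw [hb1, hb2]; exact tl_bm χ y θ L
  obtain ⟨x1, hx1⟩ : ∃ x1 : ℝ, x1 = xc N q := ⟨_, rfl⟩
  have hsN : 1 ≤ Real.sqrt N := Real.one_le_sqrt.2 hN1
  have hx10 : 0 < x1 := by rw [hx1]; unfold xc; positivity
  rw [← hx1] at hj ⊢
  have hR2 : T / x1 ≤ Real.exp ((1 + Real.log N) * L) := by
    have h1 : Real.exp ((1 + Real.log N) * L) = M * Real.exp (Real.log N * L) := by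
      rw [add_mul, one_mul, Real.exp_add, hLM, Real.exp_log hM0]
    have h2 : (N : ℝ) ≤ Real.exp (Real.log N * L) := by
      calc (N : ℝ) = Real.exp (Real.log N) := (Real.exp_log (by linarith)).symm
        _ ≤ _ := Real.exp_le_exp.2 (by nlinarith)
    rw [h1, hx1]
    unfold xc
    have h3 : T / (2 * Real.pi / (q * Real.sqrt N)) = M * (Real.sqrt N / (2 * Real.pi)) := by
      rw [hM]; field_simp
    rw [h3]
    apply mul_le_mul_of_nonneg_left _ hM0.le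
    refine le_trans ?_ h2
    rw [div_le_iff₀ (by positivity)]
    have h4 : Real.sqrt N ≤ N := Real.sqrt_le_self_iff.2 (Or.inr hN1)
    nlinarith [Real.pi_gt_three]
  have hD := hdiag q y L (T / x1) T x1 I j w hL1 hyθ hylog hT0 hx10 rfl hj hR2 hw0 hwa
  rw [← hb1, ← hb2] at hD
  obtain ⟨D, hDd⟩ : ∃ D : ℕ → ℝ, D = fun i => TD (sc k y lam b1) (Bw k b2) y (2 ^ i * x1 / (4 * T)) := ⟨_, rfl⟩
  obtain ⟨F, hFd⟩ : ∃ F : ℝ, F = q.totient := ⟨_, rfl⟩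
  have hF1 : 0 < F := by rw [hFd]; exact_mod_cast Nat.totient_pos.2 (Nat.pos_of_ne_zero (NeZero.ne q))
  obtain ⟨τ, hτ⟩ : ∃ τ : ℝ, τ = (q.divisors.card : ℝ) := ⟨_, rfl⟩
  have hτ0 : 0 ≤ τ := by rw [hτ]; exact Nat.cast_nonneg _
  obtain ⟨S1, hS1⟩ : ∃ S1 : ℝ, S1 = ∑ h ∈ Icc 1 y, ‖b1 h‖ := ⟨_, rfl⟩
  obtain ⟨S2, hS2⟩ : ∃ S2 : ℝ, S2 = ∑ h ∈ Icc 1 y, ‖b2 h‖ := ⟨_, rfl⟩
  have hS10 : 0 ≤ S1 := by rw [hS1]; exact sum_nonneg fun _ _ => norm_nonneg _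
  have hS20 : 0 ≤ S2 := by rw [hS2]; exact sum_nonneg fun _ _ => norm_nonneg _
  have hS1b : S1 ≤ Cd * (y : ℝ) ^ 2 := by
    rw [hS1, hb1]
    exact bm_sum hd (fun p => norm_g1 p y q) θ L y
  have hS2b : S2 ≤ Cd * (y : ℝ) ^ 2 := by
    rw [hS2, hb2]
    exact bm_sum hd (fun p => g2_le y q p) θ L y
  have hstep : ∀ i ∈ range I, w i * ∫ x in (2 ^ i * x1)..(2 * (2 ^ i * x1)),
      (∑ χ ∈ S, ‖Ps k y (tl χ lam) (tl χ b2) (ray (1 / T) x)‖ ^ 2) * x ^ ((k : ℝ) - 1) ≤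
      (C1 * 2 ^ ((k : ℝ) - 1) * (F / q)) * (F * (w i * ((2 ^ i * x1) ^ k * D i)) +
        ((y : ℝ) ^ A * τ * S1 ^ 2 * S2 ^ 2 * T ^ ((k : ℝ) - c)) * (w i * (2 ^ i * x1) ^ (c - 1))) := by
    intro i _
    have hXi : (0 : ℝ) < 2 ^ i * x1 := by positivity
    have h1 := block_char hF hco S hS hb1y hb2r hb2u h12 hT hXi
    have h2 := hblk q T (2 ^ i * x1) y b1 b2 hT hXi hy0' hb20 hb2u
    rw [← hFd, ← hτ, ← hS1, ← hS2] at h2
    rw [← hFd] at h1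
    have hDi : TD (sc k y lam b1) (Bw k b2) y (2 ^ i * x1 / (4 * T)) = D i := by rw [hDd]
    rw [hDi] at h2
    obtain ⟨X, hX⟩ : ∃ X : ℝ, X = 2 ^ i * x1 := ⟨_, rfl⟩
    rw [← hX] at h1 h2 hXi ⊢
    have h3 : (2 * X) ^ ((k : ℝ) - 1) * (F / q) * (C1 * X * (F * D i + (y : ℝ) ^ A * τ * (1 / X) *
        (X / T) ^ (c - k) * S1 ^ 2 * S2 ^ 2)) =
        (C1 * 2 ^ ((k : ℝ) - 1) * (F / q)) * (F * (X ^ k * D i) +
        ((y : ℝ) ^ A * τ * S1 ^ 2 * S2 ^ 2 * T ^ ((k : ℝ) - c)) * X ^ (c - 1)) := by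
      have e1 : (2 * X) ^ ((k : ℝ) - 1) = 2 ^ ((k : ℝ) - 1) * X ^ ((k : ℝ) - 1) :=
        Real.mul_rpow (by norm_num) hXi.le
      have e2 : X ^ ((k : ℝ) - 1) * X = X ^ k := by
        rw [Real.rpow_sub_one hXi.ne', div_mul_cancel₀ _ hXi.ne', Real.rpow_natCast]
      have e3 : X ^ ((k : ℝ) - 1) * (X / T) ^ (c - k) = T ^ ((k : ℝ) - c) * X ^ (c - 1) := by
        rw [Real.div_rpow hXi.le hT0.le, div_eq_mul_inv, ← Real.rpow_neg hT0.le, ← mul_assoc,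
          ← Real.rpow_add hXi, mul_comm]
        congr 2 <;> ring
      rw [e1]
      have e4 : 2 ^ ((k : ℝ) - 1) * X ^ ((k : ℝ) - 1) * (F / q) * (C1 * X * (F * D i + (y : ℝ) ^ A * τ * (1 / X) *
        (X / T) ^ (c - k) * S1 ^ 2 * S2 ^ 2)) = (C1 * 2 ^ ((k : ℝ) - 1) * (F / q)) * (F * ((X ^ ((k : ℝ) - 1) * X) * D i) +
        ((y : ℝ) ^ A * τ * S1 ^ 2 * S2 ^ 2) * (X ^ ((k : ℝ) - 1) * (X / T) ^ (c - k)) * (X * (1 / X))) := by ring
      rw [e4, e2, e3, mul_one_div_cancel hXi.ne']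
      ring
    have h4 : ∫ x in X..(2 * X), (∑ χ ∈ S, ‖Ps k y (tl χ lam) (tl χ b2) (ray (1 / T) x)‖ ^ 2) * x ^ ((k : ℝ) - 1) ≤
        (C1 * 2 ^ ((k : ℝ) - 1) * (F / q)) * (F * (X ^ k * D i) +
        ((y : ℝ) ^ A * τ * S1 ^ 2 * S2 ^ 2 * T ^ ((k : ℝ) - c)) * X ^ (c - 1)) := by
      rw [← h3]
      refine h1.trans (mul_le_mul_of_nonneg_left h2 (by positivity))
    refine (mul_le_mul_of_nonneg_left h4 (hw0 i)).trans (le_of_eq ?_)
    ring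
  refine (sum_le_sum hstep).trans ?_
  rw [← mul_sum, sum_add_distrib, ← mul_sum, ← mul_sum]
  have hgeo := geo_half hc2 hx10 I hwa (hw0 0)
  have hDD : ∑ i ∈ range I, w i * ((2 ^ i * x1) ^ k * D i) ≤
      T ^ k * (K * ((∑ i ∈ range (j + 1), w i) / L + w j)) := by rw [hDd]; exact hD
  clear hD hstep
  -- the error
  have herr := err_real (q := q) (T := T) (N := N) (c := c) (A := A) (y := y) (θ := θ) (M := M) (S1 := S1) (S2 := S2)
    (Cd := Cd) (τ := τ) (F := F) (C2 := C2) (w0 := w 0) (x1 := x1) (k := k) hq1 hT hN1 hc hc2 hA hM hy0 hy2 hθc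
    hCd hS10 hS20 hS1b hS2b hτ0 (by rw [hτ, hFd]; exact htau q (by exact_mod_cast hq1)) hF1.le hC2.le (hw0 0)
    (by rw [hx1]; rfl)
  rw [← hE0, Real.rpow_natCast] at herr
  have hfin : F * ∑ i ∈ range I, w i * ((2 ^ i * x1) ^ k * D i) +
      ((y : ℝ) ^ A * τ * S1 ^ 2 * S2 ^ 2 * T ^ ((k : ℝ) - c)) * ∑ i ∈ range I, w i * (2 ^ i * x1) ^ (c - 1) ≤
      F * (T ^ k * ((K + E0) * ((∑ i ∈ range (j + 1), w i) / L + w j + w 0 * M ^ (-(c / 2))))) := by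
    have h1 : F * ∑ i ∈ range I, w i * ((2 ^ i * x1) ^ k * D i) ≤
        F * (T ^ k * (K * ((∑ i ∈ range (j + 1), w i) / L + w j))) := by gcongr
    have h2 : ((y : ℝ) ^ A * τ * S1 ^ 2 * S2 ^ 2 * T ^ ((k : ℝ) - c)) * ∑ i ∈ range I, w i * (2 ^ i * x1) ^ (c - 1) ≤
        ((y : ℝ) ^ A * τ * S1 ^ 2 * S2 ^ 2 * T ^ ((k : ℝ) - c)) * (w 0 * (4 * x1 ^ (c - 1))) := by gcongr
    have h3 := h2.trans herr
    obtain ⟨U, hU⟩ : ∃ U : ℝ, U = (∑ i ∈ range (j + 1), w i) / L + w j := ⟨_, rfl⟩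
    have hU0 : 0 ≤ U := by
      rw [hU]
      have := hw0 j
      have : 0 ≤ ∑ i ∈ range (j + 1), w i := sum_nonneg fun i _ => hw0 i
      positivity
    obtain ⟨V, hV⟩ : ∃ V : ℝ, V = w 0 * M ^ (-(c / 2)) := ⟨_, rfl⟩
    have hV0 : 0 ≤ V := by
      rw [hV]
      have := hw0 0
      positivity
    rw [← hU] at h1 ⊢
    rw [← hV] at h3 ⊢
    have h4 : K * U + E0 * V ≤ (K + E0) * (U + V) := by
      have e1 : (K + E0) * (U + V) = K * U + E0 * V + (K * V + E0 * U) := by ring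
      rw [e1]
      exact le_add_of_nonneg_right (by positivity)
    calc _ ≤ F * (T ^ k * (K * U)) + F * (T ^ k * (E0 * V)) := add_le_add h1 h3
      _ = F * (T ^ k * (K * U + E0 * V)) := by ring
      _ ≤ _ := by gcongr
  refine (mul_le_mul_of_nonneg_left hfin (by positivity)).trans (le_of_eq ?_)
  rw [hFd]
  ring

end Pool.Agent.K9h29.SP
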