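import Pool.Agent.K9h29.SP.Mass2
import Pool.Agent.Y180.GL.San

set_option autoImplicit false

/-!
# The Mellin transform of the mollified form
-/

namespace Pool.Agent.K9h29.SP

open Complex Filter Topology MeasureTheory Set Asymptotics
open scoped ComplexConjugate
open Pool.Agent.Y671.GL Pool.Agent.Y412.GLB Pool.Agent.Y412.GLP
open Pool.Agent.H24R2.DZ (ray MM)
open Pool.Agent.Y180.GL (fr fr_cont fr_top fr_zero fr_conv cr_of Cr dir dir_pos eq_all RR)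

variable {k N : ℕ} {ps lam : ℕ → ℂ}

theorem ray_dir (δ x : ℝ) : ray δ x = (x : ℂ) * dir (Real.pi / 2 - δ) := by
  unfold ray dir
  rfl

/-- decay of the form on the ray -/
theorem dec (hf : Frm k N ps lam) {δ : ℝ} (h0 : 0 < δ) (h1 : δ < Real.pi / 2) (a : ℝ) :
    ∃ C : ℝ, 0 < C ∧ ∀ x : ℝ, 0 < x → ‖Ph k lam (ray δ x)‖ * x ^ a ≤ C := by
  have hd : 0 < (dir (Real.pi / 2 - δ)).re := dir_pos (by linarith) (by linarith)
  obtain ⟨B, hcr⟩ := cr_of hf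
  obtain ⟨f, hfd⟩ : ∃ f : ℝ → ℂ, f = fr k lam (dir (Real.pi / 2 - δ)) := ⟨_, rfl⟩
  have hfe : ∀ x : ℝ, Ph k lam (ray δ x) = f x := fun x => by rw [hfd, ray_dir]; rfl
  simp only [hfe]
  have hfc : ContinuousOn f (Ioi 0) := by rw [hfd]; exact fr_cont k hcr hd
  have ht := fr_top k hcr hd
  have hz := fr_zero hf hd a
  rw [← hfd] at ht hz
  -- near zero
  have h2 : (fun x : ℝ => ‖f x‖ * x ^ a) =O[𝓝[>] 0] (fun _ : ℝ => (1 : ℝ)) := by
    have e3 := hz.norm_left.mul (isBigO_refl (fun x : ℝ => x ^ a) (𝓝[>] 0))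
    refine e3.congr' EventuallyEq.rfl ?_
    filter_upwards [self_mem_nhdsWithin] with x hx
    have hx0 : (0 : ℝ) < x := hx
    rw [← Real.rpow_add hx0, neg_add_cancel, Real.rpow_zero]
  obtain ⟨C1, hC1⟩ := h2.bound
  obtain ⟨x0, hx0, h3⟩ : ∃ x0 : ℝ, 0 < x0 ∧ ∀ x : ℝ, 0 < x → x < x0 → ‖f x‖ * x ^ a ≤ C1 := by
    rw [eventually_nhdsWithin_iff, Metric.eventually_nhds_iff] at hC1
    obtain ⟨e, he, h⟩ := hC1
    refine ⟨e, he, fun x hx hxe => ?_⟩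
    have h4 := h (y := x) (by rw [Real.dist_eq, sub_zero, abs_of_pos hx]; exact hxe) hx
    rw [norm_one, mul_one] at h4
    exact (le_abs_self _).trans h4
  -- near infinity
  have h5 : (fun x : ℝ => ‖f x‖ * x ^ a) =O[atTop] (fun _ : ℝ => (1 : ℝ)) := by
    have e1 := (isLittleO_exp_neg_mul_rpow_atTop (half_pos hd) (-a)).isBigO
    have e2 : (fun x : ℝ => ‖f x‖) =O[atTop] (fun x : ℝ => x ^ (-a)) := (ht.trans e1).norm_left
    have e3 := e2.mul (isBigO_refl (fun x : ℝ => x ^ a) atTop)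
    refine e3.congr' EventuallyEq.rfl ?_
    filter_upwards [eventually_gt_atTop (0 : ℝ)] with x hx
    rw [← Real.rpow_add hx, neg_add_cancel, Real.rpow_zero]
  obtain ⟨C2, hC2⟩ := h5.bound
  obtain ⟨X1, hX1⟩ := eventually_atTop.1 hC2
  have h6 : ContinuousOn (fun x : ℝ => ‖f x‖ * x ^ a) (Icc x0 (max X1 x0)) := by
    have hsub : Icc x0 (max X1 x0) ⊆ Ioi 0 := fun x hx => lt_of_lt_of_le hx0 hx.1
    refine ContinuousOn.mul (hfc.norm.mono hsub) ?_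
    intro x hx
    exact (Real.continuousAt_rpow_const x _ (Or.inl (ne_of_gt (hsub hx)))).continuousWithinAt
  obtain ⟨C3, hC3⟩ := isCompact_Icc.exists_bound_of_continuousOn h6
  refine ⟨|C1| + |C2| + |C3| + 1, by positivity, fun x hx => ?_⟩
  have n1 := abs_nonneg C1
  have n2 := abs_nonneg C2
  have n3 := abs_nonneg C3
  rcases lt_or_ge x x0 with hx1 | hx1
  · have e1 := h3 x hx hx1
    have e2 := le_abs_self C1
    linarith
  · rcases le_or_gt x (max X1 x0) with hx2 | hx2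
    · have e1 := hC3 x ⟨hx1, hx2⟩
      have e2 := le_abs_self C3
      have e3 := (le_abs_self (‖f x‖ * x ^ a)).trans e1
      linarith
    · have e1 := hX1 x ((le_max_left _ _).trans hx2.le)
      rw [norm_one, mul_one] at e1
      have e2 := le_abs_self C2
      have e3 := (le_abs_self (‖f x‖ * x ^ a)).trans e1
      linarith

/-- `Ps` as a double sum -/
theorem Ps_dbl (k y : ℕ) (lam b : ℕ → ℂ) (δ x : ℝ) : Ps k y lam b (ray δ x) =
    ∑ ν ∈ Finset.Icc 1 y, ∑ h ∈ Finset.Icc 1 y, (conj (Bw k b ν) * (b h * (((h : ℝ) ^ (((k : ℝ) - 1) / 2) : ℝ) : ℂ))) *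
      Ph k lam (ray δ ((h : ℝ) / ν * x)) := by
  unfold Ps PP
  refine Finset.sum_congr rfl fun ν _ => ?_
  rw [Finset.mul_sum]
  refine Finset.sum_congr rfl fun h _ => ?_
  have e : (h : ℂ) * (ray δ x / ν) = ray δ ((h : ℝ) / ν * x) := by
    unfold ray
    push_cast
    ring
  rw [e]
  ring

theorem decPs (hf : Frm k N ps lam) {δ : ℝ} (h0 : 0 < δ) (h1 : δ < Real.pi / 2) (y : ℕ) (b : ℕ → ℂ) (a : ℝ) :
    ∃ C : ℝ, 0 < C ∧ ∀ x : ℝ, 0 < x → ‖Ps k y lam b (ray δ x)‖ * x ^ a ≤ C := by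
  obtain ⟨C, hC, h⟩ := dec hf h0 h1 a
  refine ⟨(∑ ν ∈ Finset.Icc 1 y, ∑ h ∈ Finset.Icc 1 y, ‖conj (Bw k b ν) * (b h * (((h : ℝ) ^ (((k : ℝ) - 1) / 2) : ℝ) : ℂ))‖ *
    (C * ((h : ℝ) / ν) ^ (-a))) + 1, by positivity, fun x hx => ?_⟩
  rw [Ps_dbl]
  have h2 : ‖∑ ν ∈ Finset.Icc 1 y, ∑ h ∈ Finset.Icc 1 y, (conj (Bw k b ν) * (b h * (((h : ℝ) ^ (((k : ℝ) - 1) / 2) : ℝ) : ℂ))) *
      Ph k lam (ray δ ((h : ℝ) / ν * x))‖ * x ^ a ≤ ∑ ν ∈ Finset.Icc 1 y, ∑ h ∈ Finset.Icc 1 y,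
      ‖conj (Bw k b ν) * (b h * (((h : ℝ) ^ (((k : ℝ) - 1) / 2) : ℝ) : ℂ))‖ * (C * ((h : ℝ) / ν) ^ (-a)) := by
    have hxa : 0 ≤ x ^ a := by positivity
    refine (mul_le_mul_of_nonneg_right (norm_sum_le _ _) hxa).trans ?_
    rw [Finset.sum_mul]
    refine Finset.sum_le_sum fun ν hν => ?_
    refine (mul_le_mul_of_nonneg_right (norm_sum_le _ _) hxa).trans ?_
    rw [Finset.sum_mul]
    refine Finset.sum_le_sum fun h' hh => ?_
    have hν0 : (0 : ℝ) < ν := by exact_mod_cast (Finset.mem_Icc.1 hν).1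
    have hh0 : (0 : ℝ) < h' := by exact_mod_cast (Finset.mem_Icc.1 hh).1
    rw [norm_mul, mul_assoc]
    apply mul_le_mul_of_nonneg_left _ (norm_nonneg _)
    have h3 := h ((h' : ℝ) / ν * x) (by positivity)
    rw [Real.mul_rpow (by positivity) hx.le] at h3
    have h4 : x ^ a = ((h' : ℝ) / ν) ^ a * x ^ a * ((h' : ℝ) / ν) ^ (-a) := by
      rw [mul_right_comm, ← Real.rpow_add (by positivity), add_neg_cancel, Real.rpow_zero, one_mul]
    rw [h4]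
    calc ‖Ph k lam (ray δ ((h' : ℝ) / ν * x))‖ * (((h' : ℝ) / ν) ^ a * x ^ a * ((h' : ℝ) / ν) ^ (-a)) =
        (‖Ph k lam (ray δ ((h' : ℝ) / ν * x))‖ * (((h' : ℝ) / ν) ^ a * x ^ a)) * ((h' : ℝ) / ν) ^ (-a) := by ring
      _ ≤ C * ((h' : ℝ) / ν) ^ (-a) := mul_le_mul_of_nonneg_right h3 (by positivity)
  linarith

/-- scaling in the Mellin transform -/
theorem pieceR (g : ℂ → ℂ) (δ : ℝ) (s : ℂ)
    (h1 : IntegrableOn (fun x : ℝ => g (ray δ x) * (x : ℂ) ^ (s - 1)) (Ioi 0))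
    {r : ℝ} (hr : 0 < r) :
    IntegrableOn (fun x : ℝ => g (ray δ (r * x)) * (x : ℂ) ^ (s - 1)) (Ioi 0) ∧
      ∫ x in Ioi (0 : ℝ), g (ray δ (r * x)) * (x : ℂ) ^ (s - 1) =
        (r : ℂ) ^ (-s) * ∫ x in Ioi (0 : ℝ), g (ray δ x) * (x : ℂ) ^ (s - 1) := by
  have hc : (r : ℂ) ≠ 0 := by exact_mod_cast hr.ne'
  have e : ∀ x ∈ Ioi (0 : ℝ), (r : ℂ) ^ (1 - s) * (g (ray δ (r * x)) * ((r * x : ℝ) : ℂ) ^ (s - 1)) =
      g (ray δ (r * x)) * (x : ℂ) ^ (s - 1) := by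
    intro x hx
    have hx0 : (0 : ℝ) < x := hx
    have e2 : ((r * x : ℝ) : ℂ) ^ (s - 1) = (r : ℂ) ^ (s - 1) * (x : ℂ) ^ (s - 1) := by
      have := mul_cpow_ofReal_nonneg hr.le hx0.le (s - 1)
      push_cast at this ⊢
      exact this
    have e3 : (r : ℂ) ^ (1 - s) * (r : ℂ) ^ (s - 1) = 1 := by
      rw [← cpow_add _ _ hc]
      simp
    rw [e2]
    calc _ = ((r : ℂ) ^ (1 - s) * (r : ℂ) ^ (s - 1)) * (g (ray δ (r * x)) * (x : ℂ) ^ (s - 1)) := by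
          ring
      _ = _ := by rw [e3, one_mul]
  have hi : IntegrableOn (fun x : ℝ => g (ray δ (r * x)) * ((r * x : ℝ) : ℂ) ^ (s - 1)) (Ioi 0) := by
    have := (integrableOn_Ioi_comp_mul_left_iff
      (fun x : ℝ => g (ray δ x) * (x : ℂ) ^ (s - 1)) 0 hr).2 (by rw [mul_zero]; exact h1)
    exact this
  refine ⟨?_, ?_⟩
  · exact IntegrableOn.congr_fun (hi.const_mul ((r : ℂ) ^ (1 - s))) e measurableSet_Ioi
  · rw [← setIntegral_congr_fun measurableSet_Ioi e, integral_const_mul]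
    have h3 := integral_comp_mul_left_Ioi (fun x : ℝ => g (ray δ x) * (x : ℂ) ^ (s - 1)) 0 hr
    rw [mul_zero] at h3
    rw [h3]
    have e4 : (r : ℂ) ^ (-s) = (r : ℂ) ^ (1 - s) * (r : ℂ)⁻¹ := by
      rw [← cpow_neg_one, ← cpow_add _ _ hc]
      congr 1
      ring
    rw [e4, real_smul]
    push_cast
    ring

theorem mellin_Ps (hf : Frm k N ps lam) {F : ℂ → ℂ} (hF : IsL lam F) {δ : ℝ} (h0 : 0 < δ) (h1 : δ < Real.pi / 2)
    (y : ℕ) (b : ℕ → ℂ) (t : ℝ) :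
    IntegrableOn (fun x : ℝ => Ps k y lam b (ray δ x) * (x : ℂ) ^ (((k / 2 : ℝ) : ℂ) + t * I - 1)) (Ioi 0) ∧
    ∫ x in Ioi (0 : ℝ), Ps k y lam b (ray δ x) * (x : ℂ) ^ (((k / 2 : ℝ) : ℂ) + t * I - 1) =
      cexp (-(I * ((Real.pi / 2 - δ : ℝ) : ℂ)) * (((k / 2 : ℝ) : ℂ) + t * I)) *
        Complex.Gamma (((k / 2 : ℝ) : ℂ) + t * I) * F (1 / 2 + t * I) * ((‖MM y b (1 / 2 + t * I)‖ ^ 2 : ℝ) : ℂ) := by
  have hd : 0 < (dir (Real.pi / 2 - δ)).re := dir_pos (by linarith) (by linarith)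
  obtain ⟨s, hs⟩ : ∃ s : ℂ, s = ((k / 2 : ℝ) : ℂ) + t * I := ⟨_, rfl⟩
  rw [← hs]
  have hsre : s.re = k / 2 := by rw [hs]; simp
  have hk : (1 : ℝ) ≤ k := by exact_mod_cast hf.k_pos
  have hbase : IntegrableOn (fun x : ℝ => Ph k lam (ray δ x) * (x : ℂ) ^ (s - 1)) (Ioi 0) := by
    have := fr_conv hf hd s
    unfold MellinConvergent at this
    refine IntegrableOn.congr_fun this (fun x _ => ?_) measurableSet_Ioi
    simp only [smul_eq_mul]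
    unfold fr
    rw [ray_dir]
    ring
  have hval : ∫ x in Ioi (0 : ℝ), Ph k lam (ray δ x) * (x : ℂ) ^ (s - 1) =
      cexp (-(I * ((Real.pi / 2 - δ : ℝ) : ℂ)) * s) * Complex.Gamma s * F (1 / 2 + t * I) := by
    have h2 := eq_all hf hF (φ := Real.pi / 2 - δ) (by linarith) (by linarith) (w := s) (by rw [hsre]; linarith)
    unfold RR at h2
    have e1 : s - ((((k : ℝ) - 1) / 2 : ℝ) : ℂ) = 1 / 2 + t * I := by
      rw [hs]
      push_cast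
      ring
    rw [e1] at h2
    rw [← h2]
    unfold mellin
    refine setIntegral_congr_fun measurableSet_Ioi fun x _ => ?_
    simp only [smul_eq_mul]
    unfold fr
    rw [ray_dir]
    ring
  have hp : ∀ ν ∈ Finset.Icc 1 y, ∀ h ∈ Finset.Icc 1 y,
      IntegrableOn (fun x : ℝ => (conj (Bw k b ν) * (b h * (((h : ℝ) ^ (((k : ℝ) - 1) / 2) : ℝ) : ℂ))) *
        (Ph k lam (ray δ ((h : ℝ) / ν * x)) * (x : ℂ) ^ (s - 1))) (Ioi 0) ∧
      ∫ x in Ioi (0 : ℝ), (conj (Bw k b ν) * (b h * (((h : ℝ) ^ (((k : ℝ) - 1) / 2) : ℝ) : ℂ))) *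
        (Ph k lam (ray δ ((h : ℝ) / ν * x)) * (x : ℂ) ^ (s - 1)) =
        (conj (b ν * (ν : ℂ) ^ (-(1 / 2 + t * I)))) * (b h * (h : ℂ) ^ (-(1 / 2 + t * I))) *
          (cexp (-(I * ((Real.pi / 2 - δ : ℝ) : ℂ)) * s) * Complex.Gamma s * F (1 / 2 + t * I)) := by
    intro ν hν h hh
    have hν0 : (0 : ℝ) < ν := by exact_mod_cast (Finset.mem_Icc.1 hν).1
    have hh0 : (0 : ℝ) < h := by exact_mod_cast (Finset.mem_Icc.1 hh).1
    have hνc : (ν : ℂ) ≠ 0 := by exact_mod_cast hν0.ne'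
    have hhc : (h : ℂ) ≠ 0 := by exact_mod_cast hh0.ne'
    obtain ⟨p1, p2⟩ := pieceR (Ph k lam) δ s hbase (r := (h : ℝ) / ν) (by positivity)
    refine ⟨p1.const_mul _, ?_⟩
    rw [integral_const_mul, p2, hval]
    have e1 : (((h : ℝ) / ν : ℝ) : ℂ) ^ (-s) = (h : ℂ) ^ (-s) * (ν : ℂ) ^ s := by
      rw [Complex.ofReal_div, Complex.div_cpow_ofReal_nonneg hh0.le hν0.le]
      simp only [Complex.ofReal_natCast]
      rw [Complex.cpow_neg (ν : ℂ), div_inv_eq_mul]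
    have e2 : (((h : ℝ) ^ (((k : ℝ) - 1) / 2) : ℝ) : ℂ) * (h : ℂ) ^ (-s) = (h : ℂ) ^ (-(1 / 2 + t * I)) := by
      rw [Complex.ofReal_cpow hh0.le]
      push_cast
      rw [← cpow_add _ _ hhc]
      congr 1
      rw [hs]
      push_cast
      ring
    have e3 : conj (((ν : ℝ) ^ (-(((k : ℝ) + 1) / 2)) : ℝ) : ℂ) * (ν : ℂ) ^ s = conj ((ν : ℂ) ^ (-(1 / 2 + t * I))) := by
      rw [Complex.conj_ofReal, Complex.ofReal_cpow hν0.le]
      have h5 : conj ((ν : ℂ) ^ (-(1 / 2 + t * I))) = (ν : ℂ) ^ (-(1 / 2 - t * I)) := by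
        have h6 := Complex.cpow_conj (ν : ℂ) (-(1 / 2 + (t : ℂ) * I)) (by
          rw [Complex.natCast_arg]
          exact Real.pi_pos.ne)
        rw [Complex.conj_natCast] at h6
        rw [← h6]
        congr 1
        simp only [map_neg, map_add, map_mul, Complex.conj_I, Complex.conj_ofReal, map_div₀, map_one,
          Complex.conj_ofNat]
        ring
      rw [h5]
      push_cast
      rw [← cpow_add _ _ hνc]
      congr 1
      rw [hs]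
      push_cast
      ring
    rw [e1]
    have e4 : conj (Bw k b ν) = conj (b ν) * conj (((ν : ℝ) ^ (-(((k : ℝ) + 1) / 2)) : ℝ) : ℂ) := by
      unfold Bw
      exact map_mul _ _ _
    rw [e4, map_mul, ← e2, ← e3]
    ring
  have hsum : (fun x : ℝ => Ps k y lam b (ray δ x) * (x : ℂ) ^ (s - 1)) = fun x : ℝ =>
      ∑ ν ∈ Finset.Icc 1 y, ∑ h ∈ Finset.Icc 1 y, (conj (Bw k b ν) * (b h * (((h : ℝ) ^ (((k : ℝ) - 1) / 2) : ℝ) : ℂ))) *
        (Ph k lam (ray δ ((h : ℝ) / ν * x)) * (x : ℂ) ^ (s - 1)) := by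
    funext x
    rw [Ps_dbl, Finset.sum_mul]
    refine Finset.sum_congr rfl fun ν _ => ?_
    rw [Finset.sum_mul]
    refine Finset.sum_congr rfl fun h _ => ?_
    ring
  rw [hsum]
  have hi1 : ∀ ν ∈ Finset.Icc 1 y, Integrable (fun x : ℝ =>
      ∑ h ∈ Finset.Icc 1 y, (conj (Bw k b ν) * (b h * (((h : ℝ) ^ (((k : ℝ) - 1) / 2) : ℝ) : ℂ))) *
        (Ph k lam (ray δ ((h : ℝ) / ν * x)) * (x : ℂ) ^ (s - 1))) (volume.restrict (Ioi 0)) := fun ν hν =>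
    integrable_finsetSum _ fun h hh => (hp ν hν h hh).1
  refine ⟨integrable_finsetSum _ hi1, ?_⟩
  rw [integral_finsetSum _ hi1]
  have h7 : ∀ ν ∈ Finset.Icc 1 y, ∫ x in Ioi (0 : ℝ),
      ∑ h ∈ Finset.Icc 1 y, (conj (Bw k b ν) * (b h * (((h : ℝ) ^ (((k : ℝ) - 1) / 2) : ℝ) : ℂ))) *
        (Ph k lam (ray δ ((h : ℝ) / ν * x)) * (x : ℂ) ^ (s - 1)) =
      ∑ h ∈ Finset.Icc 1 y, (conj (b ν * (ν : ℂ) ^ (-(1 / 2 + t * I)))) * (b h * (h : ℂ) ^ (-(1 / 2 + t * I))) *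
          (cexp (-(I * ((Real.pi / 2 - δ : ℝ) : ℂ)) * s) * Complex.Gamma s * F (1 / 2 + t * I)) := by
    intro ν hν
    rw [integral_finsetSum _ fun h hh => (hp ν hν h hh).1]
    exact Finset.sum_congr rfl fun h hh => (hp ν hν h hh).2
  rw [Finset.sum_congr rfl h7]
  have h8 : ((‖MM y b (1 / 2 + t * I)‖ ^ 2 : ℝ) : ℂ) = ∑ ν ∈ Finset.Icc 1 y, ∑ h ∈ Finset.Icc 1 y,
      (conj (b ν * (ν : ℂ) ^ (-(1 / 2 + t * I)))) * (b h * (h : ℂ) ^ (-(1 / 2 + t * I))) := by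
    push_cast
    rw [← Complex.conj_mul']
    unfold MM
    rw [map_sum, Finset.sum_mul_sum]
  rw [h8, Finset.mul_sum]
  refine Finset.sum_congr rfl fun ν _ => ?_
  rw [Finset.mul_sum]
  refine Finset.sum_congr rfl fun h _ => ?_
  ring

end Pool.Agent.K9h29.SP
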