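import Pool.Agent.K9h29.SP.N2
import Pool.Agent.K9h29.SP.Four

set_option autoImplicit false

/-!
# The mollifier
-/

namespace Pool.Agent.K9h29.SP

open Complex Finset Pool.Agent.Y771.GL MeasureTheory
open scoped ComplexConjugate
open Pool.Agent.W368.SD (ss ss_re)
open Pool.Agent.Y671.GL (cn)
open Pool.Agent.H24R2.DZ (ph)

/-- the mollifier with the local factors `g` -/
noncomputable def bm (g : ℕ → ℂ) (θ L : ℝ) (h : ℕ) : ℂ := sqf g h * ((ph (Real.log h / (θ * L)) : ℝ) : ℂ)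

theorem sqf_tw (g : ℕ → ℂ) (s : ℂ) {h : ℕ} (hh : h ≠ 0) : sqf (tw g s) h = sqf g h * (h : ℂ) ^ (-s) := by
  unfold sqf
  split_ifs with h1
  · unfold tw
    rw [prod_mul_distrib]
    congr 1
    have e1 : (h : ℂ) ^ (-s) = ((∏ p ∈ h.primeFactors, p : ℕ) : ℂ) ^ (-s) := by
      rw [Nat.prod_primeFactors_of_squarefree h1]
    rw [e1]
    push_cast
    clear e1
    induction h.primeFactors using Finset.induction_on with
    | empty => simp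
    | insert a S ha ih =>
      rw [prod_insert ha, prod_insert ha, ih]
      have : (∏ p ∈ S, (p : ℂ)) = ((∏ p ∈ S, p : ℕ) : ℂ) := by push_cast; rfl
      rw [this, Complex.natCast_mul_natCast_cpow]
  · rw [zero_mul]

theorem sqf_tw0 (g : ℕ → ℂ) (s : ℂ) : sqf (tw g s) 0 = 0 := sqf_zero _

variable {g : ℕ → ℂ} {L : ℝ}

theorem cpow_ss_cont {h : ℕ} (hh : h ≠ 0) : Continuous fun τ : ℝ => (h : ℂ) ^ (-ss L τ) := by
  have h1 : (fun τ : ℝ => (h : ℂ) ^ (-ss L τ)) = fun τ : ℝ => cexp (-(ss L τ * ((Real.log h : ℝ) : ℂ))) := by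
    funext τ
    rw [cpow_eq_exp hh]
  rw [h1]
  unfold ss
  fun_prop

theorem cpow_ss_le (hL : 0 < L) {h : ℕ} (hh : h ≠ 0) (τ : ℝ) : ‖(h : ℂ) ^ (-ss L τ)‖ ≤ 1 := by
  have h1 : 1 ≤ h := Nat.one_le_iff_ne_zero.2 hh
  rw [Complex.norm_natCast_cpow_of_pos h1, neg_re, ss_re]
  apply Real.rpow_le_one_of_one_le_of_nonpos (by exact_mod_cast h1)
  have : 0 < 1 / L := by positivity
  linarith

theorem sqf_cont (g : ℕ → ℂ) (h : ℕ) : Continuous fun τ : ℝ => sqf (tw g (ss L τ)) h := by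
  rcases Nat.eq_zero_or_pos h with rfl | hh
  · simp only [sqf_tw0]
    exact continuous_const
  · simp only [sqf_tw g _ hh.ne']
    exact continuous_const.mul (cpow_ss_cont hh.ne')

theorem sqf_bd (hL : 0 < L) (g : ℕ → ℂ) (h : ℕ) (τ : ℝ) : ‖sqf (tw g (ss L τ)) h‖ ≤ ‖sqf g h‖ := by
  rcases Nat.eq_zero_or_pos h with rfl | hh
  · rw [sqf_tw0, sqf_zero]
  · rw [sqf_tw g _ hh.ne', norm_mul]
    have := cpow_ss_le hL hh.ne' τ
    calc ‖sqf g h‖ * ‖(h : ℂ) ^ (-ss L τ)‖ ≤ ‖sqf g h‖ * 1 := by gcongr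
      _ = _ := mul_one _

/-- the representation of the mollifier -/
structure Rep (θ C : ℝ) (w : ℝ → ℂ) : Prop where
  pos : 0 < C
  cont : Continuous w
  le : ∀ τ, ‖w τ‖ ≤ C * (1 + |τ|) ^ (-(300 : ℝ))
  eq : ∀ u : ℝ, 0 ≤ u → ((ph (u / θ) : ℝ) : ℂ) = ∫ τ : ℝ, w τ * cexp (-((1 + I * τ) * u))

theorem rep_exists (θ : ℝ) (hθ : 0 < θ) (hθ1 : θ ≤ 1) : ∃ (C : ℝ) (w : ℝ → ℂ), Rep θ C w := by
  obtain ⟨C, w, h1, h2, h3, h4⟩ := four 300 θ hθ hθ1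
  exact ⟨C, w, h1, h2, by exact_mod_cast h3, h4⟩

theorem bm_eq {θ C : ℝ} {w : ℝ → ℂ} (hr : Rep θ C w) (hθ : 0 < θ) (hL : 0 < L) (g : ℕ → ℂ) (h : ℕ) :
    bm g θ L h = ∫ τ : ℝ, w τ * sqf (tw g (ss L τ)) h := by
  unfold bm
  rcases Nat.eq_zero_or_pos h with rfl | hh
  · simp [sqf_zero]
  · have hl : 0 ≤ Real.log h / L := div_nonneg (Real.log_natCast_nonneg h) hL.le
    have h1 := hr.eq _ hl
    have e1 : Real.log h / (θ * L) = Real.log h / L / θ := by field_simp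
    rw [e1, h1, ← integral_const_mul]
    refine integral_congr_ae (Filter.Eventually.of_forall fun τ => ?_)
    simp only
    rw [sqf_tw g _ hh.ne', cpow_eq_exp hh.ne']
    have e2 : -((1 + I * (τ : ℂ)) * ((Real.log h / L : ℝ) : ℂ)) = -(ss L τ * ((Real.log h : ℝ) : ℂ)) := by
      unfold ss
      push_cast
      ring
    rw [e2]
    ring

theorem w_int {θ C : ℝ} {w : ℝ → ℂ} (hr : Rep θ C w) {Z : ℝ → ℂ} (hZ : Continuous Z) {D : ℝ} (hD : ∀ τ, ‖Z τ‖ ≤ D) :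
    Integrable fun τ => w τ * Z τ := by
  have h0 : Integrable fun τ => C * Pool.Agent.W368.SD.rho 300 τ * D :=
    ((Pool.Agent.W368.SD.rho_int 300 (by norm_num)).const_mul C).mul_const D
  refine h0.mono' (hr.cont.mul hZ).aestronglyMeasurable (Filter.Eventually.of_forall fun τ => ?_)
  rw [norm_mul]
  have h1 := hr.le τ
  have h2 := hD τ
  have h3 : 0 ≤ (1 + |τ|) ^ (-(300 : ℝ)) := by positivity
  have hC := hr.pos.le
  exact mul_le_mul h1 h2 (norm_nonneg _) (mul_nonneg hC h3)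

theorem cn_cont (lam : ℕ → ℂ) (g : ℕ → ℂ) (n : ℕ) : Continuous fun τ : ℝ => cn lam (sqf (tw g (ss L τ))) n := by
  unfold cn
  exact continuous_finsetSum _ fun d _ => (sqf_cont g d).mul continuous_const

theorem cn_bd (hL : 0 < L) (lam : ℕ → ℂ) (g : ℕ → ℂ) (n : ℕ) (τ : ℝ) : ‖cn lam (sqf (tw g (ss L τ))) n‖ ≤
    ∑ d ∈ n.divisors, ‖sqf g d‖ * ‖lam (n / d)‖ := by
  unfold cn
  refine (norm_sum_le _ _).trans (sum_le_sum fun d _ => ?_)
  rw [norm_mul]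
  gcongr
  exact sqf_bd hL g d τ

theorem cn_bm {θ C : ℝ} {w : ℝ → ℂ} (hr : Rep θ C w) (hθ : 0 < θ) (hL : 0 < L) (lam : ℕ → ℂ) (g : ℕ → ℂ) (n : ℕ) :
    cn lam (bm g θ L) n = ∫ τ : ℝ, w τ * cn lam (sqf (tw g (ss L τ))) n := by
  have h1 : ∀ d ∈ n.divisors, Integrable fun τ : ℝ => w τ * sqf (tw g (ss L τ)) d * lam (n / d) := fun d _ =>
    (w_int hr (sqf_cont g d) (fun τ => sqf_bd hL g d τ)).mul_const _
  unfold cn
  have e1 : (fun τ : ℝ => w τ * ∑ d ∈ n.divisors, sqf (tw g (ss L τ)) d * lam (n / d)) =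
      fun τ => ∑ d ∈ n.divisors, w τ * sqf (tw g (ss L τ)) d * lam (n / d) := by
    funext τ
    rw [mul_sum]
    exact sum_congr rfl fun d _ => by ring
  rw [e1, integral_finsetSum _ h1]
  refine sum_congr rfl fun d _ => ?_
  rw [integral_mul_const, bm_eq hr hθ hL]

/-- averages over both parameters -/
theorem avg2 {θ : ℝ} (hθ : 0 < θ) (hθ1 : θ ≤ 1) : ∃ K : ℝ, 0 < K ∧ ∀ (lam f1 f2 : ℕ → ℂ) (L : ℝ), 0 < L → ∀ (X : ℕ)
    (A : Finset (ℕ × ℕ)) (W : ℕ × ℕ → ℝ) (B : ℝ), (∀ x ∈ A, 0 ≤ W x) →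
    (∀ τ1 τ2 : ℝ, ∑ x ∈ A, W x * ‖Zs (sqf (tw f2 (ss L τ2))) (cn lam (sqf (tw f1 (ss L τ1)))) X x.1 x.2‖ ^ 2 ≤
      B * ((1 + |τ1|) * (1 + |τ2|)) ^ 256) →
    ∑ x ∈ A, W x * ‖Zs (bm f2 θ L) (cn lam (bm f1 θ L)) X x.1 x.2‖ ^ 2 ≤ K * B := by
  obtain ⟨C, w, hr⟩ := rep_exists θ hθ hθ1
  obtain ⟨K0, hK0⟩ : ∃ K0 : ℝ, K0 = C ^ 2 * (∫ τ, Pool.Agent.W368.SD.rho 2 τ) *
    ∫ τ, Pool.Agent.W368.SD.rho 342 τ := ⟨_, rfl⟩
  have hK00 : 0 ≤ K0 := by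
    rw [hK0]
    have h1 : 0 ≤ ∫ τ, Pool.Agent.W368.SD.rho 2 τ := integral_nonneg fun τ => (Pool.Agent.W368.SD.rho_pos 2 τ).le
    have h2 : 0 ≤ ∫ τ, Pool.Agent.W368.SD.rho 342 τ :=
      integral_nonneg fun τ => (Pool.Agent.W368.SD.rho_pos 342 τ).le
    positivity
  refine ⟨K0 * K0 + 1, by positivity, ?_⟩
  intro lam f1 f2 L hL X A W B hW hB
  have hB0 : 0 ≤ B := by
    have h1 := hB 0 0
    have h2 : 0 ≤ ∑ x ∈ A, W x * ‖Zs (sqf (tw f2 (ss L 0))) (cn lam (sqf (tw f1 (ss L 0)))) X x.1 x.2‖ ^ 2 :=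
      sum_nonneg fun x hx => mul_nonneg (hW x hx) (sq_nonneg _)
    simpa using h2.trans h1
  -- first average
  have step1 : ∀ τ2 : ℝ, ∑ x ∈ A, W x * ‖Zs (sqf (tw f2 (ss L τ2))) (cn lam (bm f1 θ L)) X x.1 x.2‖ ^ 2 ≤
      K0 * B * (1 + |τ2|) ^ 256 := by
    intro τ2
    have hrep : ∀ x : ℕ × ℕ, Zs (sqf (tw f2 (ss L τ2))) (cn lam (bm f1 θ L)) X x.1 x.2 =
        ∫ τ, w τ * Zs (sqf (tw f2 (ss L τ2))) (cn lam (sqf (tw f1 (ss L τ)))) X x.1 x.2 := by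
      intro x
      unfold Zs
      have h1 : ∀ l ∈ (∏ p ∈ pr X, p).divisors, Integrable fun τ : ℝ =>
          (sqf (tw f2 (ss L τ2)) (x.1 * l) / l) * (w τ * cn lam (sqf (tw f1 (ss L τ))) (x.2 * l)) := fun l _ =>
        (w_int hr (cn_cont lam f1 _) (fun τ => cn_bd hL lam f1 _ τ)).const_mul _
      have e1 : (fun τ : ℝ => w τ * ∑ l ∈ (∏ p ∈ pr X, p).divisors, sqf (tw f2 (ss L τ2)) (x.1 * l) *
          cn lam (sqf (tw f1 (ss L τ))) (x.2 * l) / l) = fun τ => ∑ l ∈ (∏ p ∈ pr X, p).divisors,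
          (sqf (tw f2 (ss L τ2)) (x.1 * l) / l) * (w τ * cn lam (sqf (tw f1 (ss L τ))) (x.2 * l)) := by
        funext τ
        rw [mul_sum]
        exact sum_congr rfl fun l _ => by ring
      rw [e1, integral_finsetSum _ h1]
      refine sum_congr rfl fun l _ => ?_
      rw [integral_const_mul, ← cn_bm hr hθ hL]
      ring
    simp only [hrep]
    have h2 := avg (ι := ℕ × ℕ) hr.le A W
      (fun τ x => Zs (sqf (tw f2 (ss L τ2))) (cn lam (sqf (tw f1 (ss L τ)))) X x.1 x.2) (B * (1 + |τ2|) ^ 256) hW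
      (fun x _ => by
        unfold Zs
        exact continuous_finsetSum _ fun l _ => (continuous_const.mul (cn_cont lam f1 _)).div_const _)
      (fun x _ => ⟨∑ l ∈ (∏ p ∈ pr X, p).divisors, ‖sqf (tw f2 (ss L τ2)) (x.1 * l)‖ *
          (∑ d ∈ (x.2 * l).divisors, ‖sqf f1 d‖ * ‖lam (x.2 * l / d)‖) / l, fun τ => by
        unfold Zs
        refine (norm_sum_le _ _).trans (sum_le_sum fun l _ => ?_)
        rw [norm_div, norm_mul, Complex.norm_natCast]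
        gcongr
        exact cn_bd hL lam f1 _ τ⟩)
      (fun τ => by
        refine (hB τ τ2).trans (le_of_eq ?_)
        rw [mul_pow, mul_comm ((1 + |τ|) ^ 256), ← mul_assoc])
    rw [← hK0] at h2
    calc _ ≤ K0 * (B * (1 + |τ2|) ^ 256) := h2
      _ = _ := (mul_assoc _ _ _).symm
  have hrep : ∀ x : ℕ × ℕ, Zs (bm f2 θ L) (cn lam (bm f1 θ L)) X x.1 x.2 =
      ∫ τ, w τ * Zs (sqf (tw f2 (ss L τ))) (cn lam (bm f1 θ L)) X x.1 x.2 := by
    intro x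
    unfold Zs
    have h1 : ∀ l ∈ (∏ p ∈ pr X, p).divisors, Integrable fun τ : ℝ =>
        (cn lam (bm f1 θ L) (x.2 * l) / l) * (w τ * sqf (tw f2 (ss L τ)) (x.1 * l)) := fun l _ =>
      (w_int hr (sqf_cont f2 _) (fun τ => sqf_bd hL f2 _ τ)).const_mul _
    have e1 : (fun τ : ℝ => w τ * ∑ l ∈ (∏ p ∈ pr X, p).divisors, sqf (tw f2 (ss L τ)) (x.1 * l) *
        cn lam (bm f1 θ L) (x.2 * l) / l) = fun τ => ∑ l ∈ (∏ p ∈ pr X, p).divisors,
        (cn lam (bm f1 θ L) (x.2 * l) / l) * (w τ * sqf (tw f2 (ss L τ)) (x.1 * l)) := by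
      funext τ
      rw [mul_sum]
      exact sum_congr rfl fun l _ => by ring
    rw [e1, integral_finsetSum _ h1]
    refine sum_congr rfl fun l _ => ?_
    rw [integral_const_mul, ← bm_eq hr hθ hL]
    ring
  simp only [hrep]
  have h2 := avg (ι := ℕ × ℕ) hr.le A W
    (fun τ x => Zs (sqf (tw f2 (ss L τ))) (cn lam (bm f1 θ L)) X x.1 x.2) (K0 * B) hW
    (fun x _ => by
      unfold Zs
      exact continuous_finsetSum _ fun l _ => ((sqf_cont f2 _).mul continuous_const).div_const _)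
    (fun x _ => ⟨∑ l ∈ (∏ p ∈ pr X, p).divisors, ‖sqf f2 (x.1 * l)‖ * ‖cn lam (bm f1 θ L) (x.2 * l)‖ / l, fun τ => by
      unfold Zs
      refine (norm_sum_le _ _).trans (sum_le_sum fun l _ => ?_)
      rw [norm_div, norm_mul, Complex.norm_natCast]
      gcongr
      exact sqf_bd hL f2 _ τ⟩)
    step1
  rw [← hK0] at h2
  calc _ ≤ K0 * (K0 * B) := h2
    _ ≤ _ := by nlinarith

end Pool.Agent.K9h29.SP
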