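import Pool.Agent.K9h29.SP.LocM

set_option autoImplicit false

/-!
# The total mass of the mollified diagonal
-/

namespace Pool.Agent.K9h29.SP

open Complex Finset Pool.Agent.Y771.GL
open scoped ComplexConjugate
open Pool.Agent.W368.SD (ss ss_re)
open Pool.Agent.Y671.GL (cn)

variable {lam : ℕ → ℂ} {P0 : ℕ} {th Cd : ℝ}

theorem rle {L : ℝ} (hL : 0 < L) {p : ℕ} (hp : 1 ≤ p) : (p : ℝ) ^ (-(1 + 1 / L)) ≤ 1 / p := by
  rw [show (1 : ℝ) / p = (p : ℝ) ^ (-1 : ℝ) by rw [Real.rpow_neg_one, one_div]]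
  apply Real.rpow_le_rpow_of_exponent_le (by exact_mod_cast hp)
  have : 0 < 1 / L := by positivity
  linarith

theorem min_sum : ∃ C : ℝ, 0 ≤ C ∧ ∀ (L Y : ℝ) (X : ℕ), 1 ≤ L → 1 ≤ Y →
    ∑ p ∈ pr X, min 1 (Y * Real.log p / L) * (p : ℝ) ^ (-(1 + 1 / L)) ≤ 4 * Real.log Y + C := by
  obtain ⟨C1, hC1, h1⟩ := mert
  obtain ⟨C2, hC2, h2⟩ := h1.large (fun _ => zero_le_one) hC1
  have hl2 : 0 < Real.log 2 := Real.log_pos (by norm_num)
  refine ⟨4 + C1 / Real.log 2 + C2, by positivity, fun L Y X hL hY => ?_⟩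
  have hL0 : 0 < L := by linarith
  have hY0 : 0 < Y := by linarith
  obtain ⟨D, hD⟩ : ∃ D : ℝ, D = L / Y := ⟨_, rfl⟩
  have hD0 : 0 < D := by rw [hD]; positivity
  have hDL : D ≤ L := by rw [hD, div_le_iff₀ hY0]; nlinarith
  rw [← sum_filter_add_sum_filter_not (pr X) (fun p : ℕ => Real.log p ≤ D)]
  have e1 : ∑ p ∈ (pr X).filter (fun p : ℕ => Real.log p ≤ D),
      min 1 (Y * Real.log p / L) * (p : ℝ) ^ (-(1 + 1 / L)) ≤ 4 + C1 / Real.log 2 := by
    rcases lt_or_ge D (Real.log 2) with h | h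
    · rw [filter_false_of_mem, sum_empty]
      · positivity
      · intro p hp
        rw [mem_pr] at hp
        have : Real.log 2 ≤ Real.log p := Real.log_le_log (by norm_num) (by exact_mod_cast hp.2.two_le)
        linarith
    · have h3 := h1.real (fun _ => zero_le_one) X hD0.le
      have h4 : ∀ p ∈ (pr X).filter (fun p : ℕ => Real.log p ≤ D),
          min 1 (Y * Real.log p / L) * (p : ℝ) ^ (-(1 + 1 / L)) ≤ 1 * Real.log p / p * (1 / D) := by
        intro p hp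
        rw [mem_filter, mem_pr] at hp
        have hp0 : (0 : ℝ) < p := by exact_mod_cast hp.1.2.pos
        have hp1 : (1 : ℝ) ≤ p := by exact_mod_cast hp.1.2.one_le
        have hlp : 0 ≤ Real.log p := Real.log_natCast_nonneg p
        have h5 : (p : ℝ) ^ (-(1 + 1 / L)) ≤ 1 / p := rle hL0 hp.1.2.one_le
        calc min 1 (Y * Real.log p / L) * (p : ℝ) ^ (-(1 + 1 / L)) ≤ (Y * Real.log p / L) * (1 / p) := by
              apply mul_le_mul (min_le_right _ _) h5 (by positivity) (by positivity)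
          _ = _ := by rw [hD]; field_simp
      refine (sum_le_sum h4).trans ?_
      rw [← sum_mul]
      calc _ ≤ (4 * D + C1) * (1 / D) := by gcongr
        _ = 4 + C1 / D := by field_simp
        _ ≤ _ := by gcongr
  have e2 : ∑ p ∈ (pr X).filter (fun p : ℕ => ¬ Real.log p ≤ D),
      min 1 (Y * Real.log p / L) * (p : ℝ) ^ (-(1 + 1 / L)) ≤ 4 * Real.log Y + C2 := by
    have h3 := h2 L D X hL hD0 hDL
    have e3 : L / D = Y := by rw [hD]; field_simp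
    rw [e3] at h3
    refine le_trans ?_ h3
    have e4 : (pr X).filter (fun p : ℕ => ¬ Real.log p ≤ D) = (pr X).filter (fun p : ℕ => D < Real.log p) := by
      refine filter_congr fun p _ => ?_
      exact not_le
    rw [e4]
    refine sum_le_sum fun p _ => ?_
    apply mul_le_mul_of_nonneg_right (min_le_left _ _)
    exact Real.rpow_nonneg (Nat.cast_nonneg _) _
  linarith

theorem n1 (h : HD lam P0 th Cd) {θ : ℝ} (hθ : 0 < θ) (hθ1 : θ ≤ 1) : ∃ K : ℝ, 0 < K ∧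
    ∀ (y q : ℕ) (L τ1 τ2 : ℝ) (X : ℕ), 1 ≤ L → Real.exp (θ * L) ≤ y → Real.log y ≤ 2 * L →
    ∑ g ∈ Icc 1 X, ∑ a ∈ (Icc 1 X).filter (fun a => a.Coprime g), ((a : ℝ) * g) ^ (-(1 + 1 / L)) *
      ‖Zs (al lam P0 y q L τ2) (be lam P0 y q L τ1) X g a‖ ^ 2 ≤ K * ((1 + |τ1|) * (1 + |τ2|)) ^ 256 := by
  obtain ⟨C1, hC1, hm⟩ := min_sum
  obtain ⟨Cm, hCm, hmert⟩ := mert
  obtain ⟨C2, hC2, hlarge⟩ := hmert.large (fun _ => zero_le_one) hCm
  have hs : Summable (fun n : ℕ => (n : ℝ) ^ (-(2 : ℝ))) := by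
    rw [Real.summable_nat_rpow]
    norm_num
  obtain ⟨C3, hC3⟩ : ∃ C3 : ℝ, C3 = ∑' n : ℕ, (n : ℝ) ^ (-(2 : ℝ)) := ⟨_, rfl⟩
  have hs0 : ∀ n : ℕ, 0 ≤ (n : ℝ) ^ (-(2 : ℝ)) := fun n => Real.rpow_nonneg (Nat.cast_nonneg _) _
  have hC30 : 0 ≤ C3 := by rw [hC3]; exact tsum_nonneg hs0
  obtain ⟨K0, hK0⟩ : ∃ K0 : ℝ, K0 = (2 * Cd ^ 2) ^ 2 * kt th := ⟨_, rfl⟩
  have hK00 : 0 ≤ K0 := by
    rw [hK0]
    have := (kt_pos h.th1).le
    positivity
  refine ⟨Real.exp (K0 * P0 + (64 * C1 + 4 * (4 * Real.log (1 / θ) + C2) + 1200 * C3)), Real.exp_pos _, ?_⟩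
  intro y q L τ1 τ2 X hL hyθ hy2
  have hL0 : 0 < L := by linarith
  have ht1 : 0 ≤ |τ1| := abs_nonneg _
  have ht2 : 0 ≤ |τ2| := abs_nonneg _
  obtain ⟨Y, hY⟩ : ∃ Y : ℝ, Y = (1 + |τ1|) * (1 + |τ2|) := ⟨_, rfl⟩
  have hY1 : 1 ≤ Y := by rw [hY]; nlinarith
  have hY0 : 0 < Y := by linarith
  rcases Nat.eq_zero_or_pos X with hX | hX
  · subst hX
    rw [show Icc 1 0 = (∅ : Finset ℕ) by rfl, sum_empty]
    positivity
  have hmα := mu_sqf (tw (g2 lam P0 y q) (ss L τ2))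
  have hmβ := mu_cn h (tw (g1 lam P0 y q) (ss L τ1))
  obtain ⟨E, hE⟩ : ∃ E : ℕ → ℝ, E = fun p : ℕ => (if p ≤ P0 then K0 else 0) +
      (64 * (min 1 (Y * Real.log p / L) * (p : ℝ) ^ (-(1 + 1 / L))) +
        (if y < p then 4 * (p : ℝ) ^ (-(1 + 1 / L)) else 0) + 1200 * (p : ℝ) ^ (-(2 : ℝ))) := ⟨_, rfl⟩
  have hloc : ∀ p ∈ pr X, ∑ k ∈ RR X, ((p : ℝ) ^ (-(1 + 1 / L))) ^ (k.1 + k.2) *
      ‖El (al lam P0 y q L τ2) (be lam P0 y q L τ1) p k.2 k.1‖ ^ 2 ≤ 1 + E p := by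
    intro p hp
    have hpp := (mem_pr.1 hp).2
    have hp0 : (0 : ℝ) < p := by exact_mod_cast hpp.pos
    have hp1 : (1 : ℝ) ≤ p := by exact_mod_cast hpp.one_le
    have hlp : 0 ≤ Real.log p := Real.log_natCast_nonneg p
    have hr0 : 0 ≤ (p : ℝ) ^ (-(1 + 1 / L)) := Real.rpow_nonneg (Nat.cast_nonneg _) _
    have hr : (p : ℝ) ^ (-(1 + 1 / L)) ≤ 1 / p := rle hL0 hpp.one_le
    have hsq : 1200 * (p : ℝ) ^ (-(2 : ℝ)) = 1200 / (p : ℝ) ^ 2 := by
      rw [Real.rpow_neg hp0.le]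
      norm_cast
    have hmin : 0 ≤ min 1 (Y * Real.log p / L) * (p : ℝ) ^ (-(1 + 1 / L)) := by positivity
    have hif : 0 ≤ (if y < p then 4 * (p : ℝ) ^ (-(1 + 1 / L)) else 0) := by split_ifs <;> positivity
    rcases Nat.lt_or_ge P0 p with hP | hP
    · have h1 := loc_big (G := tw (g2 lam P0 y q) (ss L τ2)) (β := be lam P0 y q L τ1) hpp
        (by have := h.hP; omega) hr0 hr hX ((norm_tw hL0 hpp).trans ((norm_g2 p y q).trans (by
          have := h.two p hpp hP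
          linarith))) hmβ.one (fun v hv => be_big h hL0 hpp hP v hv)
      have h2 := loc_main (q := q) (τ1 := τ1) (τ2 := τ2) h hL hy2 hpp hP
      refine h1.trans ?_
      rw [hE]
      simp only
      rw [if_neg (by omega), hsq, hY]
      have e : 64 * min 1 ((1 + |τ1|) * (1 + |τ2|) * Real.log p / L) * (p : ℝ) ^ (-(1 + 1 / L)) =
        64 * (min 1 ((1 + |τ1|) * (1 + |τ2|) * Real.log p / L) * (p : ℝ) ^ (-(1 + 1 / L))) := by ring
      rw [e] at h2
      linarith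
    · have h1 := loc_small (G := tw (g2 lam P0 y q) (ss L τ2)) (β := be lam P0 y q L τ1) (X := X) hpp hr0 hr h.th1
        (by unfold tw g2; rw [if_neg (fun h => by omega), zero_mul]) (fun v => be_small h hL0 hpp v)
      refine h1.trans ?_
      rw [hE]
      simp only
      rw [if_pos hP, hK0, hsq]
      have : 0 ≤ 1200 / (p : ℝ) ^ 2 := by positivity
      linarith
  refine (Zs_sum hmα hmβ E hloc).trans ?_
  have h4 : Y ^ 256 = Real.exp (256 * Real.log Y) := by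
    rw [mul_comm, Real.exp_mul, Real.exp_log hY0]
    norm_cast
  rw [← hY, h4, ← Real.exp_add]
  apply Real.exp_le_exp.2
  rw [hE]
  rw [sum_add_distrib, sum_add_distrib, sum_add_distrib, ← mul_sum, ← mul_sum]
  have s1 : ∑ p ∈ pr X, (if p ≤ P0 then K0 else 0) ≤ K0 * P0 := by
    rw [← sum_filter, sum_const, nsmul_eq_mul, mul_comm]
    apply mul_le_mul_of_nonneg_left _ hK00
    have : ((pr X).filter (fun p => p ≤ P0)).card ≤ P0 := by
      refine (card_le_card (t := Icc 1 P0) ?_).trans (by rw [Nat.card_Icc]; omega)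
      intro p hp
      rw [mem_filter, mem_pr] at hp
      rw [mem_Icc]
      exact ⟨hp.1.2.one_le, hp.2⟩
    exact_mod_cast this
  have s2 := hm L Y X hL hY1
  have s3 : ∑ p ∈ pr X, (if y < p then 4 * (p : ℝ) ^ (-(1 + 1 / L)) else 0) ≤ 4 * (4 * Real.log (1 / θ) + C2) := by
    rw [← sum_filter, ← mul_sum]
    apply mul_le_mul_of_nonneg_left _ (by norm_num)
    have h5 := hlarge L (θ * L) X hL (by positivity) (by nlinarith)
    have e5 : L / (θ * L) = 1 / θ := by field_simp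
    rw [e5] at h5
    refine le_trans ?_ h5
    simp only [one_mul]
    refine sum_le_sum_of_subset_of_nonneg ?_ fun p _ _ => Real.rpow_nonneg (Nat.cast_nonneg _) _
    intro p hp
    rw [mem_filter] at hp ⊢
    refine ⟨hp.1, ?_⟩
    have hy0 : (0 : ℝ) < y := lt_of_lt_of_le (Real.exp_pos _) hyθ
    have h6 : θ * L ≤ Real.log y := by
      rw [Real.le_log_iff_exp_le hy0]
      exact hyθ
    refine lt_of_le_of_lt h6 (Real.log_lt_log hy0 ?_)
    exact_mod_cast hp.2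
  have s4 : ∑ p ∈ pr X, (p : ℝ) ^ (-(2 : ℝ)) ≤ C3 := by
    rw [hC3]
    exact hs.sum_le_tsum (pr X) (fun i _ => hs0 i)
  nlinarith

end Pool.Agent.K9h29.SP
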