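import Pool.Agent.K9h29.SP.PSum

set_option autoImplicit false

/-!
# The mass of the mollified diagonal near a given scale
-/

namespace Pool.Agent.K9h29.SP

open Complex Finset Pool.Agent.Y771.GL
open scoped ComplexConjugate
open Pool.Agent.W368.SD (ss ss_re)
open Pool.Agent.Y671.GL (cn)

variable {lam : ℕ → ℂ} {P0 : ℕ} {th Cd : ℝ}

theorem ag_le {L M C0 : ℝ} {y g a : ℕ} (hL : 1 ≤ L) (hy : Real.log y ≤ 2 * L) (hM : 0 < M)
    (hM2 : M ≤ Real.exp (C0 * L)) (hg : 1 ≤ g) (hgy : g ≤ y) (ha : 1 ≤ a) :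
    ((a : ℝ) * g) ^ (1 / L) ≤ 4 * Real.exp (4 + C0) * Real.exp (a / (4 * (g * M))) := by
  have hL0 : 0 < L := by linarith
  have hg0 : (0 : ℝ) < g := by exact_mod_cast hg
  have ha0 : (0 : ℝ) < a := by exact_mod_cast ha
  have hy0 : (0 : ℝ) < y := lt_of_lt_of_le hg0 (by exact_mod_cast hgy)
  obtain ⟨x, hx⟩ : ∃ x : ℝ, x = a / (g * M) := ⟨_, rfl⟩
  have hx0 : 0 < x := by rw [hx]; positivity
  have e1 : (a : ℝ) * g = x * (g ^ 2 * M) := by rw [hx]; field_simp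
  have e2 : (a : ℝ) / (4 * (g * M)) = x / 4 := by rw [hx]; field_simp
  have hL1 : 1 / L ≤ 1 := by rw [div_le_one hL0]; exact hL
  have hL2 : 0 < 1 / L := by positivity
  have h1 : x ^ (1 / L) ≤ 1 + x := by
    rcases le_total x 1 with h | h
    · have := Real.rpow_le_one hx0.le h hL2.le
      linarith
    · have := Real.rpow_le_rpow_of_exponent_le h hL1
      rw [Real.rpow_one] at this
      linarith
  have h2 : ((g : ℝ) ^ 2 * M) ^ (1 / L) ≤ Real.exp (4 + C0) := by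
    rw [Real.rpow_def_of_pos (by positivity)]
    apply Real.exp_le_exp.2
    rw [Real.log_mul (by positivity) hM.ne', Real.log_pow]
    have h3 : Real.log g ≤ 2 * L := le_trans (Real.log_le_log hg0 (by exact_mod_cast hgy)) hy
    have h4 : Real.log M ≤ C0 * L := by
      rw [Real.log_le_iff_le_exp hM]; exact hM2
    rw [mul_one_div, div_le_iff₀ hL0]
    push_cast
    linarith
  have h3 : 1 + x ≤ 4 * Real.exp (x / 4) := by
    have := Real.add_one_le_exp (x / 4)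
    linarith
  rw [e1, e2, Real.mul_rpow hx0.le (by positivity)]
  calc x ^ (1 / L) * ((g : ℝ) ^ 2 * M) ^ (1 / L) ≤ (1 + x) * Real.exp (4 + C0) := by gcongr
    _ ≤ (4 * Real.exp (x / 4)) * Real.exp (4 + C0) := by gcongr
    _ = _ := by ring

theorem W_le {L M C0 : ℝ} {y g a : ℕ} (hL : 1 ≤ L) (hy : Real.log y ≤ 2 * L) (hM : 0 < M)
    (hM2 : M ≤ Real.exp (C0 * L)) (hg : 1 ≤ g) (hgy : g ≤ y) (ha : 1 ≤ a) (Z : ℝ) :
    Z ^ 2 / ((a : ℝ) * g) ≤ 4 * Real.exp (4 + C0) * Real.exp (a / (4 * (g * M))) *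
      (((a : ℝ) * g) ^ (-(1 + 1 / L)) * Z ^ 2) := by
  have hg0 : (0 : ℝ) < g := by exact_mod_cast hg
  have ha0 : (0 : ℝ) < a := by exact_mod_cast ha
  have h1 := ag_le hL hy hM hM2 hg hgy ha
  have e : Z ^ 2 / ((a : ℝ) * g) = ((a : ℝ) * g) ^ (1 / L) * (((a : ℝ) * g) ^ (-(1 + 1 / L)) * Z ^ 2) := by
    rw [← mul_assoc, ← Real.rpow_add (by positivity)]
    have : 1 / L + -(1 + 1 / L) = -1 := by ring
    rw [this, Real.rpow_neg_one]
    field_simp
  rw [e]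
  apply mul_le_mul_of_nonneg_right h1
  positivity

theorem swap3 (A S V : Finset ℕ) (c : ℕ → ℕ → ℝ) (W : ℕ → ℝ) (u : ℕ → ℕ → ℕ → ℝ) :
    ∑ p ∈ S, ∑ v ∈ V, c p v * ∑ b ∈ A, W b * u p v b = ∑ b ∈ A, W b * ∑ p ∈ S, ∑ v ∈ V, c p v * u p v b := by
  have h1 : ∀ p ∈ S, ∑ v ∈ V, c p v * ∑ b ∈ A, W b * u p v b = ∑ b ∈ A, ∑ v ∈ V, W b * (c p v * u p v b) := by
    intro p _
    rw [sum_comm]
    refine sum_congr rfl fun v _ => ?_
    rw [mul_sum]
    refine sum_congr rfl fun b _ => ?_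
    ring
  rw [sum_congr rfl h1, sum_comm]
  refine sum_congr rfl fun b _ => ?_
  rw [mul_sum]
  refine sum_congr rfl fun p _ => ?_
  rw [mul_sum]

theorem n2 (h : HD lam P0 th Cd) {θ : ℝ} (hθ : 0 < θ) (hθ1 : θ ≤ 1) (k : ℕ) (hk : 1 ≤ k) {c0 C0 : ℝ} (hc0 : 0 < c0)
    (hC0 : 0 < C0) : ∃ K : ℝ, 0 < K ∧
    ∀ (y q : ℕ) (L τ1 τ2 M : ℝ) (X : ℕ), 1 ≤ L → Real.exp (θ * L) ≤ y → Real.log y ≤ 2 * L → y ≤ X →
    Real.exp (c0 * L) ≤ M → M ≤ Real.exp (C0 * L) →
    ∑ g ∈ Icc 1 y, ∑ a ∈ (Icc 1 X).filter (fun a => a.Coprime g),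
      ‖Zs (al lam P0 y q L τ2) (be lam P0 y q L τ1) X g a‖ ^ 2 / ((a : ℝ) * g) * Kf k (a / (g * M)) ≤
      K / L * ((1 + |τ1|) * (1 + |τ2|)) ^ 256 := by
  obtain ⟨K1, hK1, hN1⟩ := n1 h hθ hθ1
  obtain ⟨C, hC, hps⟩ := psum P0 k Cd h.hP h.th1 hk
  obtain ⟨B, hB⟩ : ∃ B : ℝ, B = 4 * Real.exp (4 + C0) := ⟨_, rfl⟩
  have hB0 : 0 < B := by rw [hB]; positivity
  refine ⟨(2 / c0) * (C * B * K1) + (2 / c0) * (2 * B * K1), by positivity, ?_⟩
  intro y q L τ1 τ2 M X hL hyθ hy2 hyX hM1 hM2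
  have hL0 : 0 < L := by linarith
  have hM0 : 0 < M := lt_of_lt_of_le (Real.exp_pos _) hM1
  have hN := hN1 y q L τ1 τ2 X hL hyθ hy2
  obtain ⟨T, hT⟩ : ∃ T : ℝ, T = ((1 + |τ1|) * (1 + |τ2|)) ^ 256 := ⟨_, rfl⟩
  rw [← hT] at hN ⊢
  have hT0 : 0 ≤ T := by rw [hT]; positivity
  clear hT
  have hmα := mu_sqf (tw (g2 lam P0 y q) (ss L τ2))
  have hmβ := mu_cn h (tw (g1 lam P0 y q) (ss L τ1))
  obtain ⟨Z, hZ⟩ : ∃ Z : ℕ → ℕ → ℝ, Z = fun g a => ‖Zs (al lam P0 y q L τ2) (be lam P0 y q L τ1) X g a‖ := ⟨_, rfl⟩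
  have hZa : ∀ g a, ‖Zs (al lam P0 y q L τ2) (be lam P0 y q L τ1) X g a‖ = Z g a := fun g a => by rw [hZ]
  simp only [hZa] at hN ⊢
  have hZ0 : ∀ g a, 0 ≤ Z g a := fun g a => by rw [hZ]; exact norm_nonneg _
  -- the total
  have hN' : ∑ g ∈ Icc 1 y, ∑ a ∈ (Icc 1 X).filter (fun a => a.Coprime g), ((a : ℝ) * g) ^ (-(1 + 1 / L)) *
      Z g a ^ 2 ≤ K1 * T := by
    refine le_trans (sum_le_sum_of_subset_of_nonneg (Icc_subset_Icc_right hyX) fun g _ _ => ?_) hN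
    exact sum_nonneg fun a _ => by positivity
  -- with the logarithm
  have hlog : ∀ g ∈ Icc 1 y, ∑ a ∈ (Icc 1 X).filter (fun a => a.Coprime g),
      Z g a ^ 2 / ((a : ℝ) * g) * Kf k (a / (g * M)) * Real.log a ≤
      C * B * ∑ a ∈ (Icc 1 X).filter (fun a => a.Coprime g), ((a : ℝ) * g) ^ (-(1 + 1 / L)) * Z g a ^ 2 := by
    intro g hg
    rw [mem_Icc] at hg
    have hg0 : (0 : ℝ) < g := by exact_mod_cast hg.1
    have hgX : g ∈ Icc 1 X := mem_Icc.2 ⟨hg.1, hg.2.trans hyX⟩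
    have h1 := wirs (g := g) (X := X) (F := fun a => Z g a ^ 2 / ((a : ℝ) * g) * Kf k (a / (g * M)))
      (F' := fun p v b => Z g b ^ 2 / ((b : ℝ) * g) * (kap P0 th Cd p v ^ 2 / (p : ℝ) ^ v *
        Kf k ((p : ℝ) ^ v / (g * M / b))))
      (fun p v b => by
        have := Kf_nonneg k (x := (p : ℝ) ^ v / (g * M / b)) (by positivity)
        have h2 := hZ0 g b
        positivity)
      (fun p v b hp hv hb hpb hpg hX => by
        have hpp := (mem_pr.1 hp).2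
        have hp0 : (0 : ℝ) < p := by exact_mod_cast hpp.pos
        rw [mem_filter] at hb
        have hb1 := mem_Icc.1 hb.1
        have hb0 : (0 : ℝ) < b := by exact_mod_cast hb1.1
        have h2 := Zs_ratio hmα hmβ hgX hb.1 hp hpb hpg hX
          (El_ratio (y := y) (q := q) (τ1 := τ1) (τ2 := τ2) h hL0 hpp v hv)
        have e3 : ‖Zs (sqf (tw (g2 lam P0 y q) (ss L τ2))) (cn lam (sqf (tw (g1 lam P0 y q) (ss L τ1)))) X g
            (p ^ v * b)‖ = Z g (p ^ v * b) := by rw [hZ]; rfl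
        have e4 : ‖Zs (sqf (tw (g2 lam P0 y q) (ss L τ2))) (cn lam (sqf (tw (g1 lam P0 y q) (ss L τ1)))) X g
            b‖ = Z g b := by rw [hZ]; rfl
        rw [e3, e4] at h2
        have hk0 := kap_nonneg P0 th Cd p v
        have e5 : ((p ^ v * b : ℕ) : ℝ) / (g * M) = (p : ℝ) ^ v / (g * M / b) := by
          push_cast
          field_simp
        rw [e5]
        have hKn := Kf_nonneg k (x := (p : ℝ) ^ v / (g * M / b)) (by positivity)
        have h3 : Z g (p ^ v * b) ^ 2 ≤ kap P0 th Cd p v ^ 2 * Z g b ^ 2 := by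
          have := pow_le_pow_left₀ (hZ0 _ _) h2 2
          rwa [mul_pow] at this
        push_cast
        calc Z g (p ^ v * b) ^ 2 / ((p : ℝ) ^ v * b * g) * Kf k ((p : ℝ) ^ v / (g * M / b)) ≤
            kap P0 th Cd p v ^ 2 * Z g b ^ 2 / ((p : ℝ) ^ v * b * g) * Kf k ((p : ℝ) ^ v / (g * M / b)) := by
              gcongr
          _ = _ := by
              field_simp)
    refine h1.trans ?_
    have e6 : ∑ p ∈ pr X, ∑ v ∈ Icc 1 X, v * Real.log p * ∑ b ∈ (Icc 1 X).filter (fun a => a.Coprime g),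
        Z g b ^ 2 / ((b : ℝ) * g) * (kap P0 th Cd p v ^ 2 / (p : ℝ) ^ v * Kf k ((p : ℝ) ^ v / (g * M / b))) =
        ∑ b ∈ (Icc 1 X).filter (fun a => a.Coprime g), Z g b ^ 2 / ((b : ℝ) * g) *
          ∑ p ∈ pr X, ∑ v ∈ Icc 1 X, v * Real.log p * (kap P0 th Cd p v ^ 2 / (p : ℝ) ^ v *
            Kf k ((p : ℝ) ^ v / (g * M / b))) := by
      exact swap3 _ _ _ (fun p v => v * Real.log p) (fun b => Z g b ^ 2 / ((b : ℝ) * g))
        (fun p v b => kap P0 th Cd p v ^ 2 / (p : ℝ) ^ v * Kf k ((p : ℝ) ^ v / (g * M / b)))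
    rw [e6, mul_sum]
    refine sum_le_sum fun b hb => ?_
    rw [mem_filter, mem_Icc] at hb
    have hb0 : (0 : ℝ) < b := by exact_mod_cast hb.1.1
    have h3 := hps (g * M / b) X (by positivity)
    have h4 := W_le (a := b) hL hy2 hM0 hM2 hg.1 hg.2 hb.1.1 (Z g b)
    have e7 : (1 : ℝ) / (4 * (g * M / b)) = b / (4 * (g * M)) := by field_simp
    rw [e7] at h3
    rw [← hB] at h4
    have h5 : 0 ≤ Z g b ^ 2 / ((b : ℝ) * g) := by positivity
    calc _ ≤ Z g b ^ 2 / ((b : ℝ) * g) * (C * Real.exp (-(b / (4 * (g * M))))) := by gcongr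
      _ ≤ (B * Real.exp (b / (4 * (g * M))) * (((b : ℝ) * g) ^ (-(1 + 1 / L)) * Z g b ^ 2)) *
            (C * Real.exp (-(b / (4 * (g * M))))) := by gcongr
      _ = C * B * (((b : ℝ) * g) ^ (-(1 + 1 / L)) * Z g b ^ 2) *
            (Real.exp (b / (4 * (g * M))) * Real.exp (-(b / (4 * (g * M))))) := by ring
      _ = _ := by
          rw [← Real.exp_add]
          simp
  -- small a
  have hlM : c0 * L ≤ Real.log M := by
    rw [Real.le_log_iff_exp_le hM0]; exact hM1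
  have hlM0 : 0 < Real.log M := lt_of_lt_of_le (by positivity) hlM
  have hMh : M ^ (-(1 / 2 : ℝ)) ≤ 2 / (c0 * L) := by
    rw [Real.rpow_def_of_pos hM0]
    have h1 : Real.log M * -(1 / 2) ≤ -(c0 * L / 2) := by linarith
    refine (Real.exp_le_exp.2 h1).trans ?_
    rw [Real.exp_neg, inv_eq_one_div, div_le_div_iff₀ (Real.exp_pos _) (by positivity)]
    have := Real.add_one_le_exp (c0 * L / 2)
    linarith
  have hpt : ∀ g ∈ Icc 1 y, ∀ a ∈ (Icc 1 X).filter (fun a => a.Coprime g),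
      Z g a ^ 2 / ((a : ℝ) * g) * Kf k (a / (g * M)) ≤
      2 / (c0 * L) * (Z g a ^ 2 / ((a : ℝ) * g) * Kf k (a / (g * M)) * Real.log a) +
        2 / (c0 * L) * (2 * B * (((a : ℝ) * g) ^ (-(1 + 1 / L)) * Z g a ^ 2)) := by
    intro g hg a ha
    rw [mem_Icc] at hg
    rw [mem_filter, mem_Icc] at ha
    have hg0 : (0 : ℝ) < g := by exact_mod_cast hg.1
    have hg1 : (1 : ℝ) ≤ g := by exact_mod_cast hg.1
    have ha0 : (0 : ℝ) < a := by exact_mod_cast ha.1.1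
    have hKn := Kf_nonneg k (x := (a : ℝ) / (g * M)) (by positivity)
    have hla : 0 ≤ Real.log a := Real.log_natCast_nonneg a
    have hW0 : 0 ≤ Z g a ^ 2 / ((a : ℝ) * g) := by positivity
    have hR0 : 0 ≤ 2 * B * (((a : ℝ) * g) ^ (-(1 + 1 / L)) * Z g a ^ 2) := by positivity
    have hcL : 0 < 2 / (c0 * L) := by positivity
    rcases le_total (Real.log M / 2) (Real.log a) with hc | hc
    · have h1 : 1 ≤ 2 / (c0 * L) * Real.log a := by
        rw [div_mul_eq_mul_div, le_div_iff₀ (by positivity)]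
        linarith
      have h2 : 0 ≤ Z g a ^ 2 / ((a : ℝ) * g) * Kf k (a / (g * M)) := by positivity
      have h3 := mul_le_mul_of_nonneg_left h1 h2
      have h4 : 0 ≤ 2 / (c0 * L) * (2 * B * (((a : ℝ) * g) ^ (-(1 + 1 / L)) * Z g a ^ 2)) := by positivity
      calc _ = Z g a ^ 2 / ((a : ℝ) * g) * Kf k (a / (g * M)) * 1 := (mul_one _).symm
        _ ≤ Z g a ^ 2 / ((a : ℝ) * g) * Kf k (a / (g * M)) * (2 / (c0 * L) * Real.log a) := h3
        _ = 2 / (c0 * L) * (Z g a ^ 2 / ((a : ℝ) * g) * Kf k (a / (g * M)) * Real.log a) := by ring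
        _ ≤ _ := by linarith
    · have haM : (a : ℝ) ≤ M ^ (1 / 2 : ℝ) := by
        rw [Real.rpow_def_of_pos hM0, ← Real.log_le_iff_le_exp ha0]
        linarith
      have hx : (a : ℝ) / (g * M) ≤ M ^ (-(1 / 2 : ℝ)) := by
        have e8 : M ^ (-(1 / 2 : ℝ)) = M ^ (1 / 2 : ℝ) / M := by
          nth_rewrite 3 [← Real.rpow_one M]
          rw [← Real.rpow_sub hM0]
          norm_num
        rw [e8]
        calc (a : ℝ) / (g * M) ≤ a / (1 * M) := by gcongr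
          _ = a / M := by rw [one_mul]
          _ ≤ _ := by gcongr
      have hM1' : 1 ≤ M := by
        rw [← Real.log_nonneg_iff hM0]; exact hlM0.le
      have hx1 : (a : ℝ) / (g * M) ≤ 1 := by
        refine hx.trans ?_
        exact Real.rpow_le_one_of_one_le_of_nonpos hM1' (by norm_num)
      have hx0 : 0 ≤ (a : ℝ) / (g * M) := by positivity
      have hKf : Kf k (a / (g * M)) ≤ 2 / (c0 * L) := by
        refine le_trans ?_ (hx.trans hMh)
        unfold Kf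
        have h1 : ((a : ℝ) / (g * M)) ^ k ≤ (a / (g * M)) := by
          have := pow_le_pow_of_le_one hx0 hx1 hk
          rwa [pow_one] at this
        have h2 : Real.exp (-(a / (g * M) / 2)) ≤ 1 := Real.exp_le_one_iff.2 (by linarith)
        calc _ ≤ (a : ℝ) / (g * M) * 1 := by gcongr
          _ = _ := mul_one _
      have h4 := W_le (a := a) hL hy2 hM0 hM2 hg.1 hg.2 ha.1.1 (Z g a)
      rw [← hB] at h4
      have h5 : Real.exp (a / (4 * (g * M))) ≤ 2 := by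
        have e9 : (a : ℝ) / (4 * (g * M)) = a / (g * M) / 4 := by field_simp
        rw [e9]
        have h6 : Real.exp (a / (g * M) / 4) ≤ Real.exp (Real.log 2) := by
          apply Real.exp_le_exp.2
          have := Real.log_two_gt_d9
          linarith
        rwa [Real.exp_log (by norm_num)] at h6
      have h7 : Z g a ^ 2 / ((a : ℝ) * g) ≤ 2 * B * (((a : ℝ) * g) ^ (-(1 + 1 / L)) * Z g a ^ 2) := by
        refine h4.trans ?_
        have : 0 ≤ ((a : ℝ) * g) ^ (-(1 + 1 / L)) * Z g a ^ 2 := by positivity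
        calc _ ≤ B * 2 * (((a : ℝ) * g) ^ (-(1 + 1 / L)) * Z g a ^ 2) := by gcongr
          _ = _ := by ring
      have h8 : 0 ≤ 2 / (c0 * L) * (Z g a ^ 2 / ((a : ℝ) * g) * Kf k (a / (g * M)) * Real.log a) := by positivity
      calc Z g a ^ 2 / ((a : ℝ) * g) * Kf k (a / (g * M)) ≤
            2 * B * (((a : ℝ) * g) ^ (-(1 + 1 / L)) * Z g a ^ 2) * (2 / (c0 * L)) := by gcongr
        _ ≤ _ := by linarith
  refine (sum_le_sum fun g hg => sum_le_sum fun a ha => hpt g hg a ha).trans ?_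
  simp_rw [sum_add_distrib, ← mul_sum]
  have h1 := sum_le_sum hlog
  rw [← mul_sum] at h1
  have h2 : C * B * ∑ g ∈ Icc 1 y, ∑ a ∈ (Icc 1 X).filter (fun a => a.Coprime g),
      ((a : ℝ) * g) ^ (-(1 + 1 / L)) * Z g a ^ 2 ≤ C * B * (K1 * T) := by gcongr
  have hcL : 0 < 2 / (c0 * L) := by positivity
  calc _ ≤ 2 / (c0 * L) * (C * B * (K1 * T)) + 2 / (c0 * L) * (2 * B * (K1 * T)) := by
        gcongr
        exact h1.trans h2
    _ = _ := by field_simp

end Pool.Agent.K9h29.SP
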