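import Pool.Agent.K9h29.SP.Mol
import Pool.Agent.Y412.GL.RYP

set_option autoImplicit false

/-!
# The total mass of the mollified diagonal, with weights
-/

namespace Pool.Agent.K9h29.SP

open Complex Finset Pool.Agent.Y771.GL
open scoped ComplexConjugate
open Pool.Agent.W368.SD (ss ss_re)
open Pool.Agent.Y671.GL (cn)

variable {lam : ℕ → ℂ} {P0 : ℕ} {th Cd : ℝ}

theorem geo_Kf (k : ℕ) (hk : 1 ≤ k) : ∃ C : ℝ, 0 < C ∧ ∀ (x : ℝ) (I : ℕ), 0 < x →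
    ∑ i ∈ range I, Kf k (2 ^ i * x) ≤ C * Real.exp (-(x / 4)) := by
  obtain ⟨C, hC, hd⟩ := Pool.Agent.Y412.GLP.dy k
  refine ⟨C * (1 / 4 : ℝ) ^ (-(k : ℝ)), by positivity, ?_⟩
  intro x I hx
  have h1 := hd k (1 / 4) x I (by exact_mod_cast hk) le_rfl (by norm_num) hx
  calc ∑ i ∈ range I, Kf k (2 ^ i * x) ≤
      ∑ i ∈ range I, ((2 ^ i * x) ^ (k : ℝ) * Real.exp (-(1 / 4 * (2 ^ i * x)))) * Real.exp (-(x / 4)) := by
        refine sum_le_sum fun i _ => ?_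
        unfold Kf
        rw [Real.rpow_natCast, mul_assoc, ← Real.exp_add]
        have h2 : (1 : ℝ) ≤ 2 ^ i := one_le_pow₀ (by norm_num)
        have h3 : x ≤ 2 ^ i * x := by nlinarith
        apply mul_le_mul_of_nonneg_left _ (by positivity)
        apply Real.exp_le_exp.2
        linarith
    _ = (∑ i ∈ range I, (2 ^ i * x) ^ (k : ℝ) * Real.exp (-(1 / 4 * (2 ^ i * x)))) * Real.exp (-(x / 4)) := by
        rw [sum_mul]
    _ ≤ (C * (1 / 4 : ℝ) ^ (-(k : ℝ))) * Real.exp (-(x / 4)) := by gcongr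

/-- coprime pairs -/
def AA (y X : ℕ) : Finset (ℕ × ℕ) := (Icc 1 y ×ˢ Icc 1 X).filter (fun x => x.2.Coprime x.1)

theorem sum_AA (y X : ℕ) (F : ℕ × ℕ → ℝ) : ∑ x ∈ AA y X, F x =
    ∑ g ∈ Icc 1 y, ∑ a ∈ (Icc 1 X).filter (fun a => a.Coprime g), F (g, a) := by
  unfold AA
  rw [sum_filter, sum_product]
  refine sum_congr rfl fun g _ => ?_
  rw [sum_filter]

theorem nt (h : HD lam P0 th Cd) {θ : ℝ} (hθ : 0 < θ) (hθ1 : θ ≤ 1) (k : ℕ) (hk : 1 ≤ k) {c0 C0 : ℝ} (hc0 : 0 < c0)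
    (hC0 : 0 < C0) : ∃ K : ℝ, 0 < K ∧
    ∀ (y q : ℕ) (L R : ℝ) (X I j : ℕ) (w : ℕ → ℝ), 1 ≤ L → Real.exp (θ * L) ≤ y → Real.log y ≤ 2 * L → y ≤ X →
    Real.exp (c0 * L) * 2 ^ j ≤ R → R ≤ Real.exp (C0 * L) → (∀ i, 0 ≤ w i) → Antitone w →
    ∑ x ∈ AA y X, (∑ i ∈ range I, w i * Kf k (2 ^ i * (x.2 / (x.1 * R)))) / ((x.2 : ℝ) * x.1) *
      ‖Zs (bm (g2 lam P0 y q) θ L) (cn lam (bm (g1 lam P0 y q) θ L)) X x.1 x.2‖ ^ 2 ≤
      K * ((∑ i ∈ range (j + 1), w i) / L + w j) := by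
  obtain ⟨K1, hK1, hN1⟩ := n1 h hθ hθ1
  obtain ⟨K2, hK2, hN2⟩ := n2 h hθ hθ1 k hk hc0 hC0
  obtain ⟨C, hC, hgeo⟩ := geo_Kf k hk
  obtain ⟨K3, hK3, hav⟩ := avg2 hθ hθ1
  obtain ⟨B, hB⟩ : ∃ B : ℝ, B = 4 * Real.exp (4 + C0) := ⟨_, rfl⟩
  have hB0 : 0 < B := by rw [hB]; positivity
  refine ⟨K3 * (K2 + C * B * K1), by positivity, ?_⟩
  intro y q L R X I j w hL hyθ hy2 hyX hR1 hR2 hw0 hwa
  have hL0 : 0 < L := by linarith
  have hR0 : 0 < R := lt_of_lt_of_le (by positivity) hR1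
  have hwj := hw0 j
  have hS0 : 0 ≤ ∑ i ∈ range (j + 1), w i := sum_nonneg fun i _ => hw0 i
  have key := hav lam (g1 lam P0 y q) (g2 lam P0 y q) L hL0 X (AA y X)
    (fun x => (∑ i ∈ range I, w i * Kf k (2 ^ i * (x.2 / (x.1 * R)))) / ((x.2 : ℝ) * x.1))
    ((K2 + C * B * K1) * ((∑ i ∈ range (j + 1), w i) / L + w j))
    (fun x _ => div_nonneg (sum_nonneg fun i _ => mul_nonneg (hw0 i) (Kf_nonneg k (by positivity))) (by positivity)) ?_
  · exact key.trans (le_of_eq (by ring))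
  intro τ1 τ2
  have hN := hN1 y q L τ1 τ2 X hL hyθ hy2
  have hM := fun M h1 h2 => hN2 y q L τ1 τ2 M X hL hyθ hy2 hyX h1 h2
  obtain ⟨T, hT⟩ : ∃ T : ℝ, T = ((1 + |τ1|) * (1 + |τ2|)) ^ 256 := ⟨_, rfl⟩
  rw [← hT] at hN hM ⊢
  have hT0 : 0 ≤ T := by rw [hT]; positivity
  clear hT
  obtain ⟨Z, hZ⟩ : ∃ Z : ℕ → ℕ → ℝ, Z = fun g a => ‖Zs (al lam P0 y q L τ2) (be lam P0 y q L τ1) X g a‖ := ⟨_, rfl⟩
  have hZa : ∀ g a, ‖Zs (al lam P0 y q L τ2) (be lam P0 y q L τ1) X g a‖ = Z g a := fun g a => by rw [hZ]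
  have hZb : ∀ g a, ‖Zs (sqf (tw (g2 lam P0 y q) (ss L τ2))) (cn lam (sqf (tw (g1 lam P0 y q) (ss L τ1)))) X g a‖
    = Z g a := fun g a => by rw [hZ]; rfl
  simp only [hZa] at hN hM
  simp only [hZb]
  clear hZ hZa hZb
  -- the sums for each `i`
  obtain ⟨S, hS⟩ : ∃ S : ℕ → ℝ, S = fun i => ∑ x ∈ AA y X, Z x.1 x.2 ^ 2 / ((x.2 : ℝ) * x.1) *
    Kf k (2 ^ i * (x.2 / (x.1 * R))) := ⟨_, rfl⟩
  have e1 : ∑ x ∈ AA y X, (∑ i ∈ range I, w i * Kf k (2 ^ i * (x.2 / (x.1 * R)))) / ((x.2 : ℝ) * x.1) *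
      Z x.1 x.2 ^ 2 = ∑ i ∈ range I, w i * S i := by
    rw [hS]
    simp only
    simp only [mul_sum]
    rw [sum_comm]
    refine sum_congr rfl fun x _ => ?_
    rw [sum_div, sum_mul]
    refine sum_congr rfl fun i _ => ?_
    ring
  rw [e1]
  have hAA : ∀ x ∈ AA y X, 1 ≤ x.1 ∧ x.1 ≤ y ∧ 1 ≤ x.2 ∧ x.2 ≤ X := by
    intro x hx
    unfold AA at hx
    rw [mem_filter, mem_product, mem_Icc, mem_Icc] at hx
    exact ⟨hx.1.1.1, hx.1.1.2, hx.1.2.1, hx.1.2.2⟩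
  have hS1 : ∀ i, 0 ≤ S i := fun i => by
    rw [hS]
    exact sum_nonneg fun x _ => mul_nonneg (by positivity) (Kf_nonneg k (by positivity))
  have hS2 : ∀ i, i ≤ j → S i ≤ K2 / L * T := by
    intro i hi
    have h1 : (2 : ℝ) ^ i ≤ 2 ^ j := pow_le_pow_right₀ (by norm_num) hi
    have h2 : (0 : ℝ) < 2 ^ i := by positivity
    have h3 : Real.exp (c0 * L) ≤ R / 2 ^ i := by
      rw [le_div_iff₀ h2]
      exact le_trans (mul_le_mul_of_nonneg_left h1 (Real.exp_pos _).le) hR1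
    have h4 : R / 2 ^ i ≤ Real.exp (C0 * L) := by
      refine le_trans (div_le_self hR0.le (one_le_pow₀ (by norm_num))) hR2
    have h5 := hM _ h3 h4
    rw [hS]
    simp only
    rw [sum_AA]
    refine le_trans (le_of_eq ?_) h5
    refine sum_congr rfl fun g _ => sum_congr rfl fun a _ => ?_
    simp only
    congr 2
    field_simp
  have hS3 : ∑ i ∈ range I, S i ≤ C * B * K1 * T := by
    have h1 : ∑ i ∈ range I, S i = ∑ x ∈ AA y X, Z x.1 x.2 ^ 2 / ((x.2 : ℝ) * x.1) *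
        ∑ i ∈ range I, Kf k (2 ^ i * (x.2 / (x.1 * R))) := by
      rw [hS]
      simp only
      rw [sum_comm]
      exact sum_congr rfl fun x _ => (mul_sum _ _ _).symm
    rw [h1]
    have h2 : ∀ x ∈ AA y X, Z x.1 x.2 ^ 2 / ((x.2 : ℝ) * x.1) * ∑ i ∈ range I, Kf k (2 ^ i * (x.2 / (x.1 * R))) ≤
        C * B * (((x.2 : ℝ) * x.1) ^ (-(1 + 1 / L)) * Z x.1 x.2 ^ 2) := by
      intro x hx
      obtain ⟨h3, h4, h5, h6⟩ := hAA x hx
      have hx1 : (0 : ℝ) < x.1 := by exact_mod_cast h3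
      have hx2 : (0 : ℝ) < x.2 := by exact_mod_cast h5
      have hjj : (1 : ℝ) ≤ 2 ^ j := one_le_pow₀ (by norm_num)
      have h7 := W_le hL hy2 hR0 hR2 h3 h4 h5 (Z x.1 x.2)
      have h8 := hgeo ((x.2 : ℝ) / (x.1 * R)) I (by positivity)
      rw [← hB] at h7
      obtain ⟨V, hV⟩ : ∃ V : ℝ, V = ((x.2 : ℝ) * x.1) ^ (-(1 + 1 / L)) * Z x.1 x.2 ^ 2 := ⟨_, rfl⟩
      have hV0 : 0 ≤ V := by rw [hV]; positivity
      rw [← hV] at h7 ⊢
      have e2 : (x.2 : ℝ) / (x.1 * R) / 4 = x.2 / (4 * (x.1 * R)) := by field_simp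
      rw [e2] at h8
      have e3 : Real.exp ((x.2 : ℝ) / (4 * (x.1 * R))) * Real.exp (-((x.2 : ℝ) / (4 * (x.1 * R)))) = 1 := by
        rw [← Real.exp_add, add_neg_cancel, Real.exp_zero]
      calc _ ≤ (B * Real.exp ((x.2 : ℝ) / (4 * (x.1 * R))) * V) * (C * Real.exp (-((x.2 : ℝ) / (4 * (x.1 * R))))) := by
            refine mul_le_mul h7 h8 (sum_nonneg fun i _ => Kf_nonneg k (by positivity)) (by positivity)
        _ = C * B * V * (Real.exp ((x.2 : ℝ) / (4 * (x.1 * R))) * Real.exp (-((x.2 : ℝ) / (4 * (x.1 * R))))) := by ring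
        _ = _ := by rw [e3, mul_one]
    refine (sum_le_sum h2).trans ?_
    rw [← mul_sum, sum_AA]
    simp only
    have h9 : ∑ g ∈ Icc 1 y, ∑ a ∈ (Icc 1 X).filter (fun a => a.Coprime g), ((a : ℝ) * g) ^ (-(1 + 1 / L)) *
        Z g a ^ 2 ≤ K1 * T := by
      refine le_trans (sum_le_sum_of_subset_of_nonneg (Icc_subset_Icc_right hyX) fun g _ _ => ?_) hN
      exact sum_nonneg fun a _ => by positivity
    calc _ ≤ C * B * (K1 * T) := mul_le_mul_of_nonneg_left h9 (by positivity)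
      _ = _ := by ring
  have hfin : ∑ i ∈ range I, w i * S i ≤ (∑ i ∈ range (j + 1), w i) * (K2 / L * T) + w j * (C * B * K1 * T) := by
    have h1 : ∑ i ∈ range I, w i * S i ≤ ∑ i ∈ range I, ((if i < j + 1 then w i * (K2 / L * T) else 0) + w j * S i) := by
      refine sum_le_sum fun i _ => ?_
      split_ifs with h2
      · have h3 := hS2 i (by omega)
        have h4 := mul_le_mul_of_nonneg_left h3 (hw0 i)
        have h5 := mul_nonneg hwj (hS1 i)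
        linarith
      · have h3 : w i ≤ w j := hwa (by omega)
        have h4 := mul_le_mul_of_nonneg_right h3 (hS1 i)
        linarith
    refine h1.trans ?_
    rw [sum_add_distrib, ← mul_sum]
    refine add_le_add ?_ (mul_le_mul_of_nonneg_left hS3 hwj)
    rw [← sum_filter, sum_mul]
    refine sum_le_sum_of_subset_of_nonneg (fun i hi => ?_) fun i _ _ => mul_nonneg (hw0 i) (by positivity)
    rw [mem_filter] at hi
    exact mem_range.2 hi.2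
  refine hfin.trans ?_
  have h1 : (∑ i ∈ range (j + 1), w i) * (K2 / L * T) ≤ (K2 + C * B * K1) * ((∑ i ∈ range (j + 1), w i) / L) * T := by
    have h2 : (∑ i ∈ range (j + 1), w i) * (K2 / L * T) = K2 * ((∑ i ∈ range (j + 1), w i) / L) * T := by ring
    rw [h2]
    have h3 : 0 ≤ (∑ i ∈ range (j + 1), w i) / L := div_nonneg hS0 hL0.le
    have h4 : 0 ≤ C * B * K1 := by positivity
    have h5 : K2 ≤ K2 + C * B * K1 := by linarith
    gcongr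
  have h2 : w j * (C * B * K1 * T) ≤ (K2 + C * B * K1) * w j * T := by
    have h4 : 0 ≤ C * B * K1 := by positivity
    have h5 : C * B * K1 ≤ K2 + C * B * K1 := by linarith
    calc _ = (C * B * K1) * w j * T := by ring
      _ ≤ _ := by gcongr
  calc _ ≤ (K2 + C * B * K1) * ((∑ i ∈ range (j + 1), w i) / L) * T + (K2 + C * B * K1) * w j * T := add_le_add h1 h2
    _ = _ := by ring

end Pool.Agent.K9h29.SP
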