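import Pool.Agent.K9h29.SP.Wirs

set_option autoImplicit false

/-!
# Prime powers near a given number
-/

namespace Pool.Agent.K9h29.SP

open Complex Finset Pool.Agent.Y771.GL

/-- the kernel -/
noncomputable def Kf (k : ℕ) (x : ℝ) : ℝ := x ^ k * Real.exp (-(x / 2))

theorem Kf_nonneg (k : ℕ) {x : ℝ} (hx : 0 ≤ x) : 0 ≤ Kf k x := by
  unfold Kf; positivity

theorem pow_exp_le (k : ℕ) {c : ℝ} (hc : 0 < c) : ∃ C : ℝ, 0 < C ∧ ∀ x : ℝ, 0 ≤ x →
    x ^ k * Real.exp (-(c * x)) ≤ C := by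
  refine ⟨k.factorial / c ^ k, by positivity, fun x hx => ?_⟩
  have h1 := Real.pow_div_factorial_le_exp (c * x) (by positivity) k
  have h2 : (c * x) ^ k ≤ k.factorial * Real.exp (c * x) := by
    rw [div_le_iff₀ (by positivity)] at h1
    linarith
  rw [Real.exp_neg, le_div_iff₀ (by positivity)]
  have h3 := Real.exp_pos (c * x)
  calc x ^ k * (Real.exp (c * x))⁻¹ * c ^ k = (c * x) ^ k * (Real.exp (c * x))⁻¹ := by rw [mul_pow]; ring
    _ ≤ k.factorial * Real.exp (c * x) * (Real.exp (c * x))⁻¹ := by gcongr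
    _ = _ := by field_simp

theorem Kf_bd (k : ℕ) (hk : 1 ≤ k) : ∃ C : ℝ, 0 < C ∧ ∀ x : ℝ, 0 < x →
    x ^ k * Real.exp (-(x / 4)) ≤ C * min x (1 / x) ∧ x ^ k * Real.exp (-(x / 4)) ≤ C := by
  obtain ⟨C1, hC1, h1⟩ := pow_exp_le (k - 1) (c := 1 / 4) (by norm_num)
  obtain ⟨C2, hC2, h2⟩ := pow_exp_le (k + 1) (c := 1 / 4) (by norm_num)
  obtain ⟨C3, hC3, h3⟩ := pow_exp_le k (c := 1 / 4) (by norm_num)
  refine ⟨max (max C1 C2) C3, by positivity, fun x hx => ⟨?_, ?_⟩⟩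
  · have e : (1 : ℝ) / 4 * x = x / 4 := by ring
    have h4 := h1 x hx.le
    have h5 := h2 x hx.le
    rw [e] at h4 h5
    have g1 : C1 ≤ max (max C1 C2) C3 := (le_max_left _ _).trans (le_max_left _ _)
    have g2 : C2 ≤ max (max C1 C2) C3 := (le_max_right _ _).trans (le_max_left _ _)
    rw [mul_min_of_nonneg _ _ (by positivity)]
    refine le_min ?_ ?_
    · obtain ⟨j, rfl⟩ : ∃ j, k = j + 1 := ⟨k - 1, by omega⟩
      have s : j + 1 - 1 = j := rfl
      rw [s] at h4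
      calc x ^ (j + 1) * Real.exp (-(x / 4)) = (x ^ j * Real.exp (-(x / 4))) * x := by ring
        _ ≤ C1 * x := by gcongr
        _ ≤ _ := by gcongr
    · rw [mul_one_div, le_div_iff₀ hx]
      calc x ^ k * Real.exp (-(x / 4)) * x = x ^ (k + 1) * Real.exp (-(x / 4)) := by ring
        _ ≤ C2 := h5
        _ ≤ _ := g2
  · have e : (1 : ℝ) / 4 * x = x / 4 := by ring
    have h4 := h3 x hx.le
    rw [e] at h4
    exact h4.trans (le_max_right _ _)

theorem geo_lin {y : ℝ} (hy0 : 0 ≤ y) (hy1 : y < 1) : ∃ S : ℝ, 0 ≤ S ∧ ∀ X : ℕ,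
    ∑ v ∈ Icc 1 X, (v : ℝ) * y ^ v ≤ S := by
  have h := summable_pow_mul_geometric_of_norm_lt_one (R := ℝ) 1 (r := y) (by
    rw [Real.norm_of_nonneg hy0]; exact hy1)
  refine ⟨∑' n : ℕ, (n : ℝ) ^ 1 * y ^ n, tsum_nonneg fun n => by positivity, fun X => ?_⟩
  have := h.sum_le_tsum (Icc 1 X) (fun i _ => by positivity)
  simpa using this

theorem log_sq_sum : ∃ S : ℝ, 0 ≤ S ∧ ∀ X : ℕ, ∑ p ∈ pr X, Real.log p / (p : ℝ) ^ 2 ≤ S := by
  have hs : Summable (fun n : ℕ => (n : ℝ) ^ (-(3 / 2 : ℝ))) := by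
    rw [Real.summable_nat_rpow]; norm_num
  have hs0 : ∀ n : ℕ, 0 ≤ (n : ℝ) ^ (-(3 / 2 : ℝ)) := fun n => Real.rpow_nonneg (Nat.cast_nonneg _) _
  refine ⟨2 * ∑' n : ℕ, (n : ℝ) ^ (-(3 / 2 : ℝ)), mul_nonneg (by norm_num) (tsum_nonneg hs0), fun X => ?_⟩
  have h1 := hs.sum_le_tsum (pr X) (fun i _ => hs0 i)
  refine le_trans ?_ (mul_le_mul_of_nonneg_left h1 (by norm_num))
  rw [mul_sum]
  refine sum_le_sum fun p hp => ?_
  have hp0 : (0 : ℝ) < p := by exact_mod_cast (mem_pr.1 hp).2.pos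
  have h2 := Real.log_le_rpow_div hp0.le (ε := 1 / 2) (by norm_num)
  have e : (p : ℝ) ^ (-(3 / 2 : ℝ)) = (p : ℝ) ^ (1 / 2 : ℝ) / (p : ℝ) ^ 2 := by
    rw [← Real.rpow_natCast, ← Real.rpow_sub hp0]
    norm_num
  rw [e, mul_div_assoc', div_le_div_iff_of_pos_right (by positivity)]
  linarith

/-- prime powers near `M` -/
theorem psum (P0 k : ℕ) {th : ℝ} (Cd : ℝ) (hP : 100 ≤ P0) (hth1 : th < 1 / 2) (hk : 1 ≤ k) :
    ∃ C : ℝ, 0 < C ∧ ∀ (M : ℝ) (X : ℕ), 0 < M →
    ∑ p ∈ pr X, ∑ v ∈ Icc 1 X, v * Real.log p * (kap P0 th Cd p v ^ 2 / (p : ℝ) ^ v * Kf k (p ^ v / M)) ≤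
      C * Real.exp (-(1 / (4 * M))) := by
  obtain ⟨C1, hC1, hK⟩ := Kf_bd k hk
  have hy2 : 0 ≤ (2 : ℝ) ^ (-(1 - 2 * th)) := by positivity
  obtain ⟨S2, hS2, hlin2⟩ := geo_lin hy2 (kt_aux hth1)
  obtain ⟨S3, hS3, hlog⟩ := log_sq_sum
  refine ⟨324 * C1 * 36 + 90 * 81 * C1 * S3 + (P0 * Real.log P0 * (2 * Cd ^ 2) ^ 2 * C1) * S2 + 1,
    by have : 0 ≤ Real.log P0 := Real.log_natCast_nonneg _
       positivity, fun M X hM => ?_⟩
  have hKf : ∀ x : ℝ, 1 / M ≤ x → 0 < x → Kf k x ≤ Real.exp (-(1 / (4 * M))) * (x ^ k * Real.exp (-(x / 4))) := by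
    intro x hx hx0
    unfold Kf
    have e1 : Real.exp (-(x / 2)) = Real.exp (-(x / 4)) * Real.exp (-(x / 4)) := by
      rw [← Real.exp_add]; congr 1; ring
    have e2 : Real.exp (-(x / 4)) ≤ Real.exp (-(1 / (4 * M))) := by
      apply Real.exp_le_exp.2
      have : 1 / (4 * M) = (1 / M) / 4 := by field_simp
      rw [this]
      linarith
    rw [e1]
    calc x ^ k * (Real.exp (-(x / 4)) * Real.exp (-(x / 4))) =
          Real.exp (-(x / 4)) * (x ^ k * Real.exp (-(x / 4))) := by ring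
      _ ≤ _ := by gcongr
  obtain ⟨e0, he0⟩ : ∃ e0 : ℝ, e0 = Real.exp (-(1 / (4 * M))) := ⟨_, rfl⟩
  have he00 : 0 < e0 := by rw [he0]; exact Real.exp_pos _
  rw [← he0] at hKf ⊢
  -- a bound for the terms
  have hterm : ∀ p ∈ pr X, ∀ v ∈ Icc 1 X, v * Real.log p * (kap P0 th Cd p v ^ 2 / (p : ℝ) ^ v * Kf k (p ^ v / M)) ≤
      e0 * (C1 * (if v = 1 then 324 * (Real.log p / p * min (p / M) (M / p)) else 0) +
        (if P0 < p then (if 2 ≤ v then C1 * (Real.log p * 36 * (v * (9 / p) ^ v)) else 0) else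
          Real.log P0 * (2 * Cd ^ 2) ^ 2 * C1 * (v * ((2 : ℝ) ^ (-(1 - 2 * th))) ^ v))) := by
    intro p hp v hv
    rw [mem_Icc] at hv
    have hpp := (mem_pr.1 hp).2
    have hp0 : (0 : ℝ) < p := by exact_mod_cast hpp.pos
    have hp1 : (1 : ℝ) ≤ p := by exact_mod_cast hpp.one_le
    have hlp : 0 ≤ Real.log p := Real.log_natCast_nonneg p
    have hx : 1 / M ≤ (p : ℝ) ^ v / M := by
      gcongr
      exact one_le_pow₀ hp1
    have hx0 : 0 < (p : ℝ) ^ v / M := by positivity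
    have h1 := hKf _ hx hx0
    obtain ⟨h2, h3⟩ := hK _ hx0
    have hmin : 0 ≤ min ((p : ℝ) / M) (M / p) := by positivity
    have hv0 : (0 : ℝ) ≤ v := Nat.cast_nonneg v
    have hk0 := kap_nonneg P0 th Cd p v
    have g1 : v * Real.log p * (kap P0 th Cd p v ^ 2 / (p : ℝ) ^ v * Kf k (p ^ v / M)) ≤
        e0 * (v * Real.log p * (kap P0 th Cd p v ^ 2 / (p : ℝ) ^ v *
          (((p : ℝ) ^ v / M) ^ k * Real.exp (-((p : ℝ) ^ v / M / 4))))) := by
      calc _ ≤ v * Real.log p * (kap P0 th Cd p v ^ 2 / (p : ℝ) ^ v *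
            (e0 * (((p : ℝ) ^ v / M) ^ k * Real.exp (-((p : ℝ) ^ v / M / 4))))) := by gcongr
        _ = _ := by ring
    refine g1.trans ?_
    apply mul_le_mul_of_nonneg_left _ he00.le
    obtain ⟨J, hJ⟩ : ∃ J : ℝ, J = ((p : ℝ) ^ v / M) ^ k * Real.exp (-((p : ℝ) ^ v / M / 4)) := ⟨_, rfl⟩
    have hJ0 : 0 ≤ J := by rw [hJ]; positivity
    rw [← hJ] at h2 h3 ⊢
    by_cases hP0 : P0 < p
    · rw [if_pos hP0]
      have hkap : kap P0 th Cd p v = 6 * 3 ^ v := by unfold kap; rw [if_pos hP0]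
      rcases Nat.lt_or_ge v 2 with hv2 | hv2
      · have hv1 : v = 1 := by omega
        subst hv1
        rw [if_pos rfl, if_neg (by norm_num), add_zero, hkap]
        rw [pow_one] at h2 ⊢
        rw [pow_one]
        have e5 : (1 : ℝ) / (p / M) = M / p := by field_simp
        rw [e5] at h2
        calc ((1 : ℕ) : ℝ) * Real.log p * ((6 * 3) ^ 2 / (p : ℝ) * J) ≤
              ((1 : ℕ) : ℝ) * Real.log p * ((6 * 3) ^ 2 / (p : ℝ) * (C1 * min (p / M) (M / p))) := by gcongr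
          _ = _ := by push_cast; ring
      · rw [if_neg (by omega), if_pos hv2, hkap]
        have e6 : (6 * 3 ^ v) ^ 2 / (p : ℝ) ^ v = 36 * (9 / p) ^ v := by
          rw [mul_pow, ← pow_mul, mul_comm v 2, pow_mul, div_pow]
          norm_num
          ring
        rw [e6]
        calc v * Real.log p * (36 * (9 / p) ^ v * J) ≤ v * Real.log p * (36 * (9 / p) ^ v * C1) := by gcongr
          _ = _ := by ring
    · rw [if_neg hP0]
      have hkap : kap P0 th Cd p v = (2 * Cd ^ 2) * ((p : ℝ) ^ th) ^ v := by unfold kap; rw [if_neg hP0]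
      rw [hkap]
      have e6 : ((2 * Cd ^ 2) * ((p : ℝ) ^ th) ^ v) ^ 2 / (p : ℝ) ^ v =
          (2 * Cd ^ 2) ^ 2 * ((p : ℝ) ^ (-(1 - 2 * th))) ^ v := by
        have e7 : (p : ℝ) ^ (-(1 - 2 * th)) = ((p : ℝ) ^ th) ^ 2 / p := by
          rw [← Real.rpow_natCast, ← Real.rpow_mul hp0.le]
          nth_rewrite 3 [← Real.rpow_one (p : ℝ)]
          rw [← Real.rpow_sub hp0]
          congr 1
          push_cast
          ring
        rw [e7, div_pow, mul_pow (2 * Cd ^ 2), ← pow_mul, ← pow_mul, mul_comm v 2]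
        ring
      rw [e6]
      have h7 : (p : ℝ) ^ (-(1 - 2 * th)) ≤ (2 : ℝ) ^ (-(1 - 2 * th)) := by
        apply Real.rpow_le_rpow_of_nonpos (by norm_num) (by exact_mod_cast hpp.two_le) (by linarith)
      have h8 : Real.log p ≤ Real.log P0 := by
        apply Real.log_le_log hp0
        exact_mod_cast (not_lt.1 hP0)
      have h9 : 0 ≤ C1 * (if v = 1 then 324 * (Real.log p / p * min (p / M) (M / p)) else 0) := by
        apply mul_nonneg hC1.le
        split_ifs <;> positivity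
      have h10 : v * Real.log p * ((2 * Cd ^ 2) ^ 2 * ((p : ℝ) ^ (-(1 - 2 * th))) ^ v * J) ≤
          Real.log P0 * (2 * Cd ^ 2) ^ 2 * C1 * (v * ((2 : ℝ) ^ (-(1 - 2 * th))) ^ v) := by
        have h11 : 0 ≤ (p : ℝ) ^ (-(1 - 2 * th)) := by positivity
        calc v * Real.log p * ((2 * Cd ^ 2) ^ 2 * ((p : ℝ) ^ (-(1 - 2 * th))) ^ v * J) ≤
            v * Real.log P0 * ((2 * Cd ^ 2) ^ 2 * ((2 : ℝ) ^ (-(1 - 2 * th))) ^ v * C1) := by gcongr
          _ = _ := by ring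
      linarith
  refine (sum_le_sum fun p hp => sum_le_sum fun v hv => hterm p hp v hv).trans ?_
  simp_rw [← mul_sum, sum_add_distrib]
  rw [mul_comm e0]
  apply mul_le_mul_of_nonneg_right _ he00.le
  have t1 : ∑ p ∈ pr X, ∑ v ∈ Icc 1 X,
      C1 * (if v = 1 then 324 * (Real.log p / p * min (p / M) (M / p)) else 0) ≤ 324 * C1 * 36 := by
    have h5 := ker M hM X
    calc _ ≤ ∑ p ∈ pr X, 324 * C1 * (Real.log p / p * min (p / M) (M / p)) := by
          refine sum_le_sum fun p _ => ?_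
          have hlp : 0 ≤ Real.log p := Real.log_natCast_nonneg p
          have hmin : 0 ≤ min ((p : ℝ) / M) (M / p) := by positivity
          rw [← mul_sum, sum_ite_eq']
          split_ifs
          · exact le_of_eq (by ring)
          · rw [mul_zero]; positivity
      _ = 324 * C1 * ∑ p ∈ pr X, (Real.log p / p * min (p / M) (M / p)) := by rw [mul_sum]
      _ ≤ _ := by gcongr
  have t2 : ∑ p ∈ pr X, ∑ v ∈ Icc 1 X, (if P0 < p then (if 2 ≤ v then C1 * (Real.log p * 36 * (v * (9 / p) ^ v))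
      else 0) else Real.log P0 * (2 * Cd ^ 2) ^ 2 * C1 * (v * ((2 : ℝ) ^ (-(1 - 2 * th))) ^ v)) ≤
      90 * 81 * C1 * S3 + (P0 * Real.log P0 * (2 * Cd ^ 2) ^ 2 * C1) * S2 := by
    have h5 : ∀ p ∈ pr X, ∑ v ∈ Icc 1 X, (if P0 < p then (if 2 ≤ v then C1 * (Real.log p * 36 * (v * (9 / p) ^ v))
      else 0) else Real.log P0 * (2 * Cd ^ 2) ^ 2 * C1 * (v * ((2 : ℝ) ^ (-(1 - 2 * th))) ^ v)) ≤
        90 * 81 * C1 * (Real.log p / (p : ℝ) ^ 2) +
          (if p ≤ P0 then Real.log P0 * (2 * Cd ^ 2) ^ 2 * C1 * S2 else 0) := by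
      intro p hp
      have hpp := (mem_pr.1 hp).2
      have hp0 : (0 : ℝ) < p := by exact_mod_cast hpp.pos
      have hlp : 0 ≤ Real.log p := Real.log_natCast_nonneg p
      by_cases hP0 : P0 < p
      · simp only [if_pos hP0, if_neg (not_le.2 hP0), add_zero]
        have hpp2 : (100 : ℝ) ≤ p := by
          have : 100 ≤ p := by omega
          exact_mod_cast this
        have h6 : ∀ v ∈ Icc 1 X, (if 2 ≤ v then C1 * (Real.log p * 36 * (v * (9 / p) ^ v)) else 0) ≤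
            36 * 81 * C1 * (Real.log p / (p : ℝ) ^ 2) * (if 2 ≤ v then (18 / 100) ^ (v - 2) * 2 else 0) := by
          intro v _
          split_ifs with hv2
          · obtain ⟨j, rfl⟩ : ∃ j, v = j + 2 := ⟨v - 2, by omega⟩
            have s : j + 2 - 2 = j := rfl
            rw [s]
            have h8 : (((j + 2 : ℕ) : ℝ)) ≤ 2 * 2 ^ j := by
              have : j + 2 ≤ 2 * 2 ^ j := by
                have := Nat.lt_two_pow_self (n := j)
                omega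
              exact_mod_cast this
            have e8 : (9 / (p : ℝ)) ^ (j + 2) = 81 / (p : ℝ) ^ 2 * (9 / p) ^ j := by
              rw [pow_add, div_pow 9 (p : ℝ) 2]
              ring
            rw [e8]
            calc C1 * (Real.log p * 36 * (((j + 2 : ℕ) : ℝ) * (81 / (p : ℝ) ^ 2 * (9 / p) ^ j))) ≤
                C1 * (Real.log p * 36 * ((2 * 2 ^ j) * (81 / (p : ℝ) ^ 2 * (9 / 100) ^ j))) := by gcongr
              _ = 36 * 81 * C1 * (Real.log p / (p : ℝ) ^ 2) * ((2 ^ j * (9 / 100) ^ j) * 2) := by ring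
              _ = _ := by
                  rw [← mul_pow]
                  norm_num
          · simp
        refine (sum_le_sum h6).trans ?_
        rw [← mul_sum]
        have h7 : ∑ v ∈ Icc 1 X, (if 2 ≤ v then (18 / 100 : ℝ) ^ (v - 2) * 2 else 0) ≤ 2 * (5 / 4) := by
          rw [← sum_filter, ← sum_mul]
          have h8 : (Icc 1 X).filter (fun v => 2 ≤ v) = Icc 2 X := by
            ext v
            rw [mem_filter, mem_Icc, mem_Icc]
            omega
          rw [h8]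
          have h9 := geo (y := 18 / 100) (by norm_num) (by norm_num) X
          have h10 : (1 : ℝ) / (1 - 18 / 100) ≤ 5 / 4 := by norm_num
          linarith
        have h8 : 0 ≤ 36 * 81 * C1 * (Real.log p / (p : ℝ) ^ 2) := by positivity
        calc _ ≤ 36 * 81 * C1 * (Real.log p / (p : ℝ) ^ 2) * (2 * (5 / 4)) := mul_le_mul_of_nonneg_left h7 h8
          _ = _ := by ring
      · simp only [if_neg hP0, if_pos (not_lt.1 hP0)]
        rw [← mul_sum]
        have h6 := hlin2 X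
        have h8 : 0 ≤ Real.log P0 := Real.log_natCast_nonneg _
        have h9 : 0 ≤ 90 * 81 * C1 * (Real.log p / (p : ℝ) ^ 2) := by positivity
        have h10 : Real.log P0 * (2 * Cd ^ 2) ^ 2 * C1 * ∑ i ∈ Icc 1 X, (i : ℝ) * ((2 : ℝ) ^ (-(1 - 2 * th))) ^ i ≤
            Real.log P0 * (2 * Cd ^ 2) ^ 2 * C1 * S2 := by gcongr
        linarith
    refine (sum_le_sum h5).trans ?_
    rw [sum_add_distrib, ← mul_sum]
    have h6 : ∑ p ∈ pr X, (if p ≤ P0 then Real.log P0 * (2 * Cd ^ 2) ^ 2 * C1 * S2 else 0) ≤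
        (P0 * Real.log P0 * (2 * Cd ^ 2) ^ 2 * C1) * S2 := by
      rw [← sum_filter, sum_const, nsmul_eq_mul]
      have h7 : (((pr X).filter (fun p => p ≤ P0)).card : ℝ) ≤ P0 := by
        have : ((pr X).filter (fun p => p ≤ P0)).card ≤ P0 := by
          refine (card_le_card (t := Icc 1 P0) ?_).trans (by rw [Nat.card_Icc]; omega)
          intro p hp
          rw [mem_filter, mem_pr] at hp
          rw [mem_Icc]
          exact ⟨hp.1.2.one_le, hp.2⟩
        exact_mod_cast this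
      have h8 : 0 ≤ Real.log P0 := Real.log_natCast_nonneg _
      calc _ ≤ (P0 : ℝ) * (Real.log P0 * (2 * Cd ^ 2) ^ 2 * C1 * S2) := by gcongr
        _ = _ := by ring
    have h7 := hlog X
    have h8 : 90 * 81 * C1 * ∑ p ∈ pr X, Real.log p / (p : ℝ) ^ 2 ≤ 90 * 81 * C1 * S3 := by gcongr
    linarith
  linarith

end Pool.Agent.K9h29.SP
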