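import Pool.Agent.K9h29.SP.Fri
import Pool.Agent.W352.SD.SPlan

set_option autoImplicit false

/-!
# Plancherel for the mollified form on the ray
-/

namespace Pool.Agent.K9h29.SP

open Complex Filter Topology MeasureTheory Set Asymptotics FourierTransform
open scoped ComplexConjugate ENNReal
open Pool.Agent.Y671.GL Pool.Agent.Y412.GLB Pool.Agent.Y412.GLP
open Pool.Agent.H24R2.DZ (ray MM)

/-- continuous functions with exponential decay -/
structure Ed (g : ℝ → ℂ) : Prop where
  cont : Continuous g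
  dec : ∃ C : ℝ, ∀ u, ‖g u‖ ≤ C * Real.exp (-|u|)

theorem exp_abs_int : Integrable fun u : ℝ => Real.exp (-|u|) := by
  have e1 : IntegrableOn (fun u : ℝ => Real.exp (-|u|)) (Iic 0) := by
    refine IntegrableOn.congr_fun (integrableOn_exp_mul_Iic (a := 1) one_pos 0) (fun u hu => ?_) measurableSet_Iic
    show Real.exp (1 * u) = Real.exp (-|u|)
    rw [abs_of_nonpos (show u ≤ 0 from hu), neg_neg, one_mul]
  have e2 : IntegrableOn (fun u : ℝ => Real.exp (-|u|)) (Ioi 0) := by
    refine IntegrableOn.congr_fun (integrableOn_exp_mul_Ioi (a := -1) (by norm_num) 0) (fun u hu => ?_) measurableSet_Ioi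
    show Real.exp (-1 * u) = Real.exp (-|u|)
    rw [abs_of_pos (show 0 < u from hu), neg_one_mul]
  rw [← integrableOn_univ, ← Iic_union_Ioi (a := (0:ℝ))]
  exact e1.union e2

theorem Ed.int {g : ℝ → ℂ} (h : Ed g) : Integrable g := by
  obtain ⟨C, hC⟩ := h.dec
  refine Integrable.mono' (exp_abs_int.const_mul C) h.cont.aestronglyMeasurable ?_
  filter_upwards with u
  exact hC u

theorem Ed.bdd {g : ℝ → ℂ} (h : Ed g) : ∃ C : ℝ, ∀ u, ‖g u‖ ≤ C := by
  obtain ⟨C, hC⟩ := h.dec
  refine ⟨C, fun u => (hC u).trans ?_⟩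
  have hC0 : 0 ≤ C := by
    have := (norm_nonneg _).trans (hC 0)
    simpa using this
  have : Real.exp (-|u|) ≤ 1 := Real.exp_le_one_iff.2 (by linarith [abs_nonneg u])
  nlinarith

theorem Ed.int2 {g : ℝ → ℂ} (h : Ed g) : Integrable fun u => ‖g u‖ ^ 2 := by
  obtain ⟨C, hC⟩ := h.bdd
  refine Integrable.mono' (h.int.norm.const_mul C) (by have := h.cont; fun_prop) ?_
  filter_upwards with u
  rw [Real.norm_of_nonneg (by positivity), pow_two]
  exact mul_le_mul_of_nonneg_right (hC u) (norm_nonneg _)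

theorem Ed.plan {g : ℝ → ℂ} (h : Ed g) {A B : ℝ} (hAB : A ≤ B) :
    ∫ t in A..B, ‖𝓕 g (t / (2 * Real.pi))‖ ^ 2 ≤ 2 * Real.pi * ∫ u, ‖g u‖ ^ 2 := by
  have g1 := h.int
  have gsq := h.int2
  have gcont := h.cont
  have g2 : MemLp g 2 := (memLp_two_iff_integrable_sq_norm gcont.aestronglyMeasurable).mpr gsq
  have hpl := Pool.Agent.Helper76.NormalHP.plancherel_lintegral g g1 g2
  have hcont : Continuous (𝓕 g) :=
    VectorFourier.fourierIntegral_continuous Real.continuous_fourierChar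
      (innerSL ℝ).continuous₂ g1
  have hfin : ∫⁻ u, ‖g u‖ₑ ^ 2 = ENNReal.ofReal (∫ u, ‖g u‖ ^ 2) := by
    rw [ofReal_integral_eq_lintegral_ofReal gsq (by filter_upwards with u; positivity)]
    refine lintegral_congr fun u => ?_
    rw [ENNReal.ofReal_pow (norm_nonneg _), ofReal_norm]
  have hFint : Integrable (fun ξ => ‖𝓕 g ξ‖ ^ 2) := by
    refine ⟨by fun_prop, ?_⟩
    rw [hasFiniteIntegral_iff_ofReal (by filter_upwards with u; positivity)]
    have : ∫⁻ a, ENNReal.ofReal (‖𝓕 g a‖ ^ 2) = ∫⁻ ξ, ‖𝓕 g ξ‖ₑ ^ 2 := by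
      refine lintegral_congr fun u => ?_
      rw [ENNReal.ofReal_pow (norm_nonneg _), ofReal_norm]
    rw [this, hpl, hfin]
    exact ENNReal.ofReal_lt_top
  have hFeq : ∫ ξ, ‖𝓕 g ξ‖ ^ 2 = ∫ u, ‖g u‖ ^ 2 := by
    have h3 : ∫⁻ ξ, ‖𝓕 g ξ‖ₑ ^ 2 = ENNReal.ofReal (∫ u, ‖𝓕 g u‖ ^ 2) := by
      rw [ofReal_integral_eq_lintegral_ofReal hFint (by filter_upwards with u; positivity)]
      refine lintegral_congr fun u => ?_
      rw [ENNReal.ofReal_pow (norm_nonneg _), ofReal_norm]
    rw [h3, hfin] at hpl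
    exact (ENNReal.ofReal_eq_ofReal_iff (integral_nonneg fun _ => by positivity)
      (integral_nonneg fun _ => by positivity)).mp hpl
  have hpi : (0:ℝ) < 2 * Real.pi := by positivity
  have hFint' : Integrable (fun t : ℝ => ‖𝓕 g (t / (2 * Real.pi))‖ ^ 2) := hFint.comp_div hpi.ne'
  rw [← hFeq]
  calc ∫ t in A..B, ‖𝓕 g (t / (2 * Real.pi))‖ ^ 2
      = ∫ t in Ioc A B, ‖𝓕 g (t / (2 * Real.pi))‖ ^ 2 := intervalIntegral.integral_of_le hAB
    _ ≤ ∫ t, ‖𝓕 g (t / (2 * Real.pi))‖ ^ 2 :=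
        setIntegral_le_integral hFint' (by filter_upwards with t; positivity)
    _ = 2 * Real.pi * ∫ ξ, ‖𝓕 g ξ‖ ^ 2 := by
        rw [Measure.integral_comp_div (fun ξ => ‖𝓕 g ξ‖ ^ 2) (2 * Real.pi), abs_of_pos hpi,
          smul_eq_mul]

/-- the transform written out -/
noncomputable def Fq (g : ℝ → ℂ) (t : ℝ) : ℂ := 𝓕 g (t / (2 * Real.pi))

theorem Fq_eq (g : ℝ → ℂ) (t : ℝ) : Fq g t = ∫ u : ℝ, g u * cexp (-(I * t * u)) := by
  unfold Fq
  rw [Real.fourier_eq']
  refine integral_congr_ae (Eventually.of_forall fun u => ?_)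
  simp only [smul_eq_mul]
  rw [mul_comm]
  congr 2
  have : (Real.pi : ℂ) ≠ 0 := by exact_mod_cast Real.pi_ne_zero
  simp only [RCLike.inner_apply, conj_trivial]
  push_cast
  field_simp

theorem Fq_cont {g : ℝ → ℂ} (h : Ed g) : Continuous (Fq g) := by
  have hcont : Continuous (𝓕 g) :=
    VectorFourier.fourierIntegral_continuous Real.continuous_fourierChar
      (innerSL ℝ).continuous₂ h.int
  unfold Fq
  exact hcont.comp (by fun_prop)

/-- the multiplier of the integral over a short interval -/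
noncomputable def mH (H u : ℝ) : ℂ := ∫ s in (0 : ℝ)..H, cexp (-(I * s * u))

theorem mH_cont (H : ℝ) : Continuous (mH H) := by
  unfold mH
  apply intervalIntegral.continuous_parametric_intervalIntegral_of_continuous (s := fun _ => H)
  · fun_prop
  · exact continuous_const

theorem norm_cexp_I (s u : ℝ) : ‖cexp (-(I * s * u))‖ = 1 := by
  rw [Complex.norm_exp]
  have : (-(I * s * u) : ℂ).re = 0 := by simp
  rw [this, Real.exp_zero]

theorem mH_le {H : ℝ} (hH : 0 ≤ H) (u : ℝ) : ‖mH H u‖ ≤ H := by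
  unfold mH
  have h1 := intervalIntegral.norm_integral_le_of_norm_le_const (a := (0 : ℝ)) (b := H)
    (f := fun s => cexp (-(I * s * u))) (C := 1) (fun s _ => (norm_cexp_I s u).le)
  rw [sub_zero, abs_of_nonneg hH, one_mul] at h1
  exact h1

theorem mH_le2 (H : ℝ) {u : ℝ} (hu : u ≠ 0) : ‖mH H u‖ ≤ 2 / |u| := by
  unfold mH
  have hc : (-(I * u) : ℂ) ≠ 0 := by
    have : (u : ℂ) ≠ 0 := by exact_mod_cast hu
    simp [this]
  have e1 : ∀ s : ℝ, cexp (-(I * s * u)) = cexp (-(I * u) * s) := fun s => by congr 1; ring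
  simp_rw [e1]
  rw [integral_exp_mul_complex hc, norm_div]
  have h1 : ‖(-(I * u) : ℂ)‖ = |u| := by
    rw [norm_neg, norm_mul, Complex.norm_I, one_mul, Complex.norm_real, Real.norm_eq_abs]
  rw [h1]
  have h2 : ‖cexp (-(I * u) * H) - cexp (-(I * u) * (0 : ℝ))‖ ≤ 2 := by
    refine (norm_sub_le _ _).trans ?_
    rw [← e1, ← e1, norm_cexp_I, norm_cexp_I]
    norm_num
  gcongr

theorem mH_neg (H u : ℝ) : ‖mH H (-u)‖ = ‖mH H u‖ := by
  have h1 : mH H (-u) = conj (mH H u) := by
    unfold mH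
    rw [← intervalIntegral.intervalIntegral_conj]
    refine intervalIntegral.integral_congr fun s _ => ?_
    rw [← Complex.exp_conj]
    congr 1
    simp
  rw [h1, RCLike.norm_conj]

theorem Ed.mul {g m : ℝ → ℂ} (h : Ed g) (hm : Continuous m) {M : ℝ} (hM : ∀ u, ‖m u‖ ≤ M) : Ed (fun u => g u * m u) := by
  obtain ⟨C, hC⟩ := h.dec
  refine ⟨h.cont.mul hm, C * M, fun u => ?_⟩
  rw [norm_mul]
  have hM0 : 0 ≤ M := (norm_nonneg _).trans (hM u)
  calc ‖g u‖ * ‖m u‖ ≤ (C * Real.exp (-|u|)) * M := mul_le_mul (hC u) (hM u) (norm_nonneg _) ((norm_nonneg _).trans (hC u))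
    _ = _ := by ring

/-- integrals over short intervals -/
theorem Fq_short {g : ℝ → ℂ} (h : Ed g) {H : ℝ} (hH : 0 ≤ H) (t : ℝ) :
    ∫ s in t..(t + H), Fq g s = Fq (fun u => g u * mH H u) t := by
  have e1 : ∫ s in t..(t + H), Fq g s = ∫ s in (0 : ℝ)..H, Fq g (t + s) := by
    rw [intervalIntegral.integral_comp_add_left (fun s => Fq g s) t]
    simp
  rw [e1]
  have e2 : ∀ s : ℝ, Fq g (t + s) = ∫ u : ℝ, g u * cexp (-(I * t * u)) * cexp (-(I * s * u)) := by
    intro s
    rw [Fq_eq]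
    refine integral_congr_ae (Eventually.of_forall fun u => ?_)
    simp only
    rw [mul_assoc (g u), ← Complex.exp_add]
    congr 2
    push_cast
    ring
  simp_rw [e2]
  rw [Fq_eq, intervalIntegral.integral_of_le hH, MeasureTheory.integral_integral_swap]
  · refine integral_congr_ae (Eventually.of_forall fun u => ?_)
    simp only
    rw [← intervalIntegral.integral_of_le hH, intervalIntegral.integral_const_mul]
    unfold mH
    ring
  · have h2 : Integrable (fun p : ℝ × ℝ => g p.2) ((volume.restrict (Ioc 0 H)).prod volume) := by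
      have h3 := Integrable.mul_prod (μ := volume.restrict (Ioc 0 H)) (ν := volume) (f := fun _ : ℝ => (1 : ℂ))
        (g := g) (integrable_const _) h.int
      simpa using h3
    refine Integrable.mono h2 ?_ ?_
    · apply Continuous.aestronglyMeasurable
      have := h.cont
      unfold Function.uncurry
      fun_prop
    · refine Eventually.of_forall fun p => ?_
      unfold Function.uncurry
      rw [norm_mul, norm_mul, norm_cexp_I, norm_cexp_I, mul_one, mul_one]

end Pool.Agent.K9h29.SP
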