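import Pool.Agent.K9h29.SP.Blk

set_option autoImplicit false

/-!
# From primitive characters to the units
-/

namespace Pool.Agent.K9h29.SP

open Complex Finset MeasureTheory
open scoped ComplexConjugate
open Pool.Agent.Y671.GL Pool.Agent.Y412.GLB Pool.Agent.Y412.GLP
open Pool.Agent.K9h29.ZD (S_SCU tl TwF cn_tl)
open Pool.Agent.H24R2.DZ (ray)

variable {k N : ℕ} {ps lam : ℕ → ℂ}

/-- the mollified form -/
noncomputable def Ps (k y : ℕ) (lam b : ℕ → ℂ) (z : ℂ) : ℂ :=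
  ∑ ν ∈ Icc 1 y, conj (Bw k b ν) * PP k y lam b (z / ν)

theorem sc_tl {q : ℕ} [NeZero q] (hF : TwF k N ps lam) (hco : q.Coprime N) {χ : DirichletCharacter ℂ q}
    (hχ : χ.IsPrimitive) {y : ℕ} {b : ℕ → ℂ} (hb : ∀ h, y < h → b h = 0) (m : ℕ) :
    sc k y (tl χ lam) (tl χ b) m = χ (m : ZMod q) * sc k y lam b m := by
  rcases Nat.eq_zero_or_pos m with rfl | hm
  · rw [sc_zero hF.frm, sc_zero (hF.tw q χ hχ hco), mul_zero]
  · rw [sc_eq y b hb m hm, sc_eq y (tl χ b) (fun h hh => by unfold tl; rw [hb h hh, mul_zero]) m hm, cn_tl]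
    ring

theorem gauss_Pj {q : ℕ} [NeZero q] (hF : TwF k N ps lam) (hco : q.Coprime N) {χ : DirichletCharacter ℂ q}
    (hχ : χ.IsPrimitive) {y : ℕ} {b : ℕ → ℂ} (hb : ∀ h, y < h → b h = 0) {ν : ℕ} (hν : ν.Coprime q)
    {z : ℂ} (hz : 0 < z.re) :
    ∑ j : ZMod q, χ⁻¹ j * Pj (sc k y lam b) (j * (ν : ZMod q)⁻¹) z =
      gaussSum χ⁻¹ ZMod.stdAddChar * (conj (χ (ν : ZMod q)) * PP k y (tl χ lam) (tl χ b) z) := by
  have hpg := pg_sc hF.frm y b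
  unfold Pj
  rw [PP_series (hF.tw q χ hχ hco) y (tl χ b) hz]
  have h1 : ∀ j : ZMod q, χ⁻¹ j * ∑' m : ℕ, ce (j * (ν : ZMod q)⁻¹) (sc k y lam b) m * cexp (-(m * z)) =
      ∑' m : ℕ, χ⁻¹ j * (ce (j * (ν : ZMod q)⁻¹) (sc k y lam b) m * cexp (-(m * z))) := fun j => tsum_mul_left.symm
  simp only [h1]
  rw [← Summable.tsum_finsetSum (fun j _ => ((pg_ce hpg _).summable_c hz).mul_left _), ← tsum_mul_left, ← tsum_mul_left]
  refine tsum_congr fun m => ?_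
  have h2 : ∑ j : ZMod q, χ⁻¹ j * (ce (j * (ν : ZMod q)⁻¹) (sc k y lam b) m * cexp (-(m * z))) =
      (sc k y lam b m * cexp (-(m * z))) * ∑ j : ZMod q, χ⁻¹ j * ZMod.stdAddChar (j * (ν : ZMod q)⁻¹ * (m : ZMod q)) := by
    rw [mul_sum]
    refine sum_congr rfl fun j _ => ?_
    unfold ce
    ring
  have h3 : ∑ j : ZMod q, χ⁻¹ j * (ZMod.stdAddChar (j * (ν : ZMod q)⁻¹ * (m : ZMod q)) : ℂ) =
      χ ((ν : ZMod q)⁻¹ * (m : ZMod q)) * gaussSum χ⁻¹ ZMod.stdAddChar := by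
    have h4 := gaussSum_mulShift_of_isPrimitive (e := (ZMod.stdAddChar (N := q)))
      (Pool.Agent.W440.TW.inv_primitive χ hχ) ((ν : ZMod q)⁻¹ * (m : ZMod q))
    rw [inv_inv] at h4
    rw [← h4]
    unfold gaussSum
    refine sum_congr rfl fun j _ => ?_
    rw [AddChar.mulShift_apply]
    congr 2
    ring
  have h5 : χ ((ν : ZMod q)⁻¹) = conj (χ (ν : ZMod q)) := by
    have hu := (ZMod.isUnit_iff_coprime ν q).2 hν
    have h6 : χ (ν : ZMod q) * χ ((ν : ZMod q)⁻¹) = 1 := by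
      rw [← map_mul, ZMod.mul_inv_of_unit _ hu, map_one]
    have h7 : ‖χ (ν : ZMod q)‖ = 1 := by
      obtain ⟨u, hu'⟩ := hu
      rw [← hu']
      exact H385.norm_char_unit χ u
    have h8 : χ (ν : ZMod q) * conj (χ (ν : ZMod q)) = 1 := by
      rw [Complex.mul_conj', h7]
      simp
    have h9 : χ (ν : ZMod q) ≠ 0 := by
      intro h
      rw [h, norm_zero] at h7
      exact zero_ne_one h7
    exact mul_left_cancel₀ h9 (h6.trans h8.symm)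
  rw [h2, h3, map_mul, h5, sc_tl hF hco hχ hb]
  ring

theorem ps_bessel {q : ℕ} [NeZero q] (hF : TwF k N ps lam) (hco : q.Coprime N)
    (S : Finset (DirichletCharacter ℂ q)) (hS : ∀ χ ∈ S, χ.IsPrimitive) {y : ℕ} {b1 b2 : ℕ → ℂ}
    (hb : ∀ h, y < h → b1 h = 0) (hr : ∀ ν, conj (b2 ν) = b2 ν) (hu : ∀ ν, ¬ ν.Coprime q → b2 ν = 0)
    (h12 : ∀ χ : DirichletCharacter ℂ q, tl χ b1 = tl χ b2) {z : ℂ} (hz : 0 < z.re) :
    ∑ χ ∈ S, ‖Ps k y (tl χ lam) (tl χ b2) z‖ ^ 2 ≤ (q.totient : ℝ) / q *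
      ∑ j ∈ (univ : Finset (ZMod q)).filter (fun z => IsUnit z), ‖Th (sc k y lam b1) (Bw k b2) y j z‖ ^ 2 := by
  refine bessel S hS (fun j => Th (sc k y lam b1) (Bw k b2) y j z) (fun χ => Ps k y (tl χ lam) (tl χ b2) z) ?_
  intro χ hχ
  unfold Th Ps
  rw [← h12 χ]
  have h1 : ∀ j : ZMod q, χ⁻¹ j * ∑ ν ∈ Icc 1 y, Bw k b2 ν * Pj (sc k y lam b1) (j * (ν : ZMod q)⁻¹) (z / ν) =
      ∑ ν ∈ Icc 1 y, Bw k b2 ν * (χ⁻¹ j * Pj (sc k y lam b1) (j * (ν : ZMod q)⁻¹) (z / ν)) := by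
    intro j
    rw [mul_sum]
    exact sum_congr rfl fun ν _ => by ring
  simp only [h1]
  rw [sum_comm, mul_sum]
  refine sum_congr rfl fun ν hν => ?_
  have hν0 : (0 : ℝ) < ν := by exact_mod_cast (mem_Icc.1 hν).1
  rw [← mul_sum]
  have h3 : conj (Bw k (tl χ b1) ν) = conj (χ (ν : ZMod q)) * Bw k b2 ν := by
    rw [h12 χ]
    unfold Bw tl
    rw [map_mul, map_mul, Complex.conj_ofReal, hr]
    ring
  by_cases hc : ν.Coprime q
  · have h2 : 0 < (z / ν).re := by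
      rw [show z / (ν : ℂ) = z / ((ν : ℝ) : ℂ) by push_cast; rfl, Complex.div_ofReal_re]
      positivity
    rw [gauss_Pj hF hco (hS χ hχ) hb hc h2, h3]
    ring
  · rw [h3]
    unfold Bw
    rw [hu ν hc]
    ring

end Pool.Agent.K9h29.SP
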