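import Pool.Agent.K9h29.ZD.QChar
import Pool.Agent.H385R2.Gauss
import Pool.Agent.W440.TW.Twist

set_option autoImplicit false

/-!
# Ramanujan sums and Bessel's inequality for primitive characters
-/

namespace Pool.Agent.K9h29.SP

open Complex Finset ArithmeticFunction
open scoped ComplexConjugate ArithmeticFunction.Moebius ArithmeticFunction.zeta

section

variable {q : ℕ} [NeZero q]

/-- the Ramanujan sum -/
noncomputable def cq (w : ZMod q) : ℂ := ∑ z ∈ (univ : Finset (ZMod q)).filter (fun z => IsUnit z), ZMod.stdAddChar (z * w)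

theorem cq_unit {u : ZMod q} (hu : IsUnit u) (w : ZMod q) : cq (u * w) = cq w := by
  unfold cq
  refine sum_bij' (fun z _ => z * u) (fun z _ => z * (hu.unit⁻¹ : (ZMod q)ˣ)) ?_ ?_ ?_ ?_ ?_
  · intro z hz
    rw [mem_filter] at hz ⊢
    exact ⟨mem_univ _, hz.2.mul hu⟩
  · intro z hz
    rw [mem_filter] at hz ⊢
    exact ⟨mem_univ _, hz.2.mul (Units.isUnit _)⟩
  · intro z _
    have : u * ((hu.unit⁻¹ : (ZMod q)ˣ) : ZMod q) = 1 := hu.mul_val_inv
    rw [mul_assoc, this, mul_one]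
  · intro z _
    have : ((hu.unit⁻¹ : (ZMod q)ˣ) : ZMod q) * u = 1 := hu.val_inv_mul
    rw [mul_assoc, this, mul_one]
  · intro z _
    rw [mul_assoc]

theorem mob_ind (n : ℕ) (_hn : n ≠ 0) : ∑ d ∈ n.divisors, (μ d : ℂ) = if n = 1 then 1 else 0 := by
  have h1 : (μ * ζ : ArithmeticFunction ℤ) n = (1 : ArithmeticFunction ℤ) n := by rw [moebius_mul_coe_zeta]
  rw [coe_mul_zeta_apply, one_apply] at h1
  have h2 : ((∑ d ∈ n.divisors, μ d : ℤ) : ℂ) = ((if n = 1 then 1 else 0 : ℤ) : ℂ) := by rw [h1]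
  push_cast at h2
  exact h2

theorem inner_sum {d e : ℕ} [NeZero e] (hd : d ≠ 0) (hq : q = d * e) (r : ℤ) :
    ∑ b ∈ (range q).filter (fun b => d ∣ b), (ZMod.stdAddChar (((b : ZMod q)) * (r : ZMod q)) : ℂ) =
      if (e : ℤ) ∣ r then (e : ℂ) else 0 := by
  have h1 : ∑ b ∈ (range q).filter (fun b => d ∣ b), (ZMod.stdAddChar (((b : ZMod q)) * (r : ZMod q)) : ℂ) =
      ∑ c ∈ range e, (ZMod.stdAddChar ((c : ZMod e) * (r : ZMod e)) : ℂ) := by
    refine sum_bij' (fun b _ => b / d) (fun c _ => d * c) ?_ ?_ ?_ ?_ ?_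
    · intro b hb
      rw [mem_filter, mem_range] at hb
      rw [mem_range]
      rw [Nat.div_lt_iff_lt_mul (Nat.pos_of_ne_zero hd), mul_comm]
      rw [← hq]
      exact hb.1
    · intro c hc
      rw [mem_range] at hc
      rw [mem_filter, mem_range]
      refine ⟨?_, dvd_mul_right _ _⟩
      rw [hq]
      exact Nat.mul_lt_mul_of_pos_left hc (Nat.pos_of_ne_zero hd)
    · intro b hb
      rw [mem_filter] at hb
      exact Nat.mul_div_cancel' hb.2
    · intro c _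
      exact Nat.mul_div_cancel_left _ (Nat.pos_of_ne_zero hd)
    · intro b hb
      rw [mem_filter] at hb
      obtain ⟨c, rfl⟩ := hb.2
      have e1 : (((d * c : ℕ) : ZMod q)) * (r : ZMod q) = ((d * c * r : ℤ) : ZMod q) := by push_cast; ring
      have e2 : (((d * c / d : ℕ) : ZMod e)) * (r : ZMod e) = ((c * r : ℤ) : ZMod e) := by
        rw [Nat.mul_div_cancel_left _ (Nat.pos_of_ne_zero hd)]
        push_cast
        ring
      rw [e1, e2, ZMod.stdAddChar_coe, ZMod.stdAddChar_coe]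
      congr 1
      have hd' : (d : ℂ) ≠ 0 := by exact_mod_cast hd
      have he' : (e : ℂ) ≠ 0 := by exact_mod_cast NeZero.ne e
      have hq' : (q : ℂ) = d * e := by rw [hq]; push_cast; ring
      rw [hq']
      push_cast
      field_simp
  rw [h1, H385.sum_range_zmod (fun z : ZMod e => (ZMod.stdAddChar (z * (r : ZMod e)) : ℂ)), H385.sum_stdAddChar_mul]
  simp only [ZMod.intCast_zmod_eq_zero_iff_dvd]

theorem cq_le (r : ℤ) : ‖cq (r : ZMod q)‖ ≤ ∑ d ∈ q.divisors, if (d : ℤ) ∣ r then (d : ℝ) else 0 := by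
  have hq0 : q ≠ 0 := NeZero.ne q
  have h1 : cq (r : ZMod q) = ∑ b ∈ (range q).filter (fun b => Nat.Coprime b q),
      (ZMod.stdAddChar (((b : ZMod q)) * (r : ZMod q)) : ℂ) := by
    unfold cq
    symm
    refine sum_bij (fun b _ => (b : ZMod q)) ?_ ?_ ?_ ?_
    · intro b hb
      rw [mem_filter] at hb ⊢
      exact ⟨mem_univ _, (ZMod.isUnit_iff_coprime b q).2 hb.2⟩
    · intro a ha b hb hab
      rw [mem_filter, mem_range] at ha hb
      rw [ZMod.natCast_eq_natCast_iff'] at hab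
      rwa [Nat.mod_eq_of_lt ha.1, Nat.mod_eq_of_lt hb.1] at hab
    · intro z hz
      rw [mem_filter] at hz
      refine ⟨z.val, ?_, ZMod.natCast_zmod_val z⟩
      rw [mem_filter, mem_range]
      refine ⟨ZMod.val_lt z, ?_⟩
      rw [← ZMod.isUnit_iff_coprime, ZMod.natCast_zmod_val]
      exact hz.2
    · intro b _
      rfl
  have h2 : cq (r : ZMod q) = ∑ d ∈ q.divisors, (μ d : ℂ) * ∑ b ∈ (range q).filter (fun b => d ∣ b),
      (ZMod.stdAddChar (((b : ZMod q)) * (r : ZMod q)) : ℂ) := by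
    rw [h1, sum_filter]
    have h3 : ∀ b ∈ range q, (if Nat.Coprime b q then (ZMod.stdAddChar (((b : ZMod q)) * (r : ZMod q)) : ℂ) else 0) =
        ∑ d ∈ q.divisors, (μ d : ℂ) * (if d ∣ b then (ZMod.stdAddChar (((b : ZMod q)) * (r : ZMod q)) : ℂ) else 0) := by
      intro b _
      have hg : Nat.gcd b q ≠ 0 := by
        intro h
        exact hq0 (Nat.eq_zero_of_gcd_eq_zero_right h)
      have h4 := mob_ind (Nat.gcd b q) hg
      have h5 : (Nat.gcd b q).divisors = q.divisors.filter (fun d => d ∣ b) := by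
        ext d
        rw [mem_filter, Nat.mem_divisors, Nat.mem_divisors, Nat.dvd_gcd_iff]
        constructor
        · intro h; exact ⟨⟨h.1.2, hq0⟩, h.1.1⟩
        · intro h; exact ⟨⟨h.2, h.1.1⟩, hg⟩
      rw [h5, sum_filter] at h4
      have h6 : (if Nat.Coprime b q then (ZMod.stdAddChar (((b : ZMod q)) * (r : ZMod q)) : ℂ) else 0) =
          (if Nat.gcd b q = 1 then 1 else 0) * (ZMod.stdAddChar (((b : ZMod q)) * (r : ZMod q)) : ℂ) := by
        unfold Nat.Coprime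
        split_ifs <;> simp
      rw [h6, ← h4, sum_mul]
      refine sum_congr rfl fun d _ => ?_
      split_ifs <;> simp
    rw [sum_congr rfl h3, sum_comm]
    refine sum_congr rfl fun d _ => ?_
    rw [← mul_sum, sum_filter]
  rw [h2]
  refine (norm_sum_le _ _).trans ?_
  rw [← Nat.sum_div_divisors q (fun d => if (d : ℤ) ∣ r then (d : ℝ) else 0)]
  refine sum_le_sum fun d hd => ?_
  obtain ⟨e, he⟩ := Nat.dvd_of_mem_divisors hd
  have hd0 : d ≠ 0 := fun h => hq0 (by rw [he, h, zero_mul])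
  have he0 : e ≠ 0 := fun h => hq0 (by rw [he, h, mul_zero])
  have : NeZero e := ⟨he0⟩
  have h7 : q / d = e := by rw [he]; exact Nat.mul_div_cancel_left _ (Nat.pos_of_ne_zero hd0)
  rw [inner_sum hd0 he r, norm_mul, h7]
  have h8 : ‖(μ d : ℂ)‖ ≤ 1 := by
    rw [Complex.norm_intCast]
    exact_mod_cast abs_moebius_le_one
  split_ifs
  · rw [Complex.norm_natCast]
    have : (0 : ℝ) ≤ e := Nat.cast_nonneg e
    nlinarith
  · simp

theorem cq_neg (w : ZMod q) : cq (-w) = cq w := by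
  have := cq_unit (u := (-1 : ZMod q)) isUnit_one.neg w
  rwa [neg_one_mul] at this

theorem cq_sum (Z : ℕ) : ∑ r ∈ Icc 1 Z, ‖cq ((r : ℕ) : ZMod q)‖ ≤ Z * (q.divisors.card : ℝ) := by
  have h1 : ∀ r : ℕ, ‖cq ((r : ℕ) : ZMod q)‖ ≤ ∑ d ∈ q.divisors, if d ∣ r then (d : ℝ) else 0 := by
    intro r
    have := cq_le (q := q) (r : ℤ)
    simpa only [Int.cast_natCast, Int.natCast_dvd_natCast] using this
  refine (sum_le_sum fun r _ => h1 r).trans ?_
  rw [sum_comm]
  have h2 : ∀ d ∈ q.divisors, ∑ r ∈ Icc 1 Z, (if d ∣ r then (d : ℝ) else 0) ≤ Z := by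
    intro d hd
    have hd0 : 0 < d := Nat.pos_of_mem_divisors hd
    rw [← sum_filter, sum_const, nsmul_eq_mul]
    have h3 : ((Icc 1 Z).filter (fun r => d ∣ r)).card = Z / d := by
      rw [← Nat.Ioc_filter_dvd_card_eq_div]
      rfl
    rw [h3]
    have h4 : Z / d * d ≤ Z := Nat.div_mul_le_self Z d
    exact_mod_cast h4
  refine (sum_le_sum h2).trans ?_
  rw [sum_const, nsmul_eq_mul]
  exact le_of_eq (mul_comm _ _)

theorem bessel (S : Finset (DirichletCharacter ℂ q)) (hS : ∀ χ ∈ S, χ.IsPrimitive) (Θ : ZMod q → ℂ)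
    (Ψ : DirichletCharacter ℂ q → ℂ)
    (h : ∀ χ ∈ S, ∑ z, χ⁻¹ z * Θ z = gaussSum χ⁻¹ ZMod.stdAddChar * Ψ χ) :
    ∑ χ ∈ S, ‖Ψ χ‖ ^ 2 ≤ (q.totient : ℝ) / q *
      ∑ z ∈ (univ : Finset (ZMod q)).filter (fun z => IsUnit z), ‖Θ z‖ ^ 2 := by
  have hq : (0 : ℝ) < q := by exact_mod_cast Nat.pos_of_ne_zero (NeZero.ne q)
  have h1 : ∀ χ ∈ S, (q : ℝ) * ‖Ψ χ‖ ^ 2 = ‖∑ z, χ⁻¹ z * Θ z‖ ^ 2 := by
    intro χ hχ
    have h2 := H385.GaussAux.norm_sq_gaussSum (Pool.Agent.W440.TW.inv_primitive χ (hS χ hχ))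
    rw [h χ hχ, norm_mul, mul_pow, h2]
  have h3 : (q : ℝ) * ∑ χ ∈ S, ‖Ψ χ‖ ^ 2 ≤ (q.totient : ℝ) *
      ∑ z ∈ (univ : Finset (ZMod q)).filter (fun z => IsUnit z), ‖Θ z‖ ^ 2 := by
    rw [mul_sum, sum_congr rfl h1, ← H385.parseval]
    exact sum_le_sum_of_subset_of_nonneg (subset_univ S) fun _ _ _ => by positivity
  rw [div_mul_eq_mul_div, le_div_iff₀ hq]
  linarith

end

end Pool.Agent.K9h29.SP
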