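import Pool.Agent.K9h29.SP.Gf

set_option autoImplicit false

/-!
# Second moments, uniformly in the modulus
-/

namespace Pool.Agent.K9h29.SP

open Complex Filter Topology MeasureTheory Set Asymptotics FourierTransform
open scoped ComplexConjugate ENNReal
open Pool.Agent.Y671.GL Pool.Agent.Y412.GLB Pool.Agent.Y412.GLP
open Pool.Agent.K9h29.ZD (S_SCU tl TwF)
open Pool.Agent.H24R2.DZ (ray MM)

variable {k N : ℕ} {ps lam : ℕ → ℂ} {P0 : ℕ} {th Cd : ℝ}

theorem xc_eq (N q : ℕ) : xc N q = 2 * Real.pi / Real.sqrt ((N * q ^ 2 : ℕ) : ℝ) := by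
  unfold xc
  push_cast
  rw [Real.sqrt_mul (Nat.cast_nonneg _), Real.sqrt_sq (Nat.cast_nonneg _), mul_comm (q : ℝ)]

/-- the function in logarithmic coordinates, for a character -/
noncomputable def Gc (k N : ℕ) (lam : ℕ → ℂ) (P0 : ℕ) (θ : ℝ) {q : ℕ} (T : ℝ) (χ : DirichletCharacter ℂ q) : ℝ → ℂ :=
  Gf k (yT θ (q * T)) (tl χ lam) (tl χ (bb lam P0 θ q T)) (1 / T) (xc N q)

theorem pi_half_gt {T : ℝ} (hT : 10 ≤ T) : 0 < 1 / T ∧ 1 / T < Real.pi / 2 := by
  refine ⟨by positivity, ?_⟩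
  have : 1 / T ≤ 1 / 10 := one_div_le_one_div_of_le (by norm_num) hT
  linarith [Real.pi_gt_three]

theorem Gc_ed (hF : TwF k N ps lam) {q : ℕ} [NeZero q] (hco : q.Coprime N) {χ : DirichletCharacter ℂ q}
    (hχ : χ.IsPrimitive) (θ : ℝ) {T : ℝ} (hT : 10 ≤ T) : Ed (Gc k N lam P0 θ T χ) := by
  have hN0 : (0 : ℝ) < N := by exact_mod_cast hF.frm.N_pos
  have hq0 : (0 : ℝ) < q := by exact_mod_cast Nat.pos_of_ne_zero (NeZero.ne q)
  exact Gf_ed (hF.tw q χ hχ hco) (pi_half_gt hT).1 (pi_half_gt hT).2 _ _ (by unfold xc; positivity)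

theorem sec_gen (hF : TwF k N ps lam) {q : ℕ} [NeZero q] (hco : q.Coprime N)
    (S : Finset (DirichletCharacter ℂ q)) (hS : ∀ χ ∈ S, χ.IsPrimitive) {θ T : ℝ} (hT : 10 ≤ T)
    {m : ℝ → ℂ} (hm : Continuous m) (hms : ∀ u, ‖m (-u)‖ = ‖m u‖) {M : ℝ} (hM : ∀ u, ‖m u‖ ≤ M)
    {w : ℕ → ℝ} (hw : ∀ (i : ℕ) (u : ℝ), i * Real.log 2 ≤ u → u ≤ (i + 1 : ℕ) * Real.log 2 → ‖m u‖ ^ 2 ≤ w i)
    {Bd : ℝ} (hBd : ∀ I : ℕ, ∑ i ∈ Finset.range I, w i * ∫ x in (2 ^ i * xc N q)..(2 * (2 ^ i * xc N q)),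
      (∑ χ ∈ S, ‖Ps k (yT θ (q * T)) (tl χ lam) (tl χ (bb lam P0 θ q T)) (ray (1 / T) x)‖ ^ 2) *
        x ^ ((k : ℝ) - 1) ≤ Bd) {A B : ℝ} (hAB : A ≤ B) :
    ∑ χ ∈ S, ∫ t in A..B, ‖Fq (fun u => Gc k N lam P0 θ T χ u * m u) t‖ ^ 2 ≤ 4 * Real.pi * Bd := by
  have hN0 : (0 : ℝ) < N := by exact_mod_cast hF.frm.N_pos
  have hq0 : (0 : ℝ) < q := by exact_mod_cast Nat.pos_of_ne_zero (NeZero.ne q)
  have hx1 : 0 < xc N q := by unfold xc; positivity
  have hδ := pi_half_gt hT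
  have hEd : ∀ χ ∈ S, Ed (fun u => Gc k N lam P0 θ T χ u * m u) := fun χ hχ =>
    (Gc_ed hF hco (hS χ hχ) θ hT).mul hm hM
  have h1 : ∑ χ ∈ S, ∫ t in A..B, ‖Fq (fun u => Gc k N lam P0 θ T χ u * m u) t‖ ^ 2 ≤
      ∑ χ ∈ S, 2 * Real.pi * ∫ u, ‖Gc k N lam P0 θ T χ u * m u‖ ^ 2 :=
    Finset.sum_le_sum fun χ hχ => (hEd χ hχ).plan hAB
  refine h1.trans ?_
  rw [← Finset.mul_sum]
  have h2 : ∑ χ ∈ S, ∫ u, ‖Gc k N lam P0 θ T χ u * m u‖ ^ 2 ≤ 2 * Bd := by
    have hlim : Tendsto (fun I : ℕ => ∑ χ ∈ S, ∫ u in (-(I * Real.log 2))..(I * Real.log 2),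
        ‖Gc k N lam P0 θ T χ u * m u‖ ^ 2) atTop (𝓝 (∑ χ ∈ S, ∫ u, ‖Gc k N lam P0 θ T χ u * m u‖ ^ 2)) := by
      refine tendsto_finsetSum _ fun χ hχ => ?_
      have hl2 : 0 < Real.log 2 := Real.log_pos (by norm_num)
      have ht : Tendsto (fun I : ℕ => (I : ℝ) * Real.log 2) atTop atTop :=
        tendsto_natCast_atTop_atTop.atTop_mul_const hl2
      exact intervalIntegral_tendsto_integral (hEd χ hχ).int2 (tendsto_neg_atTop_atBot.comp ht) ht
    refine le_of_tendsto' hlim fun I => ?_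
    have h3 : ∀ χ ∈ S, ∫ u in (-(I * Real.log 2))..(I * Real.log 2), ‖Gc k N lam P0 θ T χ u * m u‖ ^ 2 ≤
        2 * ∑ i ∈ Finset.range I, w i * ∫ x in (2 ^ i * xc N q)..(2 * (2 ^ i * xc N q)),
          ‖Ps k (yT θ (q * T)) (tl χ lam) (tl χ (bb lam P0 θ q T)) (ray (1 / T) x)‖ ^ 2 * x ^ ((k : ℝ) - 1) := by
      intro χ hχ
      exact Gf_mass (hF.tw q χ (hS χ hχ) hco) hδ.1 hδ.2 _ _ (xc_eq N q) hm hms hw I
    refine (Finset.sum_le_sum h3).trans ?_
    rw [← Finset.mul_sum]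
    apply mul_le_mul_of_nonneg_left _ (by norm_num)
    refine le_trans (le_of_eq ?_) (hBd I)
    rw [Finset.sum_comm]
    refine Finset.sum_congr rfl fun i _ => ?_
    rw [← Finset.mul_sum]
    congr 1
    have hX : (0 : ℝ) < 2 ^ i * xc N q := by positivity
    have hle : (2 : ℝ) ^ i * xc N q ≤ 2 * (2 ^ i * xc N q) := by linarith
    rw [← intervalIntegral.integral_finsetSum]
    · refine intervalIntegral.integral_congr fun x _ => ?_
      exact (Finset.sum_mul _ _ _).symm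
    · intro χ hχ
      apply ContinuousOn.intervalIntegrable
      intro x hx
      rw [uIcc_of_le hle] at hx
      have hx0 : 0 < x := lt_of_lt_of_le hX hx.1
      refine ContinuousWithinAt.mul ?_ ?_
      · exact (((Ps_ray_cont (hF.tw q χ (hS χ hχ) hco) hδ.1 hδ.2 _ _).continuousAt
          (Ioi_mem_nhds hx0)).norm.pow 2).continuousWithinAt
      · exact (Real.continuousAt_rpow_const _ _ (Or.inl hx0.ne')).continuousWithinAt
  have hpi := Real.pi_pos
  calc 2 * Real.pi * ∑ χ ∈ S, ∫ u, ‖Gc k N lam P0 θ T χ u * m u‖ ^ 2 ≤ 2 * Real.pi * (2 * Bd) := by gcongr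
    _ = _ := by ring

/-- the weights of the short intervals -/
noncomputable def wH (H : ℝ) (i : ℕ) : ℝ := if i = 0 then H ^ 2 else min (H ^ 2) (4 / (i * Real.log 2) ^ 2)

theorem wH_nonneg (H : ℝ) (i : ℕ) : 0 ≤ wH H i := by
  unfold wH
  split_ifs
  · positivity
  · exact le_min (by positivity) (by positivity)

theorem wH_anti (H : ℝ) : Antitone (wH H) := by
  intro i j hij
  unfold wH
  have hl2 : 0 < Real.log 2 := Real.log_pos (by norm_num)
  split_ifs with h1 h2 h2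
  · exact le_rfl
  · omega
  · exact min_le_left _ _
  · refine le_min (min_le_left _ _) ((min_le_right _ _).trans ?_)
    have hi : (0 : ℝ) < i := by exact_mod_cast Nat.pos_of_ne_zero h2
    have hij' : (i : ℝ) ≤ j := by exact_mod_cast hij
    gcongr

theorem wH_m {H : ℝ} (hH : 0 ≤ H) (i : ℕ) (u : ℝ) (h1 : i * Real.log 2 ≤ u) (_h2 : u ≤ (i + 1 : ℕ) * Real.log 2) :
    ‖mH H u‖ ^ 2 ≤ wH H i := by
  unfold wH
  have hl2 : 0 < Real.log 2 := Real.log_pos (by norm_num)
  have h3 := mH_le hH u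
  have h4 : ‖mH H u‖ ^ 2 ≤ H ^ 2 := pow_le_pow_left₀ (norm_nonneg _) h3 2
  split_ifs with h
  · exact h4
  · refine le_min h4 ?_
    have hi : (0 : ℝ) < i := by exact_mod_cast Nat.pos_of_ne_zero h
    have hu : 0 < u := lt_of_lt_of_le (by positivity) h1
    have h5 := mH_le2 H hu.ne'
    rw [abs_of_pos hu] at h5
    have h6 : 2 / u ≤ 2 / (i * Real.log 2) := by gcongr
    calc ‖mH H u‖ ^ 2 ≤ (2 / (i * Real.log 2)) ^ 2 := pow_le_pow_left₀ (norm_nonneg _) (h5.trans h6) 2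
      _ = _ := by rw [div_pow]; norm_num

theorem wH_sum {H : ℝ} (hH : 0 < H) (hH1 : H ≤ 1) (j : ℕ) : ∑ i ∈ Finset.range (j + 1), wH H i ≤ 37 * H := by
  have hl2 : (0.69 : ℝ) < Real.log 2 := by have := Real.log_two_gt_d9; linarith
  have key : ∀ j : ℕ, ∑ i ∈ Finset.range (j + 1), wH H i ≤ H ^ 2 + 36 * (H - H / (1 + H * j)) := by
    intro j
    induction j with
    | zero =>
      rw [zero_add, Finset.sum_range_one]
      unfold wH
      simp
    | succ j ih =>
      rw [Finset.sum_range_succ]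
      have h1 : wH H (j + 1) ≤ 36 * (H / (1 + H * j) - H / (1 + H * ((j + 1 : ℕ) : ℝ))) := by
        obtain ⟨x, hx⟩ : ∃ x : ℝ, x = H * ((j + 1 : ℕ) : ℝ) := ⟨_, rfl⟩
        have hj0 : (0 : ℝ) ≤ j := Nat.cast_nonneg _
        have hx0 : 0 < x := by rw [hx]; positivity
        have hxj : H * j = x - H := by rw [hx]; push_cast; ring
        have h2 : H / (1 + H * j) - H / (1 + H * ((j + 1 : ℕ) : ℝ)) ≥ H ^ 2 / (1 + x) ^ 2 := by
          rw [← hx, hxj]
          have hxH : H ≤ x := by rw [hx]; push_cast; nlinarith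
          have h3 : 0 < 1 + (x - H) := by linarith
          have h4 : H / (1 + (x - H)) - H / (1 + x) = H ^ 2 / ((1 + (x - H)) * (1 + x)) := by
            field_simp
            ring
          rw [h4, ge_iff_le, sq (1 + x)]
          apply div_le_div_of_nonneg_left (by positivity) (by positivity)
          apply mul_le_mul_of_nonneg_right _ (by linarith)
          linarith
        refine le_trans ?_ (mul_le_mul_of_nonneg_left h2 (by norm_num))
        unfold wH
        rw [if_neg (by omega)]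
        rcases le_or_gt x 1 with hx1 | hx1
        · refine (min_le_left _ _).trans ?_
          rw [← mul_div_assoc, le_div_iff₀ (by positivity)]
          have : (1 + x) ^ 2 ≤ 4 := by nlinarith
          nlinarith [sq_nonneg H]
        · refine (min_le_right _ _).trans ?_
          have h5 : ((j + 1 : ℕ) : ℝ) * Real.log 2 = x * Real.log 2 / H := by rw [hx]; field_simp
          rw [h5, div_pow, div_div_eq_mul_div, ← mul_div_assoc, div_le_div_iff₀ (by positivity) (by positivity)]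
          have h6 : (1 + x) ^ 2 ≤ 4 * x ^ 2 := by nlinarith
          have h7 : 0 ≤ 4 * H ^ 2 := by positivity
          have h8 : 4 * x ^ 2 ≤ 9 * (x * Real.log 2) ^ 2 := by
            rw [mul_pow]
            have : 4 / 9 ≤ Real.log 2 ^ 2 := by nlinarith
            nlinarith [sq_nonneg x]
          calc 4 * H ^ 2 * (1 + x) ^ 2 ≤ 4 * H ^ 2 * (9 * (x * Real.log 2) ^ 2) :=
                mul_le_mul_of_nonneg_left (h6.trans h8) h7
            _ = _ := by ring
      linarith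
  refine (key j).trans ?_
  have h9 : 0 ≤ H / (1 + H * j) := by positivity
  nlinarith

theorem wH_last {H : ℝ} {j : ℕ} (hj : 1 ≤ j) : wH H j ≤ 4 / (j * Real.log 2) ^ 2 := by
  unfold wH
  rw [if_neg (by omega)]
  exact min_le_right _ _

theorem sec (h0 : S_SCU) (hF : TwF k N ps lam) (hd : HD lam P0 th Cd) :
    ∃ θ C T0 : ℝ, 0 < θ ∧ θ ≤ 1 / 200 ∧ 0 < C ∧ 2000 ≤ T0 ∧ ∀ (q : ℕ) [NeZero q], q.Coprime N →
    ∀ (S : Finset (DirichletCharacter ℂ q)), (∀ χ ∈ S, χ.IsPrimitive) → ∀ (T : ℝ), T0 ≤ T →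
    (∀ A B : ℝ, A ≤ B → ∑ χ ∈ S, ∫ t in A..B, ‖Fq (Gc k N lam P0 θ T χ) t‖ ^ 2 ≤
      C * T ^ k * ((q.totient : ℝ) ^ 2 / q)) ∧
    (∀ H A B : ℝ, 1 / LL q T ≤ H → H ≤ 1 → A ≤ B →
      ∑ χ ∈ S, ∫ t in A..B, ‖∫ s in t..(t + H), Fq (Gc k N lam P0 θ T χ) s‖ ^ 2 ≤
      C * T ^ k * ((q.totient : ℝ) ^ 2 / q) * (H / LL q T)) := by
  obtain ⟨θ, c', C, hθ, hθ2, hc', hC, hmass⟩ := mass h0 hF hd
  have hN1 : (1 : ℝ) ≤ N := by exact_mod_cast hF.frm.N_pos
  refine ⟨θ, 4 * Real.pi * C * (300 + 1 / c'), 2000, hθ, hθ2, by positivity, le_rfl, ?_⟩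
  intro q _ hco S hS T hT
  have hT10 : 10 ≤ T := by linarith
  have hT0 : 0 < T := by linarith
  have hq1 : (1 : ℝ) ≤ q := by exact_mod_cast Nat.one_le_iff_ne_zero.2 (NeZero.ne q)
  have hq0 : (0 : ℝ) < q := by linarith
  obtain ⟨M, hM⟩ : ∃ M : ℝ, M = q * T := ⟨_, rfl⟩
  have hM2000 : 2000 ≤ M := by rw [hM]; nlinarith
  have hM0 : 0 < M := by linarith
  have hM1 : 1 ≤ M := by linarith
  obtain ⟨L, hL⟩ : ∃ L : ℝ, L = LL q T := ⟨_, rfl⟩
  have hLM : L = Real.log M := by rw [hL, hM]; rfl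
  have hl2 : (0.69 : ℝ) < Real.log 2 := by have := Real.log_two_gt_d9; linarith
  have hl2' : Real.log 2 < (0.7 : ℝ) := by have := Real.log_two_lt_d9; linarith
  have hL7 : 6.9 ≤ L := by
    have h1 : Real.log (2 ^ 10 : ℝ) ≤ Real.log M := Real.log_le_log (by norm_num) (by norm_num; linarith)
    rw [Real.log_pow] at h1
    rw [hLM]
    push_cast at h1
    linarith
  have hL0 : 0 < L := by linarith
  have hexpL : Real.exp L = M := by rw [hLM, Real.exp_log hM0]
  have hx1 : 0 < xc N q := by unfold xc; positivity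
  have hR : M / (2 * Real.pi) ≤ T / xc N q := by
    unfold xc
    have h3 : T / (2 * Real.pi / (q * Real.sqrt N)) = M * Real.sqrt N / (2 * Real.pi) := by
      rw [hM]; field_simp
    rw [h3]
    have hsN : 1 ≤ Real.sqrt N := Real.one_le_sqrt.2 hN1
    gcongr
    nlinarith
  obtain ⟨P, hP⟩ : ∃ P : ℝ, P = (q.totient : ℝ) ^ 2 / q := ⟨_, rfl⟩
  have hP0 : 0 ≤ P := by rw [hP]; positivity
  have hTk : 0 < T ^ k := by positivity
  have hMc : M ^ (-c') ≤ 1 / c' / L := by
    have h1 := Real.log_le_rpow_div hM0.le hc'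
    rw [← hLM] at h1
    rw [Real.rpow_neg hM0.le, le_div_iff₀ hL0]
    have h2 : 0 < M ^ c' := by positivity
    calc (M ^ c')⁻¹ * L ≤ (M ^ c')⁻¹ * (M ^ c' / c') := by gcongr
      _ = 1 / c' := by field_simp
  have hMc0 : 0 < M ^ (-c') := by positivity
  have hquarter : 2 * Real.pi ≤ Real.exp (L / 4) := by
    have h1 : Real.exp (L / 4) ^ 4 = M := by
      rw [← Real.exp_nat_mul, ← hexpL]
      congr 1
      push_cast
      ring
    by_contra hc
    push Not at hc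
    have h2 : Real.exp (L / 4) ^ 4 < (2 * Real.pi) ^ 4 := pow_lt_pow_left₀ hc (Real.exp_pos _).le (by norm_num)
    rw [h1] at h2
    have h3 : (2 * Real.pi) ^ 4 ≤ (6.2832 : ℝ) ^ 4 := by
      apply pow_le_pow_left₀ (by positivity)
      have := Real.pi_lt_d6
      linarith
    norm_num at h3
    linarith
  rw [← hL, ← hP]
  constructor
  · -- the plain second moment
    intro A B hAB
    have hj : Real.exp (1 / 2 * L) * 2 ^ 0 ≤ T / xc N q := by
      refine le_trans ?_ hR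
      rw [pow_zero, mul_one, le_div_iff₀ (by positivity)]
      calc Real.exp (1 / 2 * L) * (2 * Real.pi) ≤ Real.exp (1 / 2 * L) * Real.exp (L / 2) := by
            gcongr
            refine hquarter.trans (Real.exp_le_exp.2 (by linarith))
        _ = M := by rw [← Real.exp_add, ← hexpL]; congr 1; ring
    have hBd : ∀ I : ℕ, ∑ i ∈ Finset.range I, (fun _ => (1 : ℝ)) i * ∫ x in (2 ^ i * xc N q)..(2 * (2 ^ i * xc N q)),
      (∑ χ ∈ S, ‖Ps k (yT θ (q * T)) (tl χ lam) (tl χ (bb lam P0 θ q T)) (ray (1 / T) x)‖ ^ 2) *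
        x ^ ((k : ℝ) - 1) ≤ C * T ^ k * P * (2 + (1 + 1 / c')) := by
      intro I
      have h1 := hmass q hco S hS T I 0 (fun _ => 1) hT10 (fun _ => zero_le_one) antitone_const (by rw [← hL]; exact hj)
      rw [← hL, ← hP] at h1
      refine h1.trans ?_
      rw [← hM]
      apply mul_le_mul_of_nonneg_left _ (by positivity)
      simp only [zero_add, Finset.sum_range_one, one_mul]
      have h2 : 1 / L ≤ 1 := by rw [div_le_one hL0]; linarith
      have h3 : M ^ (-c') ≤ 1 := Real.rpow_le_one_of_one_le_of_nonpos hM1 (by linarith)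
      have h4 : 0 < 1 / c' := by positivity
      linarith
    have h5 := sec_gen hF hco S hS (θ := θ) hT10 (m := fun _ => 1) continuous_const (fun _ => rfl) (M := 1)
      (fun _ => by simp) (w := fun _ => 1) (fun _ _ _ _ => by simp) hBd hAB
    simp only [mul_one] at h5
    refine h5.trans ?_
    have h6 : 0 ≤ C * T ^ k * P := by positivity
    have h7 : 0 < 1 / c' := by positivity
    calc 4 * Real.pi * (C * T ^ k * P * (2 + (1 + 1 / c'))) = 4 * Real.pi * (C * T ^ k * P) * (3 + 1 / c') := by ring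
      _ ≤ 4 * Real.pi * (C * T ^ k * P) * (300 + 1 / c') := by
          apply mul_le_mul_of_nonneg_left _ (by positivity)
          linarith
      _ = _ := by ring
  · -- the short intervals
    intro H A B hH hH1 hAB
    have hH0 : 0 < H := lt_of_lt_of_le (by positivity) hH
    obtain ⟨j, hj⟩ : ∃ j : ℕ, j = ⌊L / (4 * Real.log 2)⌋₊ := ⟨_, rfl⟩
    have hj1 : (j : ℝ) ≤ L / (4 * Real.log 2) := by rw [hj]; exact Nat.floor_le (by positivity)
    have hj2 : L / (4 * Real.log 2) < j + 1 := by rw [hj]; exact Nat.lt_floor_add_one _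
    have hj3 : (j : ℝ) * Real.log 2 ≤ L / 4 := by
      have : L / (4 * Real.log 2) * Real.log 2 = L / 4 := by field_simp
      rw [← this]
      gcongr
    have hj4 : L / 8 ≤ (j : ℝ) * Real.log 2 := by
      have h1 : L / 4 < (j + 1) * Real.log 2 := by
        have : L / (4 * Real.log 2) * Real.log 2 = L / 4 := by field_simp
        rw [← this]
        gcongr
      nlinarith
    have hjpos : 1 ≤ j := by
      by_contra hc
      have : j = 0 := by omega
      rw [this] at hj4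
      simp at hj4
      linarith
    have hjle : Real.exp (1 / 2 * L) * 2 ^ j ≤ T / xc N q := by
      refine le_trans ?_ hR
      have h2 : (2 : ℝ) ^ j = Real.exp (j * Real.log 2) := by
        rw [Real.exp_nat_mul, Real.exp_log (by norm_num)]
      rw [h2, le_div_iff₀ (by positivity)]
      calc Real.exp (1 / 2 * L) * Real.exp (j * Real.log 2) * (2 * Real.pi) ≤
          Real.exp (1 / 2 * L) * Real.exp (L / 4) * Real.exp (L / 4) := by
            gcongr
        _ = M := by rw [← Real.exp_add, ← Real.exp_add, ← hexpL]; congr 1; ring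
    have hBd : ∀ I : ℕ, ∑ i ∈ Finset.range I, wH H i * ∫ x in (2 ^ i * xc N q)..(2 * (2 ^ i * xc N q)),
      (∑ χ ∈ S, ‖Ps k (yT θ (q * T)) (tl χ lam) (tl χ (bb lam P0 θ q T)) (ray (1 / T) x)‖ ^ 2) *
        x ^ ((k : ℝ) - 1) ≤ C * T ^ k * P * ((300 + 1 / c') * (H / L)) := by
      intro I
      have h1 := hmass q hco S hS T I j (wH H) hT10 (wH_nonneg H) (wH_anti H) (by rw [← hL]; exact hjle)
      rw [← hL, ← hP] at h1
      refine h1.trans ?_
      rw [← hM]
      apply mul_le_mul_of_nonneg_left _ (by positivity)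
      have h2 : (∑ i ∈ Finset.range (j + 1), wH H i) / L ≤ 37 * H / L := by
        gcongr
        exact wH_sum hH0 hH1 j
      have h3 : wH H j ≤ 256 * (H / L) := by
        refine (wH_last hjpos).trans ?_
        have h4 : 4 / ((j : ℝ) * Real.log 2) ^ 2 ≤ 4 / (L / 8) ^ 2 := by gcongr
        have h5 : 4 / (L / 8) ^ 2 = 256 * ((1 / L) / L) := by field_simp; norm_num
        rw [h5] at h4
        refine h4.trans ?_
        gcongr
      have h6 : wH H 0 * M ^ (-c') ≤ 1 / c' * (H / L) := by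
        have h7 : wH H 0 = H ^ 2 := by unfold wH; simp
        rw [h7]
        have h8 : H ^ 2 ≤ H := by nlinarith
        calc H ^ 2 * M ^ (-c') ≤ H * (1 / c' / L) := by gcongr
          _ = _ := by ring
      have h9 : 0 ≤ H / L := by positivity
      calc _ ≤ 37 * H / L + 256 * (H / L) + 1 / c' * (H / L) := add_le_add (add_le_add h2 h3) h6
        _ = (293 + 1 / c') * (H / L) := by ring
        _ ≤ _ := by gcongr; norm_num
    have h5 := sec_gen hF hco S hS (θ := θ) hT10 (m := mH H) (mH_cont H) (mH_neg H) (M := H)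
      (mH_le hH0.le) (w := wH H) (wH_m hH0.le) hBd hAB
    have h10 : ∀ χ ∈ S, ∫ t in A..B, ‖∫ s in t..(t + H), Fq (Gc k N lam P0 θ T χ) s‖ ^ 2 =
        ∫ t in A..B, ‖Fq (fun u => Gc k N lam P0 θ T χ u * mH H u) t‖ ^ 2 := by
      intro χ hχ
      refine intervalIntegral.integral_congr fun t _ => ?_
      show ‖∫ s in t..(t + H), Fq (Gc k N lam P0 θ T χ) s‖ ^ 2 = _
      rw [Fq_short (Gc_ed hF hco (hS χ hχ) θ hT10) hH0.le t]
    rw [Finset.sum_congr rfl h10]
    refine h5.trans (le_of_eq ?_)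
    ring

end Pool.Agent.K9h29.SP
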