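import Pool.Agent.K9h29.SP.Ram
import Pool.Agent.K9h29.SP.Dser
import Pool.Agent.K9h29.SP.Fjs
import Pool.Agent.K9h29.SP.NT

set_option autoImplicit false

/-!
# The mollified series over a reduced residue system
-/

namespace Pool.Agent.K9h29.SP

open Complex Finset MeasureTheory
open scoped ComplexConjugate
open Pool.Agent.Y412.GLB Pool.Agent.Y412.GLP

/-- Parseval's identity -/
theorem pars {A : ℕ → ℂ} (hA : PG A) {v : ℝ} (hv : 0 < v) :
    Continuous (fun u : ℝ => ∑' n : ℕ, A n * cexp (-(n * (v + u * I)))) ∧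
    Summable (fun n : ℕ => ‖A n‖ ^ 2 * Real.exp (-(2 * n * v))) ∧
    ∫ u in (0 : ℝ)..(2 * Real.pi), ‖∑' n : ℕ, A n * cexp (-(n * (v + u * I)))‖ ^ 2 =
      2 * Real.pi * ∑' n : ℕ, ‖A n‖ ^ 2 * Real.exp (-(2 * n * v)) := by
  have hn : ∀ n : ℕ, ‖A n * cexp (-(n * v))‖ = ‖A n‖ * Real.exp (-(n * v)) := by
    intro n
    rw [norm_mul, norm_cexp_nat, Complex.ofReal_re]
  have hP := (parseval (fun n => A n * cexp (-(n * v)))
    ((hA.summable hv).congr fun n => (hn n).symm)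
    (fun x => ∑' n : ℕ, A n * cexp (-(n * (v + 2 * Real.pi * I * x)))) (by
      intro x
      refine tsum_congr fun n => ?_
      rw [mul_assoc (A n), ← Complex.exp_add]
      congr 2
      ring))
  have e : ∀ n : ℕ, ‖A n * cexp (-(n * v))‖ ^ 2 = ‖A n‖ ^ 2 * Real.exp (-(2 * n * v)) := by
    intro n
    rw [hn, mul_pow, ← Real.exp_nat_mul]
    congr 2
    push_cast
    ring
  obtain ⟨hc, hP⟩ := hP
  simp_rw [e] at hP
  have hcont : Continuous (fun u : ℝ => ∑' n : ℕ, A n * cexp (-(n * (v + u * I)))) := by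
    have h1 : (fun u : ℝ => ∑' n : ℕ, A n * cexp (-(n * (v + u * I)))) =
        (fun x : ℝ => ∑' n : ℕ, A n * cexp (-(n * (v + 2 * Real.pi * I * x)))) ∘ (fun u : ℝ => u / (2 * Real.pi)) := by
      funext u
      simp only [Function.comp_apply]
      refine tsum_congr fun n => ?_
      congr 3
      have : (Real.pi : ℂ) ≠ 0 := by exact_mod_cast Real.pi_ne_zero
      push_cast
      field_simp
    rw [h1]
    exact hc.comp (by fun_prop)
  refine ⟨hcont, hP.summable, ?_⟩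
  rw [int_two_pi, smul_eq_mul, hP.tsum_eq]
  congr 1
  refine intervalIntegral.integral_congr fun x _ => ?_
  show ‖∑' n : ℕ, A n * cexp (-(n * (v + ((2 * Real.pi * x : ℝ) : ℂ) * I)))‖ ^ 2 =
    ‖∑' n : ℕ, A n * cexp (-(n * (v + 2 * Real.pi * I * x)))‖ ^ 2
  congr 2
  refine tsum_congr fun n => ?_
  congr 3
  push_cast
  ring

section

variable {q : ℕ} [NeZero q]

/-- additive twist of the coefficients -/
noncomputable def ce (a : ZMod q) (C : ℕ → ℂ) (m : ℕ) : ℂ := C m * ZMod.stdAddChar (a * (m : ZMod q))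

theorem norm_e (a : ZMod q) : ‖(ZMod.stdAddChar a : ℂ)‖ = 1 := AddChar.norm_apply _ _

theorem norm_ce (a : ZMod q) (C : ℕ → ℂ) (m : ℕ) : ‖ce a C m‖ = ‖C m‖ := by
  unfold ce
  rw [norm_mul, norm_e, mul_one]

theorem pg_ce {C : ℕ → ℂ} (hC : PG C) (a : ZMod q) : PG (ce a C) := hC.mono fun n _ => (norm_ce a C n).le

/-- the series with additive twist -/
noncomputable def Pj (C : ℕ → ℂ) (a : ZMod q) (z : ℂ) : ℂ := ∑' m : ℕ, ce a C m * cexp (-(m * z))

noncomputable def Th (C B : ℕ → ℂ) (y : ℕ) (j : ZMod q) (z : ℂ) : ℂ :=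
  ∑ ν ∈ Icc 1 y, B ν * Pj C (j * (ν : ZMod q)⁻¹) (z / ν)

/-- the coefficients of `Th` over the frequencies `n / Q` -/
noncomputable def An (C B : ℕ → ℂ) (y Q : ℕ) (j : ZMod q) (n : ℕ) : ℂ :=
  ∑ ν ∈ Icc 1 y, B ν * dil (Q / ν) (ce (j * (ν : ZMod q)⁻¹) C) n

theorem quo_pos {y Q ν : ℕ} (hQ0 : Q ≠ 0) (hQ : ∀ ν ∈ Icc 1 y, ν ∣ Q) (hν : ν ∈ Icc 1 y) : 1 ≤ Q / ν := by
  obtain ⟨c, hc⟩ := hQ ν hν
  rw [mem_Icc] at hν
  rw [hc, Nat.mul_div_cancel_left _ (by omega)]
  rcases Nat.eq_zero_or_pos c with h | h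
  · rw [h] at hc; simp at hc; exact absurd hc hQ0
  · exact h

theorem quo_cast {y Q ν : ℕ} (hQ : ∀ ν ∈ Icc 1 y, ν ∣ Q) (hν : ν ∈ Icc 1 y) :
    ((Q / ν : ℕ) : ℝ) = (Q : ℝ) / ν := by
  have h1 := hQ ν hν
  rw [mem_Icc] at hν
  exact Nat.cast_div h1 (by exact_mod_cast (by omega : ν ≠ 0))

theorem pg_An {C : ℕ → ℂ} (hC : PG C) (B : ℕ → ℂ) {y Q : ℕ} (hQ0 : Q ≠ 0) (hQ : ∀ ν ∈ Icc 1 y, ν ∣ Q) (j : ZMod q) :
    PG (An C B y Q j) := by
  unfold An
  refine PG.sum _ (fun ν n => B ν * dil (Q / ν) (ce (j * (ν : ZMod q)⁻¹) C) n) fun ν hν => ?_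
  exact ((pg_ce hC _).dil _ (quo_pos hQ0 hQ hν)).smul _

theorem Th_ser {C : ℕ → ℂ} (hC : PG C) (B : ℕ → ℂ) {y Q : ℕ} (hQ0 : Q ≠ 0) (hQ : ∀ ν ∈ Icc 1 y, ν ∣ Q) (j : ZMod q)
    {z : ℂ} (hz : 0 < z.re) :
    Th C B y j (Q * z) = ∑' n : ℕ, An C B y Q j n * cexp (-(n * z)) := by
  unfold Th An Pj
  simp only [sum_mul]
  rw [Summable.tsum_finsetSum]
  · refine sum_congr rfl fun ν hν => ?_
    have h1 : ∀ n : ℕ, B ν * dil (Q / ν) (ce (j * (ν : ZMod q)⁻¹) C) n * cexp (-(n * z)) =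
        B ν * (dil (Q / ν) (ce (j * (ν : ZMod q)⁻¹) C) n * cexp (-(n * z))) := fun n => by ring
    rw [tsum_congr h1, tsum_mul_left, ← tsum_dil _ (quo_pos hQ0 hQ hν)]
    congr 1
    refine tsum_congr fun m => ?_
    have h2 : ((Q / ν : ℕ) : ℂ) = (Q : ℂ) / ν := by
      have h3 := congrArg (fun x : ℝ => (x : ℂ)) (quo_cast hQ hν)
      push_cast at h3
      exact h3
    rw [h2]
    congr 3
    ring
  · intro ν hν
    have h1 : ∀ n : ℕ, B ν * dil (Q / ν) (ce (j * (ν : ZMod q)⁻¹) C) n * cexp (-(n * z)) =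
        B ν * (dil (Q / ν) (ce (j * (ν : ZMod q)⁻¹) C) n * cexp (-(n * z))) := fun n => by ring
    refine Summable.congr ?_ (fun n => (h1 n).symm)
    exact (((pg_ce hC _).dil _ (quo_pos hQ0 hQ hν)).summable_c hz).mul_left _

/-- the diagonal coefficient -/
noncomputable def Dg (C B : ℕ → ℂ) (y g a : ℕ) : ℂ := ∑ l ∈ Icc 1 (y / g), B (g * l) * C (a * l)

theorem norm_An {C B : ℕ → ℂ} (hB : ∀ ν, ¬ ν.Coprime q → B ν = 0) {y Q : ℕ} (hQ0 : Q ≠ 0)
    (hQ : ∀ ν ∈ Icc 1 y, ν ∣ Q) (j : ZMod q) {n : ℕ} (hn : 1 ≤ n) :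
    ‖An C B y Q j n‖ = ‖Dg C B y (Q / n.gcd Q) (n / n.gcd Q)‖ := by
  obtain ⟨d, hd⟩ : ∃ d, d = n.gcd Q := ⟨_, rfl⟩
  have hd0 : 0 < d := by rw [hd]; exact Nat.gcd_pos_of_pos_left _ (by omega)
  obtain ⟨a, ha⟩ : d ∣ n := by rw [hd]; exact Nat.gcd_dvd_left _ _
  obtain ⟨g, hg⟩ : d ∣ Q := by rw [hd]; exact Nat.gcd_dvd_right _ _
  have hag : a.Coprime g := by
    have h1 : n.gcd Q = d := hd.symm
    rw [ha, hg, Nat.gcd_mul_left] at h1
    exact Nat.eq_of_mul_eq_mul_left hd0 (by rw [h1, mul_one])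
  have hg0 : 0 < g := by
    rcases Nat.eq_zero_or_pos g with h | h
    · rw [h, mul_zero] at hg; exact absurd hg hQ0
    · exact h
  have ha0 : 0 < a := by
    rcases Nat.eq_zero_or_pos a with h | h
    · rw [h, mul_zero] at ha; omega
    · exact h
  have e1 : Q / n.gcd Q = g := by rw [← hd, hg]; exact Nat.mul_div_cancel_left _ hd0
  have e2 : n / n.gcd Q = a := by rw [← hd, ha]; exact Nat.mul_div_cancel_left _ hd0
  rw [e1, e2]
  -- the terms
  have hterm : An C B y Q j n = ∑ l ∈ Icc 1 (y / g), B (g * l) * (C (a * l) *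
      ZMod.stdAddChar (j * (g : ZMod q)⁻¹ * (a : ZMod q))) := by
    unfold An
    have h1 : ∀ ν ∈ Icc 1 y, ¬ g ∣ ν → B ν * dil (Q / ν) (ce (j * (ν : ZMod q)⁻¹) C) n = 0 := by
      intro ν hν hgν
      unfold dil
      rw [if_neg, mul_zero]
      intro h2
      apply hgν
      have h3 : Q ∣ n * ν := by
        have h4 : Q / ν * ν = Q := Nat.div_mul_cancel (hQ ν hν)
        calc Q = Q / ν * ν := h4.symm
          _ ∣ n * ν := Nat.mul_dvd_mul_right h2 ν
      rw [hg, ha, mul_assoc] at h3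
      have h5 : g ∣ a * ν := (Nat.mul_dvd_mul_iff_left hd0).1 h3
      exact (Nat.Coprime.dvd_of_dvd_mul_left hag.symm h5)
    rw [← sum_filter_of_ne (p := fun ν => g ∣ ν) (fun ν hν h => by
      by_contra hc
      exact h (h1 ν hν hc))]
    symm
    refine sum_bij (fun l _ => g * l) ?_ ?_ ?_ ?_
    · intro l hl
      rw [mem_Icc] at hl
      rw [mem_filter, mem_Icc]
      refine ⟨⟨Nat.mul_pos hg0 (by omega), ?_⟩, dvd_mul_right _ _⟩
      exact (Nat.mul_le_mul_left g hl.2).trans (Nat.mul_div_le y g)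
    · intro l _ l' _ h
      exact Nat.eq_of_mul_eq_mul_left hg0 h
    · intro ν hν
      rw [mem_filter, mem_Icc] at hν
      obtain ⟨l, rfl⟩ := hν.2
      refine ⟨l, ?_, rfl⟩
      rw [mem_Icc]
      constructor
      · rcases Nat.eq_zero_or_pos l with h | h
        · rw [h, mul_zero] at hν; omega
        · exact h
      · rw [Nat.le_div_iff_mul_le hg0, mul_comm]
        exact hν.1.2
    · intro l hl
      rw [mem_Icc] at hl
      by_cases hco : (g * l).Coprime q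
      · congr 1
        have hν : g * l ∈ Icc 1 y := by
          rw [mem_Icc]
          exact ⟨Nat.mul_pos hg0 (by omega), (Nat.mul_le_mul_left g hl.2).trans (Nat.mul_div_le y g)⟩
        obtain ⟨c, hc⟩ := hQ _ hν
        have hgl : 0 < g * l := Nat.mul_pos hg0 (by omega)
        have h6 : Q / (g * l) = c := by rw [hc]; exact Nat.mul_div_cancel_left _ hgl
        have hc0 : 0 < c := by
          rcases Nat.eq_zero_or_pos c with h | h
          · rw [h, mul_zero] at hc; exact absurd hc hQ0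
          · exact h
        have h7 : d = l * c := by
          apply Nat.eq_of_mul_eq_mul_right hg0
          rw [← hg, hc]
          ring
        have h8 : n = c * (a * l) := by rw [ha, h7]; ring
        unfold dil
        rw [h6, if_pos (by rw [h8]; exact dvd_mul_right _ _)]
        have h9 : n / c = a * l := by rw [h8]; exact Nat.mul_div_cancel_left _ hc0
        rw [h9]
        unfold ce
        congr 2
        have hu : IsUnit ((g * l : ℕ) : ZMod q) := (ZMod.isUnit_iff_coprime _ _).2 hco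
        have hug : IsUnit (g : ZMod q) := by
          refine (ZMod.isUnit_iff_coprime _ _).2 (Nat.Coprime.coprime_dvd_left (dvd_mul_right g l) hco)
        have k1 := ZMod.mul_inv_of_unit _ hu
        have k2 := ZMod.mul_inv_of_unit _ hug
        push_cast at k1 ⊢
        linear_combination (j * (a : ZMod q) * ((g : ZMod q) * (l : ZMod q))⁻¹ * (l : ZMod q)) * k2 -
          (j * (a : ZMod q) * (g : ZMod q)⁻¹) * k1
      · rw [hB _ hco, zero_mul, zero_mul]
  rw [hterm]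
  have h3 : ∑ l ∈ Icc 1 (y / g), B (g * l) * (C (a * l) * ZMod.stdAddChar (j * (g : ZMod q)⁻¹ * (a : ZMod q))) =
      Dg C B y g a * ZMod.stdAddChar (j * (g : ZMod q)⁻¹ * (a : ZMod q)) := by
    unfold Dg
    rw [sum_mul]
    refine sum_congr rfl fun l _ => ?_
    ring
  rw [h3, norm_mul, norm_e, mul_one]

end

end Pool.Agent.K9h29.SP
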