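import Pool.Agent.K9h29.SP.Th

set_option autoImplicit false

/-!
# Fourier coefficients of the sum over a reduced residue system
-/

namespace Pool.Agent.K9h29.SP

open Complex Finset MeasureTheory
open scoped ComplexConjugate
open Pool.Agent.Y412.GLB Pool.Agent.Y412.GLP

section

variable {q : ℕ} [NeZero q]

theorem conj_e (a : ZMod q) : conj (ZMod.stdAddChar a : ℂ) = ZMod.stdAddChar (-a) := by
  rw [AddChar.map_neg_eq_conj]

theorem cont_Pj {C : ℕ → ℂ} (hC : PG C) (a : ZMod q) {ν : ℕ} (hν : 1 ≤ ν) {v : ℝ} (hv : 0 < v) (Q : ℝ) :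
    Continuous fun u : ℝ => Pj C a ((v + (Q * u) * I) / ν) := by
  rw [continuous_iff_continuousAt]
  intro u
  have h1 : 0 < (((v : ℂ) + (Q * u) * I) / ν).re := by
    have : ((v : ℂ) + (Q * u) * I) / ν = ((v / ν : ℝ) : ℂ) + ((Q * u / ν : ℝ) : ℂ) * I := by push_cast; ring
    rw [this]
    have : (0 : ℝ) < ν := by exact_mod_cast hν
    simp
    positivity
  exact ((pg_ce hC a).diff h1).continuousAt.comp (f := fun u : ℝ => ((v : ℂ) + (Q * u) * I) / ν) (by fun_prop)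

/-- the coefficient of the double series -/
noncomputable def cJ (C : ℕ → ℂ) (v : ℝ) (ν ν' : ℕ) (r : ℤ) : ℂ :=
  ∑' x : ℕ × ℕ, if (ν' : ℤ) * x.1 - ν * x.2 = r then 2 * Real.pi * dt C C (v / ν) (v / ν') x else 0

theorem sum_ite (C : ℕ → ℂ) (hC : PG C) {V V' : ℝ} (hV : 0 < V) (hV' : 0 < V') (P : ℕ × ℕ → Prop) [DecidablePred P] :
    Summable fun x : ℕ × ℕ => if P x then 2 * Real.pi * dt C C V V' x else 0 := by
  refine Summable.of_norm ?_
  refine Summable.of_nonneg_of_le (fun x => norm_nonneg _) (fun x => ?_)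
    ((dt_summable (hC.summable hV) (hC.summable hV')).mul_left (2 * Real.pi))
  split_ifs
  · rw [norm_mul]
    have : ‖(2 * Real.pi : ℂ)‖ = 2 * Real.pi := by
      rw [norm_mul, Complex.norm_real, Real.norm_of_nonneg Real.pi_pos.le]
      norm_num
    rw [this]
  · rw [norm_zero]
    positivity

theorem coef {C : ℕ → ℂ} (hC : PG C) {ν ν' Q' : ℕ} (hν : 1 ≤ ν) (hν' : 1 ≤ ν') (hQ' : 1 ≤ Q') (hco : ν.Coprime q)
    (hco' : ν'.Coprime q) {v : ℝ} (hv : 0 < v) (r : ℤ) :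
    ∑ j ∈ (univ : Finset (ZMod q)).filter (fun z => IsUnit z),
      ∫ u in (0 : ℝ)..(2 * Real.pi), Pj C (j * (ν : ZMod q)⁻¹) ((v + (((ν * ν' * Q' : ℕ) : ℝ) * u) * I) / ν) *
        conj (Pj C (j * (ν' : ZMod q)⁻¹) ((v + (((ν * ν' * Q' : ℕ) : ℝ) * u) * I) / ν')) * cexp (I * r * u) =
    if (Q' : ℤ) ∣ r then cq ((r / Q' : ℤ) : ZMod q) * cJ C v ν ν' (r / Q') else 0 := by
  have hν0 : (ν : ℂ) ≠ 0 := by exact_mod_cast (by omega : ν ≠ 0)
  have hν0' : (ν' : ℂ) ≠ 0 := by exact_mod_cast (by omega : ν' ≠ 0)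
  have hVp : 0 < v / ν := by
    have : (0 : ℝ) < ν := by exact_mod_cast hν
    positivity
  have hVp' : 0 < v / ν' := by
    have : (0 : ℝ) < ν' := by exact_mod_cast hν'
    positivity
  have h1 : ∀ j : ZMod q, ∫ u in (0 : ℝ)..(2 * Real.pi),
      Pj C (j * (ν : ZMod q)⁻¹) ((v + (((ν * ν' * Q' : ℕ) : ℝ) * u) * I) / ν) *
        conj (Pj C (j * (ν' : ZMod q)⁻¹) ((v + (((ν * ν' * Q' : ℕ) : ℝ) * u) * I) / ν')) * cexp (I * r * u) =
      ∑' x : ℕ × ℕ, if ((ν' * Q' : ℕ) : ℤ) * x.1 - ((ν * Q' : ℕ) : ℤ) * x.2 = r then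
        2 * Real.pi * dt (ce (j * (ν : ZMod q)⁻¹) C) (ce (j * (ν' : ZMod q)⁻¹) C) (v / ν) (v / ν') x else 0 := by
    intro j
    rw [← dser (ν' * Q') (ν * Q') ((pg_ce hC _).summable hVp) ((pg_ce hC _).summable hVp') r]
    refine intervalIntegral.integral_congr fun u _ => ?_
    unfold Pj
    have e1 : ((v : ℂ) + (((ν * ν' * Q' : ℕ) : ℝ) * u) * I) / ν =
        (((v / ν : ℝ) : ℂ) + (((ν' * Q' : ℕ) : ℂ) * u) * I) := by
      push_cast
      field_simp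
    have e2 : ((v : ℂ) + (((ν * ν' * Q' : ℕ) : ℝ) * u) * I) / ν' =
        (((v / ν' : ℝ) : ℂ) + (((ν * Q' : ℕ) : ℂ) * u) * I) := by
      push_cast
      field_simp
    rw [e1, e2]
  rw [sum_congr rfl fun j _ => h1 j]
  have hdt : ∀ (j : ZMod q) (x : ℕ × ℕ), dt (ce (j * (ν : ZMod q)⁻¹) C) (ce (j * (ν' : ZMod q)⁻¹) C) (v / ν) (v / ν') x =
      dt C C (v / ν) (v / ν') x * ZMod.stdAddChar (j * ((ν : ZMod q)⁻¹ * (x.1 : ZMod q) - (ν' : ZMod q)⁻¹ * (x.2 : ZMod q))) := by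
    intro j x
    unfold dt ce
    have e0 : conj (C x.2 * (ZMod.stdAddChar (j * (ν' : ZMod q)⁻¹ * (x.2 : ZMod q)) : ℂ)) =
        conj (C x.2) * ZMod.stdAddChar (-(j * (ν' : ZMod q)⁻¹ * (x.2 : ZMod q))) := by
      rw [← conj_e]
      exact map_mul _ _ _
    rw [e0]
    have e3 : j * ((ν : ZMod q)⁻¹ * (x.1 : ZMod q) - (ν' : ZMod q)⁻¹ * (x.2 : ZMod q)) =
        j * (ν : ZMod q)⁻¹ * (x.1 : ZMod q) + -(j * (ν' : ZMod q)⁻¹ * (x.2 : ZMod q)) := by ring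
    rw [e3, AddChar.map_add_eq_mul]
    ring
  rw [← Summable.tsum_finsetSum]
  · have hu : IsUnit ((ν : ZMod q) * (ν' : ZMod q)) :=
      ((ZMod.isUnit_iff_coprime _ _).2 hco).mul ((ZMod.isUnit_iff_coprime _ _).2 hco')
    have k1 := ZMod.mul_inv_of_unit _ ((ZMod.isUnit_iff_coprime _ _).2 hco)
    have k2 := ZMod.mul_inv_of_unit _ ((ZMod.isUnit_iff_coprime _ _).2 hco')
    have hterm : ∀ x : ℕ × ℕ, ∑ j ∈ (univ : Finset (ZMod q)).filter (fun z => IsUnit z),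
        (if ((ν' * Q' : ℕ) : ℤ) * x.1 - ((ν * Q' : ℕ) : ℤ) * x.2 = r then
        2 * Real.pi * dt (ce (j * (ν : ZMod q)⁻¹) C) (ce (j * (ν' : ZMod q)⁻¹) C) (v / ν) (v / ν') x else 0) =
        if (Q' : ℤ) * ((ν' : ℤ) * x.1 - ν * x.2) = r then
          cq (((ν' : ℤ) * x.1 - ν * x.2 : ℤ) : ZMod q) * (2 * Real.pi * dt C C (v / ν) (v / ν') x) else 0 := by
      intro x
      have e4 : ((ν' * Q' : ℕ) : ℤ) * x.1 - ((ν * Q' : ℕ) : ℤ) * x.2 = (Q' : ℤ) * ((ν' : ℤ) * x.1 - ν * x.2) := by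
        push_cast; ring
      rw [e4]
      split_ifs with h
      · have e5 : (((ν' : ℤ) * x.1 - ν * x.2 : ℤ) : ZMod q) =
            ((ν : ZMod q) * (ν' : ZMod q)) * ((ν : ZMod q)⁻¹ * (x.1 : ZMod q) - (ν' : ZMod q)⁻¹ * (x.2 : ZMod q)) := by
          push_cast
          linear_combination (-((ν' : ZMod q) * (x.1 : ZMod q))) * k1 + ((ν : ZMod q) * (x.2 : ZMod q)) * k2
        rw [e5, cq_unit hu]
        unfold cq
        rw [sum_mul]
        refine sum_congr rfl fun j _ => ?_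
        rw [hdt]
        ring
      · exact sum_const_zero
    rw [tsum_congr hterm]
    have hQz : (Q' : ℤ) ≠ 0 := by exact_mod_cast (by omega : Q' ≠ 0)
    split_ifs with hd
    · obtain ⟨r0, rfl⟩ := hd
      rw [Int.mul_ediv_cancel_left _ hQz]
      unfold cJ
      rw [← tsum_mul_left]
      refine tsum_congr fun x => ?_
      have h2 : ((Q' : ℤ) * ((ν' : ℤ) * x.1 - ν * x.2) = Q' * r0) ↔ (ν' : ℤ) * x.1 - ν * x.2 = r0 :=
        ⟨fun h => mul_left_cancel₀ hQz h, fun h => by rw [h]⟩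
      simp only [h2]
      split_ifs with h3
      · rw [h3]
      · rw [mul_zero]
    · refine (tsum_congr fun x => ?_).trans tsum_zero
      rw [if_neg]
      intro h
      exact hd ⟨_, h.symm⟩
  · intro j _
    refine Summable.of_norm ?_
    refine Summable.of_nonneg_of_le (fun x => norm_nonneg _) (fun x => ?_)
      ((dt_summable (hC.summable hVp) (hC.summable hVp')).mul_left (2 * Real.pi))
    split_ifs
    · rw [hdt, norm_mul (2 * Real.pi : ℂ), norm_mul (dt C C (v / ν) (v / ν') x), norm_e, mul_one]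
      have : ‖(2 * Real.pi : ℂ)‖ = 2 * Real.pi := by
        rw [norm_mul, Complex.norm_real, Real.norm_of_nonneg Real.pi_pos.le]
        norm_num
      rw [this]
    · rw [norm_zero]
      positivity

/-- the sum of the squares over the units -/
noncomputable def fU (C B : ℕ → ℂ) (y q : ℕ) [NeZero q] (v Q : ℝ) (u : ℝ) : ℝ :=
  ∑ j ∈ (univ : Finset (ZMod q)).filter (fun z => IsUnit z), ‖Th C B y j (v + (Q * u) * I)‖ ^ 2

theorem cont_Th {C : ℕ → ℂ} (hC : PG C) (B : ℕ → ℂ) (y : ℕ) (j : ZMod q) {v : ℝ} (hv : 0 < v) (Q : ℝ) :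
    Continuous fun u : ℝ => Th C B y j (v + (Q * u) * I) := by
  unfold Th
  refine continuous_finsetSum _ fun ν hν => ?_
  exact (cont_Pj hC _ (mem_Icc.1 hν).1 hv Q).const_mul _

theorem cont_fU {C : ℕ → ℂ} (hC : PG C) (B : ℕ → ℂ) (y : ℕ) {v : ℝ} (hv : 0 < v) (Q : ℝ) :
    Continuous (fU C B y q v Q) := by
  unfold fU
  exact continuous_finsetSum _ fun j _ => (cont_Th hC B y j hv Q).norm.pow 2

theorem coef_fU {C B : ℕ → ℂ} (hC : PG C) (hB : ∀ ν, ¬ ν.Coprime q → B ν = 0) {y Q : ℕ}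
    (hQ0 : Q ≠ 0) (hQ : ∀ ν ∈ Icc 1 y, ∀ ν' ∈ Icc 1 y, ν * ν' ∣ Q) {v : ℝ} (hv : 0 < v) (r : ℤ) :
    ‖∫ u in (0 : ℝ)..(2 * Real.pi), (fU C B y q v Q u : ℂ) * cexp (I * r * u)‖ ≤
      ∑ ν ∈ Icc 1 y, ∑ ν' ∈ Icc 1 y, ‖B ν‖ * ‖B ν'‖ * (if ((Q / (ν * ν') : ℕ) : ℤ) ∣ r then
        ‖cq ((r / (Q / (ν * ν') : ℕ) : ℤ) : ZMod q)‖ * ‖cJ C v ν ν' (r / (Q / (ν * ν') : ℕ))‖ else 0) := by
  obtain ⟨G, hG⟩ : ∃ G : ZMod q → ℕ → ℕ → ℝ → ℂ, G = fun (j : ZMod q) (ν ν' : ℕ) (u : ℝ) =>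
    Pj C (j * (ν : ZMod q)⁻¹) (((v : ℂ) + (((Q : ℝ) : ℂ) * (u : ℂ)) * I) / (ν : ℂ)) *
        conj (Pj C (j * (ν' : ZMod q)⁻¹) (((v : ℂ) + (((Q : ℝ) : ℂ) * (u : ℂ)) * I) / (ν' : ℂ))) *
        cexp (I * r * u) := ⟨_, rfl⟩
  have hGc : ∀ j, ∀ ν ∈ Icc 1 y, ∀ ν' ∈ Icc 1 y, Continuous (G j ν ν') := by
    intro j ν hν ν' hν'
    rw [hG]
    refine ((cont_Pj hC _ (mem_Icc.1 hν).1 hv Q).mul
      (Complex.continuous_conj.comp (cont_Pj hC _ (mem_Icc.1 hν').1 hv Q))).mul ?_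
    fun_prop
  have e1 : ∀ u : ℝ, (fU C B y q v Q u : ℂ) * cexp (I * r * u) =
      ∑ ν ∈ Icc 1 y, ∑ ν' ∈ Icc 1 y, ∑ j ∈ (univ : Finset (ZMod q)).filter (fun z => IsUnit z),
        (B ν * conj (B ν')) * G j ν ν' u := by
    intro u
    unfold fU
    push_cast
    rw [sum_mul]
    have h1 : ∀ j : ZMod q, (‖Th C B y j (v + (Q * u) * I)‖ : ℂ) ^ 2 * cexp (I * r * u) =
        ∑ ν ∈ Icc 1 y, ∑ ν' ∈ Icc 1 y, (B ν * conj (B ν')) * G j ν ν' u := by
      intro j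
      rw [← Complex.mul_conj']
      unfold Th
      rw [map_sum, sum_mul_sum, sum_mul]
      refine sum_congr rfl fun ν _ => ?_
      rw [sum_mul]
      refine sum_congr rfl fun ν' _ => ?_
      rw [hG]
      simp only [map_mul]
      push_cast
      ring
    rw [sum_congr rfl fun j _ => h1 j, sum_comm]
    refine sum_congr rfl fun ν _ => ?_
    rw [sum_comm]
  simp_rw [e1]
  rw [intervalIntegral.integral_finsetSum (fun ν hν => Continuous.intervalIntegrable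
    (continuous_finsetSum _ fun ν' hν' => continuous_finsetSum _ fun j _ =>
      (hGc j ν hν ν' hν').const_mul _) _ _)]
  refine (norm_sum_le _ _).trans (sum_le_sum fun ν hν => ?_)
  rw [intervalIntegral.integral_finsetSum (fun ν' hν' => Continuous.intervalIntegrable
    (continuous_finsetSum _ fun j _ => (hGc j ν hν ν' hν').const_mul _) _ _)]
  refine (norm_sum_le _ _).trans (sum_le_sum fun ν' hν' => ?_)
  rw [intervalIntegral.integral_finsetSum (fun j _ => Continuous.intervalIntegrable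
    ((hGc j ν hν ν' hν').const_mul _) _ _)]
  simp_rw [intervalIntegral.integral_const_mul]
  rw [← mul_sum, norm_mul, norm_mul, RCLike.norm_conj]
  by_cases hco : ν.Coprime q
  · by_cases hco' : ν'.Coprime q
    · apply mul_le_mul_of_nonneg_left _ (by positivity)
      obtain ⟨Q', hQ'⟩ := hQ ν hν ν' hν'
      have hQ'0 : 1 ≤ Q' := by
        rcases Nat.eq_zero_or_pos Q' with h | h
        · rw [h, mul_zero] at hQ'; exact absurd hQ' hQ0
        · exact h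
      have hνp := (mem_Icc.1 hν).1
      have hνp' := (mem_Icc.1 hν').1
      have hdiv : Q / (ν * ν') = Q' := by
        rw [hQ']; exact Nat.mul_div_cancel_left _ (Nat.mul_pos hνp hνp')
      have h2 := coef hC hνp hνp' hQ'0 hco hco' hv r
      rw [← hQ'] at h2
      rw [hG, hdiv]
      simp only
      rw [h2]
      split_ifs
      · rw [norm_mul]
      · rw [norm_zero]
    · rw [hB ν' hco']
      simp
  · rw [hB ν hco]
    simp

end

end Pool.Agent.K9h29.SP
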