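import Pool.Agent.K9h29.SP.Th2

set_option autoImplicit false

/-!
# The mean square over a reduced residue system
-/

namespace Pool.Agent.K9h29.SP

open Complex Finset MeasureTheory
open scoped ComplexConjugate Nat
open Pool.Agent.Y412.GLB Pool.Agent.Y412.GLP

section

variable {q : ℕ} [NeZero q]

theorem cq_sum2 (Z : ℕ) : ∑ r ∈ (Icc (-(Z : ℤ)) Z).erase 0, ‖cq ((r : ℤ) : ZMod q)‖ ≤ 2 * Z * (q.divisors.card : ℝ) := by
  have hsub : (Icc (-(Z : ℤ)) Z).erase 0 ⊆ (Icc 1 Z).image (fun n : ℕ => (n : ℤ)) ∪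
      (Icc 1 Z).image (fun n : ℕ => -(n : ℤ)) := by
    intro r hr
    rw [mem_erase, mem_Icc] at hr
    rw [mem_union, mem_image, mem_image]
    rcases lt_or_ge 0 r with h | h
    · left
      exact ⟨r.toNat, by rw [mem_Icc]; omega, by omega⟩
    · right
      exact ⟨(-r).toNat, by rw [mem_Icc]; omega, by omega⟩
  refine (sum_le_sum_of_subset_of_nonneg hsub fun _ _ _ => norm_nonneg _).trans ?_
  rw [sum_union]
  · rw [sum_image (fun a _ b _ h => by simpa using h), sum_image (fun a _ b _ h => by simpa using h)]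
    have h1 := cq_sum (q := q) Z
    have h2 : ∑ x ∈ Icc 1 Z, ‖cq (((-(x : ℤ) : ℤ)) : ZMod q)‖ = ∑ r ∈ Icc 1 Z, ‖cq ((r : ℕ) : ZMod q)‖ := by
      refine sum_congr rfl fun x _ => ?_
      push_cast
      rw [cq_neg]
    have h3 : ∑ x ∈ Icc 1 Z, ‖cq (((x : ℤ)) : ZMod q)‖ = ∑ r ∈ Icc 1 Z, ‖cq ((r : ℕ) : ZMod q)‖ := by
      refine sum_congr rfl fun x _ => ?_
      push_cast
      rfl
    rw [h2, h3]
    linarith
  · rw [disjoint_left]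
    intro r h1 h2
    rw [mem_image] at h1 h2
    obtain ⟨a, ha, rfl⟩ := h1
    obtain ⟨b, hb, hab⟩ := h2
    rw [mem_Icc] at ha hb
    omega

/-- the common denominator -/
def Qy (y : ℕ) : ℕ := (y !) ^ 2

theorem Qy_ne (y : ℕ) : Qy y ≠ 0 := pow_ne_zero _ (Nat.factorial_ne_zero y)

theorem Qy_dvd {y : ℕ} : ∀ ν ∈ Icc 1 y, ∀ ν' ∈ Icc 1 y, ν * ν' ∣ Qy y := by
  intro ν hν ν' hν'
  rw [mem_Icc] at hν hν'
  unfold Qy
  rw [sq]
  exact Nat.mul_dvd_mul (Nat.dvd_factorial (by omega) hν.2) (Nat.dvd_factorial (by omega) hν'.2)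

theorem Qy_dvd1 {y : ℕ} : ∀ ν ∈ Icc 1 y, ν ∣ Qy y := by
  intro ν hν
  exact (dvd_mul_right ν ν).trans (Qy_dvd ν hν ν hν)

/-- the norm of the coefficients -/
noncomputable def Dn (C B : ℕ → ℂ) (y n : ℕ) : ℝ :=
  if n = 0 then 0 else ‖Dg C B y (Qy y / n.gcd (Qy y)) (n / n.gcd (Qy y))‖

theorem norm_An' {C B : ℕ → ℂ} (hC0 : C 0 = 0) (hB : ∀ ν, ¬ ν.Coprime q → B ν = 0) {y : ℕ} (j : ZMod q) (n : ℕ) :
    ‖An C B y (Qy y) j n‖ = Dn C B y n := by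
  unfold Dn
  split_ifs with h
  · subst h
    unfold An
    have : ∑ ν ∈ Icc 1 y, B ν * dil (Qy y / ν) (ce (j * (ν : ZMod q)⁻¹) C) 0 = 0 := by
      refine sum_eq_zero fun ν _ => ?_
      unfold dil ce
      rw [if_pos (dvd_zero _), Nat.zero_div, hC0]
      simp
    rw [this, norm_zero]
  · exact norm_An hB (Qy_ne y) Qy_dvd1 j (by omega)

/-- the diagonal -/
noncomputable def TD (C B : ℕ → ℂ) (y : ℕ) (v : ℝ) : ℝ :=
  ∑' n : ℕ, Dn C B y n ^ 2 * Real.exp (-(2 * n * (v / Qy y)))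

theorem Qy_pos (y : ℕ) : (0 : ℝ) < Qy y := by exact_mod_cast Nat.pos_of_ne_zero (Qy_ne y)

theorem Th_eq {C : ℕ → ℂ} (hC : PG C) (B : ℕ → ℂ) (y : ℕ) (j : ZMod q) {v : ℝ} (hv : 0 < v) (u : ℝ) :
    Th C B y j (v + (((Qy y : ℕ) : ℝ) * u) * I) =
      ∑' n : ℕ, An C B y (Qy y) j n * cexp (-(n * (((v / Qy y : ℝ) : ℂ) + u * I))) := by
  have hQ := Qy_pos y
  have hz : 0 < ((((v / Qy y : ℝ) : ℂ) + u * I)).re := by
    simp
    positivity
  rw [← Th_ser hC B (Qy_ne y) Qy_dvd1 j hz]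
  congr 1
  have : ((Qy y : ℕ) : ℂ) ≠ 0 := by exact_mod_cast Qy_ne y
  push_cast
  field_simp

theorem fU_int {C B : ℕ → ℂ} (hC : PG C) (hC0 : C 0 = 0) (hB : ∀ ν, ¬ ν.Coprime q → B ν = 0) {y : ℕ}
    {v : ℝ} (hv : 0 < v) :
    Summable (fun n : ℕ => Dn C B y n ^ 2 * Real.exp (-(2 * n * (v / Qy y)))) ∧
    ∫ u in (0 : ℝ)..(2 * Real.pi), fU C B y q v (Qy y : ℕ) u = 2 * Real.pi * q.totient * TD C B y v := by
  have hQ := Qy_pos y
  have hv' : 0 < v / Qy y := by positivity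
  have hp := fun j : ZMod q => pars (pg_An hC B (Qy_ne y) Qy_dvd1 j) hv'
  refine ⟨?_, ?_⟩
  · have := (hp 0).2.1
    simpa only [norm_An' hC0 hB] using this
  · unfold fU
    have hcont : ∀ j : ZMod q, Continuous fun u : ℝ => ‖Th C B y j (v + (((Qy y : ℕ) : ℝ) * u) * I)‖ ^ 2 :=
      fun j => (cont_Th hC B y j hv _).norm.pow 2
    rw [intervalIntegral.integral_finsetSum (fun j _ => (hcont j).intervalIntegrable _ _)]
    have h1 : ∀ j : ZMod q, ∫ u in (0 : ℝ)..(2 * Real.pi), ‖Th C B y j (v + (((Qy y : ℕ) : ℝ) * u) * I)‖ ^ 2 =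
        2 * Real.pi * TD C B y v := by
      intro j
      have h2 := (hp j).2.2
      simp only [norm_An' hC0 hB] at h2
      unfold TD
      rw [← h2]
      refine intervalIntegral.integral_congr fun u _ => ?_
      show ‖Th C B y j (v + (((Qy y : ℕ) : ℝ) * u) * I)‖ ^ 2 = _
      rw [Th_eq hC B y j hv u]
    rw [sum_congr rfl fun j _ => h1 j, sum_const, nsmul_eq_mul]
    have hcard : (((univ : Finset (ZMod q)).filter (fun z => IsUnit z)).card : ℝ) = q.totient := by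
      have h3 := H385.sum_coprime_eq (q := q) (fun _ => (1 : ℝ))
      rw [sum_const, sum_const, nsmul_eq_mul, nsmul_eq_mul, mul_one, mul_one] at h3
      rw [← h3, Nat.totient_eq_card_coprime]
      congr 2
      ext b
      simp only [mem_filter, mem_range, and_congr_right_iff]
      intro _
      exact Nat.coprime_comm
    rw [hcard]
    ring

theorem fU_per {C : ℕ → ℂ} (hC : PG C) (B : ℕ → ℂ) {y : ℕ} {v : ℝ} (hv : 0 < v) :
    Function.Periodic (fU C B y q v (Qy y : ℕ)) (2 * Real.pi) := by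
  intro u
  unfold fU
  refine sum_congr rfl fun j _ => ?_
  rw [Th_eq hC B y j hv, Th_eq hC B y j hv]
  congr 2
  refine tsum_congr fun n => ?_
  congr 1
  have : -((n : ℂ) * (((v / Qy y : ℝ) : ℂ) + ((u + 2 * Real.pi : ℝ) : ℂ) * I)) =
      -((n : ℂ) * (((v / Qy y : ℝ) : ℂ) + u * I)) + ((-n : ℤ) : ℂ) * (2 * Real.pi * I) := by
    push_cast; ring
  rw [this, Complex.exp_add, Complex.exp_int_mul_two_pi_mul_I, mul_one]

theorem off_sum {C B : ℕ → ℂ} (hC : PG C) (hB : ∀ ν, ¬ ν.Coprime q → B ν = 0) {y : ℕ} {v X Jb : ℝ}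
    (hv : 0 < v) (hX : 0 < X) (hJb : 0 ≤ Jb)
    (hJ : ∀ ν ∈ Icc 1 y, ∀ ν' ∈ Icc 1 y, ∀ r : ℤ, r ≠ 0 → |(r : ℝ)| * X ≤ ν * ν' → ‖cJ C v ν ν' r‖ ≤ Jb)
    (R : ℕ) (hR : (R : ℝ) < Qy y / X + 1) :
    ∑ r ∈ (Finset.Ioo (-(R : ℤ)) R).erase 0,
      ‖∫ u in (0 : ℝ)..(2 * Real.pi), (fU C B y q v (Qy y : ℕ) u : ℂ) * cexp (I * r * u)‖ ≤
      (∑ ν ∈ Icc 1 y, ‖B ν‖) ^ 2 * (2 * (y ^ 2 / X) * (q.divisors.card : ℝ) * Jb) := by
  have hQ := Qy_pos y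
  refine (sum_le_sum fun r _ => coef_fU hC hB (Qy_ne y) Qy_dvd hv r).trans ?_
  rw [sum_comm]
  have hpair : ∀ ν ∈ Icc 1 y, ∀ ν' ∈ Icc 1 y, ∑ r ∈ (Finset.Ioo (-(R : ℤ)) R).erase 0,
      ‖B ν‖ * ‖B ν'‖ * (if ((Qy y / (ν * ν') : ℕ) : ℤ) ∣ r then
        ‖cq ((r / (Qy y / (ν * ν') : ℕ) : ℤ) : ZMod q)‖ * ‖cJ C v ν ν' (r / (Qy y / (ν * ν') : ℕ))‖ else 0) ≤
      ‖B ν‖ * ‖B ν'‖ * (2 * (y ^ 2 / X) * (q.divisors.card : ℝ) * Jb) := by
    intro ν hν ν' hν'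
    rw [← mul_sum]
    apply mul_le_mul_of_nonneg_left _ (by positivity)
    obtain ⟨Q', hQ'⟩ := Qy_dvd ν hν ν' hν'
    have hνp := (mem_Icc.1 hν)
    have hνp' := (mem_Icc.1 hν')
    have hQ'0 : 1 ≤ Q' := by
      rcases Nat.eq_zero_or_pos Q' with h | h
      · rw [h, mul_zero] at hQ'; exact absurd hQ' (Qy_ne y)
      · exact h
    have hdiv : Qy y / (ν * ν') = Q' := by
      rw [hQ']; exact Nat.mul_div_cancel_left _ (Nat.mul_pos hνp.1 hνp'.1)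
    rw [hdiv]
    have hQz : (Q' : ℤ) ≠ 0 := by exact_mod_cast (by omega : Q' ≠ 0)
    have hQr : (0 : ℝ) < Q' := by exact_mod_cast hQ'0
    rw [← sum_filter]
    -- the quotients
    have hr0 : ∀ r ∈ ((Finset.Ioo (-(R : ℤ)) R).erase 0).filter (fun r => (Q' : ℤ) ∣ r),
        r / Q' ≠ 0 ∧ |((r / Q' : ℤ) : ℝ)| * X ≤ ν * ν' := by
      intro r hr
      rw [mem_filter, mem_erase, mem_Ioo] at hr
      obtain ⟨⟨h1, h2, h3⟩, r0, rfl⟩ := hr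
      rw [Int.mul_ediv_cancel_left _ hQz]
      refine ⟨fun h => h1 (by rw [h, mul_zero]), ?_⟩
      have h4 : |(Q' : ℤ) * r0| ≤ (R : ℤ) - 1 := by rw [abs_le]; constructor <;> omega
      have h5 : ((|(Q' : ℤ) * r0| : ℤ) : ℝ) ≤ (R : ℝ) - 1 := by exact_mod_cast h4
      rw [abs_mul, Nat.abs_cast] at h5
      push_cast at h5
      have h6 : (Q' : ℝ) * |(r0 : ℝ)| ≤ Qy y / X := by linarith
      have h7 : (Q' : ℝ) * |(r0 : ℝ)| * X ≤ Qy y := by rwa [le_div_iff₀ hX] at h6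
      have h8 : (Qy y : ℝ) = ν * ν' * Q' := by
        have := congrArg (fun n : ℕ => (n : ℝ)) hQ'
        push_cast at this
        exact this
      rw [h8] at h7
      have h9 : Q' * (|(r0 : ℝ)| * X) ≤ Q' * ((ν : ℝ) * ν') := by linarith
      exact le_of_mul_le_mul_left h9 hQr
    have hinj : Set.InjOn (fun r : ℤ => r / (Q' : ℤ)) (((Finset.Ioo (-(R : ℤ)) R).erase 0).filter (fun r => (Q' : ℤ) ∣ r)) := by
      intro a ha b hb hab
      rw [mem_coe, mem_filter] at ha hb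
      obtain ⟨a', ha'⟩ := ha.2
      obtain ⟨b', hb'⟩ := hb.2
      simp only at hab
      rw [ha', hb', Int.mul_ediv_cancel_left _ hQz, Int.mul_ediv_cancel_left _ hQz] at hab
      rw [ha', hb', hab]
    obtain ⟨Z, hZ⟩ : ∃ Z : ℕ, Z = ⌊(y : ℝ) ^ 2 / X⌋₊ := ⟨_, rfl⟩
    have hZle : (Z : ℝ) ≤ (y : ℝ) ^ 2 / X := by rw [hZ]; exact Nat.floor_le (by positivity)
    have h10 : ∑ r ∈ ((Finset.Ioo (-(R : ℤ)) R).erase 0).filter (fun r => (Q' : ℤ) ∣ r),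
        ‖cq ((r / Q' : ℤ) : ZMod q)‖ * ‖cJ C v ν ν' (r / Q')‖ ≤
        ∑ r ∈ ((Finset.Ioo (-(R : ℤ)) R).erase 0).filter (fun r => (Q' : ℤ) ∣ r),
          ‖cq ((r / Q' : ℤ) : ZMod q)‖ * Jb := by
      refine sum_le_sum fun r hr => ?_
      obtain ⟨h1, h2⟩ := hr0 r hr
      exact mul_le_mul_of_nonneg_left (hJ ν hν ν' hν' _ h1 h2) (norm_nonneg _)
    refine h10.trans ?_
    rw [← sum_mul]
    apply mul_le_mul_of_nonneg_right _ hJb
    have h11 : ∑ r ∈ ((Finset.Ioo (-(R : ℤ)) R).erase 0).filter (fun r => (Q' : ℤ) ∣ r),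
        ‖cq ((r / Q' : ℤ) : ZMod q)‖ ≤ ∑ r ∈ (Icc (-(Z : ℤ)) Z).erase 0, ‖cq ((r : ℤ) : ZMod q)‖ := by
      rw [← sum_image (f := fun r : ℤ => ‖cq (r : ZMod q)‖) hinj]
      refine sum_le_sum_of_subset_of_nonneg (fun r hr => ?_) fun _ _ _ => norm_nonneg _
      rw [mem_image] at hr
      obtain ⟨r', hr', rfl⟩ := hr
      obtain ⟨h1, h2⟩ := hr0 r' hr'
      rw [mem_erase, mem_Icc, ← abs_le]
      refine ⟨h1, ?_⟩
      have h3 : |((r' / Q' : ℤ) : ℝ)| ≤ (y : ℝ) ^ 2 / X := by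
        rw [le_div_iff₀ hX]
        refine h2.trans ?_
        have h4 : (ν : ℝ) ≤ y := by exact_mod_cast hνp.2
        have h5 : (ν' : ℝ) ≤ y := by exact_mod_cast hνp'.2
        have h6 : (0 : ℝ) ≤ ν := Nat.cast_nonneg _
        have h7 : (0 : ℝ) ≤ ν' := Nat.cast_nonneg _
        nlinarith
      have h4 : ((|r' / (Q' : ℤ)|.toNat : ℕ) : ℝ) ≤ (y : ℝ) ^ 2 / X := by
        have h5 : ((|r' / (Q' : ℤ)|.toNat : ℕ) : ℤ) = |r' / (Q' : ℤ)| := Int.toNat_of_nonneg (abs_nonneg _)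
        have h6 : ((|r' / (Q' : ℤ)|.toNat : ℕ) : ℝ) = ((|r' / (Q' : ℤ)| : ℤ) : ℝ) := by exact_mod_cast h5
        rw [h6]
        push_cast
        exact h3
      have h5 : |r' / (Q' : ℤ)|.toNat ≤ Z := by
        rw [hZ]
        exact Nat.le_floor h4
      have h6 : ((|r' / (Q' : ℤ)|.toNat : ℕ) : ℤ) = |r' / (Q' : ℤ)| := Int.toNat_of_nonneg (abs_nonneg _)
      omega
    refine h11.trans ((cq_sum2 Z).trans ?_)
    exact mul_le_mul_of_nonneg_right (mul_le_mul_of_nonneg_left hZle (by norm_num)) (Nat.cast_nonneg _)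
  calc ∑ ν ∈ Icc 1 y, ∑ r ∈ (Finset.Ioo (-(R : ℤ)) R).erase 0, ∑ ν' ∈ Icc 1 y,
      ‖B ν‖ * ‖B ν'‖ * (if ((Qy y / (ν * ν') : ℕ) : ℤ) ∣ r then
        ‖cq ((r / (Qy y / (ν * ν') : ℕ) : ℤ) : ZMod q)‖ * ‖cJ C v ν ν' (r / (Qy y / (ν * ν') : ℕ))‖ else 0)
      ≤ ∑ ν ∈ Icc 1 y, ∑ ν' ∈ Icc 1 y, ‖B ν‖ * ‖B ν'‖ * (2 * (y ^ 2 / X) * (q.divisors.card : ℝ) * Jb) := by
        refine sum_le_sum fun ν hν => ?_
        rw [sum_comm]
        exact sum_le_sum fun ν' hν' => hpair ν hν ν' hν'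
    _ = _ := by
        have h1 : (∑ ν ∈ Icc 1 y, ‖B ν‖) ^ 2 = ∑ ν ∈ Icc 1 y, ∑ ν' ∈ Icc 1 y, ‖B ν‖ * ‖B ν'‖ := by
          rw [sq, sum_mul_sum]
        rw [h1, sum_mul]
        refine sum_congr rfl fun ν _ => ?_
        rw [sum_mul]

theorem thA {C B : ℕ → ℂ} (hC : PG C) (hC0 : C 0 = 0) (hB : ∀ ν, ¬ ν.Coprime q → B ν = 0) {y : ℕ} {v X Jb : ℝ}
    (hv : 0 < v) (hX : 0 < X) (hJb : 0 ≤ Jb)
    (hJ : ∀ ν ∈ Icc 1 y, ∀ ν' ∈ Icc 1 y, ∀ r : ℤ, r ≠ 0 → |(r : ℝ)| * X ≤ ν * ν' → ‖cJ C v ν ν' r‖ ≤ Jb) :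
    ∫ u in (X / 4)..(4 * X), ∑ j ∈ (univ : Finset (ZMod q)).filter (fun z => IsUnit z), ‖Th C B y j (v + u * I)‖ ^ 2 ≤
      12 * X * (2 * Real.pi * q.totient * TD C B y v +
        (∑ ν ∈ Icc 1 y, ‖B ν‖) ^ 2 * (2 * (y ^ 2 / X) * (q.divisors.card : ℝ) * Jb)) := by
  have hQ := Qy_pos y
  obtain ⟨R, hR⟩ : ∃ R : ℕ, R = ⌈(Qy y : ℝ) / X⌉₊ := ⟨_, rfl⟩
  have hR1 : (Qy y : ℝ) / X ≤ R := by rw [hR]; exact Nat.le_ceil _
  have hR2 : (R : ℝ) < Qy y / X + 1 := by rw [hR]; exact Nat.ceil_lt_add_one (by positivity)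
  have hR0 : 1 ≤ R := by
    have : (0 : ℝ) < R := lt_of_lt_of_le (by positivity) hR1
    exact_mod_cast this
  have h1 := off_sum hC hB hv hX hJb hJ R hR2
  have h2 := fjs (fU C B y q v (Qy y : ℕ)) (cont_fU hC B y hv _) (fun u => by unfold fU; positivity)
    (fU_per hC B hv) (X / Qy y) _ R (by positivity) (by positivity) hR0 (by
      rw [div_mul_eq_mul_div, le_div_iff₀ hQ, one_mul]
      rwa [div_le_iff₀ hX, mul_comm] at hR1) h1
  rw [(fU_int hC hC0 hB hv).2] at h2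
  have h3 : ∫ u in (X / 4)..(4 * X), ∑ j ∈ (univ : Finset (ZMod q)).filter (fun z => IsUnit z),
      ‖Th C B y j (v + u * I)‖ ^ 2 = (Qy y : ℝ) * ∫ u in (X / Qy y / 4)..(4 * (X / Qy y)), fU C B y q v (Qy y : ℕ) u := by
    have h4 := intervalIntegral.mul_integral_comp_mul_left (a := X / Qy y / 4) (b := 4 * (X / Qy y))
      (f := fun u : ℝ => ∑ j ∈ (univ : Finset (ZMod q)).filter (fun z => IsUnit z),
        ‖Th C B y j (v + u * I)‖ ^ 2) (Qy y : ℝ)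
    have e1 : (Qy y : ℝ) * (X / Qy y / 4) = X / 4 := by field_simp
    have e2 : (Qy y : ℝ) * (4 * (X / Qy y)) = 4 * X := by field_simp
    rw [e1, e2] at h4
    rw [← h4]
    congr 1
    refine intervalIntegral.integral_congr fun u _ => ?_
    unfold fU
    push_cast
    rfl
  rw [h3]
  refine (mul_le_mul_of_nonneg_left h2 hQ.le).trans (le_of_eq ?_)
  field_simp

/-- finite sums over the diagonal -/
theorem part_le (C B : ℕ → ℂ) (y : ℕ) {v : ℝ} (M : ℕ) :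
    ∑ n ∈ range M, Dn C B y n ^ 2 * Real.exp (-(2 * n * (v / Qy y))) ≤
      ∑ x ∈ AA y M, ‖Dg C B y x.1 x.2‖ ^ 2 * Real.exp (-(2 * v * (x.2 / x.1))) := by
  have hQ := Qy_pos y
  obtain ⟨N, hN⟩ : ∃ N : Finset ℕ, N = (range M).filter (fun n => Dn C B y n ≠ 0) := ⟨_, rfl⟩
  have h1 : ∑ n ∈ range M, Dn C B y n ^ 2 * Real.exp (-(2 * n * (v / Qy y))) =
      ∑ n ∈ N, Dn C B y n ^ 2 * Real.exp (-(2 * n * (v / Qy y))) := by
    rw [hN, sum_filter_of_ne]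
    intro n _ h hc
    rw [hc] at h
    simp at h
  rw [h1]
  have hdat : ∀ n ∈ N, ∃ d a g : ℕ, 0 < d ∧ n.gcd (Qy y) = d ∧ n = d * a ∧ Qy y = d * g ∧ a.Coprime g ∧ 1 ≤ a ∧ 1 ≤ g ∧
      Qy y / n.gcd (Qy y) = g ∧ n / n.gcd (Qy y) = a ∧ n < M ∧ g ≤ y := by
    intro n hn
    rw [hN, mem_filter, mem_range] at hn
    have hn0 : n ≠ 0 := by
      intro h
      apply hn.2
      unfold Dn
      rw [if_pos h]
    obtain ⟨d, hd⟩ : ∃ d, d = n.gcd (Qy y) := ⟨_, rfl⟩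
    have hd0 : 0 < d := by rw [hd]; exact Nat.gcd_pos_of_pos_left _ (by omega)
    obtain ⟨a, ha⟩ : d ∣ n := by rw [hd]; exact Nat.gcd_dvd_left _ _
    obtain ⟨g, hg⟩ : d ∣ Qy y := by rw [hd]; exact Nat.gcd_dvd_right _ _
    have hag : a.Coprime g := by
      have h2 : n.gcd (Qy y) = d := hd.symm
      rw [hg, ha, Nat.gcd_mul_left] at h2
      exact Nat.eq_of_mul_eq_mul_left hd0 (by rw [h2, mul_one])
    have hg0 : 0 < g := by
      rcases Nat.eq_zero_or_pos g with h | h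
      · rw [h, mul_zero] at hg; exact absurd hg (Qy_ne y)
      · exact h
    have ha0 : 0 < a := by
      rcases Nat.eq_zero_or_pos a with h | h
      · rw [h, mul_zero] at ha; omega
      · exact h
    have e1 : Qy y / n.gcd (Qy y) = g := by rw [← hd, hg]; exact Nat.mul_div_cancel_left _ hd0
    have e2 : n / n.gcd (Qy y) = a := by rw [← hd, ha]; exact Nat.mul_div_cancel_left _ hd0
    refine ⟨d, a, g, hd0, hd.symm, ha, hg, hag, ha0, hg0, e1, e2, hn.1, ?_⟩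
    by_contra hc
    push Not at hc
    apply hn.2
    unfold Dn
    rw [if_neg hn0, e1]
    unfold Dg
    rw [Nat.div_eq_of_lt hc]
    simp
  obtain ⟨fn, hfn⟩ : ∃ fn : ℕ → ℕ × ℕ, fn = fun n => (Qy y / n.gcd (Qy y), n / n.gcd (Qy y)) := ⟨_, rfl⟩
  have hinj : Set.InjOn fn N := by
    intro n hn n' hn' h
    obtain ⟨d, a, g, hd0, hd, ha, hg, hag, ha0, hg0, e1, e2, h3, h4⟩ := hdat n hn
    obtain ⟨d', a', g', hd0', hd', ha', hg', hag', ha0', hg0', e1', e2', h3', h4'⟩ := hdat n' hn'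
    rw [hfn] at h
    simp only [e1, e2, e1', e2', Prod.mk.injEq] at h
    have h5 : d = d' := by
      apply Nat.eq_of_mul_eq_mul_right hg0
      rw [← hg, hg', h.1]
    rw [ha, ha', h5, h.2]
  have h2 : ∀ n ∈ N, Dn C B y n ^ 2 * Real.exp (-(2 * n * (v / Qy y))) =
      ‖Dg C B y (fn n).1 (fn n).2‖ ^ 2 * Real.exp (-(2 * v * ((fn n).2 / (fn n).1))) := by
    intro n hn
    obtain ⟨d, a, g, hd0, hd, ha, hg, hag, ha0, hg0, e1, e2, h3, h4⟩ := hdat n hn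
    have hn0 : n ≠ 0 := by
      rw [ha]
      exact (Nat.mul_pos hd0 ha0).ne'
    unfold Dn
    rw [if_neg hn0, hfn]
    simp only [e1, e2]
    congr 2
    have hg' : (Qy y : ℝ) = d * g := by rw [hg]; push_cast; ring
    have ha' : (n : ℝ) = d * a := by rw [ha]; push_cast; ring
    rw [hg', ha']
    have : (d : ℝ) ≠ 0 := by exact_mod_cast hd0.ne'
    have : (g : ℝ) ≠ 0 := by exact_mod_cast (by omega : g ≠ 0)
    field_simp
  rw [sum_congr rfl h2, ← sum_image (f := fun x : ℕ × ℕ => ‖Dg C B y x.1 x.2‖ ^ 2 * Real.exp (-(2 * v * (x.2 / x.1)))) hinj]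
  refine sum_le_sum_of_subset_of_nonneg (fun x hx => ?_) fun x _ _ => by positivity
  rw [mem_image] at hx
  obtain ⟨n, hn, rfl⟩ := hx
  obtain ⟨d, a, g, hd0, hd, ha, hg, hag, ha0, hg0, e1, e2, h3, h4⟩ := hdat n hn
  rw [hfn]
  unfold AA
  rw [mem_filter, mem_product, mem_Icc, mem_Icc]
  simp only [e1, e2]
  refine ⟨⟨⟨hg0, h4⟩, ha0, ?_⟩, hag⟩
  have : a ≤ d * a := Nat.le_mul_of_pos_left a hd0
  omega

end

end Pool.Agent.K9h29.SP
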