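import Pool.Agent.K9h29.SP.N1

set_option autoImplicit false

/-!
# The logarithm as a sum over prime powers
-/

namespace Pool.Agent.K9h29.SP

open Complex Finset Pool.Agent.Y771.GL
open scoped ComplexConjugate
open Pool.Agent.W368.SD (ss ss_re)
open Pool.Agent.Y671.GL (cn)

variable {lam : ℕ → ℂ} {P0 : ℕ} {th Cd : ℝ}

theorem wirs {g X : ℕ} {F : ℕ → ℝ} {F' : ℕ → ℕ → ℕ → ℝ} (hF' : ∀ p v b, 0 ≤ F' p v b)
    (h : ∀ p v b : ℕ, p ∈ pr X → 1 ≤ v → b ∈ (Icc 1 X).filter (fun a => a.Coprime g) → ¬ p ∣ b → ¬ p ∣ g →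
      p ^ v * b ≤ X → F (p ^ v * b) ≤ F' p v b) :
    ∑ a ∈ (Icc 1 X).filter (fun a => a.Coprime g), F a * Real.log a ≤
      ∑ p ∈ pr X, ∑ v ∈ Icc 1 X, v * Real.log p *
        ∑ b ∈ (Icc 1 X).filter (fun a => a.Coprime g), F' p v b := by
  obtain ⟨A, hA⟩ : ∃ A : Finset ℕ, A = (Icc 1 X).filter (fun a => a.Coprime g) := ⟨_, rfl⟩
  rw [← hA] at h ⊢
  have e1 : ∀ a ∈ A, F a * Real.log a =
      ∑ p ∈ pr X, ∑ v ∈ Icc 1 X, (if a.factorization p = v then v * Real.log p * F a else 0) := by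
    intro a ha
    rw [hA, mem_filter, mem_Icc] at ha
    have ha0 : a ≠ 0 := by omega
    rw [Real.log_nat_eq_sum_factorization, Finsupp.sum, mul_sum]
    have e2 : ∑ p ∈ a.factorization.support, F a * ((a.factorization p : ℝ) * Real.log p) =
        ∑ p ∈ pr X, F a * ((a.factorization p : ℝ) * Real.log p) := by
      refine sum_subset ?_ fun p _ hp => ?_
      · rw [Nat.support_factorization]
        exact primeFactors_subset (mem_Icc.2 ha.1)
      · rw [Finsupp.mem_support_iff, not_not] at hp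
        rw [hp]
        simp
    rw [e2]
    refine sum_congr rfl fun p hp => ?_
    rw [sum_ite_eq]
    by_cases h0 : a.factorization p = 0
    · rw [h0]
      simp
    · have h1 := fac_lt (p := p) (mem_Icc.2 ha.1)
      rw [if_pos (mem_Icc.2 ⟨by omega, by omega⟩)]
      ring
  rw [sum_congr rfl e1, sum_comm]
  refine sum_le_sum fun p hp => ?_
  rw [sum_comm]
  refine sum_le_sum fun v hv => ?_
  have hpp := (mem_pr.1 hp).2
  rw [mem_Icc] at hv
  rw [← sum_filter, ← mul_sum]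
  have hlp : 0 ≤ Real.log p := Real.log_natCast_nonneg p
  apply mul_le_mul_of_nonneg_left _ (by positivity)
  have hdec : ∀ a ∈ A.filter (fun a => a.factorization p = v), a = p ^ v * (a / p ^ v) ∧ ¬ p ∣ a / p ^ v ∧
      a / p ^ v ∈ A ∧ ¬ p ∣ g ∧ a ≤ X := by
    intro a ha
    rw [mem_filter, hA, mem_filter, mem_Icc] at ha
    have ha0 : a ≠ 0 := by omega
    have h1 : p ^ v ∣ a := by
      rw [← ha.2]
      exact Nat.ordProj_dvd a p
    have h2 : a = p ^ v * (a / p ^ v) := (Nat.mul_div_cancel' h1).symm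
    have h3 : ¬ p ∣ a / p ^ v := by
      rw [← ha.2]
      exact Nat.not_dvd_ordCompl hpp ha0
    have h4 : a / p ^ v ≠ 0 := by
      intro h5
      rw [h5] at h2
      omega
    refine ⟨h2, h3, ?_, ?_, ha.1.1.2⟩
    · rw [hA, mem_filter, mem_Icc]
      refine ⟨⟨Nat.one_le_iff_ne_zero.2 h4, (Nat.div_le_self _ _).trans ha.1.1.2⟩, ?_⟩
      exact Nat.Coprime.coprime_dvd_left (Nat.div_dvd_of_dvd h1) ha.1.2
    · intro h5
      have h6 : p ∣ a := (dvd_pow_self p (by omega)).trans h1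
      have h7 := Nat.dvd_gcd h6 h5
      rw [ha.1.2.gcd_eq_one] at h7
      exact hpp.one_lt.ne' (Nat.dvd_one.1 h7)
  have hinj : Set.InjOn (fun a => a / p ^ v) (A.filter (fun a => a.factorization p = v) : Set ℕ) := by
    intro a ha b hb hab
    have h1 := (hdec a (by simpa using ha)).1
    have h2 := (hdec b (by simpa using hb)).1
    simp only at hab
    rw [h1, h2, hab]
  calc ∑ a ∈ A.filter (fun a => a.factorization p = v), F a ≤
      ∑ a ∈ A.filter (fun a => a.factorization p = v), F' p v (a / p ^ v) := by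
        refine sum_le_sum fun a ha => ?_
        obtain ⟨h1, h2, h3, h4, h5⟩ := hdec a ha
        have h6 := h p v (a / p ^ v) hp hv.1 h3 h2 h4 (by rw [← h1]; exact h5)
        rwa [← h1] at h6
    _ = ∑ b ∈ (A.filter (fun a => a.factorization p = v)).image (fun a => a / p ^ v), F' p v b := by
        rw [sum_image hinj]
    _ ≤ _ := by
        refine sum_le_sum_of_subset_of_nonneg ?_ fun b _ _ => hF' p v b
        intro b hb
        rw [mem_image] at hb
        obtain ⟨a, ha, rfl⟩ := hb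
        exact (hdec a ha).2.2.1

/-- the ratio of values -/
theorem Zs_ratio {α β : ℕ → ℂ} (hα : Mu α) (hβ : Mu β) {X g b p v : ℕ} {κ : ℝ} (hg : g ∈ Icc 1 X) (hb : b ∈ Icc 1 X)
    (hp : p ∈ pr X) (hpb : ¬ p ∣ b) (hpg : ¬ p ∣ g) (hX : p ^ v * b ≤ X)
    (hκ : ‖El α β p 0 v‖ ≤ κ * ‖El α β p 0 0‖) :
    ‖Zs α β X g (p ^ v * b)‖ ≤ κ * ‖Zs α β X g b‖ := by
  have hpp := (mem_pr.1 hp).2
  have hb0 : b ≠ 0 := by rw [mem_Icc] at hb; omega
  have hpv : p ^ v ≠ 0 := pow_ne_zero _ hpp.ne_zero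
  have hab : p ^ v * b ∈ Icc 1 X := by
    rw [mem_Icc]
    exact ⟨Nat.one_le_iff_ne_zero.2 (mul_ne_zero hpv hb0), hX⟩
  have hgp : g.factorization p = 0 := Nat.factorization_eq_zero_of_not_dvd hpg
  have hbp : b.factorization p = 0 := Nat.factorization_eq_zero_of_not_dvd hpb
  rw [Zs_prod hα hβ hg hab, Zs_prod hα hβ hg hb, norm_prod, norm_prod, ← mul_prod_erase _ _ hp,
    ← mul_prod_erase (pr X) (fun p => ‖El α β p (g.factorization p) (b.factorization p)‖) hp, ← mul_assoc]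
  have e1 : (p ^ v * b).factorization p = v := by
    rw [Nat.factorization_mul hpv hb0, Finsupp.add_apply, Nat.Prime.factorization_pow hpp,
      Finsupp.single_eq_same, hbp, add_zero]
  rw [hgp, hbp, e1]
  have e2 : ∏ r ∈ (pr X).erase p, ‖El α β r (g.factorization r) ((p ^ v * b).factorization r)‖ =
      ∏ r ∈ (pr X).erase p, ‖El α β r (g.factorization r) (b.factorization r)‖ := by
    refine prod_congr rfl fun r hr => ?_
    rw [mem_erase] at hr
    rw [Nat.factorization_mul hpv hb0, Finsupp.add_apply, Nat.Prime.factorization_pow hpp,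
      Finsupp.single_eq_of_ne hr.1, zero_add]
  rw [e2]
  exact mul_le_mul_of_nonneg_right hκ (prod_nonneg fun _ _ => norm_nonneg _)

/-- the ratio constants -/
noncomputable def kap (P0 : ℕ) (th Cd : ℝ) (p v : ℕ) : ℝ :=
  if P0 < p then 6 * 3 ^ v else (2 * Cd ^ 2) * ((p : ℝ) ^ th) ^ v

theorem kap_nonneg (P0 : ℕ) (th Cd : ℝ) (p v : ℕ) : 0 ≤ kap P0 th Cd p v := by
  unfold kap
  split_ifs
  · positivity
  · have : 0 ≤ (p : ℝ) ^ th := Real.rpow_nonneg (Nat.cast_nonneg _) _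
    positivity

theorem El_ratio (h : HD lam P0 th Cd) {y q : ℕ} {L τ1 τ2 : ℝ} (hL : 0 < L) {p : ℕ} (hp : p.Prime) (v : ℕ)
    (hv : 1 ≤ v) :
    ‖El (al lam P0 y q L τ2) (be lam P0 y q L τ1) p 0 v‖ ≤
      kap P0 th Cd p v * ‖El (al lam P0 y q L τ2) (be lam P0 y q L τ1) p 0 0‖ := by
  have hb1 : be lam P0 y q L τ1 1 = 1 := (mu_cn h _).one
  unfold al
  rw [El_0 _ _ hp, El_0 _ _ hp, pow_zero, zero_add, pow_one, hb1]
  have hp0 : (0 : ℝ) < p := by exact_mod_cast hp.pos
  unfold kap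
  split_ifs with hP
  · have hpp : (100 : ℝ) ≤ p := by
      have := h.hP
      have : 100 ≤ p := by omega
      exact_mod_cast this
    have hG : ‖tw (g2 lam P0 y q) (ss L τ2) p‖ ≤ 1 := (norm_tw hL hp).trans ((norm_g2 p y q).trans (by
          have := h.two p hp hP
          linarith))
    have h1 := be_big (y := y) (q := q) (τ := τ1) h hL hp hP v hv
    have h2 := be_big (y := y) (q := q) (τ := τ1) h hL hp hP (v + 1) (by omega)
    have h3 := be_big (y := y) (q := q) (τ := τ1) h hL hp hP 1 le_rfl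
    rw [pow_one, pow_one] at h3
    have u1 : ‖be lam P0 y q L τ1 (p ^ v) +
        tw (g2 lam P0 y q) (ss L τ2) p * be lam P0 y q L τ1 (p ^ (v + 1)) / p‖ ≤ 3 * 3 ^ v := by
      refine (norm_add_le _ _).trans ?_
      rw [norm_div, norm_mul, Complex.norm_natCast]
      have h7 : ‖tw (g2 lam P0 y q) (ss L τ2) p‖ * ‖be lam P0 y q L τ1 (p ^ (v + 1))‖ / p ≤
          1 * (2 * 3 ^ (v + 1)) / 100 := by gcongr
      have h8 : (0 : ℝ) < 3 ^ v := by positivity
      have h10 : (3 : ℝ) ^ (v + 1) = 3 * 3 ^ v := by rw [pow_succ]; ring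
      rw [h10] at h7
      linarith
    have u2 : 1 / 2 ≤ ‖1 + tw (g2 lam P0 y q) (ss L τ2) p * be lam P0 y q L τ1 p / p‖ := by
      have h7 : ‖tw (g2 lam P0 y q) (ss L τ2) p * be lam P0 y q L τ1 p / p‖ ≤ 1 * (2 * 3) / 100 := by
        rw [norm_div, norm_mul, Complex.norm_natCast]
        gcongr
      have h8 := norm_sub_le (1 + tw (g2 lam P0 y q) (ss L τ2) p * be lam P0 y q L τ1 p / p)
        (tw (g2 lam P0 y q) (ss L τ2) p * be lam P0 y q L τ1 p / p)
      rw [add_sub_cancel_right, norm_one] at h8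
      linarith
    have h9 : (0 : ℝ) < 3 ^ v := by positivity
    calc _ ≤ 3 * 3 ^ v := u1
      _ = 6 * 3 ^ v * (1 / 2) := by ring
      _ ≤ _ := by gcongr
  · have e : tw (g2 lam P0 y q) (ss L τ2) p = 0 := by
      unfold tw g2
      rw [if_neg (fun h => hP h.1), zero_mul]
    rw [e]
    simp only [zero_mul, zero_div, add_zero, norm_one, mul_one]
    exact be_small h hL hp v

end Pool.Agent.K9h29.SP
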